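import Mathlib

/-! Unnormalised entropy, the deficiency `D`, and its behaviour under splits of the measure. -/

namespace Pool.Agent.Lib.MP_abd417_co.Up.Ent

open Finset Real

variable {F U : Type*} [Fintype F] [Fintype U] [DecidableEq U]

/-- unnormalised entropy: mass times the Shannon entropy of the normalised law -/
noncomputable def H (mu : F → ℝ) : ℝ := ∑ x, negMulLog (mu x) - negMulLog (∑ x, mu x)

/-- image measure -/
noncomputable def push (u : F → U) (mu : F → ℝ) : U → ℝ :=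
  fun a => ∑ x, if u x = a then mu x else 0

/-- deficiency of the pair `u, v` -/
noncomputable def D (u v : F → U) (mu : F → ℝ) : ℝ :=
  2 / 3 * (H (push u mu) + H (push v mu)) - H mu

/-- the two-point defect -/
noncomputable def gg (a b : ℝ) : ℝ := negMulLog a + negMulLog b - negMulLog (a + b)

theorem push_nonneg (u : F → U) {mu : F → ℝ} (h : ∀ x, 0 ≤ mu x) (a : U) : 0 ≤ push u mu a :=
  Finset.sum_nonneg fun x _ => by split_ifs <;> simp [h x]

theorem sum_push_mul (u : F → U) (mu : F → ℝ) (c : U → ℝ) :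
    ∑ a, push u mu a * c a = ∑ x, mu x * c (u x) := by
  unfold push
  simp_rw [Finset.sum_mul]
  rw [Finset.sum_comm]
  refine Finset.sum_congr rfl fun x _ => ?_
  simp [ite_mul]

theorem sum_push (u : F → U) (mu : F → ℝ) : ∑ a, push u mu a = ∑ x, mu x := by
  simpa using sum_push_mul u mu fun _ => 1

theorem push_add (u : F → U) (m1 m2 : F → ℝ) (a : U) :
    push u (fun x => m1 x + m2 x) a = push u m1 a + push u m2 a := by
  unfold push
  rw [← Finset.sum_add_distrib]
  refine Finset.sum_congr rfl fun x _ => ?_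
  split_ifs <;> simp

theorem push_mono (u : F → U) {m1 m2 : F → ℝ} (h : ∀ x, m1 x ≤ m2 x) (a : U) :
    push u m1 a ≤ push u m2 a :=
  Finset.sum_le_sum fun x _ => by split_ifs <;> simp [h x]

theorem push_smul (u : F → U) (c : ℝ) (m : F → ℝ) (a : U) :
    push u (fun x => c * m x) a = c * push u m a := by
  unfold push
  rw [Finset.mul_sum]
  refine Finset.sum_congr rfl fun x _ => ?_
  split_ifs <;> simp

theorem H_split (m1 m2 : F → ℝ) :
    H (fun x => m1 x + m2 x) - H m1 - H m2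
      = gg (∑ x, m1 x) (∑ x, m2 x) - ∑ x, gg (m1 x) (m2 x) := by
  unfold H gg
  simp only [Finset.sum_add_distrib, Finset.sum_sub_distrib]
  ring

/-- Gibbs bound for the two-point defect -/
theorem gg_le {a b p q : ℝ} (ha : 0 ≤ a) (hb : 0 ≤ b) (hp : 0 < p) (hq : 0 < q)
    (hpq : p + q ≤ 1) : gg a b ≤ -(a * log p) - b * log q := by
  have key : ∀ c r s : ℝ, 0 ≤ c → 0 < r → c ≤ s →
      negMulLog c + c * log s + c * log r ≤ r * s - c := by
    intro c r s hc hr hcs
    rcases hc.eq_or_lt with h | h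
    · subst h; simp; positivity
    · have hs : 0 < s := lt_of_lt_of_le h hcs
      have h1 := Real.log_le_sub_one_of_pos (show 0 < r * s / c by positivity)
      rw [Real.log_div (by positivity) h.ne', Real.log_mul hr.ne' hs.ne'] at h1
      have h2 := mul_le_mul_of_nonneg_left h1 h.le
      have h3 : c * (r * s / c - 1) = r * s - c := by field_simp
      rw [h3] at h2
      unfold negMulLog
      nlinarith
  have k1 := key a p (a + b) ha hp (by linarith)
  have k2 := key b q (a + b) hb hq (by linarith)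
  have k3 : (p + q) * (a + b) ≤ 1 * (a + b) :=
    mul_le_mul_of_nonneg_right hpq (by linarith)
  unfold gg
  have k4 : negMulLog (a + b) = -((a + b) * log (a + b)) := by unfold negMulLog; ring
  rw [k4]
  nlinarith

theorem gg_nonneg {a b : ℝ} (ha : 0 ≤ a) (hb : 0 ≤ b) : 0 ≤ gg a b := by
  have key : ∀ c s : ℝ, 0 ≤ c → c ≤ s → c * log c ≤ c * log s := by
    intro c s hc hcs
    rcases hc.eq_or_lt with h | h
    · subst h; simp
    · exact mul_le_mul_of_nonneg_left (Real.log_le_log h hcs) hc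
  have k1 := key a (a + b) ha (by linarith)
  have k2 := key b (a + b) hb (by linarith)
  unfold gg negMulLog
  nlinarith

theorem gg_le_log_two {a b : ℝ} (ha : 0 ≤ a) (hb : 0 ≤ b) : gg a b ≤ (a + b) * log 2 := by
  have h := gg_le ha hb (show (0 : ℝ) < 2⁻¹ by norm_num) (show (0 : ℝ) < 2⁻¹ by norm_num)
    (by norm_num)
  rw [Real.log_inv] at h
  linarith

theorem sum_gg_le {m1 m2 : F → ℝ} (h1 : ∀ x, 0 ≤ m1 x) (h2 : ∀ x, 0 ≤ m2 x) :
    ∑ x, gg (m1 x) (m2 x) ≤ gg (∑ x, m1 x) (∑ x, m2 x) := by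
  have hA : 0 ≤ ∑ x, m1 x := Finset.sum_nonneg fun x _ => h1 x
  have hB : 0 ≤ ∑ x, m2 x := Finset.sum_nonneg fun x _ => h2 x
  rcases hA.eq_or_lt with hA0 | hA0
  · have z : ∀ x, m1 x = 0 := fun x =>
      (Finset.sum_eq_zero_iff_of_nonneg fun x _ => h1 x).1 hA0.symm x (Finset.mem_univ x)
    simp [gg, z]
  rcases hB.eq_or_lt with hB0 | hB0
  · have z : ∀ x, m2 x = 0 := fun x =>
      (Finset.sum_eq_zero_iff_of_nonneg fun x _ => h2 x).1 hB0.symm x (Finset.mem_univ x)
    simp [gg, z]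
  set A := ∑ x, m1 x with hAd
  set B := ∑ x, m2 x with hBd
  have hs : 0 < A + B := by linarith
  have h := Finset.sum_le_sum fun x (_ : x ∈ (Finset.univ : Finset F)) =>
    gg_le (h1 x) (h2 x) (show 0 < A / (A + B) by positivity) (show 0 < B / (A + B) by positivity)
      (by rw [← add_div, div_self hs.ne'])
  refine h.trans (le_of_eq ?_)
  rw [Finset.sum_sub_distrib, Finset.sum_neg_distrib, ← Finset.sum_mul, ← Finset.sum_mul,
    ← hAd, ← hBd, Real.log_div hA0.ne' hs.ne', Real.log_div hB0.ne' hs.ne']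
  unfold gg negMulLog
  ring

theorem H_superadd {m1 m2 : F → ℝ} (h1 : ∀ x, 0 ≤ m1 x) (h2 : ∀ x, 0 ≤ m2 x) :
    H m1 + H m2 ≤ H (fun x => m1 x + m2 x) := by
  have := H_split m1 m2
  have := sum_gg_le h1 h2
  linarith

theorem H_subadd {m1 m2 : F → ℝ} (h1 : ∀ x, 0 ≤ m1 x) (h2 : ∀ x, 0 ≤ m2 x) :
    H (fun x => m1 x + m2 x) ≤ H m1 + H m2 + gg (∑ x, m1 x) (∑ x, m2 x) := by
  have := H_split m1 m2
  have : 0 ≤ ∑ x, gg (m1 x) (m2 x) := Finset.sum_nonneg fun x _ => gg_nonneg (h1 x) (h2 x)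
  linarith

/-- exact change of the deficiency under a split -/
theorem D_split_eq (u v : F → U) (m1 m2 : F → ℝ) :
    D u v (fun x => m1 x + m2 x) - D u v m1 - D u v m2
      = 1 / 3 * gg (∑ x, m1 x) (∑ x, m2 x) + ∑ x, gg (m1 x) (m2 x)
        - 2 / 3 * (∑ a, gg (push u m1 a) (push u m2 a) + ∑ a, gg (push v m1 a) (push v m2 a)) := by
  have e0 := H_split m1 m2
  have e1 := H_split (push u m1) (push u m2)
  have e2 := H_split (push v m1) (push v m2)
  have p1 : push u (fun x => m1 x + m2 x) = fun a => push u m1 a + push u m2 a :=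
    funext (push_add u m1 m2)
  have p2 : push v (fun x => m1 x + m2 x) = fun a => push v m1 a + push v m2 a :=
    funext (push_add v m1 m2)
  rw [sum_push, sum_push] at e1 e2
  unfold D
  rw [p1, p2]
  linarith

/-- (a) a split raises the deficiency by at most `log 2` times the mass -/
theorem D_split (u v : F → U) {m1 m2 : F → ℝ} (h1 : ∀ x, 0 ≤ m1 x) (h2 : ∀ x, 0 ≤ m2 x) :
    D u v m1 + D u v m2
      ≤ D u v (fun x => m1 x + m2 x) + (∑ x, (m1 x + m2 x)) * log 2 := by
  have e := D_split_eq u v m1 m2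
  have e1 := sum_gg_le (push_nonneg u h1) (push_nonneg u h2)
  have e2 := sum_gg_le (push_nonneg v h1) (push_nonneg v h2)
  rw [sum_push, sum_push] at e1 e2
  have e3 : 0 ≤ ∑ x, gg (m1 x) (m2 x) := Finset.sum_nonneg fun x _ => gg_nonneg (h1 x) (h2 x)
  have e4 := gg_le_log_two (Finset.sum_nonneg fun x (_ : x ∈ Finset.univ) => h1 x)
    (Finset.sum_nonneg fun x (_ : x ∈ Finset.univ) => h2 x)
  rw [Finset.sum_add_distrib]
  linarith

theorem quad_est {x : ℝ} (hx : |x| ≤ 1 / 2) :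
    |((1 + x) * log (1 + x) + (1 - x) * log (1 - x)) / 2 - x ^ 2 / 2| ≤ 3 * x ^ 4 := by
  have key : ∀ y : ℝ, |y| ≤ 1 / 2 →
      |y + y ^ 2 / 2 + y ^ 3 / 3 + log (1 - y)| ≤ 2 * y ^ 4 := by
    intro y hy
    have h := Real.abs_log_sub_add_sum_range_le (x := y) (by linarith) 3
    simp only [Finset.sum_range_succ, Finset.sum_range_zero] at h
    have e : (0 : ℝ) + y ^ (0 + 1) / ((0 : ℕ) + 1) + y ^ (1 + 1) / ((1 : ℕ) + 1)
        + y ^ (2 + 1) / ((2 : ℕ) + 1) = y + y ^ 2 / 2 + y ^ 3 / 3 := by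
      push_cast; ring
    rw [e] at h
    refine h.trans ?_
    have h4 : |y| ^ (3 + 1) = y ^ 4 := by
      rw [show 3 + 1 = 2 * 2 by norm_num, pow_mul, sq_abs]; ring
    rw [h4, div_le_iff₀ (by linarith)]
    have : 0 ≤ y ^ 4 := by positivity
    nlinarith
  have k1 := abs_le.1 (key x hx)
  have k2 := abs_le.1 (key (-x) (by rwa [abs_neg]))
  have hx' := abs_le.1 hx
  rw [sub_neg_eq_add] at k2
  have a1 : 0 ≤ 1 + x := by linarith [hx'.1]
  have a2 : 0 ≤ 1 - x := by linarith [hx'.2]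
  have b1 := mul_le_mul_of_nonneg_left k1.1 a2
  have b2 := mul_le_mul_of_nonneg_left k1.2 a2
  have b3 := mul_le_mul_of_nonneg_left k2.1 a1
  have b4 := mul_le_mul_of_nonneg_left k2.2 a1
  have : 0 ≤ x ^ 4 := by positivity
  rw [abs_le]
  constructor <;> nlinarith

theorem gg_quad {t x : ℝ} (ht : 0 ≤ t) (hx : |x| ≤ 1 / 2) :
    |gg (t * ((1 + x) / 2)) (t * ((1 - x) / 2)) - t * log 2 + t * (x ^ 2 / 2)|
      ≤ t * (3 * x ^ 4) := by
  have hx' := abs_le.1 hx
  have a1 : 0 < 1 + x := by linarith [hx'.1]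
  have a2 : 0 < 1 - x := by linarith [hx'.2]
  have e : gg (t * ((1 + x) / 2)) (t * ((1 - x) / 2)) - t * log 2 + t * (x ^ 2 / 2)
      = -(t * (((1 + x) * log (1 + x) + (1 - x) * log (1 - x)) / 2 - x ^ 2 / 2)) := by
    rcases ht.eq_or_lt with h | h
    · subst h; simp [gg]
    · unfold gg negMulLog
      rw [show t * ((1 + x) / 2) + t * ((1 - x) / 2) = t by ring,
        Real.log_mul h.ne' (by positivity), Real.log_mul h.ne' (by positivity),
        Real.log_div a1.ne' two_ne_zero, Real.log_div a2.ne' two_ne_zero]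
      ring
  rw [e, abs_neg, abs_mul, abs_of_nonneg ht]
  exact mul_le_mul_of_nonneg_left (quad_est hx) ht

/-- upper bound of the defect of the image measures, with a free test value `c` -/
theorem gg_quad_le {t r d : ℝ} (c : ℝ) (ht : 0 ≤ t) (hd : d ≤ 1 / 2) (hr : |r| ≤ d * t) :
    gg ((t + r) / 2) ((t - r) / 2)
      ≤ t * log 2 - (2 * (r * c) - t * c ^ 2) / 2 + t * (3 * d ^ 4) := by
  rcases ht.eq_or_lt with h | h
  · subst h
    have : r = 0 := by simpa using hr
    subst this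
    simp [gg]
  · have hx : |r / t| ≤ d := by
      rw [abs_div, abs_of_pos h, div_le_iff₀ h]; exact hr
    have k := (abs_le.1 (gg_quad ht (hx.trans hd))).2
    have e1 : t * ((1 + r / t) / 2) = (t + r) / 2 := by field_simp
    have e2 : t * ((1 - r / t) / 2) = (t - r) / 2 := by field_simp
    rw [e1, e2] at k
    have h4 : (r / t) ^ 4 ≤ d ^ 4 := by
      have : (r / t) ^ 4 = |r / t| ^ 4 := by
        rw [show 4 = 2 * 2 by norm_num, pow_mul, pow_mul, sq_abs]
      rw [this]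
      exact pow_le_pow_left₀ (abs_nonneg _) hx 4
    have h5 : t * (3 * (r / t) ^ 4) ≤ t * (3 * d ^ 4) :=
      mul_le_mul_of_nonneg_left (by linarith) ht
    have h6 : 2 * (r * c) - t * c ^ 2 ≤ t * (r / t) ^ 2 := by
      have e3 : r = t * (r / t) := by field_simp
      have : 0 ≤ t * (r / t - c) ^ 2 := by positivity
      generalize r / t = y at *
      subst e3
      nlinarith
    linarith

theorem push_quad (u : F → U) {mu x : F → ℝ} {d : ℝ} (c : U → ℝ) (hmu : ∀ g, 0 ≤ mu g)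
    (hd : d ≤ 1 / 2) (hx : ∀ g, |x g| ≤ d) :
    ∑ a, gg (push u (fun g => mu g * ((1 + x g) / 2)) a)
        (push u (fun g => mu g * ((1 - x g) / 2)) a)
      ≤ (∑ g, mu g) * log 2 - (∑ g, mu g * (2 * (x g * c (u g)) - c (u g) ^ 2)) / 2
        + (∑ g, mu g) * (3 * d ^ 4) := by
  have e1 : ∀ a, push u (fun g => mu g * ((1 + x g) / 2)) a
      = (push u mu a + push u (fun g => mu g * x g) a) / 2 := by
    intro a
    unfold push
    rw [← Finset.sum_add_distrib, Finset.sum_div]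
    refine Finset.sum_congr rfl fun g _ => ?_
    split_ifs
    · ring
    · simp
  have e2 : ∀ a, push u (fun g => mu g * ((1 - x g) / 2)) a
      = (push u mu a - push u (fun g => mu g * x g) a) / 2 := by
    intro a
    unfold push
    rw [← Finset.sum_sub_distrib, Finset.sum_div]
    refine Finset.sum_congr rfl fun g _ => ?_
    split_ifs
    · ring
    · simp
  have e3 : ∀ a, |push u (fun g => mu g * x g) a| ≤ d * push u mu a := by
    intro a
    unfold push
    rw [Finset.mul_sum]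
    refine (Finset.abs_sum_le_sum_abs _ _).trans (Finset.sum_le_sum fun g _ => ?_)
    split_ifs
    · rw [abs_mul, abs_of_nonneg (hmu g), mul_comm]
      exact mul_le_mul_of_nonneg_right (hx g) (hmu g)
    · simp
  have h := Finset.sum_le_sum fun a (_ : a ∈ (Finset.univ : Finset U)) =>
    gg_quad_le (c a) (push_nonneg u hmu a) hd (e3 a)
  simp_rw [e1, e2]
  refine h.trans (le_of_eq ?_)
  have s1 := sum_push u mu
  have s2 := sum_push_mul u (fun g => mu g * x g) c
  have s3 := sum_push_mul u mu fun a => c a ^ 2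
  have s4 : ∑ g, mu g * (2 * (x g * c (u g)) - c (u g) ^ 2)
      = 2 * ∑ g, mu g * x g * c (u g) - ∑ g, mu g * c (u g) ^ 2 := by
    rw [Finset.mul_sum, ← Finset.sum_sub_distrib]
    exact Finset.sum_congr rfl fun g _ => by ring
  rw [s4, ← s2, ← s3, ← s1]
  simp only [Finset.sum_add_distrib, Finset.sum_sub_distrib, ← Finset.sum_div, ← Finset.sum_mul,
    ← Finset.mul_sum]

/-- (b) the quadratic step, core form -/
theorem l2_core (u v : F → U) {mu : F → ℝ} (a b : U → ℝ) {d : ℝ} (hmu : ∀ g, 0 ≤ mu g)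
    (hd : d ≤ 1 / 2) (hx : ∀ g, |a (u g) + b (v g)| ≤ d)
    (h0 : ∑ g, mu g * (a (u g) + b (v g)) = 0) :
    D u v (fun g => mu g * ((1 + (a (u g) + b (v g))) / 2))
      + D u v (fun g => mu g * ((1 - (a (u g) + b (v g))) / 2))
      + ∑ g, mu g * (a (u g) * b (v g) - (a (u g) ^ 2 + b (v g) ^ 2) / 4)
      ≤ D u v mu + 7 * d ^ 4 * ∑ g, mu g := by
  set x : F → ℝ := fun g => a (u g) + b (v g) with hxd
  have e := D_split_eq u v (fun g => mu g * ((1 + x g) / 2)) (fun g => mu g * ((1 - x g) / 2))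
  have e0 : (fun g => mu g * ((1 + x g) / 2) + mu g * ((1 - x g) / 2)) = mu := by
    funext g; ring
  rw [e0] at e
  have p1 := push_quad u (x := x) (fun s => 3 / 2 * a s) hmu hd hx
  have p2 := push_quad v (x := x) (fun s => 3 / 2 * b s) hmu hd hx
  have hm : 0 ≤ ∑ g, mu g := Finset.sum_nonneg fun g _ => hmu g
  have m1 : ∑ g, mu g * ((1 + x g) / 2) = (∑ g, mu g) * ((1 + 0) / 2) := by
    have : ∑ g, mu g * ((1 + x g) / 2) = (∑ g, mu g + ∑ g, mu g * x g) / 2 := by
      rw [← Finset.sum_add_distrib, Finset.sum_div]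
      exact Finset.sum_congr rfl fun g _ => by ring
    rw [this, h0]; ring
  have m2 : ∑ g, mu g * ((1 - x g) / 2) = (∑ g, mu g) * ((1 - 0) / 2) := by
    have : ∑ g, mu g * ((1 - x g) / 2) = (∑ g, mu g - ∑ g, mu g * x g) / 2 := by
      rw [← Finset.sum_sub_distrib, Finset.sum_div]
      exact Finset.sum_congr rfl fun g _ => by ring
    rw [this, h0]; ring
  have q0 := (abs_le.1 (gg_quad (x := 0) hm (by norm_num))).1
  rw [← m1, ← m2] at q0
  have q1 : ∑ g, (mu g * log 2 - mu g * (x g ^ 2 / 2) - mu g * (3 * d ^ 4))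
      ≤ ∑ g, gg (mu g * ((1 + x g) / 2)) (mu g * ((1 - x g) / 2)) := by
    refine Finset.sum_le_sum fun g _ => ?_
    have k := (abs_le.1 (gg_quad (hmu g) ((hx g).trans hd))).1
    have h4 : x g ^ 4 ≤ d ^ 4 := by
      have : x g ^ 4 = |x g| ^ 4 := by
        rw [show 4 = 2 * 2 by norm_num, pow_mul, pow_mul, sq_abs]
      rw [this]
      exact pow_le_pow_left₀ (abs_nonneg _) (hx g) 4
    have h5 : mu g * (3 * x g ^ 4) ≤ mu g * (3 * d ^ 4) :=
      mul_le_mul_of_nonneg_left (by linarith) (hmu g)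
    linarith
  rw [Finset.sum_sub_distrib, Finset.sum_sub_distrib, ← Finset.sum_mul, ← Finset.sum_mul] at q1
  have fin : ∑ g, mu g * (a (u g) * b (v g) - (a (u g) ^ 2 + b (v g) ^ 2) / 4)
      = 1 / 3 * (∑ g, mu g * (2 * (x g * (3 / 2 * a (u g))) - (3 / 2 * a (u g)) ^ 2)
        + ∑ g, mu g * (2 * (x g * (3 / 2 * b (v g))) - (3 / 2 * b (v g)) ^ 2))
        - ∑ g, mu g * (x g ^ 2 / 2) := by
    rw [← Finset.sum_add_distrib, Finset.mul_sum, ← Finset.sum_sub_distrib]
    refine Finset.sum_congr rfl fun g _ => ?_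
    simp only [hxd]; ring
  rw [fin]
  simp only [hxd] at *
  nlinarith

/-- unnormalised `Cov - (Var + Var) / 4` of two functions on the frames -/
noncomputable def Vn (mu A B : F → ℝ) : ℝ :=
  (∑ g, mu g * (A g * B g) - (∑ g, mu g * A g) * (∑ g, mu g * B g) / ∑ g, mu g)
    - ((∑ g, mu g * A g ^ 2 - (∑ g, mu g * A g) ^ 2 / ∑ g, mu g)
      + (∑ g, mu g * B g ^ 2 - (∑ g, mu g * B g) ^ 2 / ∑ g, mu g)) / 4

/-- (b) the quadratic step for test functions bounded by one -/
theorem l2_step (u v : F → U) {mu : F → ℝ} (X Y : U → ℝ) {eps : ℝ} (hmu : ∀ g, 0 ≤ mu g)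
    (hX : ∀ g, |X (u g)| ≤ 1) (hY : ∀ g, |Y (v g)| ≤ 1) (he0 : 0 ≤ eps) (he : eps ≤ 1 / 16) :
    ∃ phi : F → ℝ, (∀ g, 1 / 4 ≤ phi g ∧ phi g ≤ 3 / 4) ∧
      ∑ g, mu g * phi g = (∑ g, mu g) / 2 ∧
      D u v (fun g => mu g * phi g) + D u v (fun g => mu g * (1 - phi g))
        + 4 * eps ^ 2 * Vn mu (fun g => X (u g)) (fun g => Y (v g))
        ≤ D u v mu + 28672 * eps ^ 4 * ∑ g, mu g := by
  have hm : 0 ≤ ∑ g, mu g := Finset.sum_nonneg fun g _ => hmu g
  set m := ∑ g, mu g with hmd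
  set sX := ∑ g, mu g * X (u g) with hsX
  set sY := ∑ g, mu g * Y (v g) with hsY
  have bd : ∀ Z : F → ℝ, (∀ g, |Z g| ≤ 1) → |∑ g, mu g * Z g| ≤ m := by
    intro Z hZ
    refine (Finset.abs_sum_le_sum_abs _ _).trans (Finset.sum_le_sum fun g _ => ?_)
    rw [abs_mul, abs_of_nonneg (hmu g)]
    exact mul_le_of_le_one_right (hmu g) (hZ g)
  have bX : |sX| ≤ m := bd _ hX
  have bY : |sY| ≤ m := bd _ hY
  have dv : ∀ s : ℝ, |s| ≤ m → |s / m| ≤ 1 ∧ m * (s / m) = s := by
    intro s hs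
    rcases hm.eq_or_lt with h | h
    · have : s = 0 := by rw [← h] at hs; simpa using hs
      subst this; simp
    · refine ⟨?_, by field_simp⟩
      rw [abs_div, abs_of_pos h, div_le_one h]; exact hs
  obtain ⟨cX1, cX2⟩ := dv sX bX
  obtain ⟨cY1, cY2⟩ := dv sY bY
  have vn : Vn mu (fun g => X (u g)) (fun g => Y (v g))
      = (∑ g, mu g * (X (u g) * Y (v g)) - sX * (sY / m))
        - ((∑ g, mu g * X (u g) ^ 2 - sX * (sX / m))
          + (∑ g, mu g * Y (v g) ^ 2 - sY * (sY / m))) / 4 := by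
    unfold Vn
    simp only [← hmd, ← hsX, ← hsY]
    ring
  generalize sX / m = cX at *
  generalize sY / m = cY at *
  have hx : ∀ g, |2 * eps * (X (u g) - cX) + 2 * eps * (Y (v g) - cY)| ≤ 8 * eps := by
    intro g
    have a1 := abs_le.1 (hX g)
    have a2 := abs_le.1 (hY g)
    have a3 := abs_le.1 cX1
    have a4 := abs_le.1 cY1
    rw [abs_le]
    constructor <;> nlinarith
  have h0 : ∑ g, mu g * (2 * eps * (X (u g) - cX) + 2 * eps * (Y (v g) - cY)) = 0 := by
    have : ∑ g, mu g * (2 * eps * (X (u g) - cX) + 2 * eps * (Y (v g) - cY))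
        = 2 * eps * (sX - m * cX + (sY - m * cY)) := by
      rw [hsX, hsY, hmd, Finset.sum_mul, Finset.sum_mul, ← Finset.sum_sub_distrib,
        ← Finset.sum_sub_distrib, ← Finset.sum_add_distrib, Finset.mul_sum]
      exact Finset.sum_congr rfl fun g _ => by ring
    rw [this, cX2, cY2]; ring
  have core := l2_core u v (fun s => 2 * eps * (X s - cX)) (fun s => 2 * eps * (Y s - cY))
    hmu (show 8 * eps ≤ 1 / 2 by linarith) hx h0
  refine ⟨fun g => (1 + (2 * eps * (X (u g) - cX) + 2 * eps * (Y (v g) - cY))) / 2, ?_, ?_, ?_⟩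
  · intro g
    have := abs_le.1 (hx g)
    constructor <;> linarith [this.1, this.2]
  · have : ∑ g, mu g * ((1 + (2 * eps * (X (u g) - cX) + 2 * eps * (Y (v g) - cY))) / 2)
        = (∑ g, mu g
          + ∑ g, mu g * (2 * eps * (X (u g) - cX) + 2 * eps * (Y (v g) - cY))) / 2 := by
      rw [← Finset.sum_add_distrib, Finset.sum_div]
      exact Finset.sum_congr rfl fun g _ => by ring
    rw [this, h0]; ring
  · have e1 : (fun g => mu g *
        (1 - (1 + (2 * eps * (X (u g) - cX) + 2 * eps * (Y (v g) - cY))) / 2))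
        = fun g => mu g * ((1 - (2 * eps * (X (u g) - cX) + 2 * eps * (Y (v g) - cY))) / 2) := by
      funext g; ring
    have e2 : ∑ g, mu g * (2 * eps * (X (u g) - cX) * (2 * eps * (Y (v g) - cY))
        - ((2 * eps * (X (u g) - cX)) ^ 2 + (2 * eps * (Y (v g) - cY)) ^ 2) / 4)
        = 4 * eps ^ 2 * ((∑ g, mu g * (X (u g) * Y (v g)) - cY * sX - cX * sY + cX * cY * m)
          - ((∑ g, mu g * X (u g) ^ 2 - 2 * cX * sX + cX ^ 2 * m)
            + (∑ g, mu g * Y (v g) ^ 2 - 2 * cY * sY + cY ^ 2 * m)) / 4) := by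
      rw [hsX, hsY, hmd]
      simp only [Finset.mul_sum, ← Finset.sum_sub_distrib, ← Finset.sum_add_distrib,
        Finset.sum_div]
      exact Finset.sum_congr rfl fun g _ => by ring
    rw [e1, vn]
    rw [e2] at core
    have e3 : 7 * (8 * eps) ^ 4 * m = 28672 * eps ^ 4 * m := by ring
    rw [← hmd, e3] at core
    refine le_trans (le_of_eq ?_) core
    rw [← cX2, ← cY2]
    ring

/-- (b) in gain form: `Vn ≥ ga * mass` gives a split with gain `ga ^ 2 / 8192` per unit mass -/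
theorem l2_gain (u v : F → U) {mu : F → ℝ} (X Y : U → ℝ) {ga : ℝ} (hmu : 0 ≤ mu)
    (hX : ∀ g, |X (u g)| ≤ 1) (hY : ∀ g, |Y (v g)| ≤ 1) (h0 : 0 ≤ ga) (h1 : ga ≤ 64)
    (hV : ga * ∑ g, mu g ≤ Vn mu (fun g => X (u g)) (fun g => Y (v g))) :
    ∃ m1 m2 : F → ℝ, 0 ≤ m1 ∧ 0 ≤ m2 ∧ m1 + m2 = mu ∧
      D u v m1 + D u v m2 + ga ^ 2 / 8192 * ∑ g, mu g ≤ D u v mu := by
  have hs : √ga ≤ 8 := by
    rw [Real.sqrt_le_iff]; constructor <;> linarith
  have hq : (√ga / 128) ^ 2 = ga / 16384 := by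
    rw [div_pow, Real.sq_sqrt h0]; norm_num
  obtain ⟨phi, p1, -, p3⟩ := l2_step u v X Y (eps := √ga / 128) hmu hX hY (by positivity)
    (by linarith)
  have hm : 0 ≤ ∑ g, mu g := Finset.sum_nonneg fun g _ => hmu g
  refine ⟨fun g => mu g * phi g, fun g => mu g * (1 - phi g), fun g => ?_, fun g => ?_, ?_, ?_⟩
  · exact mul_nonneg (hmu g) (by linarith [(p1 g).1])
  · exact mul_nonneg (hmu g) (by linarith [(p1 g).2])
  · funext g; simp only [Pi.add_apply]; ring
  · rw [show (√ga / 128) ^ 4 = ((√ga / 128) ^ 2) ^ 2 by ring, hq] at p3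
    have k1 := mul_le_mul_of_nonneg_left hV (show 0 ≤ 4 * (ga / 16384) by positivity)
    have k2 : 0 ≤ ga ^ 2 * ∑ g, mu g := by positivity
    nlinarith

/-- (a) in the form used by the engine -/
theorem D_split_mass (u v : F → U) {m1 m2 : F → ℝ} (h1 : 0 ≤ m1) (h2 : 0 ≤ m2) :
    D u v m1 + D u v m2 ≤ D u v (m1 + m2) + ∑ g, (m1 + m2) g := by
  have h := D_split u v h1 h2
  have hm : 0 ≤ ∑ x, (m1 x + m2 x) := Finset.sum_nonneg fun g _ => add_nonneg (h1 g) (h2 g)
  have l2 : log 2 ≤ 1 := by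
    have := Real.log_le_sub_one_of_pos (show (0 : ℝ) < 2 by norm_num)
    linarith
  have := mul_le_of_le_one_right hm l2
  exact h.trans (add_le_add le_rfl this)

end Pool.Agent.Lib.MP_abd417_co.Up.Ent
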