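import Mathlib

/-! Variance potential of unnormalised measures and persistence of tests. -/

namespace Pool.Agent.Lib.MP_abd417_co.Up.Var

open Finset

variable {F U K : Type*} [Fintype F]

/-- integral of `f` against the weights `μ` -/
def ex (μ f : F → ℝ) : ℝ := ∑ g, μ g * f g

/-- mass times covariance -/
noncomputable def Cv (μ f h : F → ℝ) : ℝ :=
  ex μ (fun g => f g * h g) - ex μ f * ex μ h / ∑ g, μ g

/-- mass times variance -/
noncomputable def Vr (μ f : F → ℝ) : ℝ := Cv μ f f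

/-- mass times `Cov - (Var + Var) / 4` -/
noncomputable def Vn (μ X Y : F → ℝ) : ℝ := Cv μ X Y - (Vr μ X + Vr μ Y) / 4

/-- mean -/
noncomputable def mn (μ f : F → ℝ) : ℝ := ex μ f / ∑ g, μ g

variable {μ f h : F → ℝ}

theorem zero_of_mass (hμ : ∀ g, 0 ≤ μ g) (h0 : ∑ g, μ g = 0) (g : F) : μ g = 0 :=
  (sum_eq_zero_iff_of_nonneg fun g _ => hμ g).mp h0 g (mem_univ g)

theorem ex_of_mass (hμ : ∀ g, 0 ≤ μ g) (h0 : ∑ g, μ g = 0) (f : F → ℝ) : ex μ f = 0 :=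
  sum_eq_zero fun g _ => by rw [zero_of_mass hμ h0 g, zero_mul]

theorem ex_mono (hμ : ∀ g, 0 ≤ μ g) (hf : ∀ g, μ g ≠ 0 → f g ≤ h g) : ex μ f ≤ ex μ h := by
  refine sum_le_sum fun g _ => ?_
  by_cases h0 : μ g = 0
  · simp [h0]
  · exact mul_le_mul_of_nonneg_left (hf g h0) (hμ g)

theorem ex_add (μ f h : F → ℝ) : ex μ (fun g => f g + h g) = ex μ f + ex μ h := by
  simp only [ex, mul_add, sum_add_distrib]

theorem ex_sub (μ f h : F → ℝ) : ex μ (fun g => f g - h g) = ex μ f - ex μ h := by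
  simp only [ex, mul_sub, sum_sub_distrib]

theorem ex_smul (μ f : F → ℝ) (c : ℝ) : ex μ (fun g => c * f g) = c * ex μ f := by
  simp only [ex, mul_sum]
  exact sum_congr rfl fun g _ => by ring

theorem ex_const (μ : F → ℝ) (c : ℝ) : ex μ (fun _ => c) = c * ∑ g, μ g := by
  simp only [ex, mul_sum]
  exact sum_congr rfl fun g _ => by ring

theorem mn_mul (hμ : ∀ g, 0 ≤ μ g) (f : F → ℝ) : mn μ f * ∑ g, μ g = ex μ f := by
  by_cases h0 : ∑ g, μ g = 0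
  · rw [h0, ex_of_mass hμ h0, mul_zero]
  · exact div_mul_cancel₀ _ h0

theorem ex_sq_sub (hμ : ∀ g, 0 ≤ μ g) (f : F → ℝ) (c : ℝ) :
    ex μ (fun g => (f g - c) ^ 2) = Vr μ f + ex μ (fun g => f g - c) ^ 2 / ∑ g, μ g := by
  by_cases h0 : ∑ g, μ g = 0
  · simp [Vr, Cv, ex_of_mass hμ h0]
  have e1 : ex μ (fun g => (f g - c) ^ 2) =
      ex μ (fun g => f g * f g) - 2 * c * ex μ f + c ^ 2 * ∑ g, μ g := by
    simp only [ex, mul_sum, ← sum_sub_distrib, ← sum_add_distrib]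
    exact sum_congr rfl fun g _ => by ring
  rw [e1, ex_sub, ex_const, Vr, Cv]
  field_simp
  ring

theorem Vr_le (hμ : ∀ g, 0 ≤ μ g) (f : F → ℝ) (c : ℝ) :
    Vr μ f ≤ ex μ (fun g => (f g - c) ^ 2) := by
  rw [ex_sq_sub hμ]
  have : 0 ≤ ∑ g, μ g := sum_nonneg fun g _ => hμ g
  have : 0 ≤ ex μ (fun g => f g - c) ^ 2 / ∑ g, μ g := by positivity
  linarith

theorem Vr_eq (hμ : ∀ g, 0 ≤ μ g) (f : F → ℝ) :
    Vr μ f = ex μ (fun g => (f g - mn μ f) ^ 2) := by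
  rw [ex_sq_sub hμ, ex_sub, ex_const, mn_mul hμ]
  simp

theorem Vr_nonneg (hμ : ∀ g, 0 ≤ μ g) (f : F → ℝ) : 0 ≤ Vr μ f := by
  rw [Vr_eq hμ]
  exact sum_nonneg fun g _ => mul_nonneg (hμ g) (sq_nonneg _)

theorem Vr_smul_add (hμ : ∀ g, 0 ≤ μ g) (f : F → ℝ) (a c : ℝ) :
    Vr μ (fun g => a * f g + c) = a ^ 2 * Vr μ f := by
  have e := ex_sq_sub hμ (fun g => a * f g + c) (a * mn μ f + c)
  have e2 : ex μ (fun g => a * f g + c - (a * mn μ f + c)) = 0 := by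
    rw [ex_sub, ex_add, ex_smul, ex_const, ex_const, ← mn_mul hμ f]
    ring
  rw [e2] at e
  rw [Vr_eq hμ f, ← ex_smul]
  have e3 : (fun g => (a * f g + c - (a * mn μ f + c)) ^ 2) =
      fun g => a ^ 2 * (f g - mn μ f) ^ 2 := funext fun g => by ring
  rw [← e3, e]
  simp

theorem Vn_eq (μ X Y : F → ℝ) :
    Vn μ X Y = (Vr μ X + Vr μ Y) / 4 - Vr μ (fun g => X g - Y g) / 2 := by
  have e1 : ex μ (fun g => (X g - Y g) * (X g - Y g)) = ex μ (fun g => X g * X g) +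
      ex μ (fun g => Y g * Y g) - 2 * ex μ (fun g => X g * Y g) := by
    simp only [ex, mul_sum, ← sum_sub_distrib, ← sum_add_distrib]
    exact sum_congr rfl fun g _ => by ring
  simp only [Vn, Vr, Cv, e1, ex_sub]
  ring

section Fam

variable [Fintype K] {ν : K → F → ℝ}

/-- the quadratic form of a decomposition -/
noncomputable def Q (ν : K → F → ℝ) (f : F → ℝ) : ℝ := ∑ k, ex (ν k) f ^ 2 / ∑ g, ν k g

/-- drop of the variance along a decomposition -/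
noncomputable def Dr (μ : F → ℝ) (ν : K → F → ℝ) (f : F → ℝ) : ℝ := Vr μ f - ∑ k, Vr (ν k) f

theorem sum_ex (hs : ∀ g, ∑ k, ν k g = μ g) (f : F → ℝ) : ∑ k, ex (ν k) f = ex μ f := by
  simp only [ex]
  rw [sum_comm]
  exact sum_congr rfl fun g _ => by rw [← sum_mul, hs]

omit [Fintype F] in
theorem nonneg_of_fam (hν : ∀ k g, 0 ≤ ν k g) (hs : ∀ g, ∑ k, ν k g = μ g) (g : F) : 0 ≤ μ g :=
  hs g ▸ sum_nonneg fun k _ => hν k g

theorem Q_nonneg (hν : ∀ k g, 0 ≤ ν k g) (f : F → ℝ) : 0 ≤ Q ν f :=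
  sum_nonneg fun k _ => div_nonneg (sq_nonneg _) (sum_nonneg fun g _ => hν k g)

theorem Q_sub_le (hν : ∀ k g, 0 ≤ ν k g) (f h : F → ℝ) :
    Q ν (fun g => f g - h g) ≤ 2 * Q ν f + 2 * Q ν h := by
  simp only [Q, mul_sum, ← sum_add_distrib]
  refine sum_le_sum fun k _ => ?_
  rw [ex_sub, ← mul_div_assoc, ← mul_div_assoc, ← add_div]
  exact div_le_div_of_nonneg_right (by nlinarith [sq_nonneg (ex (ν k) f + ex (ν k) h)])
    (sum_nonneg fun g _ => hν k g)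

theorem Q_le_ex_sq (hν : ∀ k g, 0 ≤ ν k g) (hs : ∀ g, ∑ k, ν k g = μ g) (f : F → ℝ) :
    Q ν f ≤ ex μ (fun g => f g ^ 2) := by
  rw [← sum_ex hs]
  refine sum_le_sum fun k _ => ?_
  have e := ex_sq_sub (hν k) f 0
  simp only [sub_zero] at e
  linarith [Vr_nonneg (hν k) f]

theorem sum_Vr (hν : ∀ k g, 0 ≤ ν k g) (hs : ∀ g, ∑ k, ν k g = μ g) (f : F → ℝ) (c : ℝ) :
    ∑ k, Vr (ν k) f = ex μ (fun g => (f g - c) ^ 2) - Q ν (fun g => f g - c) := by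
  rw [← sum_ex hs, Q, ← sum_sub_distrib]
  exact sum_congr rfl fun k _ => by rw [ex_sq_sub (hν k)]; ring

theorem Dr_eq (hν : ∀ k g, 0 ≤ ν k g) (hs : ∀ g, ∑ k, ν k g = μ g) (f : F → ℝ) :
    Dr μ ν f = Q ν (fun g => f g - mn μ f) := by
  rw [Dr, sum_Vr hν hs f (mn μ f), Vr_eq (nonneg_of_fam hν hs)]
  ring

theorem Dr_le (hν : ∀ k g, 0 ≤ ν k g) (hs : ∀ g, ∑ k, ν k g = μ g) (f : F → ℝ) (c : ℝ) :
    Dr μ ν f ≤ Q ν (fun g => f g - c) := by
  rw [Dr, sum_Vr hν hs f c]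
  linarith [Vr_le (nonneg_of_fam hν hs) f c]

theorem Dr_nonneg (hν : ∀ k g, 0 ≤ ν k g) (hs : ∀ g, ∑ k, ν k g = μ g) (f : F → ℝ) :
    0 ≤ Dr μ ν f := by
  rw [Dr_eq hν hs]
  exact Q_nonneg hν _

/-- superadditivity of the variance -/
theorem sum_Vr_le (hν : ∀ k g, 0 ≤ ν k g) (hs : ∀ g, ∑ k, ν k g = μ g) (f : F → ℝ) :
    ∑ k, Vr (ν k) f ≤ Vr μ f := sub_nonneg.mp (Dr_nonneg hν hs f)

/-- the drop for `f` against the drop for an approximation `h` -/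
theorem Dr_le_approx (hν : ∀ k g, 0 ≤ ν k g) (hs : ∀ g, ∑ k, ν k g = μ g) (f h : F → ℝ) :
    Dr μ ν f ≤ 2 * Dr μ ν h + 2 * Q ν (fun g => h g - f g) := by
  refine (Dr_le hν hs f (mn μ h)).trans ?_
  rw [Dr_eq hν hs h]
  have e : (fun g => f g - mn μ h) = fun g => (h g - mn μ h) - (h g - f g) :=
    funext fun g => by ring
  rw [e]
  exact Q_sub_le hν _ _

/-- persistence of a frozen test -/
theorem Vn_persist (hν : ∀ k g, 0 ≤ ν k g) (hs : ∀ g, ∑ k, ν k g = μ g) (X Y : F → ℝ) :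
    Vn μ X Y - (Dr μ ν X + Dr μ ν Y) / 4 ≤ ∑ k, Vn (ν k) X Y := by
  have h1 := sum_Vr_le hν hs fun g => X g - Y g
  simp only [Vn_eq, Dr, sum_sub_distrib, ← sum_div, sum_add_distrib]
  linarith

open Classical in
/-- sets that turn heavy are paid by the drop -/
theorem heavy (hν : ∀ k g, 0 ≤ ν k g) (hs : ∀ g, ∑ k, ν k g = μ g) {b : ℝ} (hb : 0 < b)
    (hf : ex μ f ≤ b * ∑ g, μ g) :
    ∑ k ∈ univ.filter (fun k => 2 * b * ∑ g, ν k g < ex (ν k) f), ex (ν k) f ≤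
      2 / b * Dr μ ν f := by
  have hμ := nonneg_of_fam hν hs
  have hm : mn μ f ≤ b := by
    rcases (sum_nonneg fun g _ => hμ g : 0 ≤ ∑ g, μ g).lt_or_eq with h | h
    · exact (div_le_iff₀ h).mpr hf
    · rw [mn, ← h, div_zero]
      exact hb.le
  rw [Dr_eq hν hs, Q, mul_sum, sum_filter]
  refine sum_le_sum fun k _ => ?_
  have h0 : 0 ≤ ∑ g, ν k g := sum_nonneg fun g _ => hν k g
  split_ifs with h
  · have h1 : 0 < ∑ g, ν k g := by
      refine h0.lt_of_ne fun h' => ?_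
      rw [ex_of_mass (hν k) h'.symm, ← h'] at h
      simp at h
    rw [ex_sub, ex_const, ← mul_div_assoc, le_div_iff₀ h1, div_mul_eq_mul_div, le_div_iff₀ hb]
    have h2 : mn μ f * ∑ g, ν k g ≤ b * ∑ g, ν k g := mul_le_mul_of_nonneg_right hm h0
    have h3 : 0 < b * ∑ g, ν k g := mul_pos hb h1
    have h4 : ex (ν k) f / 2 ≤ ex (ν k) f - mn μ f * ∑ g, ν k g := by linarith
    have h5 := pow_le_pow_left₀ (by linarith) h4 2
    nlinarith
  · positivity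

/-- from a weighted family of tests to one test in each part -/
theorem pick {L : Type*} (T : Finset L) (w : L → ℝ) (hw : ∀ l ∈ T, 0 ≤ w l) (a : K → L → ℝ)
    {B W : ℝ} (hB : 0 < B) (hW : ∑ l ∈ T, w l ≤ W) (h : B ≤ ∑ l ∈ T, w l * ∑ k, a k l) :
    ∃ c : K → L, (∀ k, c k ∈ T) ∧ B ≤ W * ∑ k, a k (c k) := by
  have hT : T.Nonempty := by
    rw [nonempty_iff_ne_empty]
    rintro rfl
    simp at h
    linarith
  choose c hc hm using fun k => exists_max_image T (a k) hT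
  refine ⟨c, hc, ?_⟩
  have h1 : B ≤ (∑ l ∈ T, w l) * ∑ k, a k (c k) := by
    rw [sum_mul]
    exact h.trans (sum_le_sum fun l hl =>
      mul_le_mul_of_nonneg_left (sum_le_sum fun k _ => hm k l hl) (hw l hl))
  have h2 : 0 ≤ ∑ k, a k (c k) := by
    by_contra hn
    push Not at hn
    nlinarith [sum_nonneg hw]
  exact h1.trans (mul_le_mul_of_nonneg_right hW h2)

end Fam

end Pool.Agent.Lib.MP_abd417_co.Up.Var
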