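import Mathlib

namespace Pool.Agent.Lib.MP_abd417_co.Up

open Finset Matrix

/-- Largest local size of an entry of the transition matrix between two frames. -/
noncomputable def mx {K : Type*} [Field K] (v : AbsoluteValue K ℝ) (g h : Fin 3 → Fin 3 → K) : ℝ :=
  (univ : Finset (Fin 3 × Fin 3)).sup' univ_nonempty (fun p => v (g p.1 ⬝ᵥ h p.2))

/-- A linear three-partite family of orthonormal frames over a field with a finite family of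
weighted places for which the product formula holds on the relevant quantities. -/
structure Conf where
  K : Type
  [fld : Field K]
  [ch0 : CharZero K]
  I : K
  io : Type
  [fio : Fintype io]
  [dio : DecidableEq io]
  Fr : Type
  [fFr : Fintype Fr]
  [dFr : DecidableEq Fr]
  Pl : Type
  [fPl : Fintype Pl]
  y : io → Fin 3 → K
  ax : Fin 3 → Fr → io
  w : Pl → ℝ
  v : Pl → AbsoluteValue K ℝ
  arch : Pl → Bool
  hI : I ^ 2 = -1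
  unit : ∀ a, y a ⬝ᵥ y a = 1
  sep : ∀ a b, a ≠ b → (y a ⬝ᵥ y b) ^ 2 ≠ 1
  orth : ∀ g i j, i ≠ j → y (ax i g) ⬝ᵥ y (ax j g) = 0
  typ : ∀ g h i j, i ≠ j → ax i g ≠ ax j h
  lin : ∀ g h i j, i ≠ j → ax i g = ax i h → ax j g = ax j h → g = h
  wpos : ∀ p, 0 < w p
  nonarch : ∀ p, arch p = false → IsNonarchimedean (v p)
  isarch : ∀ p, arch p = true → ∃ s : K →+* ℂ, ∀ x, v p x = ‖s x‖
  wsum : ∑ p with arch p = true, w p = 1
  pf0 : ∀ a b, y a ⬝ᵥ y b ≠ 0 → ∑ p, w p * Real.log (v p (y a ⬝ᵥ y b)) = 0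
  pf1 : ∀ a b, a ≠ b → ∑ p, w p * Real.log (v p (1 - (y a ⬝ᵥ y b) ^ 2)) = 0

attribute [instance] Conf.fld Conf.ch0 Conf.fio Conf.dio Conf.fFr Conf.dFr Conf.fPl

namespace Conf

variable (c : Conf)

/-- The frame `g` as three row vectors. -/
def fr (g : c.Fr) : Fin 3 → Fin 3 → c.K := fun i => c.y (c.ax i g)

/-- Local distance of two frames at the place `p`. -/
noncomputable def d (p : c.Pl) (g h : c.Fr) : ℝ := Real.log (mx (c.v p) (c.fr g) (c.fr h))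

/-- Global distance of two frames. -/
noncomputable def dist (g h : c.Fr) : ℝ := ∑ p, c.w p * c.d p g h + 2

/-- The quantity `x (1 - x)` of two frames sharing the axis `i`. -/
def th (i : Fin 3) (g h : c.Fr) : c.K :=
  (c.fr g (i + 1) ⬝ᵥ c.fr h (i + 1)) ^ 2 * (1 - (c.fr g (i + 1) ⬝ᵥ c.fr h (i + 1)) ^ 2)

/-- Restriction to a subfamily of frames. -/
def sub (B : Finset c.Fr) : Conf :=
  { c with
    Fr := B
    fFr := inferInstance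
    dFr := inferInstance
    ax := fun i g => c.ax i g.1
    orth := fun g => c.orth g.1
    typ := fun g h => c.typ g.1 h.1
    lin := fun g h i j a b e => Subtype.ext (c.lin g.1 h.1 i j a b e) }

/-- The output of the choice of scale. -/
structure Good (n : ℕ) (M R ka : ℝ) : Prop where
  card_io : Fintype.card c.io ≤ n
  cap : ∀ i a, #{g : c.Fr | c.ax i g = a} ^ 2 ≤ n
  one_le : 1 ≤ R
  ka_le : ka ≤ 1 / 24
  many : (n : ℝ) ^ (4 / 3 - ka / M) ≤ Fintype.card c.Fr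
  diam : ∀ g h, c.dist g h ≤ 2 * R
  light : ∀ g, (#{h : c.Fr | c.dist g h ≤ R / 2} : ℝ) ≤ (n : ℝ) ^ (-ka) * Fintype.card c.Fr

end Conf

/-- Number of orthonormal bases inside `V`. -/
noncomputable def bases (V : Finset (EuclideanSpace ℝ (Fin 3))) : ℕ :=
  {T : Finset (EuclideanSpace ℝ (Fin 3)) | T ⊆ V ∧ T.card = 3 ∧
    ∀ u ∈ T, ∀ v ∈ T, u ≠ v → inner ℝ u v = 0}.ncard

/-- Steps one to four. -/
def Blk14 : Prop :=
  ∀ M : ℝ, 1 ≤ M → ∃ k0 η : ℝ, 0 < k0 ∧ 0 < η ∧ ∃ n0 : ℕ,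
    ∀ V : Finset (EuclideanSpace ℝ (Fin 3)), n0 ≤ #V → (∀ v ∈ V, ‖v‖ = 1) →
      (#V : ℝ) ^ (4 / 3 - η) ≤ bases V → ∃ (c : Conf) (R ka : ℝ), k0 ≤ ka ∧ c.Good #V M R ka

/-- Steps five to ten. -/
def Blk510 : Prop :=
  ∃ M : ℝ, 1 ≤ M ∧ ∀ k0 : ℝ, 0 < k0 → ∃ n0 : ℕ, ∀ n : ℕ, n0 ≤ n →
    ∀ (c : Conf) (R ka : ℝ), k0 ≤ ka → ¬ c.Good n M R ka

theorem final_of (h1 : Blk14) (h2 : Blk510) :
    ∃ η : ℝ, 0 < η ∧ ∃ n0 : ℕ, ∀ V : Finset (EuclideanSpace ℝ (Fin 3)), n0 ≤ #V →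
      (∀ v ∈ V, ‖v‖ = 1) → (bases V : ℝ) < (#V : ℝ) ^ (4 / 3 - η) := by
  obtain ⟨M, hM, h2⟩ := h2
  obtain ⟨k0, η, hk, hη, n1, h1⟩ := h1 M hM
  obtain ⟨n2, h2⟩ := h2 k0 hk
  refine ⟨η, hη, max n1 n2, fun V hV hu => not_le.1 fun h => ?_⟩
  obtain ⟨c, R, ka, a, b⟩ := h1 V (le_of_max_le_left hV) hu h
  exact h2 _ (le_of_max_le_right hV) c R ka a b

/-- Step four in abstract form. -/
def Scale : Prop :=
  ∀ C M : ℝ, 1 ≤ C → 1 ≤ M → ∃ k0 η : ℝ, 0 < k0 ∧ 0 < η ∧ ∃ n0 : ℕ, ∀ n : ℕ, n0 ≤ n →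
    ∀ (io Fr : Type) [Fintype io] [DecidableEq io] [Fintype Fr] [DecidableEq Fr]
      (ax : Fin 3 → Fr → io) (dist : Fr → Fr → ℝ),
      Fintype.card io ≤ n →
      (∀ g h, dist g h = dist h g) → (∀ g h k, dist g k ≤ dist g h + dist h k) →
      (∀ g h, 1 ≤ dist g h) → (∀ g, dist g g ≤ C) →
      (∀ g h i j, i ≠ j → ax i g ≠ ax j h) →
      (∀ g h i j, i ≠ j → ax i g = ax i h → ax j g = ax j h → g = h) →
      (∀ i j, i ≠ j → ∀ A B : Finset io, (#{g : Fr | ax i g ∈ A ∧ ax j g ∈ B} : ℝ) ≤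
        C * (((#A : ℝ) * #B) ^ (2 / 3 : ℝ) + #A + #B)) →
      (∀ (i j : Fin 3) (a h1 h2 g1 g2 : Fr) (r : ℝ), i ≠ j → h1 ≠ h2 → ax j h1 = ax j h2 →
        ax i h1 = ax i g1 → ax i h2 = ax i g2 → dist a g1 ≤ r → dist a g2 ≤ r →
        dist a h1 ≤ C * r) →
      (∀ (i j : Fin 3) (a a' g1 g1' g2 g2' : Fr) (r : ℝ), ax i g1 = ax i g1' →
        ax j g2 = ax j g2' → ax i g1 ≠ ax j g2 → dist a g1 ≤ r → dist a g2 ≤ r →
        dist a' g1' ≤ r → dist a' g2' ≤ r → dist a a' ≤ C * r) →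
      (n : ℝ) ^ (4 / 3 - η) ≤ Fintype.card Fr →
      ∃ (B : Finset Fr) (R ka : ℝ), k0 ≤ ka ∧ 1 ≤ R ∧ ka ≤ 1 / 24 ∧
        (n : ℝ) ^ (4 / 3 - ka / M) ≤ #B ∧ (∀ g ∈ B, ∀ h ∈ B, dist g h ≤ 2 * R) ∧
        ∀ g ∈ B, (#{h ∈ B | dist g h ≤ R / 2} : ℝ) ≤ (n : ℝ) ^ (-ka) * #B

end Pool.Agent.Lib.MP_abd417_co.Up
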