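import Mathlib

/-! Entropy form of an incidence bound with exponent two thirds. -/

namespace Pool.Agent.Lib.MP_abd417_co.Up.Gibbs

open Finset Real

theorem exists_level (x : ℝ) (hx : x ≤ 1) (K : ℕ) :
    ∃ k ≤ K, x ≤ (1 / 8 : ℝ) ^ k ∧ (k < K → (1 / 8 : ℝ) ^ (k + 1) < x) := by
  induction K with
  | zero => exact ⟨0, le_rfl, by simpa using hx, by simp⟩
  | succ K ih =>
    obtain ⟨k, hk, h1, h2⟩ := ih
    rcases lt_or_eq_of_le hk with h | rfl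
    · exact ⟨k, by omega, h1, fun _ => h2 h⟩
    · by_cases h3 : x ≤ (1 / 8 : ℝ) ^ (k + 1)
      · exact ⟨k + 1, le_rfl, h3, by simp⟩
      · exact ⟨k, by omega, h1, fun _ => not_le.mp h3⟩

theorem eight_rpow : (8 : ℝ) ^ (2 / 3 : ℝ) = 4 := by
  rw [show (8 : ℝ) = 2 ^ (3 : ℝ) by norm_num, ← Real.rpow_mul (by norm_num)]
  norm_num

theorem pow8 (k : ℕ) : ((8 : ℝ) ^ k) ^ (2 / 3 : ℝ) = 4 ^ k := by
  rw [← Real.rpow_pow_comm (by norm_num), eight_rpow]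

theorem pow8inv (k : ℕ) : ((1 / 8 : ℝ) ^ k) ^ (2 / 3 : ℝ) = (1 / 4) ^ k := by
  rw [one_div_pow, one_div_pow, Real.div_rpow (by norm_num) (by positivity), pow8, Real.one_rpow]

theorem class_facts {A : Type*} [Fintype A] (p : A → ℝ) (hp0 : ∀ a, 0 ≤ p a)
    (hp1 : ∑ a, p a ≤ 1) (ρ : ℝ) (hρ : ∀ a, p a ≤ ρ) (n : ℝ) (hn : (Fintype.card A : ℝ) ≤ n)
    (i : ℕ) (S : Finset A) (hS : ∀ a ∈ S, (1 / 8 : ℝ) ^ (i + 1) < p a) :
    (#S : ℝ) ^ (2 / 3 : ℝ) * (1 / 4) ^ i ≤ 4 ∧ (#S : ℝ) * (1 / 4) ^ i ≤ 4 * n ^ (1 / 3 : ℝ) ∧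
      (S.Nonempty → (1 / 4 : ℝ) ^ i ≤ 4 * ρ ^ (2 / 3 : ℝ)) := by
  have h1 : (#S : ℝ) * (1 / 8 : ℝ) ^ (i + 1) ≤ 1 := by
    calc (#S : ℝ) * (1 / 8 : ℝ) ^ (i + 1) = ∑ _a ∈ S, (1 / 8 : ℝ) ^ (i + 1) := by
          rw [sum_const, nsmul_eq_mul]
      _ ≤ ∑ a ∈ S, p a := sum_le_sum fun a ha => (hS a ha).le
      _ ≤ ∑ a, p a := sum_le_sum_of_subset_of_nonneg (subset_univ _) fun a _ _ => hp0 a
      _ ≤ 1 := hp1
  have h2 : (#S : ℝ) ^ (2 / 3 : ℝ) * (1 / 4) ^ (i + 1) ≤ 1 := by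
    rw [← pow8inv, ← Real.mul_rpow (by positivity) (by positivity)]
    exact Real.rpow_le_one (by positivity) h1 (by norm_num)
  have h3 : (#S : ℝ) ^ (2 / 3 : ℝ) * (1 / 4) ^ i ≤ 4 := by
    rw [pow_succ] at h2
    nlinarith
  refine ⟨h3, ?_, ?_⟩
  · have h4 : (#S : ℝ) ≤ n := le_trans (by exact_mod_cast card_le_univ S) hn
    have h5 : (#S : ℝ) ^ (1 / 3 : ℝ) ≤ n ^ (1 / 3 : ℝ) :=
      Real.rpow_le_rpow (by positivity) h4 (by norm_num)
    have h6 : (#S : ℝ) = (#S : ℝ) ^ (1 / 3 : ℝ) * (#S : ℝ) ^ (2 / 3 : ℝ) := by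
      rw [← Real.rpow_add' (by positivity) (by norm_num),
        show (1 / 3 + 2 / 3 : ℝ) = 1 by norm_num, Real.rpow_one]
    have h7 : 0 ≤ (#S : ℝ) ^ (1 / 3 : ℝ) := Real.rpow_nonneg (Nat.cast_nonneg _) _
    calc (#S : ℝ) * (1 / 4) ^ i
        = (#S : ℝ) ^ (1 / 3 : ℝ) * ((#S : ℝ) ^ (2 / 3 : ℝ) * (1 / 4) ^ i) := by
          rw [← mul_assoc, ← h6]
      _ ≤ (#S : ℝ) ^ (1 / 3 : ℝ) * 4 := mul_le_mul_of_nonneg_left h3 h7
      _ ≤ 4 * n ^ (1 / 3 : ℝ) := by linarith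
  · rintro ⟨a, ha⟩
    have h4 : (1 / 8 : ℝ) ^ (i + 1) ≤ ρ := ((hS a ha).le).trans (hρ a)
    have h5 := Real.rpow_le_rpow (by positivity) h4 (by norm_num : (0 : ℝ) ≤ 2 / 3)
    rw [pow8inv, pow_succ] at h5
    linarith

variable {F A B : Type*} [Fintype F] [Fintype A] [Fintype B] [DecidableEq A] [DecidableEq B]

/-- The partition function of the Gibbs comparison. -/
theorem partition_le (u : F → A) (v : F → B) (C n ρ : ℝ) (K : ℕ) (hC : 0 ≤ C) (hρ0 : 0 ≤ ρ)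
    (hST : ∀ (S : Finset A) (T : Finset B), (#{g | u g ∈ S ∧ v g ∈ T} : ℝ) ≤
      C * (((#S : ℝ) * #T) ^ (2 / 3 : ℝ) + #S + #T))
    (hA : (Fintype.card A : ℝ) ≤ n) (hB : (Fintype.card B : ℝ) ≤ n)
    (hK : (Fintype.card F : ℝ) ≤ 4 ^ K)
    (p : A → ℝ) (q : B → ℝ) (hp0 : ∀ a, 0 ≤ p a) (hq0 : ∀ b, 0 ≤ q b)
    (hp1 : ∑ a, p a ≤ 1) (hq1 : ∑ b, q b ≤ 1) (hpρ : ∀ a, p a ≤ ρ) (hqρ : ∀ b, q b ≤ ρ) :
    ∑ g, p (u g) ^ (2 / 3 : ℝ) * q (v g) ^ (2 / 3 : ℝ) ≤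
      1 + 16 * C * K ^ 2 * (1 + 2 * (n ^ (1 / 3 : ℝ) * ρ ^ (2 / 3 : ℝ))) := by
  have hn0 : 0 ≤ n := le_trans (by positivity) hA
  have hpa : ∀ a, p a ≤ 1 := fun a =>
    (single_le_sum (fun a _ => hp0 a) (mem_univ a)).trans hp1
  have hqb : ∀ b, q b ≤ 1 := fun b =>
    (single_le_sum (fun b _ => hq0 b) (mem_univ b)).trans hq1
  choose k hkK hk1 hk2 using fun a => exists_level (p a) (hpa a) K
  choose l hlK hl1 hl2 using fun b => exists_level (q b) (hqb b) K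
  have hpt : ∀ g, p (u g) ^ (2 / 3 : ℝ) * q (v g) ^ (2 / 3 : ℝ) ≤ (1 / 4 : ℝ) ^ K +
      ∑ i ∈ range K, ∑ j ∈ range K,
        if k (u g) = i ∧ l (v g) = j then (1 / 4 : ℝ) ^ i * (1 / 4) ^ j else 0 := by
    intro g
    have e1 : p (u g) ^ (2 / 3 : ℝ) ≤ (1 / 4) ^ k (u g) := by
      rw [← pow8inv]; exact Real.rpow_le_rpow (hp0 _) (hk1 _) (by norm_num)
    have e2 : q (v g) ^ (2 / 3 : ℝ) ≤ (1 / 4) ^ l (v g) := by
      rw [← pow8inv]; exact Real.rpow_le_rpow (hq0 _) (hl1 _) (by norm_num)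
    have e3 : p (u g) ^ (2 / 3 : ℝ) * q (v g) ^ (2 / 3 : ℝ) ≤
        (1 / 4) ^ k (u g) * (1 / 4) ^ l (v g) :=
      mul_le_mul e1 e2 (Real.rpow_nonneg (hq0 _) _) (by positivity)
    have e4 : 0 ≤ ∑ i ∈ range K, ∑ j ∈ range K,
        if k (u g) = i ∧ l (v g) = j then (1 / 4 : ℝ) ^ i * (1 / 4) ^ j else 0 :=
      sum_nonneg fun i _ => sum_nonneg fun j _ => by split_ifs <;> positivity
    have e5 : ∀ m : ℕ, (1 / 4 : ℝ) ^ m ≤ 1 := fun m => pow_le_one₀ (by norm_num) (by norm_num)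
    have e6 : ∀ m : ℕ, 0 ≤ (1 / 4 : ℝ) ^ m := fun m => by positivity
    rcases lt_or_eq_of_le (hkK (u g)) with h1 | h1
    · rcases lt_or_eq_of_le (hlK (v g)) with h2 | h2
      · have e7 : (∑ i ∈ range K, ∑ j ∈ range K,
            if k (u g) = i ∧ l (v g) = j then (1 / 4 : ℝ) ^ i * (1 / 4) ^ j else 0) =
            (1 / 4) ^ k (u g) * (1 / 4) ^ l (v g) := by
          rw [sum_eq_single (k (u g)), sum_eq_single (l (v g))]
          · simp
          · intro j _ hj; rw [if_neg]; exact fun h => hj h.2.symm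
          · intro h; exact absurd (mem_range.mpr h2) h
          · intro i _ hi; exact sum_eq_zero fun j _ => by rw [if_neg]; exact fun h => hi h.1.symm
          · intro h; exact absurd (mem_range.mpr h1) h
        rw [e7]; linarith [e6 K]
      · rw [h2] at e3
        nlinarith [e5 (k (u g)), e6 K]
    · rw [h1] at e3
      nlinarith [e5 (l (v g)), e6 K]
  have hcl : ∀ i ∈ range K, ∀ j ∈ range K,
      (∑ g, if k (u g) = i ∧ l (v g) = j then (1 / 4 : ℝ) ^ i * (1 / 4) ^ j else 0) ≤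
        16 * C * (1 + 2 * (n ^ (1 / 3 : ℝ) * ρ ^ (2 / 3 : ℝ))) := by
    intro i hi j hj
    have hi' := mem_range.mp hi
    have hj' := mem_range.mp hj
    set S : Finset A := {a | k a = i} with hS
    set T : Finset B := {b | l b = j} with hT
    obtain ⟨a1, a2, a3⟩ := class_facts p hp0 hp1 ρ hpρ n hA i S fun a ha => by
      have h : k a = i := (mem_filter.mp ha).2
      have := hk2 a (h ▸ hi'); rwa [h] at this
    obtain ⟨b1, b2, b3⟩ := class_facts q hq0 hq1 ρ hqρ n hB j T fun b hb => by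
      have h : l b = j := (mem_filter.mp hb).2
      have := hl2 b (h ▸ hj'); rwa [h] at this
    have hx : 0 ≤ n ^ (1 / 3 : ℝ) * ρ ^ (2 / 3 : ℝ) := by positivity
    by_cases hne : ∃ g, k (u g) = i ∧ l (v g) = j
    · obtain ⟨g0, hg1, hg2⟩ := hne
      have a4 := a3 ⟨u g0, by simp [hS, hg1]⟩
      have b4 := b3 ⟨v g0, by simp [hT, hg2]⟩
      have e1 : (∑ g, if k (u g) = i ∧ l (v g) = j then (1 / 4 : ℝ) ^ i * (1 / 4) ^ j else 0) =
          (#{g | u g ∈ S ∧ v g ∈ T} : ℝ) * ((1 / 4 : ℝ) ^ i * (1 / 4) ^ j) := by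
        rw [← sum_filter, sum_const, nsmul_eq_mul]
        simp [hS, hT]
      rw [e1]
      have e2 := mul_le_mul_of_nonneg_right (hST S T)
        (by positivity : (0 : ℝ) ≤ (1 / 4 : ℝ) ^ i * (1 / 4) ^ j)
      rw [Real.mul_rpow (by positivity) (by positivity)] at e2
      have c1 : ((#S : ℝ) ^ (2 / 3 : ℝ) * (1 / 4) ^ i) * ((#T : ℝ) ^ (2 / 3 : ℝ) * (1 / 4) ^ j) ≤
          4 * 4 := mul_le_mul a1 b1 (by positivity) (by norm_num)
      have c2 : ((#S : ℝ) * (1 / 4) ^ i) * (1 / 4) ^ j ≤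
          (4 * n ^ (1 / 3 : ℝ)) * (4 * ρ ^ (2 / 3 : ℝ)) :=
        mul_le_mul a2 b4 (by positivity) (by positivity)
      have c3 : ((#T : ℝ) * (1 / 4) ^ j) * (1 / 4) ^ i ≤
          (4 * n ^ (1 / 3 : ℝ)) * (4 * ρ ^ (2 / 3 : ℝ)) :=
        mul_le_mul b2 a4 (by positivity) (by positivity)
      refine e2.trans ?_
      have c4 : ((#S : ℝ) ^ (2 / 3 : ℝ) * (#T : ℝ) ^ (2 / 3 : ℝ) + #S + #T) *
          ((1 / 4 : ℝ) ^ i * (1 / 4) ^ j) ≤
          16 * (1 + 2 * (n ^ (1 / 3 : ℝ) * ρ ^ (2 / 3 : ℝ))) := by nlinarith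
      calc _ = C * (((#S : ℝ) ^ (2 / 3 : ℝ) * (#T : ℝ) ^ (2 / 3 : ℝ) + #S + #T) *
          ((1 / 4 : ℝ) ^ i * (1 / 4) ^ j)) := by ring
        _ ≤ C * (16 * (1 + 2 * (n ^ (1 / 3 : ℝ) * ρ ^ (2 / 3 : ℝ)))) :=
          mul_le_mul_of_nonneg_left c4 hC
        _ = _ := by ring
    · rw [sum_eq_zero fun g _ => if_neg fun h => hne ⟨g, h⟩]
      positivity
  calc ∑ g, p (u g) ^ (2 / 3 : ℝ) * q (v g) ^ (2 / 3 : ℝ)
      ≤ ∑ g : F, ((1 / 4 : ℝ) ^ K + ∑ i ∈ range K, ∑ j ∈ range K,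
        if k (u g) = i ∧ l (v g) = j then (1 / 4 : ℝ) ^ i * (1 / 4) ^ j else 0) :=
        sum_le_sum fun g _ => hpt g
    _ = (Fintype.card F : ℝ) * (1 / 4 : ℝ) ^ K + ∑ i ∈ range K, ∑ j ∈ range K, ∑ g : F,
        if k (u g) = i ∧ l (v g) = j then (1 / 4 : ℝ) ^ i * (1 / 4) ^ j else 0 := by
        rw [sum_add_distrib, sum_const, card_univ, nsmul_eq_mul, sum_comm]
        congr 1
        exact sum_congr rfl fun i _ => sum_comm
    _ ≤ 1 + ∑ _i ∈ range K, ∑ _j ∈ range K,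
        16 * C * (1 + 2 * (n ^ (1 / 3 : ℝ) * ρ ^ (2 / 3 : ℝ))) := by
        refine add_le_add ?_ (sum_le_sum fun i hi => sum_le_sum fun j hj => hcl i hi j hj)
        rw [one_div_pow, mul_one_div, div_le_one (by positivity)]
        exact hK
    _ = _ := by simp only [sum_const, card_range, nsmul_eq_mul]; ring

theorem sum_push (u : F → A) (μ : F → ℝ) (p : A → ℝ)
    (hp : ∀ a, p a = ∑ g, if u g = a then μ g else 0) (f : A → ℝ) :
    ∑ a, p a * f a = ∑ g, μ g * f (u g) := by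
  simp only [hp, sum_mul]
  rw [sum_comm]
  refine sum_congr rfl fun g _ => ?_
  rw [sum_eq_single (u g)]
  · simp
  · intro a _ ha; rw [if_neg (Ne.symm ha), zero_mul]
  · intro h; exact absurd (mem_univ _) h

/-- Entropy form of the incidence bound, for every measure of mass at most one. -/
theorem gibbs (u : F → A) (v : F → B) (C n ρ : ℝ) (K : ℕ) (hC : 0 ≤ C) (hρ0 : 0 ≤ ρ)
    (hST : ∀ (S : Finset A) (T : Finset B), (#{g | u g ∈ S ∧ v g ∈ T} : ℝ) ≤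
      C * (((#S : ℝ) * #T) ^ (2 / 3 : ℝ) + #S + #T))
    (hA : (Fintype.card A : ℝ) ≤ n) (hB : (Fintype.card B : ℝ) ≤ n)
    (hK : (Fintype.card F : ℝ) ≤ 4 ^ K)
    (μ : F → ℝ) (hμ : ∀ g, 0 ≤ μ g) (hm : ∑ g, μ g ≤ 1) (p : A → ℝ) (q : B → ℝ)
    (hp : ∀ a, p a = ∑ g, if u g = a then μ g else 0)
    (hq : ∀ b, q b = ∑ g, if v g = b then μ g else 0)
    (hpρ : ∀ a, p a ≤ ρ) (hqρ : ∀ b, q b ≤ ρ) :
    -((∑ g, μ g) * Real.log (16 * C * K ^ 2 + 2)) - 2 * (n ^ (1 / 3 : ℝ) * ρ ^ (2 / 3 : ℝ)) ≤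
      2 / 3 * ((∑ a, negMulLog (p a) - negMulLog (∑ a, p a)) +
        (∑ b, negMulLog (q b) - negMulLog (∑ b, q b))) -
      (∑ g, negMulLog (μ g) - negMulLog (∑ g, μ g)) := by
  have hn0 : 0 ≤ n := le_trans (by positivity) hA
  have hp0 : ∀ a, 0 ≤ p a := fun a => by
    rw [hp]; exact sum_nonneg fun g _ => by split_ifs; exacts [hμ g, le_rfl]
  have hq0 : ∀ b, 0 ≤ q b := fun b => by
    rw [hq]; exact sum_nonneg fun g _ => by split_ifs; exacts [hμ g, le_rfl]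
  have hpm : ∑ a, p a = ∑ g, μ g := by simpa using sum_push u μ p hp fun _ => 1
  have hqm : ∑ b, q b = ∑ g, μ g := by simpa using sum_push v μ q hq fun _ => 1
  have hpe : ∑ a, negMulLog (p a) = ∑ g, μ g * -Real.log (p (u g)) := by
    rw [← sum_push u μ p hp fun a => -Real.log (p a)]
    exact sum_congr rfl fun a _ => by rw [negMulLog]; ring
  have hqe : ∑ b, negMulLog (q b) = ∑ g, μ g * -Real.log (q (v g)) := by
    rw [← sum_push v μ q hq fun b => -Real.log (q b)]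
    exact sum_congr rfl fun a _ => by rw [negMulLog]; ring
  have hpg : ∀ g, μ g ≤ p (u g) := fun g => by
    rw [hp]
    have := single_le_sum (f := fun g' => if u g' = u g then μ g' else 0)
      (fun g' _ => by split_ifs; exacts [hμ g', le_rfl]) (mem_univ g)
    simpa using this
  have hqg : ∀ g, μ g ≤ q (v g) := fun g => by
    rw [hq]
    have := single_le_sum (f := fun g' => if v g' = v g then μ g' else 0)
      (fun g' _ => by split_ifs; exacts [hμ g', le_rfl]) (mem_univ g)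
    simpa using this
  rw [hpm, hqm, hpe, hqe]
  set m := ∑ g, μ g with hmdef
  have hx0 : 0 ≤ n ^ (1 / 3 : ℝ) * ρ ^ (2 / 3 : ℝ) := by positivity
  rcases (sum_nonneg fun g _ => hμ g : 0 ≤ m).eq_or_lt with h0 | hm0
  · have hz : ∀ g, μ g = 0 := fun g =>
      (sum_eq_zero_iff_of_nonneg fun g _ => hμ g).mp h0.symm g (mem_univ g)
    have hm' : m = 0 := h0.symm
    rw [hm']
    simp only [hz, zero_mul, sum_const_zero, negMulLog_zero]
    linarith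
  set x := n ^ (1 / 3 : ℝ) * (ρ / m) ^ (2 / 3 : ℝ) with hx
  have hx1 : 0 ≤ x := by positivity
  have hZ := partition_le u v C n (ρ / m) K hC (by positivity) hST hA hB hK
    (fun a => p a / m) (fun b => q b / m) (fun a => div_nonneg (hp0 a) hm0.le)
    (fun b => div_nonneg (hq0 b) hm0.le)
    (by rw [← sum_div, hpm, div_self hm0.ne']) (by rw [← sum_div, hqm, div_self hm0.ne'])
    (fun a => div_le_div_of_nonneg_right (hpρ a) hm0.le)
    (fun b => div_le_div_of_nonneg_right (hqρ b) hm0.le)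
  rw [← hx] at hZ
  have hL : 0 < 16 * C * K ^ 2 + 2 := by positivity
  set Z := (16 * C * K ^ 2 + 2) * (1 + 2 * x) with hZdef
  have hZ0 : 0 < Z := by positivity
  have hZ1 : ∑ g, (p (u g) / m) ^ (2 / 3 : ℝ) * (q (v g) / m) ^ (2 / 3 : ℝ) ≤ Z := by
    refine hZ.trans ?_
    rw [hZdef]; nlinarith
  have hpt : ∀ g, negMulLog (μ g) + μ g * Real.log m
      - 2 / 3 * (μ g * -Real.log (p (u g)) + μ g * Real.log m)
      - 2 / 3 * (μ g * -Real.log (q (v g)) + μ g * Real.log m) ≤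
      (p (u g) / m) ^ (2 / 3 : ℝ) * (q (v g) / m) ^ (2 / 3 : ℝ) * (m / Z) - μ g
        + μ g * Real.log Z := by
    intro g
    have hw : 0 ≤ (p (u g) / m) ^ (2 / 3 : ℝ) * (q (v g) / m) ^ (2 / 3 : ℝ) * (m / Z) := by
      have := hp0 (u g); have := hq0 (v g); positivity
    rcases (hμ g).eq_or_lt with h | h
    · rw [← h]; simpa using hw
    have h1 : 0 < p (u g) := h.trans_le (hpg g)
    have h2 : 0 < q (v g) := h.trans_le (hqg g)
    have h3 := Real.log_le_sub_one_of_pos (x := (p (u g) / m) ^ (2 / 3 : ℝ) *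
      (q (v g) / m) ^ (2 / 3 : ℝ) * (m / Z) / μ g) (by positivity)
    rw [Real.log_div (by positivity) h.ne', Real.log_mul (by positivity) (by positivity),
      Real.log_mul (by positivity) (by positivity), Real.log_rpow (by positivity),
      Real.log_rpow (by positivity), Real.log_div h1.ne' hm0.ne', Real.log_div h2.ne' hm0.ne',
      Real.log_div hm0.ne' hZ0.ne'] at h3
    have h4 := mul_le_mul_of_nonneg_left h3 h.le
    rw [mul_sub (μ g) (_ / μ g), mul_div_cancel₀ _ h.ne'] at h4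
    rw [negMulLog]
    linarith
  have hs := sum_le_sum fun g (_ : g ∈ univ) => hpt g
  simp only [sum_add_distrib, sum_sub_distrib, ← mul_sum, ← sum_mul, ← hmdef] at hs
  have h5 : (∑ g, (p (u g) / m) ^ (2 / 3 : ℝ) * (q (v g) / m) ^ (2 / 3 : ℝ)) * (m / Z) ≤ m := by
    calc _ ≤ Z * (m / Z) := mul_le_mul_of_nonneg_right hZ1 (by positivity)
      _ = m := by field_simp
  have h6 : Real.log Z ≤ Real.log (16 * C * K ^ 2 + 2) + 2 * x := by
    rw [hZdef, Real.log_mul hL.ne' (by positivity)]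
    have := Real.log_le_sub_one_of_pos (x := 1 + 2 * x) (by positivity)
    linarith
  have h7 : m * x ≤ n ^ (1 / 3 : ℝ) * ρ ^ (2 / 3 : ℝ) := by
    have e1 : m ≤ m ^ (2 / 3 : ℝ) := by
      have := Real.rpow_le_rpow_of_exponent_ge hm0 hm (by norm_num : (2 / 3 : ℝ) ≤ 1)
      rwa [Real.rpow_one] at this
    have e2 : 0 < m ^ (2 / 3 : ℝ) := by positivity
    rw [hx, Real.div_rpow hρ0 hm0.le]
    calc m * (n ^ (1 / 3 : ℝ) * (ρ ^ (2 / 3 : ℝ) / m ^ (2 / 3 : ℝ)))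
        = n ^ (1 / 3 : ℝ) * ρ ^ (2 / 3 : ℝ) * (m / m ^ (2 / 3 : ℝ)) := by ring
      _ ≤ n ^ (1 / 3 : ℝ) * ρ ^ (2 / 3 : ℝ) * 1 :=
          mul_le_mul_of_nonneg_left ((div_le_one e2).mpr e1) hx0
      _ = _ := mul_one _
  have h8 := mul_le_mul_of_nonneg_left h6 hm0.le
  rw [negMulLog]
  linarith

end Pool.Agent.Lib.MP_abd417_co.Up.Gibbs
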