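import Pool.Agent.Lib.MP_abd417_co.Up.STa

/-! The Szemerédi–Trotter incidence bound in characteristic zero. -/

namespace Pool.Agent.Lib.MP_abd417_co.Up.ST

open Finset

section Abstract

variable {α β : Type*} (R : α → β → Prop) [∀ a b, Decidable (R a b)]

theorem card_inc (P : Finset α) (L : Finset β) :
    #{x ∈ P ×ˢ L | R x.1 x.2} = ∑ l ∈ L, #{p ∈ P | R p l} := by
  rw [card_filter, sum_product_right]
  exact sum_congr rfl fun l _ => (card_filter _ _).symm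

/-- Two lines share at most one point: few lines carry few incidences. -/
theorem inc_le_sq (P : Finset α) (L : Finset β)
    (h2 : ∀ l ∈ L, ∀ l' ∈ L, l ≠ l' → ∀ p ∈ P, ∀ p' ∈ P, R p l → R p l' → R p' l → R p' l' →
      p = p') :
    ∑ l ∈ L, #{p ∈ P | R p l} ≤ #P + #L ^ 2 := by
  classical
  rw [← card_inc]
  rcases L.eq_empty_or_nonempty with rfl | ⟨l0, hl0⟩
  · simp
  have hf : ∀ p : α, ∃ l ∈ L, (∃ l' ∈ L, R p l') → R p l := fun p => by
    by_cases h : ∃ l' ∈ L, R p l'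
    · obtain ⟨l', h1, h3⟩ := h
      exact ⟨l', h1, fun _ => h3⟩
    · exact ⟨l0, hl0, fun h' => absurd h' h⟩
  choose f hfL hfR using hf
  rw [← card_filter_add_card_filter_not (fun x : α × β => x.2 = f x.1)]
  refine add_le_add ?_ ?_
  · refine card_le_card_of_injOn (fun x => x.1) (fun x hx => ?_) fun x hx y hy e => ?_
    · simp only [coe_filter, mem_filter, mem_product, Set.mem_ofPred_eq] at hx
      exact hx.1.1.1
    · simp only [coe_filter, mem_filter, mem_product, Set.mem_ofPred_eq] at hx hy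
      have e' : x.1 = y.1 := e
      exact Prod.ext e' (by rw [hx.2, hy.2, e'])
  · rw [sq, ← card_product]
    refine card_le_card_of_injOn (fun x => (x.2, f x.1)) (fun x hx => ?_) fun x hx y hy e => ?_
    · simp only [coe_filter, mem_filter, mem_product, Set.mem_ofPred_eq] at hx
      exact mem_coe.2 (mem_product.2 ⟨hx.1.1.2, hfL _⟩)
    · simp only [coe_filter, mem_filter, mem_product, Set.mem_ofPred_eq] at hx hy
      have e1 : x.2 = y.2 := congrArg Prod.fst e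
      have e2 : f x.1 = f y.1 := congrArg Prod.snd e
      refine Prod.ext (h2 x.2 hx.1.1.2 (f x.1) (hfL _) hx.2 _ hx.1.1.1 _ hy.1.1.1 hx.1.2
        (hfR _ ⟨_, hx.1.1.2, hx.1.2⟩) (e1 ▸ hy.1.2) ?_) e1
      rw [e2]
      exact hfR _ ⟨_, hy.1.1.2, hy.1.2⟩

theorem tail_sum (k : ℕ) (hk : 1 ≤ k) (s : ℕ) :
    ∑ t ∈ Ioc k s, (1 : ℝ) / (t : ℝ) ^ 3 ≤ 1 / (k : ℝ) ^ 2 := by
  have k0 : (1 : ℝ) ≤ k := by exact_mod_cast hk
  have key : ∀ d : ℕ, ∑ t ∈ Ioc k (k + d), (1 : ℝ) / (t : ℝ) ^ 3 ≤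
      1 / (k : ℝ) ^ 2 - 1 / ((k + d : ℕ) : ℝ) ^ 2 := fun d => by
    induction d with
    | zero => simp
    | succ d ih =>
      rw [← add_assoc, sum_Ioc_succ_top (by omega)]
      have x1 : (1 : ℝ) ≤ ((k + d : ℕ) : ℝ) := by exact_mod_cast (by omega : 1 ≤ k + d)
      set x : ℝ := ((k + d : ℕ) : ℝ)
      have e : ((k + d + 1 : ℕ) : ℝ) = x + 1 := by rw [Nat.cast_succ]
      rw [e]
      have : 1 / (x + 1) ^ 3 ≤ 1 / x ^ 2 - 1 / (x + 1) ^ 2 := by
        rw [div_sub_div _ _ (by positivity) (by positivity), div_le_div_iff₀ (by positivity)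
          (by positivity)]
        have : 0 ≤ (x + 1) ^ 2 * (x ^ 2 + 3 * x + 1) := by positivity
        nlinarith
      linarith
  rcases le_total k s with h | h
  · obtain ⟨d, rfl⟩ := Nat.exists_eq_add_of_le h
    have : (0 : ℝ) ≤ 1 / ((k + d : ℕ) : ℝ) ^ 2 := by positivity
    linarith [key d]
  · rw [Ioc_eq_empty (by omega), sum_empty]
    positivity

/-- From rich lines to incidences, with a free parameter. -/
theorem inc_param (P : Finset α) (L : Finset β)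
    (h1 : ∀ L' ⊆ L, ∀ k, 4 ≤ k → (∀ l ∈ L', k ≤ #{p ∈ P | R p l}) →
      #L' * k ^ 3 ≤ 256 * #P ^ 2 + 16 * #P * k ^ 2)
    (h2 : ∀ l ∈ L, ∀ l' ∈ L, l ≠ l' → ∀ p ∈ P, ∀ p' ∈ P, R p l → R p l' → R p' l → R p' l' →
      p = p') (k : ℕ) (hk : 4 ≤ k) :
    ((∑ l ∈ L, #{p ∈ P | R p l} : ℕ) : ℝ) ≤ k * #L + 320 * #P ^ 2 / k ^ 2 + 74000 * #P := by
  classical
  rcases P.eq_empty_or_nonempty with rfl | hP
  · simp only [filter_empty, card_empty, sum_const_zero, Nat.cast_zero]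
    positivity
  have m1 : 1 ≤ #P := hP.card_pos
  set m := #P with hm
  set r : β → ℕ := fun l => #{p ∈ P | R p l} with hr
  set s := Nat.sqrt m + 1 with hs
  have s1 : m < s ^ 2 := Nat.lt_succ_sqrt' m
  have s2 : s ^ 2 ≤ 4 * m := by
    have := Nat.sqrt_le' m
    have := Nat.sqrt_le_self m
    rw [hs]
    nlinarith
  set T := max s 4 with hT
  have T1 : m ≤ T ^ 2 := s1.le.trans (Nat.pow_le_pow_left (le_max_left _ _) 2)
  have T4 : 4 ≤ T := le_max_right _ _
  set L1 := L.filter fun l => T ≤ r l with hL1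
  have b1 : #L1 ^ 2 ≤ 272 ^ 2 * m := by
    have a1 := h1 L1 (filter_subset _ _) T T4 fun l hl => (mem_filter.1 hl).2
    have a2 : #L1 * T * T ^ 2 ≤ 272 * m * T ^ 2 := by nlinarith
    have a3 : #L1 * T ≤ 272 * m := Nat.le_of_mul_le_mul_right a2 (by positivity)
    have a4 : #L1 ^ 2 * m ≤ 272 ^ 2 * m * m :=
      calc #L1 ^ 2 * m ≤ #L1 ^ 2 * T ^ 2 := Nat.mul_le_mul_left _ T1
        _ = (#L1 * T) ^ 2 := by ring
        _ ≤ (272 * m) ^ 2 := Nat.pow_le_pow_left a3 2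
        _ = _ := by ring
    exact Nat.le_of_mul_le_mul_right a4 m1
  have b2 : ∑ l ∈ L1, r l ≤ 74000 * m := by
    have := inc_le_sq R P L1 fun l hl l' hl' =>
      h2 l (filter_subset _ _ hl) l' (filter_subset _ _ hl')
    have e : ∑ l ∈ L1, r l = ∑ l ∈ L1, #{p ∈ P | R p l} := rfl
    omega
  have b3 : ∑ l ∈ L.filter (fun l => ¬ T ≤ r l), r l ≤
      k * #L + ∑ t ∈ Ioc k s, #{l ∈ L | t ≤ r l} := by
    have c1 : ∀ l ∈ L.filter (fun l => ¬ T ≤ r l), r l ≤ k + #{t ∈ Ioc k s | t ≤ r l} :=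
      fun l hl => by
      have hl2 := (mem_filter.1 hl).2
      have : Ioc k (r l) ⊆ {t ∈ Ioc k s | t ≤ r l} := fun t ht => by
        rw [mem_filter, mem_Ioc]
        rw [mem_Ioc] at ht
        omega
      have := card_le_card this
      rw [Nat.card_Ioc] at this
      omega
    refine (sum_le_sum c1).trans ((sum_le_sum_of_subset (filter_subset _ _)).trans ?_)
    rw [sum_add_distrib, sum_const, smul_eq_mul, mul_comm]
    refine Nat.add_le_add_left (le_of_eq ?_) _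
    simp only [card_filter]
    exact sum_comm
  have b4 : ((∑ t ∈ Ioc k s, #{l ∈ L | t ≤ r l} : ℕ) : ℝ) ≤ 320 * m ^ 2 / k ^ 2 := by
    rw [Nat.cast_sum]
    have c1 : ∀ t ∈ Ioc k s, ((#{l ∈ L | t ≤ r l} : ℕ) : ℝ) ≤ 320 * m ^ 2 * (1 / (t : ℝ) ^ 3) :=
      fun t ht => by
      rw [mem_Ioc] at ht
      have a1 := h1 _ (filter_subset (fun l => t ≤ r l) L) t (by omega)
        fun l hl => (mem_filter.1 hl).2
      have a2 : t ^ 2 ≤ 4 * m := (Nat.pow_le_pow_left ht.2 2).trans s2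
      have a3 : #{l ∈ L | t ≤ r l} * t ^ 3 ≤ 320 * m ^ 2 := by nlinarith
      have t0 : (0 : ℝ) < t := by exact_mod_cast (by omega : 0 < t)
      rw [mul_one_div, le_div_iff₀ (by positivity)]
      exact_mod_cast a3
    refine (sum_le_sum c1).trans ?_
    rw [← mul_sum, div_eq_mul_one_div (320 * _)]
    exact mul_le_mul_of_nonneg_left (tail_sum k (by omega) s) (by positivity)
  have b5 : ∑ l ∈ L, r l ≤ k * #L + ∑ t ∈ Ioc k s, #{l ∈ L | t ≤ r l} + 74000 * m := by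
    rw [← sum_filter_add_sum_filter_not L (fun l => T ≤ r l), add_comm]
    exact add_le_add b3 b2
  have b6 : ((∑ l ∈ L, r l : ℕ) : ℝ) ≤
      k * #L + ((∑ t ∈ Ioc k s, #{l ∈ L | t ≤ r l} : ℕ) : ℝ) + 74000 * m := by
    exact_mod_cast b5
  linarith

/-- From rich lines to incidences. -/
theorem inc_of_rich (P : Finset α) (L : Finset β)
    (h1 : ∀ L' ⊆ L, ∀ k, 4 ≤ k → (∀ l ∈ L', k ≤ #{p ∈ P | R p l}) →
      #L' * k ^ 3 ≤ 256 * #P ^ 2 + 16 * #P * k ^ 2)
    (h2 : ∀ l ∈ L, ∀ l' ∈ L, l ≠ l' → ∀ p ∈ P, ∀ p' ∈ P, R p l → R p l' → R p' l → R p' l' →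
      p = p') :
    (#{x ∈ P ×ˢ L | R x.1 x.2} : ℝ) ≤
      74000 * (((#P : ℝ) * #L) ^ (2 / 3 : ℝ) + #P + #L) := by
  rcases L.eq_empty_or_nonempty with rfl | hL
  · simp only [product_empty, filter_empty, card_empty, Nat.cast_zero]
    positivity
  rcases P.eq_empty_or_nonempty with rfl | hP
  · simp only [empty_product, filter_empty, card_empty, Nat.cast_zero]
    positivity
  have m0 : (0 : ℝ) < #P := by exact_mod_cast hP.card_pos
  have n0 : (0 : ℝ) < #L := by exact_mod_cast hL.card_pos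
  rw [card_inc]
  set m : ℝ := ((#P : ℕ) : ℝ)
  set n : ℝ := ((#L : ℕ) : ℝ)
  set X := (m * n) ^ (2 / 3 : ℝ) with hX
  have X0 : 0 < X := Real.rpow_pos_of_pos (by positivity) _
  have X3 : X ^ 3 = (m * n) ^ 2 := by
    rw [hX, ← Real.rpow_natCast, ← Real.rpow_mul (by positivity)]
    norm_num
  have h := inc_param R P L h1 h2 (⌈X / n⌉₊ + 4) (by omega)
  have k1 : X / n ≤ ((⌈X / n⌉₊ + 4 : ℕ) : ℝ) := by
    push_cast
    linarith [Nat.le_ceil (X / n)]
  have k2 : ((⌈X / n⌉₊ + 4 : ℕ) : ℝ) ≤ X / n + 5 := by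
    push_cast
    linarith [Nat.ceil_lt_add_one (show 0 ≤ X / n by positivity)]
  set k : ℝ := ((⌈X / n⌉₊ + 4 : ℕ) : ℝ)
  have k3 : k * n ≤ X + 5 * n := by
    have := mul_le_mul_of_nonneg_right k2 n0.le
    rwa [add_mul, div_mul_cancel₀ _ n0.ne'] at this
  have k4 : 320 * m ^ 2 / k ^ 2 ≤ 320 * X := by
    have q0 : 0 < X / n := by positivity
    have : 320 * m ^ 2 / k ^ 2 ≤ 320 * m ^ 2 / (X / n) ^ 2 := by gcongr
    refine this.trans (le_of_eq ?_)
    field_simp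
    rw [X3]
    ring
  linarith

end Abstract

variable {K : Type*} [Field K] [CharZero K]

/-- Szemerédi–Trotter for points `(z₁, z₂)` and lines `z₂ = l₁ z₁ + l₂`, indexed form. -/
theorem st_plane {α β : Type*} [DecidableEq K] (P : Finset α) (L : Finset β) (z : α → K × K)
    (l : β → K × K) (hz : Set.InjOn z P) (hl : Set.InjOn l L) :
    (#{x ∈ P ×ˢ L | (z x.1).2 = (l x.2).1 * (z x.1).1 + (l x.2).2} : ℝ) ≤
      74000 * (((#P : ℝ) * #L) ^ (2 / 3 : ℝ) + #P + #L) := by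
  refine inc_of_rich (fun p q => (z p).2 = (l q).1 * (z p).1 + (l q).2) P L
    (fun L' hL' k hk h => ?_) fun q hq q' hq' hne p hp p' hp' e1 e2 e3 e4 => ?_
  · have := rich0 (P.image z) (L'.image l) k hk fun x hx => by
      obtain ⟨q, hq, rfl⟩ := mem_image.1 hx
      refine ⟨{p ∈ P | (z p).2 = (l q).1 * (z p).1 + (l q).2}.image z,
        image_subset_image (filter_subset _ _), ?_, fun y hy => ?_⟩
      · rw [card_image_of_injOn (hz.mono (coe_subset.2 (filter_subset _ _)))]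
        exact h q hq
      · obtain ⟨p, hp, rfl⟩ := mem_image.1 hy
        exact (mem_filter.1 hp).2
    rwa [card_image_of_injOn hz, card_image_of_injOn (hl.mono (coe_subset.2 hL'))] at this
  · refine hz hp hp' ?_
    have n1 : (l q).1 ≠ (l q').1 := fun e => hne (hl hq hq' (Prod.ext e (by
      rw [e] at e1
      linear_combination e2 - e1)))
    have f1 : (z p).1 = (z p').1 :=
      mul_left_cancel₀ (sub_ne_zero.2 n1) (by linear_combination e2 - e1 + e3 - e4)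
    exact Prod.ext f1 (by rw [e1, e3, f1])

theorem orth_chart {α β : Type*} [DecidableEq K] (A : Finset α) (B : Finset β)
    (y : α → Fin 3 → K) (w : β → Fin 3 → K)
    (hy : ∀ a ∈ A, ∀ a' ∈ A, ∀ c : K, y a = c • y a' → a = a')
    (hw : ∀ b ∈ B, ∀ b' ∈ B, ∀ c : K, w b = c • w b' → b = b') (i j k : Fin 3)
    (hs : ∀ f : Fin 3 → K, ∑ t, f t = f i + f j + f k) (hc : ∀ t, t = i ∨ t = j ∨ t = k) :
    (#{x ∈ A ×ˢ B | y x.1 ⬝ᵥ w x.2 = 0 ∧ y x.1 i ≠ 0 ∧ w x.2 j ≠ 0} : ℝ) ≤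
      74000 * (((#A : ℝ) * #B) ^ (2 / 3 : ℝ) + #A + #B) := by
  have h := st_plane (A.filter fun a => y a i ≠ 0) (B.filter fun b => w b j ≠ 0)
    (fun a => (y a k / y a i, y a j / y a i)) (fun b => (-(w b k / w b j), -(w b i / w b j)))
    (fun a ha a' ha' e => ?_) fun b hb b' hb' e => ?_
  · refine le_trans (Nat.cast_le.2 (card_le_card fun x hx => ?_)) (h.trans ?_)
    · simp only [mem_filter, mem_product] at hx ⊢
      obtain ⟨⟨h1, h2⟩, h3, h4, h5⟩ := hx
      refine ⟨⟨⟨h1, h4⟩, h2, h5⟩, ?_⟩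
      rw [dotProduct, hs] at h3
      field_simp
      linear_combination h3
    · have a1 : (#(A.filter fun a => y a i ≠ 0) : ℝ) ≤ #A := Nat.cast_le.2 (card_filter_le _ _)
      have a2 : (#(B.filter fun b => w b j ≠ 0) : ℝ) ≤ #B := Nat.cast_le.2 (card_filter_le _ _)
      gcongr
  · rw [mem_coe, mem_filter] at ha ha'
    have e1 : y a k / y a i = y a' k / y a' i := congrArg Prod.fst e
    have e2 : y a j / y a i = y a' j / y a' i := congrArg Prod.snd e
    have n1 := ha.2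
    have n2 := ha'.2
    refine hy a ha.1 a' ha'.1 (y a i / y a' i) (funext fun t => ?_)
    rw [Pi.smul_apply, smul_eq_mul]
    field_simp at e1 e2 ⊢
    rcases hc t with rfl | rfl | rfl
    · ring
    · linear_combination e2
    · linear_combination e1
  · rw [mem_coe, mem_filter] at hb hb'
    have e1 : w b k / w b j = w b' k / w b' j := neg_injective (congrArg Prod.fst e)
    have e2 : w b i / w b j = w b' i / w b' j := neg_injective (congrArg Prod.snd e)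
    have n1 := hb.2
    have n2 := hb'.2
    refine hw b hb.1 b' hb'.1 (w b j / w b' j) (funext fun t => ?_)
    rw [Pi.smul_apply, smul_eq_mul]
    field_simp at e1 e2 ⊢
    rcases hc t with rfl | rfl | rfl
    · linear_combination e2
    · ring
    · linear_combination e1

/-- Orthogonal pairs between two families of nonzero, pairwise non-proportional vectors. -/
theorem st_orth {α β : Type*} [DecidableEq K] (A : Finset α) (B : Finset β)
    (y : α → Fin 3 → K) (w : β → Fin 3 → K) (y0 : ∀ a ∈ A, y a ≠ 0) (w0 : ∀ b ∈ B, w b ≠ 0)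
    (hy : ∀ a ∈ A, ∀ a' ∈ A, ∀ c : K, y a = c • y a' → a = a')
    (hw : ∀ b ∈ B, ∀ b' ∈ B, ∀ c : K, w b = c • w b' → b = b') :
    (#{x ∈ A ×ˢ B | y x.1 ⬝ᵥ w x.2 = 0} : ℝ) ≤
      444000 * (((#A : ℝ) * #B) ^ (2 / 3 : ℝ) + #A + #B) := by
  classical
  set S : Fin 3 → Fin 3 → Finset (α × β) := fun i j =>
    {x ∈ A ×ˢ B | y x.1 ⬝ᵥ w x.2 = 0 ∧ y x.1 i ≠ 0 ∧ w x.2 j ≠ 0} with hS
  have hsub : {x ∈ A ×ˢ B | y x.1 ⬝ᵥ w x.2 = 0} ⊆
      S 0 1 ∪ S 0 2 ∪ S 1 0 ∪ S 1 2 ∪ S 2 0 ∪ S 2 1 := fun x hx => by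
    simp only [hS, mem_union, mem_filter] at hx ⊢
    obtain ⟨h1, h2⟩ := hx
    have a0 := y0 _ (mem_product.1 h1).1
    have b0 := w0 _ (mem_product.1 h1).2
    simp only [h1, h2, true_and]
    rw [dotProduct, Fin.sum_univ_three] at h2
    have a1 : ¬ (y x.1 0 = 0 ∧ y x.1 1 = 0 ∧ y x.1 2 = 0) := fun h =>
      a0 (funext fun t => by fin_cases t <;> simp [h.1, h.2.1, h.2.2])
    have b1 : ¬ (w x.2 0 = 0 ∧ w x.2 1 = 0 ∧ w x.2 2 = 0) := fun h =>
      b0 (funext fun t => by fin_cases t <;> simp [h.1, h.2.1, h.2.2])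
    by_cases u0 : y x.1 0 = 0 <;> by_cases u1 : y x.1 1 = 0 <;> by_cases u2 : y x.1 2 = 0 <;>
      by_cases v0 : w x.2 0 = 0 <;> by_cases v1 : w x.2 1 = 0 <;> by_cases v2 : w x.2 2 = 0 <;>
      simp_all
  have c : (#{x ∈ A ×ˢ B | y x.1 ⬝ᵥ w x.2 = 0} : ℝ) ≤
      #(S 0 1) + #(S 0 2) + #(S 1 0) + #(S 1 2) + #(S 2 0) + #(S 2 1) := by
    have := (card_le_card hsub).trans ((card_union_le _ _).trans (Nat.add_le_add_right
      ((card_union_le _ _).trans (Nat.add_le_add_right ((card_union_le _ _).trans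
      (Nat.add_le_add_right ((card_union_le _ _).trans (Nat.add_le_add_right
      (card_union_le _ _) _)) _)) _)) _))
    exact_mod_cast this
  have s01 := orth_chart A B y w hy hw 0 1 2 (fun f => by rw [Fin.sum_univ_three]) (by decide)
  have s02 := orth_chart A B y w hy hw 0 2 1 (fun f => by rw [Fin.sum_univ_three]; ring)
    (by decide)
  have s10 := orth_chart A B y w hy hw 1 0 2 (fun f => by rw [Fin.sum_univ_three]; ring)
    (by decide)
  have s12 := orth_chart A B y w hy hw 1 2 0 (fun f => by rw [Fin.sum_univ_three]; ring)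
    (by decide)
  have s20 := orth_chart A B y w hy hw 2 0 1 (fun f => by rw [Fin.sum_univ_three]; ring)
    (by decide)
  have s21 := orth_chart A B y w hy hw 2 1 0 (fun f => by rw [Fin.sum_univ_three]; ring)
    (by decide)
  simp only [hS] at c
  linarith

/-- Orthogonal pairs between two families of unit vectors with distinct directions. -/
theorem st_unit {α β : Type*} [DecidableEq K] (A : Finset α) (B : Finset β)
    (y : α → Fin 3 → K) (w : β → Fin 3 → K) (y1 : ∀ a ∈ A, y a ⬝ᵥ y a = 1)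
    (w1 : ∀ b ∈ B, w b ⬝ᵥ w b = 1)
    (hy : ∀ a ∈ A, ∀ a' ∈ A, a ≠ a' → (y a ⬝ᵥ y a') ^ 2 ≠ 1)
    (hw : ∀ b ∈ B, ∀ b' ∈ B, b ≠ b' → (w b ⬝ᵥ w b') ^ 2 ≠ 1) :
    (#{x ∈ A ×ˢ B | y x.1 ⬝ᵥ w x.2 = 0} : ℝ) ≤
      444000 * (((#A : ℝ) * #B) ^ (2 / 3 : ℝ) + #A + #B) := by
  have key : ∀ u v : Fin 3 → K, u ⬝ᵥ u = 1 → v ⬝ᵥ v = 1 → ∀ c : K, u = c • v →
      (u ⬝ᵥ v) ^ 2 = 1 := fun u v h1 h2 c e => by
    rw [e, smul_dotProduct, dotProduct_smul, h2] at h1
    rw [e, smul_dotProduct, h2]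
    simp only [smul_eq_mul, mul_one] at h1 ⊢
    rw [sq, h1]
  refine st_orth A B y w (fun a ha e => ?_) (fun b hb e => ?_)
    (fun a ha a' ha' c e => by_contra fun n => hy a ha a' ha' n (key _ _ (y1 a ha) (y1 a' ha') c e))
    fun a ha a' ha' c e => by_contra fun n => hw a ha a' ha' n (key _ _ (w1 a ha) (w1 a' ha') c e)
  · simpa [e] using y1 a ha
  · simpa [e] using w1 b hb

end Pool.Agent.Lib.MP_abd417_co.Up.ST
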