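import Pool.Agent.Lib.MP_abd417_co.Up.Conf

/-! From large sets to all sets. -/

namespace Pool.Agent.Lib.MP_abd417_co.Up

open Finset

theorem bases_le_pow (V : Finset (EuclideanSpace ℝ (Fin 3))) : bases V ≤ 2 ^ #V := by
  classical
  unfold bases
  rw [← card_powerset V, ← Set.ncard_coe_finset]
  refine Set.ncard_le_ncard (fun T hT => ?_) (Finset.finite_toSet _)
  exact mem_coe.2 (mem_powerset.2 hT.1)

theorem bases_empty : bases ∅ = 0 := by
  unfold bases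
  have : {T : Finset (EuclideanSpace ℝ (Fin 3)) | T ⊆ ∅ ∧ T.card = 3 ∧
      ∀ u ∈ T, ∀ v ∈ T, u ≠ v → inner ℝ u v = 0} = ∅ := by
    refine Set.eq_empty_of_forall_notMem fun T hT => ?_
    have h1 : T = ∅ := subset_empty.1 hT.1
    have h2 := hT.2.1
    rw [h1] at h2
    simp at h2
  rw [this, Set.ncard_empty]

/-- The bound for every finite set of unit vectors. -/
theorem all_of (h1 : Blk14) (h2 : Blk510) :
    ∃ η : ℝ, 0 < η ∧ ∃ C : ℝ, ∀ V : Finset (EuclideanSpace ℝ (Fin 3)), (∀ v ∈ V, ‖v‖ = 1) →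
      (({T : Finset (EuclideanSpace ℝ (Fin 3)) | T ⊆ V ∧ T.card = 3 ∧
        ∀ u ∈ T, ∀ v ∈ T, u ≠ v → inner ℝ u v = 0}.ncard : ℕ) : ℝ) ≤
        C * (V.card : ℝ) ^ (4 / 3 - η) := by
  obtain ⟨η, hη, n0, h⟩ := final_of h1 h2
  refine ⟨min η (1 / 3), lt_min hη (by norm_num), 2 ^ n0, fun V hV => ?_⟩
  change (bases V : ℝ) ≤ _
  rcases V.eq_empty_or_nonempty with rfl | hne
  · rw [bases_empty]
    simp only [Nat.cast_zero, card_empty]
    positivity
  have hc : (1 : ℝ) ≤ #V := by exact_mod_cast card_pos.2 hne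
  have he : (0 : ℝ) ≤ 4 / 3 - min η (1 / 3) := by
    have := min_le_right η (1 / 3 : ℝ)
    linarith
  have h1' : (1 : ℝ) ≤ (#V : ℝ) ^ (4 / 3 - min η (1 / 3)) := Real.one_le_rpow hc he
  have h2' : (1 : ℝ) ≤ 2 ^ n0 := one_le_pow₀ (by norm_num)
  by_cases hn : n0 ≤ #V
  · have a := (h V hn hV).le
    have b : (#V : ℝ) ^ (4 / 3 - η) ≤ (#V : ℝ) ^ (4 / 3 - min η (1 / 3)) :=
      Real.rpow_le_rpow_of_exponent_le hc (by have := min_le_left η (1 / 3 : ℝ); linarith)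
    nlinarith
  · have a : (bases V : ℝ) ≤ 2 ^ #V := by exact_mod_cast bases_le_pow V
    have b : (2 : ℝ) ^ #V ≤ 2 ^ n0 := pow_le_pow_right₀ (by norm_num) (not_le.1 hn).le
    nlinarith

end Pool.Agent.Lib.MP_abd417_co.Up
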