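import Mathlib

/-! Step 9 of the upper bound, definition free: the numeric assembly over places, the spread
bound, the diagonal bound, the product formula under the mate law, the choice of one shift. -/

open Finset

namespace AbdUp.Asm

/-- (n) Numeric assembly over the (true) places. -/
theorem numeric (al be C sg ga c2 : ℝ) (hal : 0 < al) (hbe : 0 < be) (hC : 0 ≤ C) (hsg : 0 < sg)
    (hga : 0 < ga) (hc2 : 0 < c2) :
    ∃ c5 : ℝ, 0 < c5 ∧ ∀ (P : Type) [Fintype P] (w L E W Bad : P → ℝ) (arch fine : P → Prop)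
      [DecidablePred arch] [DecidablePred fine] (S : ℝ),
      (∀ p, 0 ≤ w p) → (∀ p, 0 ≤ W p) → (∀ p, 0 ≤ Bad p) →
      (∑ p, (if arch p then w p else 0) = 1) →
      (0 ≤ ∑ p, w p * L p) → (sg * S - C ≤ ∑ p, w p * E p) →
      (∀ p, L p ≤ al * Bad p - be * W p + (if arch p then C else 0)) →
      (∀ p, E p ≤ W p + al * Bad p + (if arch p then C else 0)) →
      (∀ p, arch p → fine p ∨ ga ≤ Bad p ∨ L p ≤ al * Bad p - c2) →
      c5 * S ≤ ∑ p, w p * Bad p + ∑ p, (if arch p ∧ fine p then w p else 0) := by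
  set K1 : ℝ := al + (C + c2) / ga + (C + c2) with hK1
  have hK1p : 0 < K1 := by positivity
  set K2 : ℝ := al / be + al + (C / be + 2 * C) * (K1 / c2) with hK2
  have hK2p : 0 < K2 := by positivity
  refine ⟨sg / K2, by positivity, ?_⟩
  intro P _ w L E W Bad arch fine _ _ S hw hW hB h1 hL hE hLw hEw h3
  set B : ℝ := ∑ p, w p * Bad p with hBdef
  set A : ℝ := ∑ p, (if arch p ∧ fine p then w p else 0) with hAdef
  set Wt : ℝ := ∑ p, w p * W p with hWt
  have hB0 : 0 ≤ B := sum_nonneg fun p _ => mul_nonneg (hw p) (hB p)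
  have hA0 : 0 ≤ A := sum_nonneg fun p _ => by split_ifs <;> [exact hw p; exact le_rfl]
  have hCs : ∀ c : ℝ, ∑ p, w p * (if arch p then c else 0) = c := by
    intro c
    calc ∑ p, w p * (if arch p then c else 0) = ∑ p, (if arch p then w p else 0) * c :=
          sum_congr rfl fun p _ => by split_ifs <;> simp
      _ = c := by rw [← sum_mul, h1, one_mul]
  have e1 : 0 ≤ al * B - be * Wt + C := by
    refine hL.trans ((sum_le_sum fun p _ => mul_le_mul_of_nonneg_left (hLw p) (hw p)).trans_eq ?_)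
    rw [← hCs C, hBdef, hWt, mul_sum, mul_sum, ← sum_sub_distrib, ← sum_add_distrib]
    refine sum_congr rfl fun p _ => ?_
    rw [hCs C]; ring
  have e2 : sg * S - C ≤ Wt + al * B + C := by
    refine hE.trans ((sum_le_sum fun p _ => mul_le_mul_of_nonneg_left (hEw p) (hw p)).trans_eq ?_)
    rw [← hCs C, hBdef, hWt, mul_sum, ← sum_add_distrib, ← sum_add_distrib]
    refine sum_congr rfl fun p _ => ?_
    rw [hCs C]; ring
  have e3 : 0 ≤ (al + (C + c2) / ga) * B - c2 + (C + c2) * A := by
    have hp : ∀ p, w p * L p ≤ (al + (C + c2) / ga) * (w p * Bad p)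
        - w p * (if arch p then c2 else 0)
        + (C + c2) * (if arch p ∧ fine p then w p else 0) := by
      intro p
      have hq : 0 ≤ (C + c2) / ga * Bad p := mul_nonneg (by positivity) (hB p)
      have hWp : 0 ≤ be * W p := mul_nonneg hbe.le (hW p)
      have hl := hLw p
      by_cases ha : arch p
      · rw [if_pos ha] at hl
        rw [if_pos ha]
        by_cases hf : fine p
        · rw [if_pos ⟨ha, hf⟩]
          have : L p ≤ (al + (C + c2) / ga) * Bad p - c2 + (C + c2) := by nlinarith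
          nlinarith [mul_le_mul_of_nonneg_left this (hw p)]
        · rw [if_neg (fun h => hf h.2)]
          have : L p ≤ (al + (C + c2) / ga) * Bad p - c2 := by
            rcases h3 p ha with h | h | h
            · exact absurd h hf
            · have : C + c2 ≤ (C + c2) / ga * Bad p := by
                calc C + c2 = (C + c2) / ga * ga := by field_simp
                  _ ≤ _ := mul_le_mul_of_nonneg_left h (by positivity)
              nlinarith
            · nlinarith
          nlinarith [mul_le_mul_of_nonneg_left this (hw p)]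
      · rw [if_neg ha] at hl
        rw [if_neg ha, if_neg (fun h => ha h.1)]
        have : L p ≤ (al + (C + c2) / ga) * Bad p := by nlinarith
        nlinarith [mul_le_mul_of_nonneg_left this (hw p)]
    refine hL.trans ((sum_le_sum fun p _ => hp p).trans_eq ?_)
    rw [sum_add_distrib, sum_sub_distrib, ← mul_sum, ← mul_sum, hCs c2]
  have e4 : c2 ≤ K1 * (B + A) := by
    have h5 : 0 ≤ (C + c2) * B := by positivity
    have h6 : 0 ≤ (al + (C + c2) / ga) * A := by positivity
    rw [hK1]; nlinarith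
  have e5 : 1 ≤ K1 / c2 * (B + A) := by
    rw [div_mul_eq_mul_div, le_div_iff₀ hc2]; linarith
  have e6 : Wt ≤ al / be * B + C / be := by
    rw [div_mul_eq_mul_div, ← add_div, le_div_iff₀ hbe]; linarith
  have e7 : C / be + 2 * C ≤ (C / be + 2 * C) * (K1 / c2 * (B + A)) :=
    le_mul_of_one_le_right (by positivity) e5
  have e8 : 0 ≤ (al / be + al) * A := by positivity
  rw [div_mul_eq_mul_div, div_le_iff₀ hK2p, hK2]
  nlinarith

/-- (n') The same with an error `ep * E` in the wall bound (`2 ep ≤ be`) and the arch alternative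
only asked when the good weight is at most `L0` and the bad weight at most `ga`. -/
theorem numeric' (al be C sg ga c2 ep L0 : ℝ) (hal : 0 < al) (hbe : 0 < be) (hC : 0 ≤ C)
    (hsg : 0 < sg) (hga : 0 < ga) (hc2 : 0 < c2) (hep : 0 ≤ ep) (hep2 : 2 * ep ≤ be)
    (hL0 : (1 + ep) * C + c2 ≤ be / 2 * L0) :
    ∃ c5 : ℝ, 0 < c5 ∧ ∀ (P : Type) [Fintype P] (w L E W Bad : P → ℝ) (arch fine : P → Prop)
      [DecidablePred arch] [DecidablePred fine] (S : ℝ),
      (∀ p, 0 ≤ w p) → (∀ p, 0 ≤ W p) → (∀ p, 0 ≤ Bad p) →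
      (∑ p, (if arch p then w p else 0) = 1) →
      (0 ≤ ∑ p, w p * L p) → (sg * S - C ≤ ∑ p, w p * E p) →
      (∀ p, L p ≤ al * Bad p - be * W p + ep * E p + (if arch p then C else 0)) →
      (∀ p, E p ≤ W p + al * Bad p + (if arch p then C else 0)) →
      (∀ p, arch p → W p ≤ L0 → Bad p ≤ ga → fine p ∨ L p ≤ -c2) →
      c5 * S ≤ ∑ p, w p * Bad p + ∑ p, (if arch p ∧ fine p then w p else 0) := by
  obtain ⟨c5, hc5, H⟩ := numeric ((1 + ep) * al) (be / 2) ((1 + ep) * C) sg ga c2
    (by positivity) (by positivity) (by positivity) hsg hga hc2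
  refine ⟨c5, hc5, ?_⟩
  intro P _ w L E W Bad arch fine _ _ S hw hW hB h1 hL hE hLw hEw h3
  have hCe : 0 ≤ ep * C := mul_nonneg hep hC
  have hL' : ∀ p, L p ≤ (1 + ep) * al * Bad p - be / 2 * W p
      + (if arch p then (1 + ep) * C else 0) := by
    intro p
    have a1 := hLw p
    have a2 := mul_le_mul_of_nonneg_left (hEw p) hep
    have a3 := mul_le_mul_of_nonneg_right hep2 (hW p)
    split_ifs at a1 a2 ⊢ <;> nlinarith
  refine H P w L E W Bad arch fine S hw hW hB h1 hL (by nlinarith) hL' (fun p => ?_) (fun p ha => ?_)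
  · have a1 := hEw p
    have a2 : 0 ≤ ep * (al * Bad p) := mul_nonneg hep (mul_nonneg hal.le (hB p))
    split_ifs at a1 ⊢ <;> nlinarith
  · have a0 : 0 ≤ (1 + ep) * al * Bad p := mul_nonneg (by positivity) (hB p)
    by_cases hw0 : W p ≤ L0
    · by_cases hb0 : Bad p ≤ ga
      · rcases h3 p ha hw0 hb0 with h | h
        · exact Or.inl h
        · exact Or.inr (Or.inr (by linarith))
      · exact Or.inr (Or.inl (not_le.mp hb0).le)
    · have a1 := hL' p
      rw [if_pos ha] at a1
      have a2 := mul_le_mul_of_nonneg_left (not_le.mp hw0).le (by positivity : 0 ≤ be / 2)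
      exact Or.inr (Or.inr (by linarith))

/-- (s) Spread: light balls force a large mean distance (unnormalised). -/
theorem spread {F : Type*} [Fintype F] (mu mu0 : F → ℝ) (d : F → F → ℝ) (r tau : ℝ)
    (hmu : ∀ g, 0 ≤ mu g) (hle : ∀ g, mu g ≤ mu0 g) (hd : ∀ g h, 0 ≤ d g h) (hr : 0 ≤ r)
    (htau : tau ≤ ∑ g, mu g)
    (hball : ∀ g, ∑ h, (if d g h ≤ r then mu0 h else 0) ≤ tau / 2) :
    r / 2 * (∑ g, mu g) ^ 2 ≤ ∑ g, ∑ h, mu g * mu h * d g h := by
  have key : ∀ g, r / 2 * ∑ h, mu h ≤ ∑ h, mu h * d g h := by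
    intro g
    have h1 : ∑ h, (r * mu h - r * (if d g h ≤ r then mu0 h else 0)) ≤ ∑ h, mu h * d g h := by
      refine sum_le_sum fun h _ => ?_
      split_ifs with hh
      · nlinarith [mul_nonneg (hmu h) (hd g h), mul_le_mul_of_nonneg_left (hle h) hr]
      · nlinarith [mul_le_mul_of_nonneg_left (le_of_lt (not_le.mp hh)) (hmu h)]
    rw [sum_sub_distrib, ← mul_sum, ← mul_sum] at h1
    nlinarith [mul_le_mul_of_nonneg_left (hball g) hr, mul_le_mul_of_nonneg_left htau hr]
  calc r / 2 * (∑ g, mu g) ^ 2 = ∑ g, mu g * (r / 2 * ∑ h, mu h) := by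
        rw [← sum_mul]; ring
    _ ≤ ∑ g, mu g * ∑ h, mu h * d g h :=
        sum_le_sum fun g _ => mul_le_mul_of_nonneg_left (key g) (hmu g)
    _ = _ := sum_congr rfl fun g _ => by
        rw [mul_sum]; exact sum_congr rfl fun h _ => by ring

/-- (s') Spread for a law `nu = mu / mass`. -/
theorem spread_law {F : Type*} [Fintype F] (nu : F → ℝ) (d : F → F → ℝ) (r : ℝ)
    (hnu : ∀ g, 0 ≤ nu g) (h1 : ∑ g, nu g = 1) (hd : ∀ g h, 0 ≤ d g h) (hr : 0 ≤ r)
    (hball : ∀ g, ∑ h, (if d g h ≤ r then nu h else 0) ≤ 1 / 2) :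
    r / 2 ≤ ∑ g, ∑ h, nu g * nu h * d g h := by
  have := spread nu nu d r 1 hnu (fun _ => le_rfl) hd hr h1.ge hball
  rwa [h1, one_pow, mul_one] at this

/-- (d) Diagonal of the mate law: at most (number of vertices) times the largest atom. -/
theorem diag {F V : Type*} [Fintype F] [DecidableEq V] (u : F → V) (nu : F → ℝ) (a : ℝ)
    (hnu : ∀ g, 0 ≤ nu g) (ha : ∀ g, nu g ≤ a) (ha0 : 0 ≤ a) (Y : Finset V) (hY : ∀ g, u g ∈ Y) :
    ∑ g, nu g * nu g / (∑ h, if u h = u g then nu h else 0) ≤ (Y.card : ℝ) * a := by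
  have hst : ∀ y, 0 ≤ ∑ h, (if u h = y then nu h else 0) := fun y =>
    sum_nonneg fun h _ => by split_ifs <;> [exact hnu h; exact le_rfl]
  calc ∑ g, nu g * nu g / (∑ h, if u h = u g then nu h else 0)
      ≤ ∑ g, a * (nu g / (∑ h, if u h = u g then nu h else 0)) := by
        refine sum_le_sum fun g _ => ?_
        rw [mul_div_assoc]
        exact mul_le_mul_of_nonneg_right (ha g) (div_nonneg (hnu g) (hst _))
    _ = ∑ g, ∑ y ∈ Y, a * ((if u g = y then nu g else 0) / (∑ h, if u h = y then nu h else 0)) := by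
        refine sum_congr rfl fun g _ => ?_
        rw [sum_eq_single (u g)]
        · rw [if_pos rfl]
        · intro y _ hy; rw [if_neg (fun h => hy h.symm)]; simp
        · intro h; exact absurd (hY g) h
    _ = ∑ y ∈ Y, a * ((∑ g, if u g = y then nu g else 0) / (∑ h, if u h = y then nu h else 0)) := by
        rw [sum_comm]
        exact sum_congr rfl fun y _ => by rw [← mul_sum, ← sum_div]
    _ ≤ ∑ _y ∈ Y, a := sum_le_sum fun y _ => mul_le_of_le_one_right ha0 (div_self_le_one _)
    _ = _ := by rw [sum_const, nsmul_eq_mul]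

/-- (p) The product formula under any pair law carried by the pairs where it holds. -/
theorem product {P I F : Type*} [Fintype P] [Fintype I] [Fintype F] (w : P → ℝ)
    (pr : I → F → F → ℝ) (L : P → I → F → F → ℝ)
    (h : ∀ i g g1, pr i g g1 ≠ 0 → ∑ p, w p * L p i g g1 = 0) :
    ∑ p, w p * ∑ i, ∑ g, ∑ g1, pr i g g1 * L p i g g1 = 0 := by
  calc ∑ p, w p * ∑ i, ∑ g, ∑ g1, pr i g g1 * L p i g g1
      = ∑ p, ∑ i, ∑ g, ∑ g1, pr i g g1 * (w p * L p i g g1) := by
        refine sum_congr rfl fun p _ => ?_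
        simp only [mul_sum]
        exact sum_congr rfl fun i _ => sum_congr rfl fun g _ => sum_congr rfl fun g1 _ => by ring
    _ = ∑ i, ∑ g, ∑ g1, pr i g g1 * ∑ p, w p * L p i g g1 := by
        rw [sum_comm]
        refine sum_congr rfl fun i _ => ?_
        rw [sum_comm]
        refine sum_congr rfl fun g _ => ?_
        rw [sum_comm]
        exact sum_congr rfl fun g1 _ => by rw [mul_sum]
    _ = 0 := by
        refine sum_eq_zero fun i _ => sum_eq_zero fun g _ => sum_eq_zero fun g1 _ => ?_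
        by_cases h0 : pr i g g1 = 0
        · rw [h0, zero_mul]
        · rw [h i g g1 h0, mul_zero]

/-- (t) One shift that is good for finitely many averages at once (Markov). -/
theorem exists_shift {T J : Type*} [Fintype T] [Nonempty T] [Fintype J] (f : J → T → ℝ)
    (a : J → ℝ) (ha : ∀ j, 0 < a j) (hf : ∀ j t, 0 ≤ f j t)
    (hav : ∀ j, ∑ t, f j t ≤ (Fintype.card T : ℝ) * a j) :
    ∃ t, ∀ j, f j t ≤ (Fintype.card J : ℝ) * a j := by
  have h1 : ∑ t : T, ∑ j, f j t / a j ≤ ∑ _t : T, (Fintype.card J : ℝ) := by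
    rw [sum_comm]
    calc ∑ j, ∑ t, f j t / a j ≤ ∑ _j : J, (Fintype.card T : ℝ) := by
          refine sum_le_sum fun j _ => ?_
          rw [← sum_div, div_le_iff₀ (ha j)]; exact hav j
      _ = _ := by simp [mul_comm]
  obtain ⟨t, -, ht⟩ := exists_le_of_sum_le univ_nonempty h1
  refine ⟨t, fun j => ?_⟩
  rw [← div_le_iff₀ (ha j)]
  exact (single_le_sum (f := fun j => f j t / a j)
    (fun j _ => div_nonneg (hf j t) (ha j).le) (mem_univ j)).trans ht

end AbdUp.Asm
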