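import Mathlib

/-! Random dyadic squares, integer model: points, levels and the counts over the shifts. -/

namespace Pool.Agent.Lib.MP_abd417_co.Up.Aw

open Finset

/-- A point of the integer model: two coordinates and the binary logarithm of the height. -/
structure Pt where
  x : ℕ
  y : ℕ
  h : ℕ

/-- The level at which two points meet. -/
def lv (p q : Pt) : ℕ :=
  max (max p.h q.h) (max (Nat.clog 2 (Nat.dist p.x q.x)) (Nat.clog 2 (Nat.dist p.y q.y)))

/-- The dyadic square of level `k` for the shift `t`. -/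
def cl (t : ℕ × ℕ) (k : ℕ) (p : Pt) : ℕ × ℕ := ((p.x + t.1) / 2 ^ k, (p.y + t.2) / 2 ^ k)

/-- The point is within `2 ^ j` of another square of level `k`. -/
def Bd (t : ℕ × ℕ) (k j : ℕ) (p : Pt) : Prop :=
  ∃ q : Pt, Nat.dist p.x q.x ≤ 2 ^ j ∧ Nat.dist p.y q.y ≤ 2 ^ j ∧ cl t k p ≠ cl t k q

/-- The shifts. -/
def Sh (K : ℕ) : Finset (ℕ × ℕ) := range (2 ^ K) ×ˢ range (2 ^ K)

theorem lv_le_iff (p q : Pt) (j : ℕ) : lv p q ≤ j ↔
    p.h ≤ j ∧ q.h ≤ j ∧ Nat.dist p.x q.x ≤ 2 ^ j ∧ Nat.dist p.y q.y ≤ 2 ^ j := by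
  unfold lv
  rw [max_le_iff, max_le_iff, max_le_iff, Nat.clog_le_iff_le_pow (by norm_num),
    Nat.clog_le_iff_le_pow (by norm_num)]
  tauto

theorem lv_comm (p q : Pt) : lv p q = lv q p := by
  unfold lv
  rw [max_comm p.h, Nat.dist_comm p.x, Nat.dist_comm p.y]

theorem le_lv (p q : Pt) : p.h ≤ lv p q := ((lv_le_iff p q _).1 le_rfl).1

theorem le_lv' (p q : Pt) : q.h ≤ lv p q := ((lv_le_iff p q _).1 le_rfl).2.1

theorem lv_tri (p q r : Pt) : lv q r ≤ max (lv p q) (lv p r) + 1 := by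
  obtain ⟨-, a1, a2, a3⟩ := (lv_le_iff p q _).1 (le_max_left (lv p q) (lv p r))
  obtain ⟨-, b1, b2, b3⟩ := (lv_le_iff p r _).1 (le_max_right (lv p q) (lv p r))
  rw [lv_le_iff, pow_succ]
  unfold Nat.dist at *
  omega

theorem cl_mono {t : ℕ × ℕ} {k j : ℕ} {p q : Pt} (h : cl t k p = cl t k q) (hk : k ≤ j) :
    cl t j p = cl t j q := by
  obtain ⟨i, rfl⟩ := Nat.exists_eq_add_of_le hk
  unfold cl at *
  rw [Prod.mk.injEq] at *
  simp only [pow_add, ← Nat.div_div_eq_div_mul, h.1, h.2, and_self]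

theorem dist_le_of_div {a b n : ℕ} (hn : 0 < n) (h : a / n = b / n) : Nat.dist a b ≤ n := by
  have h1 := Nat.div_add_mod a n
  have h2 := Nat.div_add_mod b n
  have h3 := Nat.mod_lt a hn
  have h4 := Nat.mod_lt b hn
  rw [h] at h1
  unfold Nat.dist
  omega

theorem lv_le_of_cl {t : ℕ × ℕ} {k : ℕ} {p q : Pt} (hp : p.h ≤ k) (hq : q.h ≤ k)
    (h : cl t k p = cl t k q) : lv p q ≤ k := by
  unfold cl at h
  rw [Prod.mk.injEq] at h
  have h1 := dist_le_of_div (by positivity) h.1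
  have h2 := dist_le_of_div (by positivity) h.2
  rw [lv_le_iff]
  unfold Nat.dist at *
  omega

theorem bd_of_ne {t : ℕ × ℕ} {k j : ℕ} {p q : Pt} (hj : lv p q ≤ j) (h : cl t k p ≠ cl t k q) :
    Bd t k j p :=
  ⟨q, ((lv_le_iff p q j).1 hj).2.2.1, ((lv_le_iff p q j).1 hj).2.2.2, h⟩

theorem edge_of_ne {a b n r : ℕ} (hn : 0 < n) (hd : Nat.dist a b ≤ r) (h : a / n ≠ b / n) :
    a % n < r ∨ n ≤ a % n + r := by
  by_contra hc
  apply h
  have h1 := Nat.div_add_mod a n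
  symm
  rw [Nat.div_eq_iff hn, mul_comm]
  unfold Nat.dist at hd
  omega

theorem count_one (x r k K : ℕ) (hk : k ≤ K) :
    ((range (2 ^ K)).filter (fun t => (x + t) % 2 ^ k < r ∨ 2 ^ k ≤ (x + t) % 2 ^ k + r)).card
      * 2 ^ k ≤ 2 * r * 2 ^ K := by
  obtain ⟨i, rfl⟩ := Nat.exists_eq_add_of_le hk
  have hn : 0 < 2 ^ k := by positivity
  have h1 : ((range (2 ^ (k + i))).filter
      (fun t => (x + t) % 2 ^ k < r ∨ 2 ^ k ≤ (x + t) % 2 ^ k + r)).card ≤
      ((range r ∪ Ico (2 ^ k - r) (2 ^ k)) ×ˢ range (2 ^ i)).card := by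
    refine card_le_card_of_injOn (fun t => ((x + t) % 2 ^ k, t / 2 ^ k)) ?_ ?_
    · intro t ht
      simp only [coe_filter, mem_range, Set.mem_ofPred_eq] at ht
      have h2 := Nat.mod_lt (x + t) hn
      simp only [coe_product, coe_union, coe_range, coe_Ico, Set.mem_prod, Set.mem_union,
        Set.mem_Iio, Set.mem_Ico]
      refine ⟨by omega, ?_⟩
      rw [Nat.div_lt_iff_lt_mul hn, mul_comm, ← pow_add]
      exact ht.1
    · intro a _ b _ hab
      simp only [Prod.mk.injEq] at hab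
      have h2 : a % 2 ^ k = b % 2 ^ k := Nat.ModEq.add_left_cancel' x hab.1
      rw [← Nat.div_add_mod a (2 ^ k), ← Nat.div_add_mod b (2 ^ k), h2, hab.2]
  have h2 : (range r ∪ Ico (2 ^ k - r) (2 ^ k)).card ≤ 2 * r := by
    refine (card_union_le _ _).trans ?_
    rw [card_range, Nat.card_Ico]
    omega
  rw [card_product, card_range] at h1
  calc _ ≤ (2 * r * 2 ^ i) * 2 ^ k :=
        Nat.mul_le_mul_right _ (h1.trans (Nat.mul_le_mul_right _ h2))
    _ = _ := by rw [pow_add]; ring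

open Classical in
theorem count_bd (p : Pt) (k j K : ℕ) (hk : k ≤ K) :
    ((Sh K).filter (fun t => Bd t k j p)).card * 2 ^ k ≤ 4 * 2 ^ j * (Sh K).card := by
  have hn : 0 < 2 ^ k := by positivity
  set A := (range (2 ^ K)).filter
    (fun t => (p.x + t) % 2 ^ k < 2 ^ j ∨ 2 ^ k ≤ (p.x + t) % 2 ^ k + 2 ^ j) with hA
  set B := (range (2 ^ K)).filter
    (fun t => (p.y + t) % 2 ^ k < 2 ^ j ∨ 2 ^ k ≤ (p.y + t) % 2 ^ k + 2 ^ j) with hB
  have h1 : (Sh K).filter (fun t => Bd t k j p) ⊆ A ×ˢ range (2 ^ K) ∪ range (2 ^ K) ×ˢ B := by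
    intro t ht
    rw [mem_filter, Sh, mem_product] at ht
    obtain ⟨⟨t1, t2⟩, q, q1, q2, q3⟩ := ht
    rw [mem_union, mem_product, mem_product, hA, hB, mem_filter, mem_filter]
    by_cases h : (p.x + t.1) / 2 ^ k = (q.x + t.1) / 2 ^ k
    · right
      refine ⟨t1, t2, edge_of_ne (b := q.y + t.2) hn ?_ fun h' => q3 ?_⟩
      · unfold Nat.dist at *
        omega
      · unfold cl
        rw [h, h']
    · left
      refine ⟨⟨t1, edge_of_ne hn ?_ h⟩, t2⟩
      unfold Nat.dist at *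
      omega
  have h2 := (card_le_card h1).trans (card_union_le _ _)
  have h3 := count_one p.x (2 ^ j) k K hk
  have h4 := count_one p.y (2 ^ j) k K hk
  rw [← hA] at h3
  rw [← hB] at h4
  rw [card_product, card_product, card_range] at h2
  rw [show (Sh K).card = 2 ^ K * 2 ^ K by rw [Sh, card_product, card_range]]
  calc _ ≤ (A.card * 2 ^ K + 2 ^ K * B.card) * 2 ^ k := Nat.mul_le_mul_right _ h2
    _ = 2 ^ K * (A.card * 2 ^ k) + 2 ^ K * (B.card * 2 ^ k) := by ring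
    _ ≤ 2 ^ K * (2 * 2 ^ j * 2 ^ K) + 2 ^ K * (2 * 2 ^ j * 2 ^ K) :=
        Nat.add_le_add (Nat.mul_le_mul_left _ h3) (Nat.mul_le_mul_left _ h4)
    _ = _ := by ring

open Classical in
theorem sum_bd (p : Pt) (k j K : ℕ) (hk : k ≤ K) :
    ∑ t ∈ Sh K, (if Bd t k j p then (1 : ℝ) else 0) ≤ 4 * 2 ^ j / 2 ^ k * (Sh K).card := by
  have h := count_bd p k j K hk
  rw [sum_boole, div_mul_eq_mul_div, le_div_iff₀ (by positivity)]
  exact_mod_cast h

open Classical in
/-- The number of levels from `j` on where the point is within `2 ^ j` of another square. -/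
noncomputable def vn (K : ℕ) (t : ℕ × ℕ) (j : ℕ) (p : Pt) : ℕ :=
  ((Ico j (K + 1)).filter (fun k => Bd t k j p)).card

open Classical in
/-- The boundary loss on the way up from `p` to the level `m`. -/
noncomputable def cn (E : ℕ) (t : ℕ × ℕ) (p : Pt) (m : ℕ) : ℕ :=
  ∑ k ∈ Icc p.h m, ((range (k - E)).filter (fun j => Bd t k j p)).card

theorem card_sq_le (j : ℕ) (s : Finset ℕ) (hs : ∀ k ∈ s, j ≤ k) :
    s.card ^ 2 ≤ ∑ k ∈ s, (2 * (k - j) + 1) := by
  induction s using Finset.induction_on_max with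
  | empty => simp
  | insert a s ha ih =>
    have h1 : a ∉ s := fun h => lt_irrefl _ (ha a h)
    have h2 := ih fun k hk => hs k (mem_insert_of_mem hk)
    have h3 : s.card ≤ a - j := by
      rw [← Nat.card_Ico]
      exact card_le_card fun k hk => mem_Ico.2 ⟨hs k (mem_insert_of_mem hk), ha k hk⟩
    rw [card_insert_of_notMem h1, sum_insert h1]
    nlinarith

theorem geo_sum (n : ℕ) :
    ∑ i ∈ range n, (2 * (i : ℝ) + 1) / 2 ^ i = 6 - (4 * n + 6) / 2 ^ n := by
  induction n with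
  | zero => norm_num
  | succ n ih =>
    rw [sum_range_succ, ih]
    push_cast
    field_simp
    ring

theorem sum_vn_sq (K j : ℕ) (p : Pt) :
    ∑ t ∈ Sh K, (vn K t j p : ℝ) ^ 2 ≤ 24 * (Sh K).card := by
  classical
  have h1 : ∀ t, (vn K t j p : ℝ) ^ 2 ≤
      ∑ k ∈ Ico j (K + 1), (2 * ((k - j : ℕ) : ℝ) + 1) * (if Bd t k j p then (1 : ℝ) else 0) := by
    intro t
    have h := card_sq_le j ((Ico j (K + 1)).filter (fun k => Bd t k j p))
      fun k hk => (mem_Ico.1 (mem_filter.1 hk).1).1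
    have h' : (vn K t j p : ℝ) ^ 2 ≤ ∑ k ∈ (Ico j (K + 1)).filter (fun k => Bd t k j p),
        (2 * ((k - j : ℕ) : ℝ) + 1) := by
      unfold vn
      exact_mod_cast h
    refine h'.trans (le_of_eq ?_)
    rw [sum_filter]
    exact sum_congr rfl fun k _ => by split_ifs <;> simp
  refine (sum_le_sum fun t _ => h1 t).trans ?_
  rw [sum_comm]
  have h2 : ∀ k ∈ Ico j (K + 1), ∑ t ∈ Sh K, (2 * ((k - j : ℕ) : ℝ) + 1) *
      (if Bd t k j p then (1 : ℝ) else 0) ≤
      (2 * ((k - j : ℕ) : ℝ) + 1) / 2 ^ (k - j) * (4 * (Sh K).card) := by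
    intro k hk
    rw [mem_Ico] at hk
    rw [← mul_sum]
    refine (mul_le_mul_of_nonneg_left (sum_bd p k j K (by omega)) (by positivity)).trans
      (le_of_eq ?_)
    obtain ⟨i, rfl⟩ := Nat.exists_eq_add_of_le hk.1
    rw [Nat.add_sub_cancel_left, pow_add]
    field_simp
  refine (sum_le_sum h2).trans ?_
  rw [← sum_mul, sum_Ico_eq_sum_range]
  simp only [Nat.add_sub_cancel_left]
  rw [geo_sum]
  have h3 : (0 : ℝ) ≤ (4 * ((K + 1 - j : ℕ) : ℝ) + 6) / 2 ^ (K + 1 - j) := by positivity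
  have h4 : (0 : ℝ) ≤ (Sh K).card := by positivity
  nlinarith

theorem sum_vn (K j : ℕ) (p : Pt) : ∑ t ∈ Sh K, (vn K t j p : ℝ) ≤ 24 * (Sh K).card := by
  refine le_trans (sum_le_sum fun t _ => ?_) (sum_vn_sq K j p)
  exact_mod_cast Nat.le_self_pow (by norm_num) _

theorem sum_cn (K E m : ℕ) (p : Pt) (hm : m ≤ K) :
    ∑ t ∈ Sh K, (cn E t p m : ℝ) ≤ ((m + 1 - p.h : ℕ) : ℝ) * (4 / 2 ^ E * (Sh K).card) := by
  classical
  have h1 : ∀ t, (cn E t p m : ℝ) =
      ∑ k ∈ Icc p.h m, ∑ j ∈ range (k - E), (if Bd t k j p then (1 : ℝ) else 0) := by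
    intro t
    unfold cn
    push_cast
    exact sum_congr rfl fun k _ => by rw [sum_boole]
  simp only [h1]
  rw [sum_comm, ← Nat.card_Icc, ← nsmul_eq_mul]
  refine sum_le_card_nsmul _ _ _ fun k hk => ?_
  rw [mem_Icc] at hk
  rw [sum_comm]
  refine (sum_le_sum fun j _ => sum_bd p k j K (by omega)).trans ?_
  rw [← sum_mul, ← sum_div, ← mul_sum]
  refine mul_le_mul_of_nonneg_right ?_ (by positivity)
  rcases le_total k E with h | h
  · rw [Nat.sub_eq_zero_of_le h]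
    simp only [range_zero, sum_empty, mul_zero, zero_div]
    positivity
  · obtain ⟨i, rfl⟩ := Nat.exists_eq_add_of_le h
    rw [Nat.add_sub_cancel_left, geom_sum_eq (by norm_num), pow_add,
      div_le_div_iff₀ (by positivity) (by positivity)]
    have : (0 : ℝ) < 2 ^ E := by positivity
    nlinarith

end Pool.Agent.Lib.MP_abd417_co.Up.Aw
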