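import Pool.Agent.Lib.MP_abd417_co.Up.Aw1

/-! Random dyadic squares, integer model: the walls. -/

namespace Pool.Agent.Lib.MP_abd417_co.Up.Aw

open Finset

/-- The point lies below the square `l.2` of level `l.1`. -/
def mem (t : ℕ × ℕ) (l : ℕ × ℕ × ℕ) (p : Pt) : Prop := p.h ≤ l.1 ∧ cl t l.1 p = l.2

/-- The index set of the walls. -/
def Wl (K : ℕ) : Finset (ℕ × ℕ × ℕ) :=
  range (K + 1) ×ˢ (range (2 ^ (K + 1)) ×ˢ range (2 ^ (K + 1)))

/-- The point lies in the box of size `K`. -/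
def Ok (K : ℕ) (p : Pt) : Prop := p.x < 2 ^ K ∧ p.y < 2 ^ K ∧ p.h ≤ K

open Classical in
/-- The walls that separate two points. -/
noncomputable def sp (K : ℕ) (t : ℕ × ℕ) (p q : Pt) : Finset (ℕ × ℕ × ℕ) :=
  (Wl K).filter (fun l => ¬ (mem t l p ↔ mem t l q))

theorem laminar (t : ℕ × ℕ) (a b : ℕ × ℕ × ℕ) : (∀ p, mem t a p → mem t b p) ∨
    (∀ p, mem t b p → mem t a p) ∨ (∀ p, ¬ (mem t a p ∧ mem t b p)) := by
  by_cases h : ∃ p, mem t a p ∧ mem t b p
  · obtain ⟨p, h1, h2⟩ := h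
    rcases le_total a.1 b.1 with hk | hk
    · exact Or.inl fun q hq =>
        ⟨hq.1.trans hk, (cl_mono (hq.2.trans h1.2.symm) hk).trans h2.2⟩
    · exact Or.inr (Or.inl fun q hq =>
        ⟨hq.1.trans hk, (cl_mono (hq.2.trans h2.2.symm) hk).trans h1.2⟩)
  · exact Or.inr (Or.inr fun p hp => h ⟨p, hp⟩)

theorem lv_le_K {K : ℕ} {p q : Pt} (hp : Ok K p) (hq : Ok K q) : lv p q ≤ K := by
  rw [lv_le_iff]
  unfold Ok Nat.dist at *
  omega

theorem mem_Wl {K k : ℕ} {t : ℕ × ℕ} {p : Pt} (ht : t ∈ Sh K) (hp : Ok K p) (hk : k ≤ K) :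
    (k, cl t k p) ∈ Wl K := by
  rw [Sh, mem_product, mem_range, mem_range] at ht
  have h1 := Nat.div_le_self (p.x + t.1) (2 ^ k)
  have h2 := Nat.div_le_self (p.y + t.2) (2 ^ k)
  unfold Ok at hp
  simp only [Wl, cl, mem_product, mem_range, pow_succ]
  omega

theorem lvl_le {K : ℕ} {l : ℕ × ℕ × ℕ} (h : l ∈ Wl K) : l.1 ≤ K := by
  rw [Wl, mem_product, mem_range] at h
  omega

theorem lv_le_of_mem {t : ℕ × ℕ} {l : ℕ × ℕ × ℕ} {p q : Pt} (hp : mem t l p) (hq : mem t l q) :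
    lv p q ≤ l.1 := lv_le_of_cl hp.1 hq.1 (hp.2.trans hq.2.symm)

theorem cl_ne {t : ℕ × ℕ} {l : ℕ × ℕ × ℕ} {p q : Pt} (h : ¬ (mem t l p ↔ mem t l q))
    (hp : p.h ≤ l.1) (hq : q.h ≤ l.1) : cl t l.1 p ≠ cl t l.1 q := fun hc =>
  h ⟨fun h1 => ⟨hq, hc ▸ h1.2⟩, fun h1 => ⟨hp, hc ▸ h1.2⟩⟩

theorem sp_lower {K : ℕ} {t : ℕ × ℕ} {p q : Pt} (ht : t ∈ Sh K) (hp : Ok K p) (hq : Ok K q) :
    2 * lv p q ≤ (sp K t p q).card + p.h + q.h := by
  classical
  have hK := lv_le_K hp hq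
  have inj : ∀ r : Pt, Function.Injective (fun k => (k, cl t k r)) :=
    fun r a b h => (Prod.mk.inj h).1
  have h1 : (Ico p.h (lv p q)).image (fun k => (k, cl t k p)) ∪
      (Ico q.h (lv p q)).image (fun k => (k, cl t k q)) ⊆ sp K t p q := by
    intro l hl
    rw [mem_union, mem_image, mem_image] at hl
    rw [sp, mem_filter]
    rcases hl with ⟨k, hk, rfl⟩ | ⟨k, hk, rfl⟩ <;> rw [mem_Ico] at hk
    · refine ⟨mem_Wl ht hp (by omega), fun h => ?_⟩
      have h2 : mem t (k, cl t k p) p := ⟨hk.1, rfl⟩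
      exact absurd (lv_le_of_mem h2 (h.1 h2)) (not_le.2 hk.2)
    · refine ⟨mem_Wl ht hq (by omega), fun h => ?_⟩
      have h2 : mem t (k, cl t k q) q := ⟨hk.1, rfl⟩
      exact absurd (lv_le_of_mem (h.2 h2) h2) (not_le.2 hk.2)
  have h2 : Disjoint ((Ico p.h (lv p q)).image (fun k => (k, cl t k p)))
      ((Ico q.h (lv p q)).image (fun k => (k, cl t k q))) := by
    rw [disjoint_left]
    intro l h1 h2
    obtain ⟨k, hk, rfl⟩ := mem_image.1 h1
    obtain ⟨j, hj, e⟩ := mem_image.1 h2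
    obtain ⟨rfl, e2⟩ := Prod.mk.inj e
    rw [mem_Ico] at hk hj
    exact absurd (lv_le_of_cl hk.1 hj.1 e2.symm) (not_le.2 hk.2)
  have h3 := card_le_card h1
  rw [card_union_of_disjoint h2, card_image_of_injective _ (inj p),
    card_image_of_injective _ (inj q), Nat.card_Ico, Nat.card_Ico] at h3
  omega

theorem card_two {t : ℕ × ℕ} {p q : Pt} {B : Finset (ℕ × ℕ × ℕ)} {I J : Finset ℕ}
    (h : ∀ l ∈ B, (mem t l p ∧ l.1 ∈ I) ∨ (mem t l q ∧ l.1 ∈ J)) :
    B.card ≤ I.card + J.card := by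
  classical
  have h1 : B ⊆ I.image (fun k => (k, cl t k p)) ∪ J.image (fun k => (k, cl t k q)) := by
    intro l hl
    rw [mem_union, mem_image, mem_image]
    rcases h l hl with h | h
    · exact Or.inl ⟨l.1, h.2, Prod.ext rfl h.1.2⟩
    · exact Or.inr ⟨l.1, h.2, Prod.ext rfl h.1.2⟩
  exact (card_le_card h1).trans ((card_union_le _ _).trans
    (Nat.add_le_add card_image_le card_image_le))

theorem sp_upper {K j : ℕ} (t : ℕ × ℕ) {p q : Pt} (hj : lv p q ≤ j) :
    (sp K t p q).card + p.h + q.h ≤ 2 * j + 2 * vn K t j p := by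
  classical
  have hp := (le_lv p q).trans hj
  have hq := (le_lv' p q).trans hj
  have h1 := card_two (t := t) (p := p) (q := q) (B := sp K t p q)
    (I := Ico p.h j ∪ (Ico j (K + 1)).filter (fun k => Bd t k j p))
    (J := Ico q.h j ∪ (Ico j (K + 1)).filter (fun k => Bd t k j p)) (by
      intro l hl
      rw [sp, mem_filter] at hl
      have hK := lvl_le hl.1
      have h2 : l.1 < j ∨ l.1 ∈ (Ico j (K + 1)).filter (fun k => Bd t k j p) := by
        rcases lt_or_ge l.1 j with h | h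
        · exact Or.inl h
        · exact Or.inr (mem_filter.2 ⟨mem_Ico.2 ⟨h, by omega⟩,
            bd_of_ne hj (cl_ne hl.2 (by omega) (by omega))⟩)
      by_cases hm : mem t l p
      · exact Or.inl ⟨hm, mem_union.2 (h2.imp_left fun h => mem_Ico.2 ⟨hm.1, h⟩)⟩
      · have hm' : mem t l q := by tauto
        exact Or.inr ⟨hm', mem_union.2 (h2.imp_left fun h => mem_Ico.2 ⟨hm'.1, h⟩)⟩)
  have h2 := card_union_le (Ico p.h j) ((Ico j (K + 1)).filter (fun k => Bd t k j p))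
  have h3 := card_union_le (Ico q.h j) ((Ico j (K + 1)).filter (fun k => Bd t k j p))
  rw [Nat.card_Ico] at h2 h3
  unfold vn
  omega

theorem card_cls (a r n M : ℕ) (hn : 0 < n) (h : 2 * r ≤ M * n) :
    (Icc ((a - r) / n) ((a + r) / n)).card ≤ M + 1 := by
  have h1 : (a + r) / n ≤ (a - r + M * n) / n := Nat.div_le_div_right (by omega)
  rw [Nat.add_mul_div_right _ _ hn] at h1
  rw [Nat.card_Icc]
  omega

/-- Two points in opposite directions from `p` lie on the other side of the wall. -/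
def Near (t : ℕ × ℕ) (c : ℕ) (p : Pt) (l : ℕ × ℕ × ℕ) : Prop :=
  ∃ q r : Pt, ¬ (mem t l p ↔ mem t l q) ∧ ¬ (mem t l p ↔ mem t l r) ∧
    lv p q + lv p r ≤ lv q r + p.h + c

open Classical in
theorem near_card (K c : ℕ) (t : ℕ × ℕ) (p : Pt) :
    ((Wl K).filter (Near t c p)).card ≤
      (2 ^ (2 * c + 2) + 1) ^ 2 * (2 * c + 1 + vn K t (p.h + c + 1) p) := by
  set j := p.h + c + 1 with hj
  set L := Ico (p.h - c) j ∪ (Ico j (K + 1)).filter (fun k => Bd t k j p) with hL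
  have h1 : (Wl K).filter (Near t c p) ⊆ L.biUnion (fun k => {k} ×ˢ
      (Icc ((p.x + t.1 - 2 ^ j) / 2 ^ k) ((p.x + t.1 + 2 ^ j) / 2 ^ k) ×ˢ
        Icc ((p.y + t.2 - 2 ^ j) / 2 ^ k) ((p.y + t.2 + 2 ^ j) / 2 ^ k))) := by
    intro l hl
    obtain ⟨hW, q, r, hq, hr, hc⟩ := mem_filter.1 hl
    have hK := lvl_le hW
    have ht := lv_tri p q r
    have a1 := le_lv p q
    have a2 := le_lv p r
    obtain ⟨g, hg, hgj⟩ : ∃ g, ¬ (mem t l p ↔ mem t l g) ∧ lv p g ≤ j := by
      rcases le_total (lv p q) (lv p r) with h | h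
      · exact ⟨q, hq, by omega⟩
      · exact ⟨r, hr, by omega⟩
    have a3 := le_lv' p g
    have hk : p.h - c ≤ l.1 := by
      by_cases hm : mem t l p
      · have := hm.1
        omega
      · have := lv_le_of_mem (t := t) (l := l) (p := q) (q := r) (by tauto) (by tauto)
        omega
    obtain ⟨s, hs, hsj⟩ : ∃ s, mem t l s ∧ lv p s ≤ j := by
      by_cases hm : mem t l p
      · exact ⟨p, hm, (lv_le_iff p p j).2 ⟨by omega, by omega, by simp, by simp⟩⟩
      · exact ⟨g, by tauto, hgj⟩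
    obtain ⟨-, -, s1, s2⟩ := (lv_le_iff p s j).1 hsj
    rw [mem_biUnion]
    refine ⟨l.1, ?_, ?_⟩
    · rw [hL, mem_union, mem_Ico, mem_filter, mem_Ico]
      rcases lt_or_ge l.1 j with h | h
      · exact Or.inl ⟨hk, h⟩
      · exact Or.inr ⟨⟨h, by omega⟩, bd_of_ne hgj (cl_ne hg (by omega) (by omega))⟩
    · rw [mem_product, mem_product, mem_singleton, ← hs.2, mem_Icc, mem_Icc]
      unfold Nat.dist at s1 s2
      exact ⟨rfl, ⟨Nat.div_le_div_right (by omega), Nat.div_le_div_right (by omega)⟩,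
        Nat.div_le_div_right (by omega), Nat.div_le_div_right (by omega)⟩
  refine (card_le_card h1).trans ((card_biUnion_le_card_mul _ _ ((2 ^ (2 * c + 2) + 1) ^ 2)
    fun k hk => ?_).trans ?_)
  · have hk' : p.h - c ≤ k := by
      rw [hL, mem_union, mem_Ico, mem_filter, mem_Ico] at hk
      omega
    have h2 : 2 * 2 ^ j ≤ 2 ^ (2 * c + 2) * 2 ^ k := by
      rw [← pow_add, ← pow_succ']
      exact Nat.pow_le_pow_right (by norm_num) (by omega)
    rw [card_product, card_product, card_singleton, one_mul, sq]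
    exact Nat.mul_le_mul (card_cls _ _ _ _ (by positivity) h2)
      (card_cls _ _ _ _ (by positivity) h2)
  · rw [mul_comm]
    refine Nat.mul_le_mul_left _ ((card_union_le _ _).trans ?_)
    rw [Nat.card_Ico]
    unfold vn
    omega

theorem lvl_lt {K : ℕ} {t : ℕ × ℕ} {p x : Pt} {l : ℕ × ℕ × ℕ} (hl : l ∈ sp K t p x) :
    l.1 < lv p x + vn K t (lv p x) p := by
  classical
  rw [sp, mem_filter] at hl
  have hK := lvl_le hl.1
  rcases lt_or_ge l.1 (lv p x) with h | h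
  · omega
  · have h1 := cl_ne hl.2 ((le_lv p x).trans h) ((le_lv' p x).trans h)
    have h2 : Icc (lv p x) l.1 ⊆ (Ico (lv p x) (K + 1)).filter (fun k => Bd t k (lv p x) p) := by
      intro k hk
      rw [mem_Icc] at hk
      exact mem_filter.2 ⟨mem_Ico.2 ⟨hk.1, by omega⟩,
        bd_of_ne le_rfl fun e => h1 (cl_mono e hk.2)⟩
    have h3 := card_le_card h2
    rw [Nat.card_Icc] at h3
    unfold vn
    omega

theorem climb0 (E : ℕ) {t : ℕ × ℕ} {p g : Pt} {k m : ℕ} (h1 : p.h ≤ k) (h2 : k ≤ m)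
    (h : cl t k p ≠ cl t k g) : k ≤ lv p g + E + cn E t p m := by
  classical
  have h3 : Ico (lv p g) (k - E) ⊆ (range (k - E)).filter (fun j => Bd t k j p) := by
    intro j hj
    rw [mem_Ico] at hj
    exact mem_filter.2 ⟨mem_range.2 hj.2, bd_of_ne hj.1 h⟩
  have h4 := card_le_card h3
  have h5 : ((range (k - E)).filter (fun j => Bd t k j p)).card ≤ cn E t p m :=
    single_le_sum (f := fun k => ((range (k - E)).filter (fun j => Bd t k j p)).card)
      (fun _ _ => Nat.zero_le _) (mem_Icc.2 ⟨h1, h2⟩)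
  rw [Nat.card_Ico] at h4
  omega

theorem climb (E U : ℕ) {t : ℕ × ℕ} {p g : Pt} {l : ℕ × ℕ × ℕ} {m : ℕ} (h1 : p.h ≤ l.1)
    (hm : p.h ≤ m) (h2 : l.1 < m + U) (h : ¬ (mem t l p ↔ mem t l g)) :
    l.1 ≤ lv p g + E + cn E t p m + U := by
  rcases lt_or_ge l.1 g.h with h3 | h3
  · have := le_lv' p g
    omega
  · have h4 := cl_ne h h1 h3
    rcases le_total l.1 m with h5 | h5
    · have := climb0 E h1 h5 h4
      omega
    · have := climb0 E hm le_rfl fun e => h4 (cl_mono e h5)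
      omega

theorem last_wall (K E : ℕ) (t : ℕ × ℕ) (p x : Pt) (B : Finset (ℕ × ℕ × ℕ)) (hB : B.Nonempty)
    (hs : B ⊆ sp K t p x) : ∃ a ∈ B, ∀ g r : Pt, (mem t a g ↔ mem t a x) →
      (mem t a r ↔ mem t a x) → B.card + lv g r + p.h ≤ lv p g + lv p r +
        (E + cn E t p (lv p x) + 3 * vn K t (lv p x) p + 3) := by
  classical
  have hsep : ∀ l ∈ B, ¬ (mem t l p ↔ mem t l x) := fun l hl => (mem_filter.1 (hs hl)).2
  have hlt : ∀ l ∈ B, l.1 < lv p x + vn K t (lv p x) p := fun l hl => lvl_lt (hs hl)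
  have hm := le_lv p x
  by_cases h : (B.filter (fun l => ¬ mem t l p)).Nonempty
  · obtain ⟨a, ha, hmin⟩ := exists_min_image _ (fun l => l.1) h
    rw [mem_filter] at ha
    have hx : mem t a x := by
      have := hsep a ha.1
      tauto
    refine ⟨a, ha.1, fun g r hg hr => ?_⟩
    have hc := card_two (t := t) (p := p) (q := x) (B := B)
      (I := Ico p.h (lv p x + vn K t (lv p x) p)) (J := Ico a.1 (lv p x + vn K t (lv p x) p)) (by
        intro l hl
        by_cases hp : mem t l p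
        · exact Or.inl ⟨hp, mem_Ico.2 ⟨hp.1, hlt l hl⟩⟩
        · have := hsep l hl
          exact Or.inr ⟨by tauto, mem_Ico.2 ⟨hmin l (mem_filter.2 ⟨hl, hp⟩), hlt l hl⟩⟩)
    rw [Nat.card_Ico, Nat.card_Ico] at hc
    have a1 := lv_le_of_mem (hg.2 hx) (hr.2 hx)
    have a2 := lv_le_of_mem (hg.2 hx) hx
    have a3 := lv_le_of_mem (hr.2 hx) hx
    have a4 := lv_tri g p x
    have a5 := lv_tri r p x
    have a6 := lv_tri p g r
    have a7 := hlt a ha.1
    have a8 := le_lv p g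
    have a9 := le_lv p r
    rw [lv_comm g p] at a4
    rw [lv_comm r p] at a5
    rcases lt_or_ge a.1 p.h with h1 | h1
    · omega
    · have b1 := climb E _ (g := g) h1 hm a7 (by tauto)
      have b2 := climb E _ (g := r) h1 hm a7 (by tauto)
      omega
  · have hp : ∀ l ∈ B, mem t l p := fun l hl => by
      by_contra hc
      exact h ⟨l, mem_filter.2 ⟨hl, hc⟩⟩
    obtain ⟨a, ha, hmax⟩ := exists_max_image _ (fun l => l.1) hB
    refine ⟨a, ha, fun g r hg hr => ?_⟩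
    have hc := card_two (t := t) (p := p) (q := x) (B := B) (I := Icc p.h a.1) (J := ∅)
      fun l hl => Or.inl ⟨hp l hl, mem_Icc.2 ⟨(hp l hl).1, hmax l hl⟩⟩
    rw [Nat.card_Icc, card_empty] at hc
    have a0 := hsep a ha
    have a1 := (hp a ha).1
    have a6 := lv_tri p g r
    have b1 := climb E _ (g := g) a1 hm (hlt a ha) fun e => a0 (e.trans hg)
    have b2 := climb E _ (g := r) a1 hm (hlt a ha) fun e => a0 (e.trans hr)
    omega

end Pool.Agent.Lib.MP_abd417_co.Up.Aw
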