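import Mathlib
import Pool.Agent.Lib.MP_abd417_co.Up.Conf

/-! Local inequalities for frames and heights of vectors at one place. -/

namespace Pool.Agent.Lib.MP_abd417_co.Up.Glob

open Finset Matrix

variable {K : Type*} [Field K]

/-- The rows of `a` are orthonormal. -/
def On (a : Fin 3 → Fin 3 → K) : Prop := ∀ i j, a i ⬝ᵥ a j = if i = j then 1 else 0

/-- Largest coordinate of `y` in the frame `a`. -/
noncomputable def hv (v : AbsoluteValue K ℝ) (a : Fin 3 → Fin 3 → K) (y : Fin 3 → K) : ℝ :=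
  univ.sup' univ_nonempty fun j : Fin 3 => v (a j ⬝ᵥ y)

section loc
variable (v : AbsoluteValue K ℝ) {a g h a' : Fin 3 → Fin 3 → K} {y y1 y2 : Fin 3 → K}

theorem le_hv (a : Fin 3 → Fin 3 → K) (y : Fin 3 → K) (j : Fin 3) : v (a j ⬝ᵥ y) ≤ hv v a y :=
  le_sup' (fun j : Fin 3 => v (a j ⬝ᵥ y)) (mem_univ j)

theorem hv_le {M : ℝ} (H : ∀ j, v (a j ⬝ᵥ y) ≤ M) : hv v a y ≤ M :=
  sup'_le _ _ fun j _ => H j

theorem hv_nonneg (a : Fin 3 → Fin 3 → K) (y : Fin 3 → K) : 0 ≤ hv v a y :=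
  (v.nonneg _).trans (le_hv v a y 0)

theorem le_mx (g h : Fin 3 → Fin 3 → K) (i j : Fin 3) : v (g i ⬝ᵥ h j) ≤ mx v g h :=
  le_sup' (fun p : Fin 3 × Fin 3 => v (g p.1 ⬝ᵥ h p.2)) (mem_univ (i, j))

theorem mx_le {M : ℝ} (H : ∀ i j, v (g i ⬝ᵥ h j) ≤ M) : mx v g h ≤ M :=
  sup'_le _ _ fun p _ => H p.1 p.2

theorem exists_mx (g h : Fin 3 → Fin 3 → K) : ∃ i j, mx v g h = v (g i ⬝ᵥ h j) := by
  obtain ⟨p, -, hp⟩ := exists_mem_eq_sup' (univ_nonempty (α := Fin 3 × Fin 3))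
    fun p : Fin 3 × Fin 3 => v (g p.1 ⬝ᵥ h p.2)
  exact ⟨p.1, p.2, hp⟩

theorem mx_comm (g h : Fin 3 → Fin 3 → K) : mx v g h = mx v h g :=
  le_antisymm (mx_le v fun i j => by rw [dotProduct_comm]; exact le_mx v h g j i)
    (mx_le v fun i j => by rw [dotProduct_comm]; exact le_mx v g h j i)

theorem hv_le_mx (a g : Fin 3 → Fin 3 → K) (i : Fin 3) : hv v a (g i) ≤ mx v a g :=
  hv_le v fun j => le_mx v a g j i

theorem mx_self (ha : On a) : mx v a a = 1 := by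
  refine le_antisymm (mx_le v fun i j => ?_) ?_
  · rw [ha i j]; split_ifs <;> simp
  · have := le_mx v a a 0 0
    rwa [ha 0 0, if_pos rfl, v.map_one] at this

theorem parseval (ha : On a) (p q : Fin 3 → K) :
    p ⬝ᵥ q = (a 0 ⬝ᵥ p) * (a 0 ⬝ᵥ q) + (a 1 ⬝ᵥ p) * (a 1 ⬝ᵥ q) + (a 2 ⬝ᵥ p) * (a 2 ⬝ᵥ q) := by
  have h1 : (Matrix.of a) * (Matrix.of a)ᵀ = 1 := by
    ext i j
    rw [Matrix.mul_apply, Matrix.one_apply, ← ha i j]
    rfl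
  have h2 : (Matrix.of a)ᵀ * (Matrix.of a) = 1 := mul_eq_one_comm.1 h1
  have h3 : p ⬝ᵥ q = ((Matrix.of a) *ᵥ p) ⬝ᵥ ((Matrix.of a) *ᵥ q) := by
    rw [dotProduct_mulVec, vecMul_mulVec, h2, vecMul_one]
  rw [h3, dotProduct, Fin.sum_univ_three]
  rfl

variable {v} {ka : ℝ} (h1 : 1 ≤ ka) (hk : ∀ x y, v (x + y) ≤ ka * max (v x) (v y))
include h1 hk

theorem add2 {x y : K} {M : ℝ} (hx : v x ≤ M) (hy : v y ≤ M) : v (x + y) ≤ ka * M :=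
  (hk x y).trans (mul_le_mul_of_nonneg_left (max_le hx hy) (by linarith))

theorem sub2 {x y : K} {M : ℝ} (hx : v x ≤ M) (hy : v y ≤ M) : v (x - y) ≤ ka * M := by
  rw [sub_eq_add_neg]
  exact add2 h1 hk hx (by rwa [v.map_neg])

omit hk in
theorem up {x M : ℝ} (h0 : 0 ≤ x) (hx : x ≤ M) : x ≤ ka * M := by nlinarith

theorem add3 {x y z : K} {M : ℝ} (hx : v x ≤ M) (hy : v y ≤ M) (hz : v z ≤ M) :
    v (x + y + z) ≤ ka ^ 2 * M := by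
  have := add2 h1 hk (add2 h1 hk hx hy) (up h1 (v.nonneg _) hz)
  calc _ ≤ _ := this
    _ = _ := by ring

theorem dot_le (ha : On a) (p q : Fin 3 → K) : v (p ⬝ᵥ q) ≤ ka ^ 2 * (hv v a p * hv v a q) := by
  have e : ∀ j, v ((a j ⬝ᵥ p) * (a j ⬝ᵥ q)) ≤ hv v a p * hv v a q := fun j => by
    rw [v.map_mul]
    exact mul_le_mul (le_hv v a p j) (le_hv v a q j) (v.nonneg _) (hv_nonneg v a p)
  rw [parseval ha]
  exact add3 h1 hk (e 0) (e 1) (e 2)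

theorem one_le_hv (ha : On a) (hy : y ⬝ᵥ y = 1) : 1 ≤ ka * hv v a y := by
  have h := dot_le h1 hk ha y y
  rw [hy, v.map_one] at h
  have h0 : 0 ≤ ka * hv v a y := mul_nonneg (by linarith) (hv_nonneg v a y)
  nlinarith

theorem hv_pos (ha : On a) (hy : y ⬝ᵥ y = 1) : 0 < hv v a y := by
  have h := one_le_hv h1 hk ha hy
  by_contra hn
  have : hv v a y = 0 := le_antisymm (not_lt.1 hn) (hv_nonneg v a y)
  rw [this] at h; linarith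

theorem mx_pos (ha : On a) (hg : On g) : 0 < mx v a g :=
  (hv_pos h1 hk ha (by rw [hg 0 0, if_pos rfl])).trans_le (hv_le_mx v a g 0)

theorem one_le_mx (ha : On a) (hg : On g) : 1 ≤ ka * mx v a g :=
  (one_le_hv h1 hk ha (by rw [hg 0 0, if_pos rfl])).trans
    (mul_le_mul_of_nonneg_left (hv_le_mx v a g 0) (by linarith))

theorem mx_tri (ha : On a) (g h : Fin 3 → Fin 3 → K) :
    mx v g h ≤ ka ^ 2 * (mx v g a * mx v a h) := by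
  refine mx_le v fun i j => (dot_le h1 hk ha _ _).trans ?_
  refine mul_le_mul_of_nonneg_left ?_ (by positivity)
  refine mul_le_mul ?_ (hv_le_mx v a h j) (hv_nonneg v a _) ?_
  · rw [mx_comm]; exact hv_le_mx v a g i
  · exact (v.nonneg _).trans (le_mx v g a 0 0)

omit h1 hk in
theorem cross_id {c0 c1 c2 p0 p1 p2 q0 q1 q2 t : K} (hc : c0 * c0 + c1 * c1 + c2 * c2 = 1)
    (hp : c0 * p0 + c1 * p1 + c2 * p2 = 0) (hq : c0 * q0 + c1 * q1 + c2 * q2 = 0)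
    (hpp : p0 * p0 + p1 * p1 + p2 * p2 = 1) (hqq : q0 * q0 + q1 * q1 + q2 * q2 = 1)
    (ht : p0 * q0 + p1 * q1 + p2 * q2 = t) :
    c0 ^ 2 * (1 - t ^ 2) = (p1 * q2 - p2 * q1) ^ 2 := by
  have e1 : (p1 * q2 - p2 * q1) * c1 = (p2 * q0 - p0 * q2) * c0 := by
    linear_combination q2 * hp - p2 * hq
  have e2 : (p1 * q2 - p2 * q1) * c2 = (p0 * q1 - p1 * q0) * c0 := by
    linear_combination p1 * hq - q1 * hp
  have nn : (p1 * q2 - p2 * q1) ^ 2 + (p2 * q0 - p0 * q2) ^ 2 + (p0 * q1 - p1 * q0) ^ 2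
      = 1 - t ^ 2 := by
    linear_combination (q0 * q0 + q1 * q1 + q2 * q2) * hpp + hqq
      - (p0 * q0 + p1 * q1 + p2 * q2 + t) * ht
  linear_combination (p1 * q2 - p2 * q1) ^ 2 * hc
    - ((p1 * q2 - p2 * q1) * c1 + (p2 * q0 - p0 * q2) * c0) * e1
    - ((p1 * q2 - p2 * q1) * c2 + (p0 * q1 - p1 * q0) * c0) * e2 - c0 ^ 2 * nn

theorem cross_le (ha : On a) (hy : y ⬝ᵥ y = 1) (hy1 : y1 ⬝ᵥ y1 = 1) (hy2 : y2 ⬝ᵥ y2 = 1)
    (o1 : y ⬝ᵥ y1 = 0) (o2 : y ⬝ᵥ y2 = 0) :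
    hv v a y ^ 2 * v (1 - (y1 ⬝ᵥ y2) ^ 2) ≤ ka ^ 2 * (hv v a y1 * hv v a y2) ^ 2 := by
  have m : ∀ i j, v ((a i ⬝ᵥ y1) * (a j ⬝ᵥ y2)) ≤ hv v a y1 * hv v a y2 := fun i j => by
    rw [v.map_mul]
    exact mul_le_mul (le_hv v a _ i) (le_hv v a _ j) (v.nonneg _) (hv_nonneg v a _)
  have key : ∀ j i k, (a j ⬝ᵥ y) ^ 2 * (1 - (y1 ⬝ᵥ y2) ^ 2)
      = ((a i ⬝ᵥ y1) * (a k ⬝ᵥ y2) - (a k ⬝ᵥ y1) * (a i ⬝ᵥ y2)) ^ 2 →
      v (a j ⬝ᵥ y) ^ 2 * v (1 - (y1 ⬝ᵥ y2) ^ 2) ≤ ka ^ 2 * (hv v a y1 * hv v a y2) ^ 2 := by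
    intro j i k e
    rw [← v.map_pow, ← v.map_mul, e, v.map_pow, ← mul_pow]
    exact pow_le_pow_left₀ (v.nonneg _) (sub2 h1 hk (m i k) (m k i)) 2
  have A := parseval ha y y
  have B := parseval ha y y1
  have C := parseval ha y y2
  have D := parseval ha y1 y1
  have E := parseval ha y2 y2
  have F := parseval ha y1 y2
  rw [hy] at A; rw [o1] at B; rw [o2] at C; rw [hy1] at D; rw [hy2] at E
  have all : ∀ j, v (a j ⬝ᵥ y) ^ 2 * v (1 - (y1 ⬝ᵥ y2) ^ 2)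
      ≤ ka ^ 2 * (hv v a y1 * hv v a y2) ^ 2 := by
    intro j
    fin_cases j
    · exact key 0 1 2 (cross_id A.symm B.symm C.symm D.symm E.symm F.symm)
    · exact key 1 2 0 (cross_id (c1 := a 2 ⬝ᵥ y) (c2 := a 0 ⬝ᵥ y) (p0 := a 1 ⬝ᵥ y1)
        (q0 := a 1 ⬝ᵥ y2) (by linear_combination -A) (by linear_combination -B)
        (by linear_combination -C) (by linear_combination -D) (by linear_combination -E)
        (by linear_combination -F))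
    · exact key 2 0 1 (cross_id (c1 := a 0 ⬝ᵥ y) (c2 := a 1 ⬝ᵥ y) (p0 := a 2 ⬝ᵥ y1)
        (q0 := a 2 ⬝ᵥ y2) (by linear_combination -A) (by linear_combination -B)
        (by linear_combination -C) (by linear_combination -D) (by linear_combination -E)
        (by linear_combination -F))
  obtain ⟨j, -, hj⟩ := exists_mem_eq_sup' (univ_nonempty (α := Fin 3))
    fun j : Fin 3 => v (a j ⬝ᵥ y)
  have : hv v a y = v (a j ⬝ᵥ y) := hj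
  rw [this]
  exact all j

theorem two_le (ha : On a) (hg : On g) {i j : Fin 3} (hij : i ≠ j) :
    mx v a g ≤ ka * (hv v a (g i) * hv v a (g j)) := by
  have u : ∀ k, g k ⬝ᵥ g k = 1 := fun k => by rw [hg k k, if_pos rfl]
  have hi := one_le_hv h1 hk ha (u i)
  have hj := one_le_hv h1 hk ha (u j)
  have pi := hv_nonneg v a (g i)
  have pj := hv_nonneg v a (g j)
  refine mx_le v fun l k => (le_hv v a _ l).trans ?_
  by_cases e1 : k = i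
  · subst e1; nlinarith
  by_cases e2 : k = j
  · subst e2; nlinarith
  have h := cross_le h1 hk ha (u k) (u i) (u j) (by rw [hg, if_neg e1]) (by rw [hg, if_neg e2])
  rw [hg i j, if_neg hij] at h
  simp only [ne_eq, OfNat.ofNat_ne_zero, not_false_eq_true, zero_pow, sub_zero, map_one,
    mul_one] at h
  rw [← mul_pow] at h
  exact (pow_le_pow_iff_left₀ (hv_nonneg v a _) (by positivity) two_ne_zero).1 h

omit h1 hk in
theorem gram_id (p q y1 y2 : Fin 3 → K) (hy1 : y1 ⬝ᵥ y1 = 1) (hy2 : y2 ⬝ᵥ y2 = 1) :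
    (1 - (y1 ⬝ᵥ y2) ^ 2) * (p ⬝ᵥ q) = (p ⬝ᵥ y1) * (q ⬝ᵥ y1) + (p ⬝ᵥ y2) * (q ⬝ᵥ y2)
      - (y1 ⬝ᵥ y2) * ((p ⬝ᵥ y1) * (q ⬝ᵥ y2) + (p ⬝ᵥ y2) * (q ⬝ᵥ y1))
      + (p ⬝ᵥ (y1 ⨯₃ y2)) * (q ⬝ᵥ (y1 ⨯₃ y2)) := by
  have g : (p ⬝ᵥ (y1 ⨯₃ y2)) * (q ⬝ᵥ (y1 ⨯₃ y2)) =
      (p ⬝ᵥ q) * ((y1 ⬝ᵥ y1) * (y2 ⬝ᵥ y2) - (y1 ⬝ᵥ y2) ^ 2)
      - (p ⬝ᵥ y1) * ((q ⬝ᵥ y1) * (y2 ⬝ᵥ y2) - (y1 ⬝ᵥ y2) * (q ⬝ᵥ y2))
      + (p ⬝ᵥ y2) * ((q ⬝ᵥ y1) * (y1 ⬝ᵥ y2) - (y1 ⬝ᵥ y1) * (q ⬝ᵥ y2)) := by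
    simp only [cross_apply, dotProduct, Fin.sum_univ_three, Matrix.cons_val_zero,
      Matrix.cons_val_one, Matrix.cons_val_two, Matrix.head_cons, Matrix.tail_cons]
    ring
  rw [g, hy1, hy2]
  ring

theorem normal_le (ha : On a) (hy1 : y1 ⬝ᵥ y1 = 1) (hy2 : y2 ⬝ᵥ y2 = 1) (i : Fin 3) :
    v (a i ⬝ᵥ (y1 ⨯₃ y2)) ≤ ka ^ 2 * (ka * hv v a y1 * (ka * hv v a y2)) := by
  have e := gram_id (a i) (a i) y1 y2 hy1 hy2
  rw [ha i i, if_pos rfl, mul_one] at e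
  have n1 := one_le_hv h1 hk ha hy1
  have n2 := one_le_hv h1 hk ha hy2
  have c1 : v (a i ⬝ᵥ y1) ≤ ka * hv v a y1 := up h1 (v.nonneg _) (le_hv v a y1 i)
  have c2 : v (a i ⬝ᵥ y2) ≤ ka * hv v a y2 := up h1 (v.nonneg _) (le_hv v a y2 i)
  have ht : v (y1 ⬝ᵥ y2) ≤ ka * hv v a y1 * (ka * hv v a y2) :=
    (dot_le h1 hk ha y1 y2).trans_eq (by ring)
  generalize ka * hv v a y1 = A at *
  generalize ka * hv v a y2 = B at *
  have hAB : 1 ≤ A * B := one_le_mul_of_one_le_of_one_le n1 n2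
  have hA : A ≤ A * B := le_mul_of_one_le_right (by linarith) n2
  have hB : B ≤ A * B := le_mul_of_one_le_left (by linarith) n1
  have pr : ∀ {x y : K}, v x ≤ A * B → v y ≤ A * B → v (x * y) ≤ (A * B) ^ 2 := fun hx hy => by
    rw [v.map_mul, sq]; exact mul_le_mul hx hy (v.nonneg _) (by linarith)
  have p12 : v ((a i ⬝ᵥ y1) * (a i ⬝ᵥ y2)) ≤ A * B := by
    rw [v.map_mul]; exact mul_le_mul c1 c2 (v.nonneg _) (by linarith)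
  have t1 : v (1 - (y1 ⬝ᵥ y2) ^ 2) ≤ ka * (A * B) ^ 2 :=
    sub2 h1 hk (by rw [v.map_one]; exact one_le_pow₀ hAB) (by rw [sq]; exact pr ht ht)
  have t2 := add2 h1 hk (pr (c1.trans hA) (c1.trans hA)) (pr (c2.trans hB) (c2.trans hB))
  have t3 := add2 h1 hk (pr ht p12) (pr ht p12)
  have t4 := add2 h1 hk (sub2 h1 hk t1 t2) (up h1 (v.nonneg _) t3)
  have e2 : (a i ⬝ᵥ (y1 ⨯₃ y2)) ^ 2 = 1 - (y1 ⬝ᵥ y2) ^ 2 -
      ((a i ⬝ᵥ y1) * (a i ⬝ᵥ y1) + (a i ⬝ᵥ y2) * (a i ⬝ᵥ y2)) +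
      ((y1 ⬝ᵥ y2) * ((a i ⬝ᵥ y1) * (a i ⬝ᵥ y2)) + (y1 ⬝ᵥ y2) * ((a i ⬝ᵥ y1) * (a i ⬝ᵥ y2))) := by
    linear_combination -e
  rw [← e2, v.map_pow] at t4
  refine (pow_le_pow_iff_left₀ (v.nonneg _) (by positivity) two_ne_zero).1 (t4.trans ?_)
  calc ka * (ka * (ka * (A * B) ^ 2)) ≤ ka * (ka * (ka * (ka * (A * B) ^ 2))) :=
        up h1 (by positivity) le_rfl
    _ = _ := by ring

theorem share_le (ha : On a) (ha' : On a') (hy1 : y1 ⬝ᵥ y1 = 1) (hy2 : y2 ⬝ᵥ y2 = 1) :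
    mx v a a' * v (1 - (y1 ⬝ᵥ y2) ^ 2) ≤
      ka ^ 14 * (hv v a y1 * hv v a y2 * (hv v a' y1 * hv v a' y2)) ^ 2 := by
  obtain ⟨i, j, hij⟩ := exists_mx v a a'
  rw [hij, mul_comm, ← v.map_mul, gram_id _ _ y1 y2 hy1 hy2]
  have m := normal_le h1 hk ha hy1 hy2 i
  have m' := normal_le h1 hk ha' hy1 hy2 j
  have n1 := one_le_hv h1 hk ha hy1
  have n2 := one_le_hv h1 hk ha hy2
  have n1' := one_le_hv h1 hk ha' hy1
  have n2' := one_le_hv h1 hk ha' hy2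
  have c1 : v (a i ⬝ᵥ y1) ≤ ka * hv v a y1 := up h1 (v.nonneg _) (le_hv v a y1 i)
  have c2 : v (a i ⬝ᵥ y2) ≤ ka * hv v a y2 := up h1 (v.nonneg _) (le_hv v a y2 i)
  have c1' : v (a' j ⬝ᵥ y1) ≤ ka * hv v a' y1 := up h1 (v.nonneg _) (le_hv v a' y1 j)
  have c2' : v (a' j ⬝ᵥ y2) ≤ ka * hv v a' y2 := up h1 (v.nonneg _) (le_hv v a' y2 j)
  have ht : v (y1 ⬝ᵥ y2) ≤ ka * hv v a y1 * (ka * hv v a y2) :=
    (dot_le h1 hk ha y1 y2).trans_eq (by ring)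
  have fin : ka ^ 14 * (hv v a y1 * hv v a y2 * (hv v a' y1 * hv v a' y2)) ^ 2 = ka ^ 6 *
      (ka * hv v a y1 * (ka * hv v a y2) * (ka * hv v a' y1 * (ka * hv v a' y2))) ^ 2 := by ring
  rw [fin]
  generalize ka * hv v a y1 = A at *
  generalize ka * hv v a y2 = B at *
  generalize ka * hv v a' y1 = A' at *
  generalize ka * hv v a' y2 = B' at *
  have hAB : 1 ≤ A * B := one_le_mul_of_one_le_of_one_le n1 n2
  have hA : A ≤ A * B := le_mul_of_one_le_right (by linarith) n2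
  have hB : B ≤ A * B := le_mul_of_one_le_left (by linarith) n1
  have hAB' : 1 ≤ A' * B' := one_le_mul_of_one_le_of_one_le n1' n2'
  have hA' : A' ≤ A' * B' := le_mul_of_one_le_right (by linarith) n2'
  have hB' : B' ≤ A' * B' := le_mul_of_one_le_left (by linarith) n1'
  generalize A * B = X at *
  generalize A' * B' = Y at *
  have hXY : 1 ≤ X * Y := one_le_mul_of_one_le_of_one_le hAB hAB'
  have pr : ∀ {x y : K}, v x ≤ X → v y ≤ Y → v (x * y) ≤ X * Y := fun hx hy => by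
    rw [v.map_mul]; exact mul_le_mul hx hy (v.nonneg _) (by linarith)
  have k4 : ka ≤ ka ^ 4 := le_self_pow₀ h1 (by norm_num)
  have q : X * Y ≤ (X * Y) ^ 2 := le_self_pow₀ hXY two_ne_zero
  have t1 : v (a i ⬝ᵥ y1 * (a' j ⬝ᵥ y1) + a i ⬝ᵥ y2 * (a' j ⬝ᵥ y2)) ≤ ka ^ 4 * (X * Y) ^ 2 :=
    (add2 h1 hk (pr (c1.trans hA) (c1'.trans hA')) (pr (c2.trans hB) (c2'.trans hB'))).trans
      (mul_le_mul k4 q (by linarith) (by positivity))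
  have t2 : v ((y1 ⬝ᵥ y2) * (a i ⬝ᵥ y1 * (a' j ⬝ᵥ y2) + a i ⬝ᵥ y2 * (a' j ⬝ᵥ y1)))
      ≤ ka ^ 4 * (X * Y) ^ 2 := by
    rw [v.map_mul]
    have := add2 h1 hk (pr (c1.trans hA) (c2'.trans hB')) (pr (c2.trans hB) (c1'.trans hA'))
    have hX : X ≤ X * Y := le_mul_of_one_le_right (by linarith) hAB'
    calc _ ≤ X * Y * (ka * (X * Y)) := mul_le_mul (ht.trans hX) this (v.nonneg _) (by linarith)
      _ = ka * (X * Y) ^ 2 := by ring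
      _ ≤ _ := mul_le_mul_of_nonneg_right k4 (by positivity)
  have t3 : v (a i ⬝ᵥ (y1 ⨯₃ y2) * (a' j ⬝ᵥ (y1 ⨯₃ y2))) ≤ ka ^ 4 * (X * Y) ^ 2 := by
    rw [v.map_mul]
    calc _ ≤ ka ^ 2 * X * (ka ^ 2 * Y) := mul_le_mul m m' (v.nonneg _) (by positivity)
      _ = ka ^ 4 * (X * Y) := by ring
      _ ≤ _ := mul_le_mul_of_nonneg_left q (by positivity)
  exact (add2 h1 hk (sub2 h1 hk t1 t2) (up h1 (v.nonneg _) t3)).trans_eq (by ring)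

end loc

end Pool.Agent.Lib.MP_abd417_co.Up.Glob
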