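import Mathlib
import Pool.Agent.Lib.MP_abd417_co.Up.GlobA

/-! The global distance of frames is a pseudo-metric with two rigidity properties. -/

namespace Pool.Agent.Lib.MP_abd417_co.Up.Conf

open Finset Matrix Glob

variable (c : Conf)

/-- Defect of the strong triangle inequality at a place. -/
def ka (p : c.Pl) : ℝ := if c.arch p = true then 2 else 1

theorem one_le_ka (p : c.Pl) : 1 ≤ c.ka p := by
  unfold ka; split_ifs <;> norm_num

theorem add_le_ka (p : c.Pl) (x y : c.K) :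
    c.v p (x + y) ≤ c.ka p * max (c.v p x) (c.v p y) := by
  unfold ka
  split_ifs with h
  · have := (c.v p).add_le x y
    have := le_max_left (c.v p x) (c.v p y)
    have := le_max_right (c.v p x) (c.v p y)
    linarith
  · rw [one_mul]; exact c.nonarch p (by simpa using h) x y

theorem sum_log_ka : ∑ p, c.w p * Real.log (c.ka p) = Real.log 2 := by
  have : ∀ p, c.w p * Real.log (c.ka p)
      = if c.arch p = true then c.w p * Real.log 2 else 0 := fun p => by
    unfold ka; split_ifs <;> simp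
  rw [sum_congr rfl fun p _ => this p, ← sum_filter, ← sum_mul, c.wsum, one_mul]

theorem on_fr (g : c.Fr) : On (c.fr g) := fun i j => by
  split_ifs with h
  · subst h; exact c.unit _
  · exact c.orth g i j h

/-- Global height of a vertex seen from a frame. -/
noncomputable def ht (a : c.Fr) (u : c.io) : ℝ :=
  ∑ p, c.w p * Real.log (hv (c.v p) (c.fr a) (c.y u))

theorem hv_pos' (p : c.Pl) (a : c.Fr) (u : c.io) : 0 < hv (c.v p) (c.fr a) (c.y u) :=
  hv_pos (c.one_le_ka p) (c.add_le_ka p) (c.on_fr a) (c.unit u)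

theorem mx_pos' (p : c.Pl) (g h : c.Fr) : 0 < mx (c.v p) (c.fr g) (c.fr h) :=
  mx_pos (c.one_le_ka p) (c.add_le_ka p) (c.on_fr g) (c.on_fr h)

theorem sum_le {A B : c.Pl → ℝ} (m : ℝ)
    (h : ∀ p, A p ≤ m * Real.log (c.ka p) + B p) :
    ∑ p, c.w p * A p ≤ m * Real.log 2 + ∑ p, c.w p * B p := by
  rw [← c.sum_log_ka, mul_sum, ← sum_add_distrib]
  refine sum_le_sum fun p _ => ?_
  have := mul_le_mul_of_nonneg_left (h p) (c.wpos p).le
  linarith

theorem d_comm (p : c.Pl) (g h : c.Fr) : c.d p g h = c.d p h g := by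
  unfold d; rw [mx_comm]

theorem d_self (p : c.Pl) (g : c.Fr) : c.d p g g = 0 := by
  unfold d; rw [mx_self _ (c.on_fr g), Real.log_one]

theorem d_tri (p : c.Pl) (g h k : c.Fr) :
    c.d p g k ≤ 2 * Real.log (c.ka p) + (c.d p g h + c.d p h k) := by
  have k0 : 0 < c.ka p := lt_of_lt_of_le one_pos (c.one_le_ka p)
  have h1 := c.mx_pos' p g h
  have h2 := c.mx_pos' p h k
  have := Real.log_le_log (c.mx_pos' p g k)
    (mx_tri (c.one_le_ka p) (c.add_le_ka p) (c.on_fr h) (c.fr g) (c.fr k))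
  rw [Real.log_mul (by positivity) (by positivity), Real.log_mul h1.ne' h2.ne',
    Real.log_pow] at this
  exact_mod_cast this

theorem d_lower (p : c.Pl) (g h : c.Fr) : 0 ≤ Real.log (c.ka p) + c.d p g h := by
  have k0 : 0 < c.ka p := lt_of_lt_of_le one_pos (c.one_le_ka p)
  have := Real.log_nonneg (one_le_mx (c.one_le_ka p) (c.add_le_ka p) (c.on_fr g) (c.on_fr h))
  rwa [Real.log_mul k0.ne' (c.mx_pos' p g h).ne'] at this

theorem dist_comm (g h : c.Fr) : c.dist g h = c.dist h g := by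
  unfold dist; simp_rw [c.d_comm _ g h]

theorem dist_self (g : c.Fr) : c.dist g g = 2 := by
  unfold dist; simp [c.d_self]

theorem dist_tri (g h k : c.Fr) : c.dist g k ≤ c.dist g h + c.dist h k := by
  have := c.sum_le 2 fun p => c.d_tri p g h k
  simp_rw [mul_add, sum_add_distrib] at this
  have := Real.log_two_lt_d9
  unfold dist; linarith

theorem one_le_dist (g h : c.Fr) : 1 ≤ c.dist g h := by
  have := c.sum_le (A := fun _ => 0) 1 fun p => by
    rw [one_mul]; exact c.d_lower p g h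
  simp only [mul_zero, sum_const_zero] at this
  have := Real.log_two_lt_d9
  unfold dist; linarith

theorem ht_le (a g : c.Fr) (i : Fin 3) : c.ht a (c.ax i g) + 2 ≤ c.dist a g := by
  unfold ht dist
  refine add_le_add (sum_le_sum fun p _ => mul_le_mul_of_nonneg_left ?_ (c.wpos p).le) le_rfl
  exact Real.log_le_log (c.hv_pos' p a _) (hv_le_mx _ (c.fr a) (c.fr g) i)

theorem v_pos (p : c.Pl) {u u' : c.io} (h : u ≠ u') : 0 < c.v p (1 - (c.y u ⬝ᵥ c.y u') ^ 2) :=
  (c.v p).pos (sub_ne_zero.2 (c.sep u u' h).symm)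

theorem ht_cross (a : c.Fr) {u u1 u2 : c.io} (h : u1 ≠ u2) (o1 : c.y u ⬝ᵥ c.y u1 = 0)
    (o2 : c.y u ⬝ᵥ c.y u2 = 0) : c.ht a u ≤ Real.log 2 + (c.ht a u1 + c.ht a u2) := by
  have := c.sum_le (A := fun p => 2 * Real.log (hv (c.v p) (c.fr a) (c.y u))
      + Real.log (c.v p (1 - (c.y u1 ⬝ᵥ c.y u2) ^ 2)))
    (B := fun p => 2 * Real.log (hv (c.v p) (c.fr a) (c.y u1))
      + 2 * Real.log (hv (c.v p) (c.fr a) (c.y u2))) 2 fun p => by
    have k0 : 0 < c.ka p := lt_of_lt_of_le one_pos (c.one_le_ka p)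
    have h0 := c.hv_pos' p a u
    have h1 := c.hv_pos' p a u1
    have h2 := c.hv_pos' p a u2
    have h3 := c.v_pos p h
    have := Real.log_le_log (by positivity) (cross_le (c.one_le_ka p) (c.add_le_ka p)
      (c.on_fr a) (c.unit u) (c.unit u1) (c.unit u2) o1 o2)
    rw [Real.log_mul (by positivity) h3.ne', Real.log_mul (by positivity) (by positivity),
      Real.log_pow, Real.log_pow, Real.log_pow, Real.log_mul h1.ne' h2.ne'] at this
    push_cast at this
    linarith
  simp_rw [mul_add, sum_add_distrib, mul_left_comm _ (2 : ℝ), ← mul_sum] at this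
  rw [c.pf1 u1 u2 h] at this
  unfold ht; linarith

theorem dist_two (a g : c.Fr) {i j : Fin 3} (h : i ≠ j) :
    c.dist a g ≤ Real.log 2 + (c.ht a (c.ax i g) + c.ht a (c.ax j g)) + 2 := by
  have := c.sum_le (A := fun p => c.d p a g)
    (B := fun p => Real.log (hv (c.v p) (c.fr a) (c.y (c.ax i g)))
      + Real.log (hv (c.v p) (c.fr a) (c.y (c.ax j g)))) 1 fun p => by
    have k0 : 0 < c.ka p := lt_of_lt_of_le one_pos (c.one_le_ka p)
    have h1 : 0 < hv (c.v p) (c.fr a) (c.fr g i) := c.hv_pos' p a (c.ax i g)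
    have h2 : 0 < hv (c.v p) (c.fr a) (c.fr g j) := c.hv_pos' p a (c.ax j g)
    have := Real.log_le_log (c.mx_pos' p a g) (two_le (c.one_le_ka p) (c.add_le_ka p)
      (c.on_fr a) (c.on_fr g) h)
    rw [Real.log_mul k0.ne' (mul_pos h1 h2).ne', Real.log_mul h1.ne' h2.ne'] at this
    rw [one_mul]; exact this
  simp_rw [mul_add, sum_add_distrib] at this
  unfold dist ht; linarith

theorem dist_share (a a' : c.Fr) {u1 u2 : c.io} (h : u1 ≠ u2) :
    c.dist a a' ≤ 14 * Real.log 2 +
      2 * (c.ht a u1 + c.ht a u2 + (c.ht a' u1 + c.ht a' u2)) + 2 := by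
  have := c.sum_le (A := fun p => c.d p a a' + Real.log (c.v p (1 - (c.y u1 ⬝ᵥ c.y u2) ^ 2)))
    (B := fun p => 2 * Real.log (hv (c.v p) (c.fr a) (c.y u1))
      + 2 * Real.log (hv (c.v p) (c.fr a) (c.y u2))
      + (2 * Real.log (hv (c.v p) (c.fr a') (c.y u1))
      + 2 * Real.log (hv (c.v p) (c.fr a') (c.y u2)))) 14 fun p => by
    have k0 : 0 < c.ka p := lt_of_lt_of_le one_pos (c.one_le_ka p)
    have h0 := c.mx_pos' p a a'
    have h1 := c.hv_pos' p a u1
    have h2 := c.hv_pos' p a u2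
    have h1' := c.hv_pos' p a' u1
    have h2' := c.hv_pos' p a' u2
    have h3 := c.v_pos p h
    have := Real.log_le_log (mul_pos h0 h3) (share_le (c.one_le_ka p) (c.add_le_ka p)
      (c.on_fr a) (c.on_fr a') (c.unit u1) (c.unit u2))
    rw [Real.log_mul h0.ne' h3.ne', Real.log_mul (by positivity) (by positivity),
      Real.log_pow, Real.log_pow, Real.log_mul (by positivity) (by positivity),
      Real.log_mul h1.ne' h2.ne', Real.log_mul h1'.ne' h2'.ne'] at this
    push_cast at this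
    unfold d
    linarith
  simp_rw [mul_add, sum_add_distrib, mul_left_comm _ (2 : ℝ), ← mul_sum] at this
  rw [c.pf1 u1 u2 h] at this
  unfold dist ht; linarith

theorem dist_self_le {C : ℝ} (hC : 8 ≤ C) (g : c.Fr) : c.dist g g ≤ C := by
  rw [c.dist_self]; linarith

/-- First rigidity property, in the form used by `Scale`. -/
theorem dist_D1 {C : ℝ} (hC : 8 ≤ C) (i j : Fin 3) (a h1 h2 g1 g2 : c.Fr) (r : ℝ) (hij : i ≠ j)
    (hne : h1 ≠ h2) (ej : c.ax j h1 = c.ax j h2) (e1 : c.ax i h1 = c.ax i g1)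
    (e2 : c.ax i h2 = c.ax i g2) (r1 : c.dist a g1 ≤ r) (r2 : c.dist a g2 ≤ r) :
    c.dist a h1 ≤ C * r := by
  have hu : c.ax i h1 ≠ c.ax i h2 := fun e => hne (c.lin h1 h2 i j hij e ej)
  have A := c.ht_cross a (u := c.ax j h1) hu (c.orth h1 j i hij.symm)
    (by rw [ej]; exact c.orth h2 j i hij.symm)
  have B := c.dist_two a h1 hij
  have C1 := c.ht_le a g1 i
  have C2 := c.ht_le a g2 i
  rw [← e1] at C1; rw [← e2] at C2
  have := Real.log_two_lt_d9
  have := c.one_le_dist a g1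
  nlinarith

/-- Second rigidity property, in the form used by `Scale`. -/
theorem dist_D2 {C : ℝ} (hC : 8 ≤ C) (i j : Fin 3) (a a' g1 g1' g2 g2' : c.Fr) (r : ℝ)
    (e1 : c.ax i g1 = c.ax i g1') (e2 : c.ax j g2 = c.ax j g2') (hne : c.ax i g1 ≠ c.ax j g2)
    (r1 : c.dist a g1 ≤ r) (r2 : c.dist a g2 ≤ r) (r1' : c.dist a' g1' ≤ r)
    (r2' : c.dist a' g2' ≤ r) : c.dist a a' ≤ C * r := by
  have A := c.dist_share a a' hne
  have C1 := c.ht_le a g1 i
  have C2 := c.ht_le a g2 j
  have C3 := c.ht_le a' g1' i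
  have C4 := c.ht_le a' g2' j
  rw [← e1] at C3; rw [← e2] at C4
  have := Real.log_two_lt_d9
  have := c.one_le_dist a g1
  nlinarith

end Pool.Agent.Lib.MP_abd417_co.Up.Conf
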