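import Mathlib

/-! Specialisation to a number field and the product formula with a finite set of places. -/

namespace Pool.Agent.Lib.MP_abd417_co.Up.Spec

open Finset NumberField

theorem exists_hom (A : Type) [CommRing A] [Nontrivial A] [Algebra ℚ A] [Algebra.FiniteType ℚ A] :
    ∃ (K : Type) (_ : Field K) (_ : NumberField K), Nonempty (A →+* K) := by
  obtain ⟨m, hm⟩ := Ideal.exists_maximal A
  have hc : CharZero (A ⧸ m) := by
    have := Ideal.Quotient.nontrivial_iff.2 hm.ne_top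
    exact algebraRat.charZero _
  have hfin : Module.Finite ℚ (A ⧸ m) :=
    @finite_of_finite_type_of_isJacobsonRing ℚ (A ⧸ m) _ (Ideal.Quotient.field m) _ _ _
  refine ⟨A ⧸ m, Ideal.Quotient.field m, ?_, ⟨Ideal.Quotient.mk m⟩⟩
  let _ := Ideal.Quotient.field m
  refine @NumberField.mk _ _ hc ?_
  convert hfin
  exact Subsingleton.elim _ _

/-- A finite set of elements of a field of characteristic zero specialises to a number field,
nonzero elements staying nonzero. -/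
theorem specialise {L : Type} [Field L] [CharZero L] (T : Finset L) :
    ∃ (K : Type) (_ : Field K) (_ : NumberField K) (A : Subring L) (f : A →+* K),
      (∀ t ∈ T, t ∈ A) ∧ ∀ t : A, t.1 ∈ T → t.1 ≠ 0 → f t ≠ 0 := by
  classical
  let A : Subalgebra ℚ L := Algebra.adjoin ℚ ((T ∪ T.image fun t => t⁻¹ : Finset L) : Set L)
  have hA : Algebra.FiniteType ℚ A :=
    (Subalgebra.fg_iff_finiteType A).1 (Subalgebra.fg_adjoin_finset _)
  obtain ⟨K, _, _, ⟨f⟩⟩ := exists_hom A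
  refine ⟨K, inferInstance, inferInstance, A.toSubring, f, fun t ht =>
    Algebra.subset_adjoin (mem_coe.2 (mem_union_left _ ht)), fun t ht h0 => ?_⟩
  have hi : t.1⁻¹ ∈ A := Algebra.subset_adjoin
    (mem_coe.2 (mem_union_right _ (mem_image_of_mem _ ht)))
  have e : (t * ⟨t.1⁻¹, hi⟩ : A.toSubring) = 1 := Subtype.ext (mul_inv_cancel₀ h0)
  exact left_ne_zero_of_mul_eq_one (by rw [← map_mul, e, map_one])

/-- Unit vectors with distinct directions specialise to a number field containing `i`, with the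
same orthogonality graph. -/
theorem specialise_vec {ι : Type} [Fintype ι] (y : ι → Fin 3 → ℝ) :
    ∃ (K : Type) (_ : Field K) (_ : NumberField K) (I : K) (x : ι → Fin 3 → K), I ^ 2 = -1 ∧
      (∀ u u', x u ⬝ᵥ x u' = 0 ↔ y u ⬝ᵥ y u' = 0) ∧
      (∀ u u', x u ⬝ᵥ x u' = 1 ↔ y u ⬝ᵥ y u' = 1) ∧
      ∀ u u', (x u ⬝ᵥ x u') ^ 2 = 1 ↔ (y u ⬝ᵥ y u') ^ 2 = 1 := by
  classical
  let z : ι → Fin 3 → ℂ := fun u j => y u j
  have hz : ∀ u u', z u ⬝ᵥ z u' = ((y u ⬝ᵥ y u' : ℝ) : ℂ) := fun u u' => by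
    simp [z, dotProduct]
  obtain ⟨K, _, _, A, f, h1, h2⟩ := specialise (L := ℂ)
    (insert Complex.I ((univ.image fun p : ι × Fin 3 => z p.1 p.2) ∪
      ((univ.image fun p : ι × ι => z p.1 ⬝ᵥ z p.2) ∪
      ((univ.image fun p : ι × ι => z p.1 ⬝ᵥ z p.2 - 1) ∪
      (univ.image fun p : ι × ι => (z p.1 ⬝ᵥ z p.2) ^ 2 - 1)))))
  have hI : Complex.I ∈ A := h1 _ (mem_insert_self _ _)
  have hc : ∀ u j, z u j ∈ A := fun u j =>
    h1 _ (mem_insert_of_mem (mem_union_left _ (mem_image.2 ⟨(u, j), mem_univ _, rfl⟩)))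
  let a : ι → Fin 3 → A := fun u j => ⟨z u j, hc u j⟩
  have ha : ∀ u u', ((a u ⬝ᵥ a u' : A) : ℂ) = z u ⬝ᵥ z u' := fun u u' => by
    simp [a, dotProduct]
  have hf : ∀ u u', (fun j => f (a u j)) ⬝ᵥ (fun j => f (a u' j)) = f (a u ⬝ᵥ a u') :=
    fun u u' => by simp [dotProduct]
  have key : ∀ t : A, t.1 ∈ _ → (f t = 0 ↔ t.1 = 0) := fun t ht =>
    ⟨fun h => by_contra fun n => h2 t ht n h, fun h => by rw [show t = 0 from Subtype.ext h, map_zero]⟩
  refine ⟨K, inferInstance, inferInstance, f ⟨_, hI⟩, fun u j => f (a u j), ?_, fun u u' => ?_,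
    fun u u' => ?_, fun u u' => ?_⟩
  · rw [← map_pow, show ((⟨_, hI⟩ : A) ^ 2) = -1 from Subtype.ext Complex.I_sq, map_neg, map_one]
  · rw [hf, key _ (by
      rw [ha]
      exact mem_insert_of_mem (mem_union_right _ (mem_union_left _
        (mem_image.2 ⟨(u, u'), mem_univ _, rfl⟩)))), ha, hz, Complex.ofReal_eq_zero]
  · have e : ((a u ⬝ᵥ a u' - 1 : A) : ℂ) = z u ⬝ᵥ z u' - 1 := by rw [← ha]; rfl
    rw [hf, ← sub_eq_zero, ← map_one f, ← map_sub, key _ (by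
      rw [e]
      exact mem_insert_of_mem (mem_union_right _ (mem_union_right _ (mem_union_left _
        (mem_image.2 ⟨(u, u'), mem_univ _, rfl⟩))))), e, hz, sub_eq_zero, Complex.ofReal_eq_one]
  · have e : (((a u ⬝ᵥ a u') ^ 2 - 1 : A) : ℂ) = (z u ⬝ᵥ z u') ^ 2 - 1 := by rw [← ha]; rfl
    rw [hf, ← sub_eq_zero, ← map_one f, ← map_pow, ← map_sub, key _ (by
      rw [e]
      exact mem_insert_of_mem (mem_union_right _ (mem_union_right _ (mem_union_right _
        (mem_image.2 ⟨(u, u'), mem_univ _, rfl⟩))))), e, hz, sub_eq_zero, ← Complex.ofReal_pow,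
      Complex.ofReal_eq_one]

variable {K : Type*} [Field K] [NumberField K]

theorem prod_emb (x : K) : ∏ φ : K →+* ℂ, ‖φ x‖ = |(Algebra.norm ℚ x : ℝ)| := by
  have h := congr_arg (‖·‖) (Algebra.norm_eq_prod_embeddings ℚ ℂ x)
  simp only [norm_prod] at h
  rw [Fintype.prod_equiv (RingHom.equivRatAlgHom K ℂ) (fun f => ‖f x‖)
      (fun φ => ‖φ x‖) fun _ => by simp [RingHom.equivRatAlgHom_apply], ← h, eq_ratCast,
    ← Complex.ofReal_ratCast, Complex.norm_real, Real.norm_eq_abs]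

/-- The product formula for a finite set of nonzero elements, over a finite set of places; every
embedding and every finite place has weight one. -/
theorem product_formula (Ξ : Finset K) :
    ∃ S : Finset (FinitePlace K), (∀ ξ ∈ Ξ, ξ ≠ 0 →
      ∑ φ : K →+* ℂ, Real.log ‖φ ξ‖ + ∑ v ∈ S, Real.log (v ξ) = 0) ∧
      ∀ ξ ∈ Ξ, ξ ≠ 0 → ∀ v ∉ S, v ξ = 1 := by
  classical
  let S : Finset (FinitePlace K) := Ξ.biUnion fun ξ =>
    if h : ξ = 0 then ∅ else (FinitePlace.hasFiniteMulSupport h).toFinset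
  have hS : ∀ ξ ∈ Ξ, ξ ≠ 0 → ∀ v ∉ S, v ξ = 1 := fun ξ hξ h0 v hv => by
    by_contra n
    refine hv (mem_biUnion.2 ⟨ξ, hξ, ?_⟩)
    rw [dif_neg h0]
    exact (Set.Finite.mem_toFinset _).2 n
  refine ⟨S, fun ξ hξ h0 => ?_, hS⟩
  have e1 : ∏ᶠ w : FinitePlace K, w ξ = ∏ v ∈ S, v ξ :=
    finprod_eq_prod_of_mulSupport_subset _ fun v hv => by_contra fun n => hv (hS ξ hξ h0 v n)
  have n1 : ∀ φ : K →+* ℂ, ‖φ ξ‖ ≠ 0 := fun φ => by simpa using h0
  have n2 : ∀ v : FinitePlace K, v ξ ≠ 0 := fun v => (FinitePlace.pos_iff.2 h0).ne'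
  rw [← Real.log_prod fun φ _ => n1 φ, ← Real.log_prod fun v _ => n2 v, ← e1,
    FinitePlace.prod_eq_inv_abs_norm h0, prod_emb, Rat.cast_inv, Rat.cast_abs, Real.log_inv,
    add_neg_cancel]

/-- The abstract form: finitely many complex places of total weight one and finitely many
ultrametric places, with the product formula on a given finite set. -/
theorem places (K : Type) [Field K] [NumberField K] (Ξ : Finset K) :
    ∃ (A N : Type) (_ : Fintype A) (_ : Fintype N) (φ : A → K →+* ℂ)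
      (v : N → AbsoluteValue K ℝ) (w : ℝ), 0 < w ∧ w * Fintype.card A = 1 ∧
      (∀ n, IsNonarchimedean (v n)) ∧ ∀ ξ ∈ Ξ, ξ ≠ 0 →
        ∑ a, w * Real.log ‖φ a ξ‖ + ∑ n, w * Real.log (v n ξ) = 0 := by
  obtain ⟨S, h, -⟩ := product_formula Ξ
  have c0 : (0 : ℝ) < Fintype.card (K →+* ℂ) := by exact_mod_cast Fintype.card_pos
  refine ⟨K →+* ℂ, S, inferInstance, inferInstance, id, fun n => n.1.1,
    (Fintype.card (K →+* ℂ) : ℝ)⁻¹, by positivity, inv_mul_cancel₀ c0.ne',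
    fun n => FinitePlace.add_le n.1, fun ξ hξ h0 => ?_⟩
  rw [← mul_sum, ← mul_sum, ← mul_add]
  refine mul_eq_zero_of_right _ ?_
  rw [← h ξ hξ h0, ← sum_coe_sort S]
  rfl

/-- The same with one index type of places and a flag for the complex ones. -/
theorem places_flag (K : Type) [Field K] [NumberField K] (Ξ : Finset K) :
    ∃ (P : Type) (_ : Fintype P) (w : P → ℝ) (v : P → AbsoluteValue K ℝ) (arch : P → Bool),
      (∀ p, 0 < w p) ∧ (∀ p, arch p = false → IsNonarchimedean (v p)) ∧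
      (∀ p, arch p = true → ∃ s : K →+* ℂ, ∀ x, v p x = ‖s x‖) ∧
      ∑ p with arch p = true, w p = 1 ∧ ∀ ξ ∈ Ξ, ξ ≠ 0 → ∑ p, w p * Real.log (v p ξ) = 0 := by
  obtain ⟨A, N, _, _, φ, v, w, w0, w1, hv, h⟩ := places K Ξ
  refine ⟨A ⊕ N, inferInstance, fun _ => w, Sum.elim (fun a => place (φ a)) v,
    Sum.elim (fun _ => true) fun _ => false, fun _ => w0, ?_, ?_, ?_, fun ξ hξ h0 => ?_⟩
  · rintro (a | n) hp
    · simp at hp
    · exact hv n
  · rintro (a | n) hp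
    · exact ⟨φ a, fun x => place_apply _ _⟩
    · simp at hp
  · rw [sum_filter, Fintype.sum_sum_type]
    simp only [Sum.elim_inl, Sum.elim_inr, if_true, Bool.false_eq_true, if_false, sum_const,
      card_univ, nsmul_eq_mul, mul_zero, add_zero]
    rw [mul_comm, w1]
  · rw [Fintype.sum_sum_type, ← h ξ hξ h0]
    simp only [Sum.elim_inl, Sum.elim_inr, place_apply]

/-- Step 2 glued: a finite family of real vectors moved to a number field with its places; the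
product formula holds for the nonzero inner products and the nonzero `1 - (x u ⬝ᵥ x u') ^ 2`. -/
theorem adelic {ι : Type} [Fintype ι] (y : ι → Fin 3 → ℝ) :
    ∃ (K : Type) (_ : Field K) (_ : CharZero K) (I : K) (x : ι → Fin 3 → K)
      (P : Type) (_ : Fintype P) (w : P → ℝ) (v : P → AbsoluteValue K ℝ) (arch : P → Bool),
      I ^ 2 = -1 ∧ (∀ u u', x u ⬝ᵥ x u' = 0 ↔ y u ⬝ᵥ y u' = 0) ∧
      (∀ u u', x u ⬝ᵥ x u' = 1 ↔ y u ⬝ᵥ y u' = 1) ∧
      (∀ u u', (x u ⬝ᵥ x u') ^ 2 = 1 ↔ (y u ⬝ᵥ y u') ^ 2 = 1) ∧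
      (∀ p, 0 < w p) ∧ (∀ p, arch p = false → IsNonarchimedean (v p)) ∧
      (∀ p, arch p = true → ∃ s : K →+* ℂ, ∀ x, v p x = ‖s x‖) ∧
      ∑ p with arch p = true, w p = 1 ∧
      (∀ u u', x u ⬝ᵥ x u' ≠ 0 → ∑ p, w p * Real.log (v p (x u ⬝ᵥ x u')) = 0) ∧
      ∀ u u', (x u ⬝ᵥ x u') ^ 2 ≠ 1 → ∑ p, w p * Real.log (v p (1 - (x u ⬝ᵥ x u') ^ 2)) = 0 := by
  classical
  obtain ⟨K, _, _, I, x, h1, h2, h3, h4⟩ := specialise_vec y
  obtain ⟨P, _, w, v, arch, g1, g2, g3, g4, g5⟩ := places_flag K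
    ((univ.image fun p : ι × ι => x p.1 ⬝ᵥ x p.2) ∪
      univ.image fun p : ι × ι => 1 - (x p.1 ⬝ᵥ x p.2) ^ 2)
  exact ⟨K, inferInstance, inferInstance, I, x, P, inferInstance, w, v, arch, h1, h2, h3, h4, g1,
    g2, g3, g4, fun u u' n => g5 _ (mem_union_left _ (mem_image.2 ⟨(u, u'), mem_univ _, rfl⟩)) n,
    fun u u' n => g5 _ (mem_union_right _ (mem_image.2 ⟨(u, u'), mem_univ _, rfl⟩))
      (sub_ne_zero.2 n.symm)⟩

end Pool.Agent.Lib.MP_abd417_co.Up.Spec
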