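import Pool.Agent.Lib.MP_abd417_co.Up.Red
import Pool.Agent.Lib.MP_abd417_co.Up.Spec
import Pool.Agent.Lib.MP_abd417_co.Up.Conf

/-! Steps one and two glued: from unit vectors to a configuration with capped stars. -/

namespace Pool.Agent.Lib.MP_abd417_co.Up.Red

open Finset Matrix

theorem exists_conf (V : Finset (EuclideanSpace ℝ (Fin 3))) (hV : ∀ v ∈ V, ‖v‖ = 1)
    (h0 : 0 < #V) :
    ∃ c : Conf, Fintype.card c.io ≤ #V ∧ (∀ i a, #{g : c.Fr | c.ax i g = a} ^ 2 ≤ #V) ∧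
      (bases V : ℝ) ≤ 216 * Fintype.card c.Fr + 10 ^ 22 * #V := by
  classical
  obtain ⟨io, _, _, y, ty, F, h1, h2, h3, h4, h5, h6, h7⟩ := reduce V hV
  have n0 : (0 : ℝ) < #V := by exact_mod_cast h0
  obtain ⟨G, GF, g1, g2⟩ := regular F (fun i g => g i) 444000 #V (√(#V : ℝ)) 0 (by norm_num)
    (Real.sqrt_pos.2 n0) le_rfl
    (fun i => Nat.cast_le.2 ((card_le_univ _).trans h1))
    (fun i j ne A B => st_frames y F h2 h3 h5 h6 i j ne A B)
  obtain ⟨K, _, _, I, x, P, _, w, v, arch, a1, a2, a3, a4, a5, a6, a7, a8, a9, a10⟩ :=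
    Spec.adelic y
  have sep : ∀ a b, a ≠ b → (x a ⬝ᵥ x b) ^ 2 ≠ 1 := fun a b ne e => h3 a b ne ((a4 a b).1 e)
  refine ⟨{
    K := K, I := I, io := io, Fr := G, Pl := P, y := x, ax := fun i g => g.1 i, w := w, v := v
    arch := arch, hI := a1, unit := fun a => (a3 a a).2 (h2 a), sep := sep
    orth := fun g i j ne => (a2 _ _).2 (h5 g.1 (GF g.2) i j ne)
    typ := fun g h i j ne e => ne (by rw [← h4 g.1 (GF g.2) i, e, h4 h.1 (GF h.2) j])
    lin := fun g h i j ne e e' => Subtype.ext (h6 g.1 (GF g.2) h.1 (GF h.2) i j ne e e')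
    wpos := a5, nonarch := a6, isarch := a7, wsum := a8, pf0 := a9
    pf1 := fun a b ne => a10 a b (sep a b ne) }, h1, fun i a => ?_, ?_⟩
  · change #{g : G | g.1 i = a} ^ 2 ≤ #V
    rcases ({g : G | g.1 i = a} : Finset G).eq_empty_or_nonempty with e | ⟨g, hg⟩
    · rw [e]; simp
    have e : #{g : G | g.1 i = a} ≤ #{h ∈ G | h i = g.1 i} := by
      refine card_le_card_of_injOn (fun h => h.1) (fun h hh => ?_) fun _ _ _ _ => Subtype.ext
      exact mem_coe.2 (mem_filter.2 ⟨h.2, (mem_filter.1 (mem_coe.1 hh)).2.trans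
        (mem_filter.1 hg).2.symm⟩)
    have e' : (#{g : G | g.1 i = a} : ℝ) ≤ √(#V : ℝ) := (Nat.cast_le.2 e).trans (g2 g.1 g.2 i).2
    have : (#{g : G | g.1 i = a} : ℝ) ^ 2 ≤ #V := by
      rw [← Real.sq_sqrt n0.le]; gcongr
    exact_mod_cast this
  · change (bases V : ℝ) ≤ 216 * Fintype.card G + 10 ^ 22 * #V
    have b : (bases V : ℝ) ≤ 216 * #F := by exact_mod_cast h7
    have e : 81 * (444000 : ℝ) ^ 3 * (#V : ℝ) ^ 2 / √(#V : ℝ) ^ 2 = 81 * 444000 ^ 3 * #V := by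
      rw [Real.sq_sqrt n0.le]; field_simp
    rw [e] at g1
    rw [Fintype.card_coe]
    linarith

end Pool.Agent.Lib.MP_abd417_co.Up.Red
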