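import Pool.Agent.Lib.MP_abd417_co.Up.CSt
import Pool.Agent.Lib.MP_abd417_co.Up.Glob
import Pool.Agent.Lib.MP_abd417_co.Up.Red2

/-! Steps one to four from the reduction, the global metric and the choice of scale. -/

namespace Pool.Agent.Lib.MP_abd417_co.Up

open Finset Matrix

theorem ev_pow (e A : ℝ) (he : 0 < e) : ∃ n0 : ℕ, ∀ n : ℕ, n0 ≤ n → A ≤ (n : ℝ) ^ e := by
  have := ((tendsto_rpow_atTop he).comp tendsto_natCast_atTop_atTop).eventually_ge_atTop A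
  exact Filter.eventually_atTop.1 this

theorem num_start (e : ℝ) (he : 0 < e) : ∃ η : ℝ, 0 < η ∧ ∃ n0 : ℕ, ∀ n : ℕ, n0 ≤ n → ∀ N T : ℝ,
    (n : ℝ) ^ (4 / 3 - η) ≤ T → T ≤ 216 * N + 10 ^ 22 * n → (n : ℝ) ^ (4 / 3 - e) ≤ N := by
  obtain ⟨n1, h1⟩ := ev_pow (1 / 6) (2 * 10 ^ 22) (by norm_num)
  obtain ⟨n2, h2⟩ := ev_pow (e / 2) 432 (by positivity)
  refine ⟨min (e / 2) (1 / 6), by positivity, max 1 (max n1 n2), fun n hn N T a b => ?_⟩
  have hn1 : (1 : ℝ) ≤ n := by exact_mod_cast le_of_max_le_left hn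
  have hn0 : (0 : ℝ) < n := by linarith
  have k1 := h1 n (le_of_max_le_left (le_of_max_le_right hn))
  have k2 := h2 n (le_of_max_le_right (le_of_max_le_right hn))
  have m1 := min_le_left (e / 2) (1 / 6 : ℝ)
  have m2 := min_le_right (e / 2) (1 / 6 : ℝ)
  have a1 : (n : ℝ) ^ (1 / 6 + 1 : ℝ) ≤ T :=
    (Real.rpow_le_rpow_of_exponent_le hn1 (by linarith)).trans a
  have a2 : (n : ℝ) ^ (e / 2 + (4 / 3 - e)) ≤ T :=
    (Real.rpow_le_rpow_of_exponent_le hn1 (by linarith)).trans a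
  rw [Real.rpow_add hn0, Real.rpow_one] at a1
  rw [Real.rpow_add hn0] at a2
  have p : 0 < (n : ℝ) ^ (4 / 3 - e) := Real.rpow_pos_of_pos hn0 _
  have b1 := mul_le_mul_of_nonneg_right k1 hn0.le
  have b2 := mul_le_mul_of_nonneg_right k2 p.le
  linarith

theorem blk14_of (hS : Scale) : Blk14 := by
  intro M hM
  obtain ⟨k0, e, hk, he, n1, hS⟩ := hS 444000 M (by norm_num) hM
  obtain ⟨η, hη, n2, hN⟩ := num_start e he
  refine ⟨k0, η, hk, hη, max 1 (max n1 n2), fun V hV hu hT => ?_⟩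
  obtain ⟨c, c1, c2, c3⟩ := Red.exists_conf V hu (le_of_max_le_left hV)
  have hV' := le_of_max_le_right hV
  have h8 : (8 : ℝ) ≤ 444000 := by norm_num
  obtain ⟨B, R, ka, b1, b2, b3, b4, b5, b6⟩ := hS #V (le_of_max_le_left hV') c.io c.Fr c.ax c.dist
    c1 c.dist_comm c.dist_tri c.one_le_dist (c.dist_self_le h8) c.typ c.lin c.st
    (c.dist_D1 h8) (c.dist_D2 h8) (hN #V (le_of_max_le_right hV') _ _ hT c3)
  refine ⟨c.sub B, R, ka, b1, c1, fun i a => ?_, b2, b3, ?_, fun g h => b5 _ g.2 _ h.2,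
    fun g => ?_⟩
  · refine le_trans (Nat.pow_le_pow_left ?_ 2) (c2 i a)
    refine card_le_card_of_injOn (fun g => g.1) (fun g hg => ?_) (fun x _ y _ e => Subtype.ext e)
    have e := (mem_filter.1 (mem_coe.1 hg)).2
    simp only [coe_filter, mem_univ, true_and, Set.mem_ofPred_eq]
    exact e
  · rw [c.sub_card]; exact b4
  · rw [c.sub_card]
    refine le_trans (le_of_eq ?_) (b6 g.1 g.2)
    exact congrArg _ (c.sub_filter B (fun h => c.dist g.1 h ≤ R / 2))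

end Pool.Agent.Lib.MP_abd417_co.Up
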