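import Pool.Agent.Lib.MP_abd417_co.Up.Conf
import Pool.Agent.Lib.MP_abd417_co.U.AlgB

/-! Bridge between a configuration and the algebra at one place. -/

namespace Pool.Agent.Lib.MP_abd417_co.Up

open Finset Matrix

theorem mx_eq {K : Type*} [Field K] (v : AbsoluteValue K ℝ) (g h : Fin 3 → Fin 3 → K) :
    mx v g h = U.Alg.mx v g h := by
  apply le_antisymm
  · exact sup'_le _ _ fun p _ => U.Alg.le_mx g h p.1 p.2
  · exact U.Alg.mx_le fun i j =>
      le_sup' (fun p : Fin 3 × Fin 3 => v (g p.1 ⬝ᵥ h p.2)) (mem_univ (i, j))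

namespace Conf

variable (c : Conf)

theorem isFr (g : c.Fr) : U.Alg.IsFr (c.fr g) := fun i j => by
  split_ifs with h
  · subst h; exact c.unit _
  · exact c.orth g i j h

theorem th_eq (i : Fin 3) (g h : c.Fr) : c.th i g h = U.Alg.Th i (c.fr g) (c.fr h) := rfl

theorem d_eq (p : c.Pl) (g h : c.Fr) :
    c.d p g h = Real.log (U.Alg.mx (c.v p) (c.fr g) (c.fr h)) := by rw [d, mx_eq]

theorem fr_mate {g h : c.Fr} {i : Fin 3} (e : c.ax i h = c.ax i g) : c.fr h i = c.fr g i := by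
  simp only [fr, e]

theorem tri_one (p : c.Pl) (hp : c.arch p = false) : U.Alg.Tri (c.v p) 1 :=
  ⟨le_rfl, fun x y => by rw [one_mul]; exact c.nonarch p hp x y⟩

theorem mx_pos (p : c.Pl) (g h : c.Fr) : 0 < U.Alg.mx (c.v p) (c.fr g) (c.fr h) := by
  have := U.Alg.one_le_mx (U.Alg.tri_two (c.v p)) (c.isFr g) (c.isFr h)
  linarith

theorem sub_dist (B : Finset c.Fr) (g h : (c.sub B).Fr) :
    (c.sub B).dist g h = c.dist g.1 h.1 := rfl

theorem sub_card (B : Finset c.Fr) : Fintype.card (c.sub B).Fr = #B := Fintype.card_coe B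

theorem sub_filter (B : Finset c.Fr) (p : c.Fr → Prop) [DecidablePred p]
    [DecidablePred fun g : (c.sub B).Fr => p g.1] :
    #{g : (c.sub B).Fr | p g.1} = #{g ∈ B | p g} := by
  refine card_bij (fun g _ => g.1) (fun g hg => ?_) (fun a _ b _ e => Subtype.ext e)
    (fun g hg => ?_)
  · exact mem_filter.2 ⟨g.2, (mem_filter.1 hg).2⟩
  · exact ⟨⟨g, (mem_filter.1 hg).1⟩, mem_filter.2 ⟨mem_univ _, (mem_filter.1 hg).2⟩, rfl⟩

end Conf

end Pool.Agent.Lib.MP_abd417_co.Up
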