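import Pool.Agent.Lib.MP_abd417_co.Up.Conf
import Pool.Agent.Lib.MP_abd417_co.Up.STb

/-! Product formula for mates and the incidence bound for pairs of axes. -/

namespace Pool.Agent.Lib.MP_abd417_co.Up.Conf

open Finset Matrix

theorem pf_fin1 : ∀ i : Fin 3, i ≠ i + 1 := by decide

theorem pf_fin2 : ∀ i : Fin 3, i + 2 ≠ i + 1 := by decide

variable (c : Conf)

theorem pf_parseval (g : c.Fr) (u : Fin 3 → c.K) :
    ∑ k, (c.y (c.ax k g) ⬝ᵥ u) ^ 2 = u ⬝ᵥ u := by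
  let G : Matrix (Fin 3) (Fin 3) c.K := Matrix.of fun i => c.y (c.ax i g)
  have h1 : G * Gᵀ = 1 := by
    ext i j
    by_cases h : i = j
    · subst h
      rw [Matrix.one_apply_eq]
      exact c.unit _
    · rw [Matrix.one_apply_ne h]
      exact c.orth g i j h
  have h2 : Gᵀ * G = 1 := mul_eq_one_comm.1 h1
  have h3 : (G *ᵥ u) ⬝ᵥ (G *ᵥ u) = u ⬝ᵥ u := by
    rw [Matrix.dotProduct_mulVec, Matrix.vecMul_mulVec, h2, Matrix.vecMul_one]
  rw [← h3]
  exact Finset.sum_congr rfl fun k _ => sq _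

theorem pf_ax_ne {i : Fin 3} {g h : c.Fr} (hm : c.ax i g = c.ax i h) (hne : g ≠ h) :
    c.ax (i + 1) g ≠ c.ax (i + 1) h := fun e =>
  hne (c.lin g h i (i + 1) (pf_fin1 i) hm e)

theorem pf_dot_ne {i : Fin 3} {g h : c.Fr} (hm : c.ax i g = c.ax i h) :
    c.y (c.ax (i + 1) g) ⬝ᵥ c.y (c.ax (i + 1) h) ≠ 0 := fun e => by
  have h1 := c.pf_parseval g (c.y (c.ax (i + 1) h))
  have h2 : c.y (c.ax i g) ⬝ᵥ c.y (c.ax (i + 1) h) = 0 := by
    rw [hm]
    exact c.orth h i (i + 1) (pf_fin1 i)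
  have h3 := c.sep _ _ (c.typ g h (i + 2) (i + 1) (pf_fin2 i))
  apply h3
  rw [c.unit, Fin.sum_univ_three] at h1
  fin_cases i
  · simp only [Fin.zero_eta, Fin.isValue, zero_add] at h1 h2 e ⊢
    rw [h2, e] at h1
    simpa using h1
  · simp only [Fin.mk_one, Fin.isValue, Fin.reduceAdd] at h1 h2 e ⊢
    rw [h2, e] at h1
    simpa using h1
  · simp only [Fin.reduceFinMk, Fin.isValue, Fin.reduceAdd] at h1 h2 e ⊢
    rw [h2, e] at h1
    simpa using h1

/-- For distinct mates the quantity `th` does not vanish. -/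
theorem th_ne {i : Fin 3} {g h : c.Fr} (hm : c.ax i g = c.ax i h) (hne : g ≠ h) :
    c.th i g h ≠ 0 :=
  mul_ne_zero (pow_ne_zero _ (c.pf_dot_ne hm))
    (sub_ne_zero.2 (c.sep _ _ (c.pf_ax_ne hm hne)).symm)

/-- The product formula for `th`. -/
theorem th_pf {i : Fin 3} {g h : c.Fr} (hm : c.ax i g = c.ax i h) (hne : g ≠ h) :
    ∑ p, c.w p * Real.log (c.v p (c.th i g h)) = 0 := by
  have h0 := c.pf_dot_ne hm
  have h1 : 1 - (c.y (c.ax (i + 1) g) ⬝ᵥ c.y (c.ax (i + 1) h)) ^ 2 ≠ 0 :=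
    sub_ne_zero.2 (c.sep _ _ (c.pf_ax_ne hm hne)).symm
  have e0 := c.pf0 _ _ h0
  have e1 := c.pf1 _ _ (c.pf_ax_ne hm hne)
  have e : ∀ p, c.w p * Real.log (c.v p (c.th i g h)) =
      2 * (c.w p * Real.log (c.v p (c.y (c.ax (i + 1) g) ⬝ᵥ c.y (c.ax (i + 1) h)))) +
        c.w p * Real.log (c.v p (1 - (c.y (c.ax (i + 1) g) ⬝ᵥ c.y (c.ax (i + 1) h)) ^ 2)) := by
    intro p
    simp only [th, fr]
    rw [map_mul, map_pow, Real.log_mul (pow_ne_zero _ ((c.v p).ne_zero h0)) ((c.v p).ne_zero h1),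
      Real.log_pow]
    push_cast
    ring
  rw [Finset.sum_congr rfl fun p _ => e p, Finset.sum_add_distrib, ← Finset.mul_sum, e0, e1]
  simp

/-- The incidence bound for a pair of axes. -/
theorem st (i j : Fin 3) (hij : i ≠ j) (A B : Finset c.io) :
    (#{g : c.Fr | c.ax i g ∈ A ∧ c.ax j g ∈ B} : ℝ) ≤
      444000 * (((#A : ℝ) * #B) ^ (2 / 3 : ℝ) + #A + #B) := by
  classical
  refine le_trans ?_ (ST.st_unit A B c.y c.y (fun a _ => c.unit a) (fun a _ => c.unit a)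
    (fun a _ b _ => c.sep a b) (fun a _ b _ => c.sep a b))
  refine Nat.cast_le.2 (Finset.card_le_card_of_injOn (fun g => (c.ax i g, c.ax j g)) ?_ ?_)
  · intro g hg
    have := (Finset.mem_filter.1 (Finset.mem_coe.1 hg)).2
    exact Finset.mem_coe.2 (Finset.mem_filter.2 ⟨Finset.mem_product.2 this, c.orth g i j hij⟩)
  · intro g _ h _ e
    exact c.lin g h i j hij (congrArg Prod.fst e) (congrArg Prod.snd e)

end Pool.Agent.Lib.MP_abd417_co.Up.Conf
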