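import Mathlib

namespace Pool.Agent.Lib.MP_abd417_co.Up.Cells

open Finset Matrix

section RV
variable {F : Type*} [Fintype F]

/-- mass -/
noncomputable def ms (mu : F → ℝ) : ℝ := ∑ x, mu x
/-- integral -/
noncomputable def ig (mu X : F → ℝ) : ℝ := ∑ x, mu x * X x
/-- mean -/
noncomputable def ex (mu X : F → ℝ) : ℝ := ig mu X / ms mu
/-- mass times variance -/
noncomputable def vr (mu X : F → ℝ) : ℝ := ig mu (fun x => X x ^ 2) - ms mu * ex mu X ^ 2
/-- mass times the variance of the conditional mean -/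
noncomputable def bv {Om : Type*} [Fintype Om] (nu : Om → F → ℝ) (X : F → ℝ) : ℝ :=
  ∑ o, ms (nu o) * (ex (nu o) X - ex (fun x => ∑ o, nu o x) X) ^ 2

theorem ms_nonneg {mu : F → ℝ} (h : ∀ x, 0 ≤ mu x) : 0 ≤ ms mu := sum_nonneg fun x _ => h x

theorem ms_mul_ex {mu : F → ℝ} (h : ∀ x, 0 ≤ mu x) (X : F → ℝ) : ms mu * ex mu X = ig mu X := by
  unfold ex
  by_cases h0 : ms mu = 0
  · have hz : ∀ x, mu x = 0 := fun x =>
      (sum_eq_zero_iff_of_nonneg (fun x _ => h x)).1 h0 x (mem_univ x)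
    simp [h0, ig, hz]
  · field_simp

theorem vr_eq {mu : F → ℝ} (h : ∀ x, 0 ≤ mu x) (X : F → ℝ) :
    vr mu X = ∑ x, mu x * (X x - ex mu X) ^ 2 := by
  have h1 := ms_mul_ex h X
  have h2 : ∑ x, mu x * (X x - ex mu X) ^ 2
      = ig mu (fun x => X x ^ 2) - 2 * ex mu X * ig mu X + ex mu X ^ 2 * ms mu := by
    unfold ig ms
    rw [mul_sum, mul_sum, ← sum_sub_distrib, ← sum_add_distrib]
    exact sum_congr rfl fun x _ => by ring
  rw [h2, vr, ← h1]; ring

theorem vr_nonneg {mu : F → ℝ} (h : ∀ x, 0 ≤ mu x) (X : F → ℝ) : 0 ≤ vr mu X := by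
  rw [vr_eq h]; exact sum_nonneg fun x _ => mul_nonneg (h x) (sq_nonneg _)

theorem vr_le {mu : F → ℝ} (h : ∀ x, 0 ≤ mu x) (X : F → ℝ) :
    vr mu X ≤ ig mu (fun x => X x ^ 2) := by
  have := mul_nonneg (ms_nonneg h) (sq_nonneg (ex mu X))
  unfold vr; linarith

variable {Om : Type*} [Fintype Om]

theorem bv_eq {nu : Om → F → ℝ} (h : ∀ o x, 0 ≤ nu o x) (X : F → ℝ) :
    bv nu X = vr (fun x => ∑ o, nu o x) X - ∑ o, vr (nu o) X := by
  have hm : ∀ x, 0 ≤ ∑ o, nu o x := fun x => sum_nonneg fun o _ => h o x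
  have h1 := ms_mul_ex (mu := fun x => ∑ o, nu o x) hm X
  have hms : ms (fun x => ∑ o, nu o x) = ∑ o, ms (nu o) := by unfold ms; exact sum_comm
  have hig : ∀ Y : F → ℝ, ig (fun x => ∑ o, nu o x) Y = ∑ o, ig (nu o) Y := fun Y => by
    unfold ig; simp only [sum_mul]; exact sum_comm
  set e := ex (fun x => ∑ o, nu o x) X with he
  have h2 : bv nu X = ∑ o, ms (nu o) * ex (nu o) X ^ 2 - 2 * e * ∑ o, ig (nu o) X
      + e ^ 2 * ∑ o, ms (nu o) := by
    unfold bv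
    rw [mul_sum, mul_sum, ← sum_sub_distrib, ← sum_add_distrib]
    refine sum_congr rfl fun o _ => ?_
    rw [← ms_mul_ex (h o) X, ← he]; ring
  rw [h2, ← hig X, ← hms, ← h1]
  unfold vr
  rw [sum_sub_distrib, hig, ← he]; ring

theorem bv_nonneg {nu : Om → F → ℝ} (h : ∀ o x, 0 ≤ nu o x) (X : F → ℝ) : 0 ≤ bv nu X :=
  sum_nonneg fun o _ => mul_nonneg (ms_nonneg (h o)) (sq_nonneg _)

theorem bv_le {nu : Om → F → ℝ} (h : ∀ o x, 0 ≤ nu o x) (X : F → ℝ) :
    bv nu X ≤ ig (fun x => ∑ o, nu o x) (fun x => X x ^ 2) := by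
  have hm : ∀ x, 0 ≤ ∑ o, nu o x := fun x => sum_nonneg fun o _ => h o x
  have h1 := vr_le (mu := fun x => ∑ o, nu o x) hm X
  have h2 : 0 ≤ ∑ o, vr (nu o) X := sum_nonneg fun o _ => vr_nonneg (h o) X
  rw [bv_eq h]; linarith

theorem ex_add (mu X Y : F → ℝ) : ex mu (fun x => X x + Y x) = ex mu X + ex mu Y := by
  unfold ex ig; simp only [mul_add, sum_add_distrib, add_div]

theorem ex_sum {C : Type*} (G : Finset C) (mu : F → ℝ) (a : C → ℝ) (Y : C → F → ℝ) :
    ex mu (fun x => ∑ z ∈ G, a z * Y z x) = ∑ z ∈ G, a z * ex mu (Y z) := by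
  unfold ex ig
  simp only [mul_sum, ← mul_div_assoc, ← sum_div]
  congr 1
  rw [sum_comm]
  exact sum_congr rfl fun z _ => sum_congr rfl fun x _ => by ring

theorem bv_add {nu : Om → F → ℝ} (h : ∀ o x, 0 ≤ nu o x) (X Y : F → ℝ) :
    bv nu (fun x => X x + Y x) ≤ 2 * bv nu X + 2 * bv nu Y := by
  unfold bv
  rw [mul_sum, mul_sum, ← sum_add_distrib]
  refine sum_le_sum fun o _ => ?_
  rw [ex_add, ex_add]
  have hm := ms_nonneg (h o)
  set a := ex (nu o) X - ex (fun x => ∑ o, nu o x) X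
  set b := ex (nu o) Y - ex (fun x => ∑ o, nu o x) Y
  have e : ex (nu o) X + ex (nu o) Y - (ex (fun x => ∑ o, nu o x) X + ex (fun x => ∑ o, nu o x) Y)
      = a + b := by simp only [a, b]; ring
  rw [e]
  nlinarith [mul_nonneg hm (sq_nonneg (a - b))]

theorem bv_sum {C : Type*} (G : Finset C) {nu : Om → F → ℝ} (h : ∀ o x, 0 ≤ nu o x)
    (a : C → ℝ) (B : ℝ) (ha : ∀ z ∈ G, |a z| ≤ B) (Y : C → F → ℝ) :
    bv nu (fun x => ∑ z ∈ G, a z * Y z x) ≤ (G.card : ℝ) * B ^ 2 * ∑ z ∈ G, bv nu (Y z) := by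
  unfold bv
  rw [sum_comm (s := G), mul_sum]
  refine sum_le_sum fun o _ => ?_
  rw [ex_sum, ex_sum, ← sum_sub_distrib, ← mul_sum]
  have hm := ms_nonneg (h o)
  have h1 := sum_mul_sq_le_sq_mul_sq G a
    (fun z => ex (nu o) (Y z) - ex (fun x => ∑ o, nu o x) (Y z))
  have h2 : ∑ z ∈ G, a z ^ 2 ≤ (G.card : ℝ) * B ^ 2 := by
    have : ∀ z ∈ G, a z ^ 2 ≤ B ^ 2 := fun z hz => by
      have := ha z hz
      rw [← sq_abs]; exact pow_le_pow_left₀ (abs_nonneg _) this 2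
    simpa using sum_le_card_nsmul G _ _ this
  have h3 : 0 ≤ ∑ z ∈ G, (ex (nu o) (Y z) - ex (fun x => ∑ o, nu o x) (Y z)) ^ 2 :=
    sum_nonneg fun z _ => sq_nonneg _
  have h4 : ∑ z ∈ G, (a z * ex (nu o) (Y z) - a z * ex (fun x => ∑ o, nu o x) (Y z))
      = ∑ z ∈ G, a z * (ex (nu o) (Y z) - ex (fun x => ∑ o, nu o x) (Y z)) :=
    sum_congr rfl fun z _ => by ring
  rw [h4]
  have h5 := h1.trans (mul_le_mul_of_nonneg_right h2 h3)
  nlinarith [mul_le_mul_of_nonneg_left h5 hm]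

open Classical in
/-- the cell potential of a labelling `c` -/
noncomputable def psi (c : F → F) (mu : F → ℝ) : ℝ :=
  ∑ z, vr mu (fun x => if c x = z then 1 else 0)

theorem psi_nonneg (c : F → F) {mu : F → ℝ} (h : ∀ x, 0 ≤ mu x) : 0 ≤ psi c mu :=
  sum_nonneg fun _ _ => vr_nonneg h _

theorem psi_le (c : F → F) {mu : F → ℝ} (h : ∀ x, 0 ≤ mu x) : psi c mu ≤ ms mu := by
  classical
  unfold psi
  refine (sum_le_sum fun z _ => vr_le h _).trans (le_of_eq ?_)
  unfold ig ms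
  rw [sum_comm]
  refine sum_congr rfl fun x _ => ?_
  simp

open Classical in
theorem psi_drop (c : F → F) {nu : Om → F → ℝ} (h : ∀ o x, 0 ≤ nu o x) :
    psi c (fun x => ∑ o, nu o x) - ∑ o, psi c (nu o)
      = ∑ z, bv nu (fun x => if c x = z then 1 else 0) := by
  unfold psi
  rw [sum_comm (s := (univ : Finset Om)), ← sum_sub_distrib]
  exact sum_congr rfl fun z _ => (bv_eq h _).symm

theorem psi_super (c : F → F) {nu : Om → F → ℝ} (h : ∀ o x, 0 ≤ nu o x) :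
    ∑ o, psi c (nu o) ≤ psi c (fun x => ∑ o, nu o x) := by
  classical
  have h1 := psi_drop c h
  have h2 : 0 ≤ ∑ z, bv nu (fun x => if c x = z then (1 : ℝ) else 0) :=
    sum_nonneg fun z _ => bv_nonneg h _
  linarith

open Classical in
/-- A bounded function that is nearly constant on the cells met by a good set has a conditional
mean whose variance is paid by the drop of the cell potential. -/
theorem bv_cells (c : F → F) (G : Finset F) (good : F → Prop) (X : F → ℝ) (B e : ℝ)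
    (hB : ∀ x, |X x| ≤ B) (hg : ∀ x, good x → c x ∈ G ∧ |X x - X (c x)| ≤ e)
    {nu : Om → F → ℝ} (h : ∀ o x, 0 ≤ nu o x) :
    bv nu X ≤ 2 * (G.card : ℝ) * B ^ 2 * (psi c (fun x => ∑ o, nu o x) - ∑ o, psi c (nu o))
      + 2 * e ^ 2 * ms (fun x => ∑ o, nu o x)
      + 8 * B ^ 2 * ∑ x, (if good x then 0 else ∑ o, nu o x) := by
  have hm : ∀ x, 0 ≤ ∑ o, nu o x := fun x => sum_nonneg fun o _ => h o x
  set A : F → ℝ := fun x => ∑ z ∈ G, X z * (if c x = z then (1 : ℝ) else 0) with hA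
  have hAx : ∀ x, A x = if c x ∈ G then X (c x) else 0 := fun x => by
    simp [hA]
  have h0 : X = fun x => A x + (X x - A x) := by funext x; ring
  have h1 : bv nu X ≤ 2 * bv nu A + 2 * bv nu (fun x => X x - A x) := by
    have := bv_add h A (fun x => X x - A x)
    rwa [← h0] at this
  have h2 := bv_sum G h X B (fun z _ => hB z) (fun z x => if c x = z then (1 : ℝ) else 0)
  have h3 : ∑ z ∈ G, bv nu (fun x => if c x = z then (1 : ℝ) else 0)
      ≤ ∑ z, bv nu (fun x => if c x = z then (1 : ℝ) else 0) :=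
    sum_le_sum_of_subset_of_nonneg (subset_univ G) fun z _ _ => bv_nonneg h _
  have h4 := bv_le h (fun x => X x - A x)
  have h5 : ig (fun x => ∑ o, nu o x) (fun x => (X x - A x) ^ 2)
      ≤ e ^ 2 * ms (fun x => ∑ o, nu o x)
        + 4 * B ^ 2 * ∑ x, (if good x then 0 else ∑ o, nu o x) := by
    unfold ig ms
    rw [mul_sum, mul_sum, ← sum_add_distrib]
    refine sum_le_sum fun x _ => ?_
    have hx := hm x
    by_cases hgx : good x
    · obtain ⟨h6, h7⟩ := hg x hgx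
      have h8 : (X x - A x) ^ 2 ≤ e ^ 2 := by
        rw [hAx, if_pos h6, ← sq_abs]; exact pow_le_pow_left₀ (abs_nonneg _) h7 2
      simp only [if_pos hgx]
      nlinarith [mul_le_mul_of_nonneg_left h8 hx]
    · have hB0 : 0 ≤ B := (abs_nonneg _).trans (hB x)
      have h7 : |A x| ≤ B := by
        rw [hAx]; split_ifs
        · exact hB _
        · simpa using hB0
      have h8 : (X x - A x) ^ 2 ≤ 4 * B ^ 2 := by
        have h9 := abs_le.1 h7
        have h10 := abs_le.1 (hB x)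
        nlinarith
      simp only [if_neg hgx]
      nlinarith [mul_le_mul_of_nonneg_left h8 hx, mul_nonneg (sq_nonneg e) hx]
  have h6 : 0 ≤ (G.card : ℝ) * B ^ 2 := mul_nonneg (Nat.cast_nonneg _) (sq_nonneg _)
  rw [psi_drop c h]
  have h7 := h2.trans (mul_le_mul_of_nonneg_left h3 h6)
  have h8 : bv nu A ≤ _ := h7
  linarith

open Classical in
/-- L2 form: `X` is close to a function of the cells in `G`. -/
theorem l2_cells (c : F → F) (G : Finset F) (good : F → Prop) (X : F → ℝ) (B e : ℝ)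
    (hB : ∀ x, |X x| ≤ B) (hg : ∀ x, good x → c x ∈ G ∧ |X x - X (c x)| ≤ e)
    {mu : F → ℝ} (hm : ∀ x, 0 ≤ mu x) :
    ∑ x, mu x * (X x - if c x ∈ G then X (c x) else 0) ^ 2
      ≤ e ^ 2 * ∑ x, mu x + 4 * B ^ 2 * ∑ x, (if good x then 0 else mu x) := by
  rw [mul_sum, mul_sum, ← sum_add_distrib]
  refine sum_le_sum fun x _ => ?_
  have hx := hm x
  by_cases hgx : good x
  · obtain ⟨h6, h7⟩ := hg x hgx
    have h8 : (X x - X (c x)) ^ 2 ≤ e ^ 2 := by
      rw [← sq_abs]; exact pow_le_pow_left₀ (abs_nonneg _) h7 2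
    simp only [if_pos hgx, if_pos h6]
    nlinarith [mul_le_mul_of_nonneg_left h8 hx]
  · have hB0 : 0 ≤ B := (abs_nonneg _).trans (hB x)
    have h7 : |if c x ∈ G then X (c x) else 0| ≤ B := by
      split_ifs
      · exact hB _
      · simpa using hB0
    have h8 : (X x - if c x ∈ G then X (c x) else 0) ^ 2 ≤ 4 * B ^ 2 := by
      have h9 := abs_le.1 h7
      have h10 := abs_le.1 (hB x)
      nlinarith
    simp only [if_neg hgx]
    nlinarith [mul_le_mul_of_nonneg_left h8 hx, mul_nonneg (sq_nonneg e) hx]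

theorem exists_net (r : F → F → Prop) (hr : ∀ x, r x x) (hs : ∀ x y, r x y → r y x) :
    ∃ c : F → F, (∀ x, r x (c x)) ∧ ∀ x y, r (c x) (c y) → c x = c y := by
  classical
  obtain ⟨Z, hZ, hmax⟩ := exists_max_image
    ((univ : Finset (Finset F)).filter fun Z => ∀ x ∈ Z, ∀ y ∈ Z, r x y → x = y) card
    ⟨∅, mem_filter.2 ⟨mem_univ _, fun x hx => absurd hx (notMem_empty x)⟩⟩
  have hZ' := (mem_filter.1 hZ).2
  have hex : ∀ x, ∃ z, z ∈ Z ∧ r x z := fun x => by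
    by_contra hn
    push Not at hn
    have hx : x ∉ Z := fun hx => hn x hx (hr x)
    have := hmax (insert x Z) (mem_filter.2 ⟨mem_univ _, fun a ha b hb hab => by
      rcases mem_insert.1 ha with ha1 | ha1 <;> rcases mem_insert.1 hb with hb1 | hb1
      · exact ha1.trans hb1.symm
      · rw [ha1] at hab; exact absurd hab (hn b hb1)
      · rw [hb1] at hab; exact absurd (hs _ _ hab) (hn a ha1)
      · exact hZ' a ha1 b hb1 hab⟩)
    rw [card_insert_of_notMem hx] at this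
    omega
  choose c hc using hex
  exact ⟨c, fun x => (hc x).2, fun x y hxy => hZ' _ (hc x).1 _ (hc y).1 hxy⟩

end RV

theorem mul_bound {A B : Matrix (Fin 3) (Fin 3) ℂ} {a b : ℝ} (hA : ∀ i j, ‖A i j‖ ≤ a)
    (hB : ∀ i j, ‖B i j‖ ≤ b) (i j : Fin 3) : ‖(A * B) i j‖ ≤ 3 * a * b := by
  have ha : 0 ≤ a := (norm_nonneg _).trans (hA 0 0)
  rw [mul_apply]
  refine (norm_sum_le _ _).trans ?_
  have : ∀ l ∈ (univ : Finset (Fin 3)), ‖A i l * B l j‖ ≤ a * b := fun l _ => by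
    rw [norm_mul]; exact mul_le_mul (hA _ _) (hB _ _) (norm_nonneg _) ha
  have := sum_le_card_nsmul _ _ _ this
  simp at this
  simpa [mul_assoc] using this

theorem floor_close {a b e : ℝ} (he : 0 < e) (h : ⌊a / e⌋ = ⌊b / e⌋) : |a - b| ≤ e := by
  have h1 := Int.abs_sub_lt_one_of_floor_eq_floor h
  rw [← sub_div, abs_div, abs_of_pos he, div_lt_one he] at h1
  exact h1.le

theorem floor_mem {a e : ℝ} {M : ℕ} (h : |a / e| ≤ M) : ⌊a / e⌋ ∈ Icc (-(M : ℤ)) M := by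
  have h1 := abs_le.1 h
  refine mem_Icc.2 ⟨Int.le_floor.2 (by push_cast; exact h1.1), ?_⟩
  have : (⌊a / e⌋ : ℝ) ≤ M := (Int.floor_le _).trans h1.2
  exact_mod_cast this

/-- number of cells that meet the ball of radius `K` -/
noncomputable def NN (K d : ℝ) : ℕ := (2 * ⌈216 * K ^ 2 / d⌉₊ + 1) ^ 18

/-- Cells of complex frames, chosen before the base `k`. -/
theorem exists_cells {F : Type*} [Fintype F] (g : F → Matrix (Fin 3) (Fin 3) ℂ)
    (hg : ∀ x, g x * (g x)ᵀ = 1) {d : ℝ} (hd : 0 < d) (hd1 : d ≤ 1) :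
    ∃ c : F → F, ∀ (k : Matrix (Fin 3) (Fin 3) ℂ), k * kᵀ = 1 → ∀ K : ℝ, 0 < K →
      ∃ G : Finset F, G.card ≤ NN K d ∧ ∀ x, (∀ i j, ‖(g x * kᵀ) i j‖ ≤ K) →
        c x ∈ G ∧ ∀ i j, ‖(g x * kᵀ) i j - (g (c x) * kᵀ) i j‖ ≤ 18 * K * d := by
  classical
  have hg' : ∀ x, (g x)ᵀ * g x = 1 := fun x => mul_eq_one_comm.1 (hg x)
  obtain ⟨c, hc1, hc2⟩ := exists_net (fun x y => ∀ i j, ‖(g x * (g y)ᵀ - 1) i j‖ ≤ d)
    (fun x i j => by simp [hg x, hd.le])
    (fun x y h i j => by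
      have e : g y * (g x)ᵀ - 1 = (g x * (g y)ᵀ - 1)ᵀ := by simp [transpose_sub, transpose_mul]
      rw [e, transpose_apply]; exact h j i)
  refine ⟨c, fun k hk K hK => ?_⟩
  have hk' : kᵀ * k = 1 := mul_eq_one_comm.1 hk
  refine ⟨(univ.image c).filter fun z => ∀ i j, ‖(g z * kᵀ) i j‖ ≤ 6 * K, ?_, fun x hx => ?_⟩
  · set e : ℝ := d / (36 * K) with he
    have he0 : 0 < e := by positivity
    set M : ℕ := ⌈216 * K ^ 2 / d⌉₊ with hM
    have hMe : ∀ a : ℝ, |a| ≤ 6 * K → |a / e| ≤ M := fun a ha => by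
      rw [abs_div, abs_of_pos he0, div_le_iff₀ he0]
      have h1 : 216 * K ^ 2 / d ≤ M := Nat.le_ceil _
      have h2 : 216 * K ^ 2 / d * e = 6 * K := by rw [he]; field_simp; norm_num
      nlinarith [mul_le_mul_of_nonneg_right h1 he0.le]
    let f : F → (Fin 3 × Fin 3 × Bool → ℤ) := fun z p =>
      ⌊(if p.2.2 then ((g z * kᵀ) p.1 p.2.1).re else ((g z * kᵀ) p.1 p.2.1).im) / e⌋
    have hcard : (Fintype.piFinset fun _ : Fin 3 × Fin 3 × Bool => Icc (-(M : ℤ)) M).card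
        = NN K d := by
      rw [Fintype.card_piFinset]
      simp only [Int.card_Icc, prod_const, card_univ, Fintype.card_prod, Fintype.card_fin,
        Fintype.card_bool, NN, ← hM]
      congr 1
      omega
    rw [← hcard]
    refine card_le_card_of_injOn f (fun z hz => ?_) (fun z hz z' hz' hf => ?_)
    · have hz2 := (mem_filter.1 (mem_coe.1 hz)).2
      refine mem_coe.2 (Fintype.mem_piFinset.2 fun p => floor_mem (hMe _ ?_))
      split_ifs
      · exact (Complex.abs_re_le_norm _).trans (hz2 _ _)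
      · exact (Complex.abs_im_le_norm _).trans (hz2 _ _)
    · obtain ⟨hz1, -⟩ := mem_filter.1 (mem_coe.1 hz)
      obtain ⟨hz1', hz2'⟩ := mem_filter.1 (mem_coe.1 hz')
      obtain ⟨x, -, rfl⟩ := mem_image.1 hz1
      obtain ⟨y, -, rfl⟩ := mem_image.1 hz1'
      refine hc2 x y fun i j => ?_
      have e1 : g (c x) * (g (c y))ᵀ - 1
          = (g (c x) * kᵀ - g (c y) * kᵀ) * (g (c y) * kᵀ)ᵀ := by
        rw [transpose_mul, transpose_transpose, Matrix.sub_mul]
        simp only [Matrix.mul_assoc]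
        rw [← Matrix.mul_assoc kᵀ k, hk', Matrix.one_mul, hg]
      rw [e1]
      have h1 : ∀ a b, ‖(g (c x) * kᵀ - g (c y) * kᵀ) a b‖ ≤ 2 * e := fun a b => by
        have h2 := floor_close he0 (congrFun hf (a, b, true))
        have h3 := floor_close he0 (congrFun hf (a, b, false))
        simp only [if_true, Bool.false_eq_true, if_false] at h2 h3
        refine (Complex.norm_le_abs_re_add_abs_im _).trans ?_
        rw [Matrix.sub_apply, Complex.sub_re, Complex.sub_im]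
        linarith
      have h4 := mul_bound (B := (g (c y) * kᵀ)ᵀ) h1 (fun a b => hz2' b a) i j
      have h5 : 3 * (2 * e) * (6 * K) = d := by rw [he]; field_simp; norm_num
      linarith
  · have h1 := hc1 x
    have h2 : ∀ i j, ‖(g (c x) * (g x)ᵀ) i j‖ ≤ 2 := fun i j => by
      have e : (g (c x) * (g x)ᵀ) i j = (g x * (g (c x))ᵀ - 1) j i + (1 : Matrix (Fin 3) (Fin 3) ℂ) j i := by
        simp [mul_apply, mul_comm]
      have h3 : ‖(1 : Matrix (Fin 3) (Fin 3) ℂ) j i‖ ≤ 1 := by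
        rw [one_apply]; split_ifs <;> simp
      rw [e]
      exact (norm_add_le _ _).trans (by linarith [h1 j i])
    have h3 : ∀ i j, ‖(g (c x) * kᵀ) i j‖ ≤ 6 * K := fun i j => by
      have e : g (c x) * kᵀ = (g (c x) * (g x)ᵀ) * (g x * kᵀ) := by
        rw [Matrix.mul_assoc, ← Matrix.mul_assoc (g x)ᵀ, hg', Matrix.one_mul]
      rw [e]
      have := mul_bound h2 hx i j
      linarith
    refine ⟨mem_filter.2 ⟨mem_image_of_mem _ (mem_univ x), h3⟩, fun i j => ?_⟩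
    have e : g x * kᵀ - g (c x) * kᵀ = (g x * (g (c x))ᵀ - 1) * (g (c x) * kᵀ) := by
      rw [Matrix.sub_mul, Matrix.one_mul, Matrix.mul_assoc, ← Matrix.mul_assoc (g (c x))ᵀ, hg',
        Matrix.one_mul]
    have := mul_bound h1 h3 i j
    rw [← e, Matrix.sub_apply] at this
    linarith

open Classical in
/-- Final form. One labelling `c` (so one potential `psi c`) serves every base `k`, every radius
`K` and every bounded test `ph` that is Lipschitz on orthogonal matrices. -/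
theorem fine_cells {F : Type*} [Fintype F] (g : F → Matrix (Fin 3) (Fin 3) ℂ)
    (hg : ∀ x, g x * (g x)ᵀ = 1) {d : ℝ} (hd : 0 < d) (hd1 : d ≤ 1) :
    ∃ c : F → F, ∀ (k : Matrix (Fin 3) (Fin 3) ℂ), k * kᵀ = 1 → ∀ K : ℝ, 0 < K →
      ∀ (ph : Matrix (Fin 3) (Fin 3) ℂ → ℝ) (B L : ℝ),
      (∀ A, A * Aᵀ = 1 → |ph A| ≤ B) →
      (∀ A A' t, A * Aᵀ = 1 → A' * A'ᵀ = 1 → (∀ i j, ‖A i j - A' i j‖ ≤ t) →
        |ph A - ph A'| ≤ L * t) →
      ∀ (Om : Type) [Fintype Om] (nu : Om → F → ℝ), (∀ o x, 0 ≤ nu o x) →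
        bv nu (fun x => ph (g x * kᵀ))
          ≤ 2 * (NN K d : ℝ) * B ^ 2 * (psi c (fun x => ∑ o, nu o x) - ∑ o, psi c (nu o))
            + 2 * (L * (18 * K * d)) ^ 2 * ms (fun x => ∑ o, nu o x)
            + 8 * B ^ 2 * ∑ x, (if ∀ i j, ‖(g x * kᵀ) i j‖ ≤ K then 0 else ∑ o, nu o x) := by
  obtain ⟨c, hc⟩ := exists_cells g hg hd hd1
  refine ⟨c, fun k hk K hK ph B L hB hL Om _ nu hnu => ?_⟩
  obtain ⟨G, hG, hx⟩ := hc k hk K hK
  have hk' : kᵀ * k = 1 := mul_eq_one_comm.1 hk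
  have ho : ∀ x, (g x * kᵀ) * (g x * kᵀ)ᵀ = 1 := fun x => by
    rw [transpose_mul, transpose_transpose, Matrix.mul_assoc, ← Matrix.mul_assoc kᵀ, hk',
      Matrix.one_mul, hg]
  have h1 := bv_cells c G (fun x => ∀ i j, ‖(g x * kᵀ) i j‖ ≤ K) (fun x => ph (g x * kᵀ)) B
    (L * (18 * K * d)) (fun x => hB _ (ho x))
    (fun x h => ⟨(hx x h).1, hL _ _ _ (ho x) (ho _) (hx x h).2⟩) hnu
  have h2 := psi_super c hnu
  have h3 : (G.card : ℝ) ≤ NN K d := by exact_mod_cast hG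
  have h4 : 0 ≤ B ^ 2 * (psi c (fun x => ∑ o, nu o x) - ∑ o, psi c (nu o)) :=
    mul_nonneg (sq_nonneg _) (by linarith)
  have h5 := mul_le_mul_of_nonneg_right h3 h4
  have h6 : ∑ x, (if ∀ i j, ‖(g x * kᵀ) i j‖ ≤ K then 0 else ∑ o, nu o x)
      = ∑ x, (@ite ℝ (∀ i j, ‖(g x * kᵀ) i j‖ ≤ K) (Classical.propDecidable _) 0
        (∑ o, nu o x)) := sum_congr rfl fun x _ => by congr
  rw [h6]
  linarith

end Pool.Agent.Lib.MP_abd417_co.Up.Cells
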