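import Mathlib

/-! Half space coordinates of an orthonormal frame at one place (step 5 of the upper bound). -/

namespace Pool.Agent.Lib.MP_abd417_co.Up.Coord

open Matrix Finset

variable {K : Type*} [Field K]

/-- isotropic coordinate of row a -/
def ep (I : K) (g : Fin 3 → Fin 3 → K) (a : Fin 3) : K := g a 0 + I * g a 1

/-- shifted third coordinate -/
def st (I : K) (g : Fin 3 → Fin 3 → K) (Z : K) (a : Fin 3) : K := g a 2 - Z * ep I g a

/-- shifted second isotropic coordinate -/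
def pt (I : K) (g : Fin 3 → Fin 3 → K) (Z : K) (a : Fin 3) : K :=
  (g a 0 - I * g a 1 + 2 * Z * g a 2 - Z ^ 2 * ep I g a) / 2

theorem dot_eq [CharZero K] {I : K} (hI : I ^ 2 = -1) (g g' : Fin 3 → Fin 3 → K) (Z Z' : K)
    (a b : Fin 3) :
    g a ⬝ᵥ g' b = ep I g a * pt I g' Z' b + pt I g Z a * ep I g' b + st I g Z a * st I g' Z' b
      - (Z' - Z) * (ep I g a * st I g' Z' b) + (Z' - Z) * (st I g Z a * ep I g' b)
      - (Z' - Z) ^ 2 / 2 * (ep I g a * ep I g' b) := by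
  simp only [dotProduct, Fin.sum_univ_three, ep, st, pt]
  linear_combination (g a 1 * g' b 1) * hI

theorem cols {g : Fin 3 → Fin 3 → K} (hg : ∀ a b, g a ⬝ᵥ g b = if a = b then 1 else 0)
    (c d : Fin 3) : g 0 c * g 0 d + g 1 c * g 1 d + g 2 c * g 2 d = if c = d then 1 else 0 := by
  have h1 : Matrix.of g * (Matrix.of g)ᵀ = 1 := by
    ext a b
    simpa [Matrix.mul_apply, Matrix.one_apply, dotProduct] using hg a b
  have h2 : (Matrix.of g)ᵀ * Matrix.of g = 1 := mul_eq_one_comm.mp h1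
  have h3 := congrFun (congrFun h2 c) d
  simpa [Matrix.mul_apply, Matrix.one_apply, Fin.sum_univ_three] using h3

theorem col_rel [CharZero K] {I : K} (hI : I ^ 2 = -1) {g : Fin 3 → Fin 3 → K}
    (hg : ∀ a b, g a ⬝ᵥ g b = if a = b then 1 else 0) (Z : K) :
    ∑ a, pt I g Z a * ep I g a = 1 ∧ ∑ a, pt I g Z a * pt I g Z a = 0 ∧
      ∑ a, pt I g Z a * st I g Z a = 0 ∧ ∑ a, ep I g a * ep I g a = 0 ∧
      ∑ a, ep I g a * st I g Z a = 0 := by
  have h00 := cols hg 0 0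
  have h11 := cols hg 1 1
  have h22 := cols hg 2 2
  have h01 := cols hg 0 1
  have h02 := cols hg 0 2
  have h12 := cols hg 1 2
  simp only [if_true] at h00 h11 h22
  simp only [Fin.isValue, zero_ne_one, if_false, Fin.reduceEq] at h01 h02 h12
  simp only [Fin.sum_univ_three, ep, st, pt]
  refine ⟨?_, ?_, ?_, ?_, ?_⟩
  · linear_combination ((1 - Z ^ 2) / 2) * h00 - ((1 + Z ^ 2) / 2 * I ^ 2) * h11
      - (Z ^ 2 * I) * h01 + Z * h02 + Z * I * h12 - ((1 + Z ^ 2) / 2) * hI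
  · linear_combination ((1 - Z ^ 2) ^ 2 / 4) * h00 + ((1 + Z ^ 2) ^ 2 / 4 * I ^ 2) * h11
      + Z ^ 2 * h22 - ((1 - Z ^ 2) * (1 + Z ^ 2) / 2 * I) * h01 + ((1 - Z ^ 2) * Z) * h02
      - ((1 + Z ^ 2) * Z * I) * h12 + ((1 + Z ^ 2) ^ 2 / 4) * hI
  · linear_combination (-(1 - Z ^ 2) * Z / 2) * h00 + ((1 + Z ^ 2) * Z / 2 * I ^ 2) * h11
      + Z * h22 + (Z ^ 3 * I) * h01 + ((1 - Z ^ 2) / 2 - Z ^ 2) * h02
      - (((1 + Z ^ 2) / 2 + Z ^ 2) * I) * h12 + ((1 + Z ^ 2) * Z / 2) * hI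
  · linear_combination h00 + I ^ 2 * h11 + 2 * I * h01 + hI
  · linear_combination (-Z) * h00 - Z * I ^ 2 * h11 - 2 * Z * I * h01 + h02 + I * h12 - Z * hI

section
variable (v : AbsoluteValue K ℝ) {ka : ℝ}

theorem add_le (h1 : 1 ≤ ka) (hv : ∀ x y, v (x + y) ≤ ka * max (v x) (v y)) {x y : K} {B : ℝ}
    (hx : v x ≤ B) (hy : v y ≤ B) : v (x + y) ≤ ka * B :=
  (hv x y).trans (mul_le_mul_of_nonneg_left (max_le hx hy) (by linarith))

theorem add3_le (h1 : 1 ≤ ka) (hv : ∀ x y, v (x + y) ≤ ka * max (v x) (v y)) {x y z : K} {B : ℝ}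
    (hx : v x ≤ B) (hy : v y ≤ B) (hz : v z ≤ B) : v (x + y + z) ≤ ka ^ 2 * B := by
  have hB : 0 ≤ B := (v.nonneg x).trans hx
  have h2 : v z ≤ ka * B := hz.trans (le_mul_of_one_le_left hB h1)
  have := add_le v h1 hv (add_le v h1 hv hx hy) h2
  calc v (x + y + z) ≤ ka * (ka * B) := this
    _ = ka ^ 2 * B := by ring

theorem bil_le (h1 : 1 ≤ ka) (hv : ∀ x y, v (x + y) ≤ ka * max (v x) (v y))
    {x y : Fin 3 → K} {M : Fin 3 → Fin 3 → K} {X Y m : ℝ} (hx : ∀ a, v (x a) ≤ X)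
    (hy : ∀ a, v (y a) ≤ Y) (hM : ∀ a b, v (M a b) ≤ m) :
    v (∑ a, ∑ b, x a * M a b * y b) ≤ ka ^ 4 * (X * m * Y) := by
  have hX : 0 ≤ X := (v.nonneg _).trans (hx 0)
  have hm : 0 ≤ m := (v.nonneg _).trans (hM 0 0)
  have t : ∀ a b, v (x a * M a b * y b) ≤ X * m * Y := fun a b => by
    rw [v.map_mul, v.map_mul]
    exact mul_le_mul (mul_le_mul (hx a) (hM a b) (v.nonneg _) hX) (hy b) (v.nonneg _)
      (mul_nonneg hX hm)
  have r : ∀ a, v (∑ b, x a * M a b * y b) ≤ ka ^ 2 * (X * m * Y) := fun a => by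
    rw [Fin.sum_univ_three]
    exact add3_le v h1 hv (t a 0) (t a 1) (t a 2)
  rw [Fin.sum_univ_three]
  calc _ ≤ ka ^ 2 * (ka ^ 2 * (X * m * Y)) := add3_le v h1 hv (r 0) (r 1) (r 2)
    _ = _ := by ring

theorem root_le (h1 : 1 ≤ ka) (hv : ∀ x y, v (x + y) ≤ ka * max (v x) (v y)) {x r : K}
    (hr : v r ≤ 1) (h : x ^ 2 + 2 * r * x = 1) : v x ≤ ka ^ 2 := by
  by_contra hc
  rw [not_le] at hc
  have hk : 1 ≤ ka ^ 2 := one_le_pow₀ h1
  have hx1 : 1 ≤ v x := by linarith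
  have hrx : v (-(r * x)) ≤ v x := by
    rw [v.map_neg, v.map_mul]
    exact mul_le_of_le_one_left (v.nonneg _) hr
  have e : x * x = -(r * x) + -(r * x) + 1 := by linear_combination h
  have := add3_le v h1 hv hrx hrx (z := 1) (by rw [v.map_one]; exact hx1)
  rw [← e, v.map_mul] at this
  nlinarith

/-- the normalised shift of one frame -/
theorem one_frame [CharZero K] {I : K} (hI : I ^ 2 = -1) (h1 : 1 ≤ ka)
    (hv : ∀ x y, v (x + y) ≤ ka * max (v x) (v y)) {g : Fin 3 → Fin 3 → K}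
    (hg : ∀ a b, g a ⬝ᵥ g b = if a = b then 1 else 0) :
    ∃ (Z : K) (h : ℝ), 0 < h ∧ (∀ a, v (ep I g a) ≤ h⁻¹) ∧ (∀ a, v (st I g Z a) ≤ ka ^ 2) ∧
      ∀ a, v (pt I g Z a) ≤ ka ^ 2 * h := by
  obtain ⟨j, -, hj⟩ := Finset.exists_max_image (univ : Finset (Fin 3)) (fun a => v (ep I g a))
    univ_nonempty
  have hj0 : ep I g j ≠ 0 := by
    intro h0
    have hz : ∀ a, ep I g a = 0 := fun a => by
      have := hj a (mem_univ a)
      rw [h0, v.map_zero] at this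
      exact v.eq_zero.mp (le_antisymm this (v.nonneg _))
    have := (col_rel hI hg 0).1
    simp [hz] at this
  have hp : 0 < v (ep I g j) := v.pos hj0
  set Z : K := (1 + g j 2) / ep I g j with hZ
  have hs : st I g Z j = -1 := by
    rw [st, hZ, div_mul_cancel₀ _ hj0]; ring
  have hpj : pt I g Z j = 0 := by
    have e := dot_eq hI g g Z Z j j
    rw [hg, if_pos rfl, hs] at e
    have : ep I g j * (2 * pt I g Z j) = 0 := by linear_combination -e
    simpa [hj0] using this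
  have hk : 1 ≤ ka ^ 2 := one_le_pow₀ h1
  have key : ∀ a, v (st I g Z a) ≤ ka ^ 2 ∧ v (ep I g j * pt I g Z a) ≤ ka ^ 2 := fun a => by
    by_cases ha : j = a
    · subst ha
      rw [hs, hpj, mul_zero, v.map_neg, v.map_one, v.map_zero]
      exact ⟨hk, by linarith⟩
    · have e := dot_eq hI g g Z Z j a
      rw [hg, if_neg ha, hs, hpj] at e
      have e1 : ep I g j * pt I g Z a = st I g Z a := by linear_combination -e
      have e2 := dot_eq hI g g Z Z a a
      rw [hg, if_pos rfl] at e2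
      have hr : v (ep I g a / ep I g j) ≤ 1 := by
        rw [map_div₀, div_le_one hp]; exact hj a (mem_univ a)
      have : v (st I g Z a) ≤ ka ^ 2 := by
        refine root_le v h1 hv hr ?_
        rw [← e1] at e2 ⊢
        field_simp
        linear_combination -e2
      exact ⟨this, by rw [e1]; exact this⟩
  refine ⟨Z, (v (ep I g j))⁻¹, inv_pos.mpr hp, fun a => ?_, fun a => (key a).1, fun a => ?_⟩
  · rw [inv_inv]; exact hj a (mem_univ a)
  · have := (key a).2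
    rw [v.map_mul] at this
    rw [← div_eq_mul_inv, le_div_iff₀ hp]
    linarith [mul_comm (v (ep I g j)) (v (pt I g Z a))]

theorem v_I {I : K} (hI : I ^ 2 = -1) : v I = 1 := by
  have h : v I ^ 2 = 1 := by rw [← v.map_pow, hI, v.map_neg, v.map_one]
  have := v.nonneg I
  nlinarith

theorem upper [CharZero K] {I : K} (hI : I ^ 2 = -1) (h1 : 1 ≤ ka)
    (hv : ∀ x y, v (x + y) ≤ ka * max (v x) (v y)) {g g' : Fin 3 → Fin 3 → K} {z z' : K}
    {h h' M : ℝ} (hh : 0 < h) (hh' : 0 < h') (he : ∀ a, v (ep I g a) ≤ h⁻¹)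
    (hs : ∀ a, v (st I g ((1 + I) * z) a) ≤ ka ^ 2)
    (hp : ∀ a, v (pt I g ((1 + I) * z) a) ≤ ka ^ 2 * h) (he' : ∀ a, v (ep I g' a) ≤ h'⁻¹)
    (hs' : ∀ a, v (st I g' ((1 + I) * z') a) ≤ ka ^ 2)
    (hp' : ∀ a, v (pt I g' ((1 + I) * z') a) ≤ ka ^ 2 * h') (m0 : v (z - z') ≤ M) (m1 : h ≤ M)
    (m2 : h' ≤ M) (a b : Fin 3) : v (g a ⬝ᵥ g' b) * (h * h') ≤ ka ^ 7 * M ^ 2 := by
  have hM : 0 < M := hh.trans_le m1
  have k0 : 0 < ka := by linarith
  have hpi : v (1 + I) ≤ ka := by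
    simpa using add_le v h1 hv (x := 1) (y := I) (B := 1) (by simp) (v_I v hI).le
  have m0' : v (z' - z) ≤ M := by rw [v.map_sub]; exact m0
  have hD : v ((1 + I) * (z' - z)) ≤ ka * M := by
    rw [v.map_mul]; exact mul_le_mul hpi m0' (v.nonneg _) k0.le
  have q1 : 1 ≤ M / h := (one_le_div hh).mpr m1
  have q2 : 1 ≤ M / h' := (one_le_div hh').mpr m2
  have k2 : ka ^ 2 ≤ ka ^ 4 := pow_le_pow_right₀ h1 (by norm_num)
  have k3 : ka ^ 3 ≤ ka ^ 4 := pow_le_pow_right₀ h1 (by norm_num)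
  have k4 : 1 ≤ ka ^ 4 := one_le_pow₀ h1
  set B : ℝ := ka ^ 4 * (M / h * (M / h')) with hB
  have fin : ∀ {c x y : ℝ}, 0 ≤ x → 0 ≤ y → c ≤ ka ^ 4 → x ≤ M / h → y ≤ M / h' →
      c * (x * y) ≤ B := fun {c x y} hx hy hc hx1 hy1 =>
    mul_le_mul hc (mul_le_mul hx1 hy1 hy (by linarith)) (mul_nonneg hx hy) (by linarith)
  have t1 : v (ep I g a * pt I g' ((1 + I) * z') b) ≤ B := by
    rw [v.map_mul]
    refine (mul_le_mul (he a) (hp' b) (v.nonneg _) (by positivity)).trans ?_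
    have := fin (x := h' / h) (y := 1) (by positivity) zero_le_one k2 (by gcongr) q2
    calc _ = ka ^ 2 * (h' / h * 1) := by field_simp
      _ ≤ B := this
  have t2 : v (pt I g ((1 + I) * z) a * ep I g' b) ≤ B := by
    rw [v.map_mul]
    refine (mul_le_mul (hp a) (he' b) (v.nonneg _) (by positivity)).trans ?_
    have := fin (x := 1) (y := h / h') zero_le_one (by positivity) k2 q1 (by gcongr)
    calc _ = ka ^ 2 * (1 * (h / h')) := by field_simp
      _ ≤ B := this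
  have t3 : v (st I g ((1 + I) * z) a * st I g' ((1 + I) * z') b) ≤ B := by
    rw [v.map_mul]
    refine (mul_le_mul (hs a) (hs' b) (v.nonneg _) (by positivity)).trans ?_
    have := fin (x := 1) (y := 1) zero_le_one zero_le_one le_rfl q1 q2
    calc _ = ka ^ 4 * (1 * 1) := by ring
      _ ≤ B := this
  have t4 : v (-((1 + I) * (z' - z) * (ep I g a * st I g' ((1 + I) * z') b))) ≤ B := by
    rw [v.map_neg, v.map_mul, v.map_mul (ep I g a)]
    refine (mul_le_mul hD (mul_le_mul (he a) (hs' b) (v.nonneg _) (by positivity))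
      (by positivity) (by positivity)).trans ?_
    have := fin (x := M / h) (y := 1) (by positivity) zero_le_one k3 le_rfl q2
    calc _ = ka ^ 3 * (M / h * 1) := by field_simp
      _ ≤ B := this
  have t5 : v ((1 + I) * (z' - z) * (st I g ((1 + I) * z) a * ep I g' b)) ≤ B := by
    rw [v.map_mul, v.map_mul (st I g _ a)]
    refine (mul_le_mul hD (mul_le_mul (hs a) (he' b) (v.nonneg _) (by positivity))
      (by positivity) (by positivity)).trans ?_
    have := fin (x := 1) (y := M / h') zero_le_one (by positivity) k3 q1 le_rfl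
    calc _ = ka ^ 3 * (1 * (M / h')) := by field_simp
      _ ≤ B := this
  have t6 : v (-(I * ((z' - z) * (z' - z)) * (ep I g a * ep I g' b))) ≤ B := by
    rw [v.map_neg, v.map_mul, v.map_mul, v.map_mul, v.map_mul, v_I v hI, one_mul]
    refine (mul_le_mul (mul_le_mul m0' m0' (v.nonneg _) hM.le)
      (mul_le_mul (he a) (he' b) (v.nonneg _) (by positivity)) (by positivity)
      (by positivity)).trans ?_
    have := fin (x := M / h) (y := M / h') (by positivity) (by positivity) k4 le_rfl le_rfl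
    calc _ = 1 * (M / h * (M / h')) := by field_simp
      _ ≤ B := this
  have s := add_le v h1 hv (add3_le v h1 hv t1 t2 t3) (add3_le v h1 hv t4 t5 t6)
  have e : g a ⬝ᵥ g' b = ep I g a * pt I g' ((1 + I) * z') b + pt I g ((1 + I) * z) a * ep I g' b
      + st I g ((1 + I) * z) a * st I g' ((1 + I) * z') b
      + (-((1 + I) * (z' - z) * (ep I g a * st I g' ((1 + I) * z') b))
        + (1 + I) * (z' - z) * (st I g ((1 + I) * z) a * ep I g' b)
        + -(I * ((z' - z) * (z' - z)) * (ep I g a * ep I g' b))) := by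
    rw [dot_eq hI g g' ((1 + I) * z) ((1 + I) * z') a b]
    linear_combination (-(z' - z) ^ 2 / 2 * (ep I g a * ep I g' b)) * hI
  rw [← e] at s
  calc _ ≤ ka * (ka ^ 2 * B) * (h * h') := mul_le_mul_of_nonneg_right s (by positivity)
    _ = _ := by rw [hB]; field_simp

theorem lower [CharZero K] {I : K} (hI : I ^ 2 = -1) (h1 : 1 ≤ ka)
    (hv : ∀ x y, v (x + y) ≤ ka * max (v x) (v y)) {g g' : Fin 3 → Fin 3 → K} {z z' : K}
    (hg : ∀ a b, g a ⬝ᵥ g b = if a = b then 1 else 0)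
    (hg' : ∀ a b, g' a ⬝ᵥ g' b = if a = b then 1 else 0)
    {h h' m : ℝ} (hh : 0 < h) (hh' : 0 < h') (he : ∀ a, v (ep I g a) ≤ h⁻¹)
    (hp : ∀ a, v (pt I g ((1 + I) * z) a) ≤ ka ^ 2 * h) (he' : ∀ a, v (ep I g' a) ≤ h'⁻¹)
    (hp' : ∀ a, v (pt I g' ((1 + I) * z') a) ≤ ka ^ 2 * h')
    (hm : ∀ a b, v (g a ⬝ᵥ g' b) ≤ m) :
    (max (v (z - z')) (max h h')) ^ 2 ≤ ka ^ 8 * (m * (h * h')) := by
  obtain ⟨c1, c2, c3, c4, c5⟩ := col_rel hI hg ((1 + I) * z)
  obtain ⟨d1, d2, d3, d4, d5⟩ := col_rel hI hg' ((1 + I) * z')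
  simp only [Fin.sum_univ_three] at c1 c2 c3 c4 c5 d1 d2 d3 d4 d5
  have hm0 : 0 ≤ m := (v.nonneg _).trans (hm 0 0)
  have k0 : 0 < ka := by linarith
  have k6 : ka ^ 6 ≤ ka ^ 8 := pow_le_pow_right₀ h1 (by norm_num)
  have gen : ∀ x y : Fin 3 → K, ∑ a, ∑ b, x a * (g a ⬝ᵥ g' b) * y b =
      (∑ a, x a * ep I g a) * (∑ b, y b * pt I g' ((1 + I) * z') b)
      + (∑ a, x a * pt I g ((1 + I) * z) a) * (∑ b, y b * ep I g' b)
      + (∑ a, x a * st I g ((1 + I) * z) a) * (∑ b, y b * st I g' ((1 + I) * z') b)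
      - (1 + I) * (z' - z) * ((∑ a, x a * ep I g a) * (∑ b, y b * st I g' ((1 + I) * z') b))
      + (1 + I) * (z' - z) * ((∑ a, x a * st I g ((1 + I) * z) a) * (∑ b, y b * ep I g' b))
      - ((1 + I) * (z' - z)) ^ 2 / 2 * ((∑ a, x a * ep I g a) * (∑ b, y b * ep I g' b)) := by
    intro x y
    simp only [dot_eq hI g g' ((1 + I) * z) ((1 + I) * z'), Fin.sum_univ_three]
    ring
  have b1 := bil_le v h1 hv hp hp' hm
  have b2 := bil_le v h1 hv hp he' hm
  have b3 := bil_le v h1 hv he hp' hm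
  rw [gen] at b1 b2 b3
  simp only [Fin.sum_univ_three] at b1 b2 b3
  have c1' : ep I g 0 * pt I g ((1 + I) * z) 0 + ep I g 1 * pt I g ((1 + I) * z) 1
      + ep I g 2 * pt I g ((1 + I) * z) 2 = 1 := by linear_combination c1
  have d1' : ep I g' 0 * pt I g' ((1 + I) * z') 0 + ep I g' 1 * pt I g' ((1 + I) * z') 1
      + ep I g' 2 * pt I g' ((1 + I) * z') 2 = 1 := by linear_combination d1
  rw [c1, c2, c3, d1, d2, d3] at b1
  rw [c1, c2, c3, d1', d4, d5] at b2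
  rw [c1', c4, c5, d1, d2, d3] at b3
  have e : ((1 + I) * (z' - z)) ^ 2 / 2 = I * ((z - z') * (z - z')) := by
    linear_combination ((z - z') ^ 2 / 2) * hI
  simp only [mul_zero, mul_one, add_zero, zero_add, sub_zero, zero_sub, e, v.map_neg, v.map_mul,
    v.map_one, v_I v hI, one_mul] at b1 b2 b3
  have hP : 0 ≤ m * (h * h') := by positivity
  have r1 : v (z - z') ^ 2 ≤ ka ^ 8 * (m * (h * h')) := by
    calc _ = v (z - z') * v (z - z') := by ring
      _ ≤ _ := b1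
      _ = _ := by ring
  have r2 : h' ^ 2 ≤ ka ^ 8 * (m * (h * h')) := by
    calc h' ^ 2 = 1 * h' ^ 2 := by ring
      _ ≤ ka ^ 4 * (ka ^ 2 * h * m * h'⁻¹) * h' ^ 2 := mul_le_mul_of_nonneg_right b2 (by positivity)
      _ = ka ^ 6 * (m * (h * h')) := by field_simp
      _ ≤ _ := mul_le_mul_of_nonneg_right k6 hP
  have r3 : h ^ 2 ≤ ka ^ 8 * (m * (h * h')) := by
    calc h ^ 2 = 1 * h ^ 2 := by ring
      _ ≤ ka ^ 4 * (h⁻¹ * m * (ka ^ 2 * h')) * h ^ 2 := mul_le_mul_of_nonneg_right b3 (by positivity)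
      _ = ka ^ 6 * (m * (h * h')) := by field_simp
      _ ≤ _ := mul_le_mul_of_nonneg_right k6 hP
  rcases max_choice (v (z - z')) (max h h') with t | t
  · rw [t]; exact r1
  · rw [t]
    rcases max_choice h h' with u | u
    · rw [u]; exact r3
    · rw [u]; exact r2

/-- Step 5: every frame has a point (z, h) of the half space of the place v such that the largest
inner product of two frames is max(v(z - z'), h, h')^2 / (h h') up to powers of ka. -/
theorem coords [CharZero K] {I : K} (hI : I ^ 2 = -1) (h1 : 1 ≤ ka)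
    (hv : ∀ x y, v (x + y) ≤ ka * max (v x) (v y)) :
    ∃ (z : (Fin 3 → Fin 3 → K) → K) (h : (Fin 3 → Fin 3 → K) → ℝ), (∀ g, 0 < h g) ∧
      ∀ g g' : Fin 3 → Fin 3 → K, (∀ a b, g a ⬝ᵥ g b = if a = b then 1 else 0) →
        (∀ a b, g' a ⬝ᵥ g' b = if a = b then 1 else 0) →
        (∀ a b, v (g a ⬝ᵥ g' b) * (h g * h g') ≤
          ka ^ 7 * (max (v (z g - z g')) (max (h g) (h g'))) ^ 2) ∧
        ∀ m : ℝ, (∀ a b, v (g a ⬝ᵥ g' b) ≤ m) →
          (max (v (z g - z g')) (max (h g) (h g'))) ^ 2 ≤ ka ^ 8 * (m * (h g * h g')) := by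
  have hpi : (1 + I) ≠ 0 := by
    intro h0
    have : (2 : K) = 0 := by linear_combination (1 - I) * h0 + hI
    exact two_ne_zero this
  have ex : ∀ g : Fin 3 → Fin 3 → K, ∃ (z : K) (h : ℝ), 0 < h ∧
      ((∀ a b, g a ⬝ᵥ g b = if a = b then 1 else 0) → (∀ a, v (ep I g a) ≤ h⁻¹) ∧
        (∀ a, v (st I g ((1 + I) * z) a) ≤ ka ^ 2) ∧
        ∀ a, v (pt I g ((1 + I) * z) a) ≤ ka ^ 2 * h) := fun g => by
    by_cases hg : ∀ a b, g a ⬝ᵥ g b = if a = b then 1 else 0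
    · obtain ⟨Z, h, h0, r⟩ := one_frame v hI h1 hv hg
      refine ⟨Z / (1 + I), h, h0, fun _ => ?_⟩
      rw [mul_div_cancel₀ _ hpi]
      exact r
    · exact ⟨0, 1, one_pos, fun h => absurd h hg⟩
  choose z h h0 r using ex
  refine ⟨z, h, h0, fun g g' hg hg' => ?_⟩
  obtain ⟨e, s, p⟩ := r g hg
  obtain ⟨e', s', p'⟩ := r g' hg'
  exact ⟨upper v hI h1 hv (h0 g) (h0 g') e s p e' s' p' (le_max_left _ _)
    ((le_max_left _ _).trans (le_max_right _ _)) ((le_max_right _ _).trans (le_max_right _ _)),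
    fun m hm => lower v hI h1 hv hg hg' (h0 g) (h0 g') e p e' p' hm⟩

end

end Pool.Agent.Lib.MP_abd417_co.Up.Coord
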