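import Pool.Agent.Lib.MP_abd417_co.Up.TopDefs
import Pool.Agent.Lib.MP_abd417_co.U.CycVar
import Pool.Agent.Lib.MP_abd417_co.U.CycFam
import Pool.Agent.Lib.MP_abd417_co.U.CycL
import Pool.Agent.Lib.MP_abd417_co.U.CycS
import Pool.Agent.Lib.MP_abd417_co.U.CycF

/-! Tests give the cycle property. -/

namespace Pool.Agent.Lib.MP_abd417_co.Up.Top

open Finset Classical Pool.Agent.Lib.MP_abd417_co.U
open Pool.Agent.Lib.MP_abd417_co.W (ind ms DT BigBad SmBad bad)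

namespace CycAll

variable {F U : Type} [Fintype F]

theorem sum_ind {Wl : Type} [Fintype Wl] (w f : Wl → ℝ) (Q : Wl → Prop) :
    ∑ l, w l * (ind (Q l) * f l) = ∑ l ∈ univ.filter Q, w l * f l := by
  rw [sum_filter]
  refine sum_congr rfl fun l _ => ?_
  by_cases h : Q l
  · rw [W.ind_pos h, if_pos h, one_mul]
  · rw [W.ind_neg h, if_neg h, zero_mul, mul_zero]

theorem fine_le {ax : Fin 3 → F → U} {cl : F → F} {μ : F → ℝ} {γ Nc : ℝ} {p : Fin 3}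
    (hμ : ∀ g, 0 ≤ μ g) (hm : 0 < ∑ g, μ g) (h : Cy.Fine ax cl μ γ Nc p) : γ ≤ 1 := by
  obtain ⟨X, Y, -, -, -, hX, hY, -, -, -, hV, -⟩ := h
  have h1 : ∀ f : F → ℝ, (∀ g, |f g| ≤ 1) → Cy.Vr μ f ≤ ∑ g, μ g := fun f hf =>
    (Cy.Vr_le_sq hμ f).trans (sum_le_sum fun g _ =>
      mul_le_of_le_one_right (hμ g) ((sq_le_one_iff_abs_le_one _).2 (hf g)))
  have h2 : ∀ f f' : F → ℝ, Cy.Vr μ (fun g => f g - f' g) =
      Cy.Vr μ f + Cy.Vr μ f' - 2 * Cy.Cv μ f f' := fun f f' => by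
    have e1 : ∑ g, μ g * ((f g - f' g) * (f g - f' g)) =
        ∑ g, μ g * (f g * f g) + ∑ g, μ g * (f' g * f' g) - 2 * ∑ g, μ g * (f g * f' g) := by
      rw [mul_sum, ← sum_add_distrib, ← sum_sub_distrib]
      exact sum_congr rfl fun g _ => by ring
    have e2 : ∑ g, μ g * (f g - f' g) = ∑ g, μ g * f g - ∑ g, μ g * f' g := by
      rw [← sum_sub_distrib]
      exact sum_congr rfl fun g _ => by ring
    simp only [Cy.Vr, Cy.Cv]
    rw [e1, e2]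
    ring
  have a1 := h1 (fun g => X (ax (p + 1) g)) fun _ => hX _
  have a2 := h1 (fun g => Y (ax (p + 2) g)) fun _ => hY _
  have a3 := Cy.Vr_nonneg hμ fun g => X (ax (p + 1) g) - Y (ax (p + 2) g)
  rw [h2 (fun g => X (ax (p + 1) g)) fun g => Y (ax (p + 2) g)] at a3
  rw [Cy.Vn] at hV
  refine le_of_mul_le_mul_right ?_ hm
  linarith

theorem fine_mono {ax : Fin 3 → F → U} {cl : F → F} {μ : F → ℝ} {γ γ' Nc Nc' : ℝ} {p : Fin 3}
    (h : Cy.Fine ax cl μ γ Nc p) (e : γ' = γ) (hN : Nc ≤ Nc') : Cy.Fine ax cl μ γ' Nc' p := by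
  obtain ⟨X, Y, T, x, y, a1, a2, a3, a4, a5, a6⟩ := h
  exact ⟨X, Y, T, x, y, a1, a2, a3, a4, a5.trans hN, e ▸ a6⟩

/-- Enough bad walls or fine places give the cycle property, for one family of walls. -/
theorem cyc_of_bad (C0 b ga x γ Nc : ℝ) (hC0 : 1 ≤ C0) (hb : 0 < b)
    (hb1 : b ≤ Real.exp (-(3 * C0 + 15)) / 4) (hga : ga ≤ b ^ 6 / 153600) (hx : 0 < x)
    (hγ : 0 < γ) : ∃ c1 c2 : ℝ, 0 < c1 ∧ 0 < c2 ∧
    ∀ (F U Wl A : Type) [Fintype F] [Fintype Wl] [Fintype A] (ax : Fin 3 → F → U) (w : Wl → ℝ)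
      (S : Wl → Finset F) (wa : A → ℝ) (cell : A → F → F) (D : Fin 3 → (F → ℝ) → ℝ) (Z : ℝ)
      (μ : F → ℝ), (∀ l, 0 ≤ w l) → (∀ a, 0 ≤ wa a) → 0 < Z → (∀ g h, DT w S g h ≤ Z) →
      (∀ p, Cy.EntOK (ax (p + 1)) (ax (p + 2)) (D p) C0) → (∀ g, 0 ≤ μ g) → 0 < ∑ g, μ g →
      x * Z ≤ ∑ l, w l * bad ax (Cy.nrm μ) b ga (S l) +
        ∑ a, wa a * ind (∃ p, Cy.Fine ax (cell a) μ γ Nc p) →
      ∃ p, Cy.CYC (D p) (Cy.Psi ax w S wa cell) μ (c1 * Z) c2 := by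
  have hb2 : b ≤ 1 := by
    have : Real.exp (-(3 * C0 + 15)) ≤ 1 := Real.exp_le_one_iff.2 (by linarith)
    linarith
  have hθ1 : b ^ 4 / 800 ≤ 1 := by
    have : b ^ 4 ≤ 1 := pow_le_one₀ hb.le hb2
    linarith
  have hγ0 : 0 < min γ 1 := lt_min hγ one_pos
  have hN0 : 0 < max Nc 1 := lt_of_lt_of_le one_pos (le_max_right _ _)
  refine ⟨min (x / 4 * b ^ 2 * (b ^ 4 / 800) / 24) (min (b * (x / 4) / 12)
    (x / 4 * min γ 1 / (12 * max Nc 1))), min ((b ^ 2 * (b ^ 4 / 800) / 24) ^ 2 / (128 * C0))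
    (min (b * (x / 4) / 576) ((min γ 1 / 2) ^ 2 / (128 * C0))), by positivity, by positivity, ?_⟩
  intro F U Wl A _ _ _ ax w S wa cell D Z μ hw hwa hZ hDT hD hμ hm h
  have e : ∑ l, w l * bad ax (Cy.nrm μ) b ga (S l) =
      ∑ l ∈ univ.filter fun l => BigBad ax (Cy.nrm μ) b ga (S l), w l +
      ∑ l ∈ univ.filter fun l => SmBad ax (Cy.nrm μ) b (S l) (· ∈ S l),
        w l * ms (Cy.nrm μ) (· ∈ S l) +
      ∑ l ∈ univ.filter fun l => SmBad ax (Cy.nrm μ) b (S l) (· ∉ S l),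
        w l * ms (Cy.nrm μ) (· ∉ S l) := by
    rw [← sum_ind, ← sum_ind]
    have := sum_ind w (fun _ => 1) fun l => BigBad ax (Cy.nrm μ) b ga (S l)
    simp only [mul_one] at this
    rw [← this, ← sum_add_distrib, ← sum_add_distrib]
    exact sum_congr rfl fun l _ => by rw [bad]; ring
  obtain ⟨G, hG, e2⟩ : ∃ G : Finset A, (∀ a ∈ G, ∃ p, Cy.Fine ax (cell a) μ γ Nc p) ∧
      ∑ a, wa a * ind (∃ p, Cy.Fine ax (cell a) μ γ Nc p) = ∑ a ∈ G, wa a := by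
    have := sum_ind wa (fun _ => 1) fun a => ∃ p, Cy.Fine ax (cell a) μ γ Nc p
    simp only [mul_one] at this
    refine ⟨_, fun a ha => ?_, this⟩
    simpa using ha
  rw [e, e2] at h
  by_cases h1 : x / 4 * Z ≤ ∑ l ∈ univ.filter fun l => BigBad ax (Cy.nrm μ) b ga (S l), w l
  · obtain ⟨p, hp⟩ := Cy.cycL ax S cell hw hwa D hC0 hD hμ hZ (by positivity : 0 < x / 4) hb hb2
      (by positivity : 0 < b ^ 4 / 800) hθ1 _ hm (fun l hl => by
        obtain ⟨a1, a2, a3⟩ := (mem_filter.1 hl).2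
        exact ⟨a1, by linarith [show b ^ 2 * (b ^ 4 / 800) / 192 = b ^ 6 / 153600 by ring], a3⟩) h1
    exact ⟨p, hp.mono hμ (mul_le_mul_of_nonneg_right (min_le_left _ _) hZ.le) (min_le_left _ _)⟩
  by_cases h2 : x / 4 * Z ≤ ∑ l ∈ univ.filter fun l => SmBad ax (Cy.nrm μ) b (S l) (· ∈ S l),
      w l * ms (Cy.nrm μ) (· ∈ S l)
  · obtain ⟨p, hp⟩ := Cy.cycS ax S cell hw hwa D hC0 hD hμ hZ (by positivity : 0 < x / 4) hb hb1
      hDT hm _ (fun l g => g ∈ S l) (fun l hl => ⟨Or.inl fun _ => Iff.rfl,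
        (mem_filter.1 hl).2.1.le, (mem_filter.1 hl).2.2⟩) h2
    exact ⟨p, hp.mono hμ (mul_le_mul_of_nonneg_right ((min_le_right _ _).trans (min_le_left _ _))
      hZ.le) ((min_le_right _ _).trans (min_le_left _ _))⟩
  by_cases h3 : x / 4 * Z ≤ ∑ l ∈ univ.filter fun l => SmBad ax (Cy.nrm μ) b (S l) (· ∉ S l),
      w l * ms (Cy.nrm μ) (· ∉ S l)
  · obtain ⟨p, hp⟩ := Cy.cycS ax S cell hw hwa D hC0 hD hμ hZ (by positivity : 0 < x / 4) hb hb1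
      hDT hm _ (fun l g => g ∉ S l) (fun l hl => ⟨Or.inr fun _ => Iff.rfl,
        (mem_filter.1 hl).2.1.le, (mem_filter.1 hl).2.2⟩) h3
    exact ⟨p, hp.mono hμ (mul_le_mul_of_nonneg_right ((min_le_right _ _).trans (min_le_left _ _))
      hZ.le) ((min_le_right _ _).trans (min_le_left _ _))⟩
  obtain ⟨p, hp⟩ := Cy.cycF ax S cell hw hwa D hC0 hD hμ hZ (by positivity : 0 < x / 4) hγ0
    (min_le_right _ _) (le_max_right Nc 1) G (fun a ha => by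
      obtain ⟨p, hp⟩ := hG a ha
      exact ⟨p, fine_mono hp (min_eq_left (fine_le hμ hm hp)) (le_max_left _ _)⟩) (by linarith)
  exact ⟨p, hp.mono hμ (mul_le_mul_of_nonneg_right ((min_le_right _ _).trans (min_le_right _ _))
    hZ.le) ((min_le_right _ _).trans (min_le_right _ _))⟩

end CycAll

theorem cyc : CycSt := by
  intro C0 hC0
  have h0 : 0 < Real.exp (-(3 * C0 + 15)) := Real.exp_pos _
  have h1 : Real.exp (-(3 * C0 + 15)) ≤ 1 := Real.exp_le_one_iff.2 (by linarith)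
  refine ⟨Real.exp (-(3 * C0 + 15)) / 4, (Real.exp (-(3 * C0 + 15)) / 4) ^ 6 / 153600,
    by positivity, by linarith, by positivity, ?_, fun γ Nc c hγ hc =>
    CycAll.cyc_of_bad C0 _ _ c γ Nc hC0 (by positivity) le_rfl le_rfl hc hγ⟩
  generalize Real.exp (-(3 * C0 + 15)) = t at *
  have h2 : (t / 4) ^ 6 ≤ (t / 4) ^ 4 :=
    pow_le_pow_of_le_one (by positivity) (by linarith) (by norm_num)
  have h3 : 0 < (t / 4) ^ 4 := by positivity
  linarith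

end Pool.Agent.Lib.MP_abd417_co.Up.Top
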