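import Pool.Agent.Lib.MP_abd417_co.Up.TopDefs
import Pool.Agent.Lib.MP_abd417_co.U.End

/-! The engine in the form of the top interface. -/

namespace Pool.Agent.Lib.MP_abd417_co.Up.Top

theorem end_ : EndSt := by
  intro C c1 c2 Cp hC hc1 hc2 hCp
  obtain ⟨M, hM, h⟩ := U.End.endB C c2 (c1 / Cp) hC hc2 (by positivity)
  have hM0 : 0 < M := by linarith
  refine ⟨M, hM, fun k0 hk => ?_⟩
  obtain ⟨n0, h⟩ := h (k0 / M) (by positivity)
  refine ⟨⌈n0⌉₊, fun n hn F U _ _ _ _ ax ka Z Ps hU hST hcap hka hka1 hF hZ hPs hcyc => ?_⟩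
  refine h n ((Nat.le_ceil n0).trans (Nat.cast_le.mpr hn)) F U ax Ps (ka / M) (Cp * Z)
    (Nat.cast_le.mpr hU) hST (fun i a => by exact_mod_cast hcap i a)
    (div_le_div_of_nonneg_right hka hM0.le) ?_ hF (by positivity) hPs fun μ h0 h1 h2 => ?_
  · rw [div_le_div_iff₀ hM0 (by positivity)]
    nlinarith
  · rw [show M * (ka / M) / 2 = ka / 2 by field_simp] at h2
    rw [show c1 / Cp * (Cp * Z) = c1 * Z by field_simp]
    exact hcyc μ h0 h1 h2

end Pool.Agent.Lib.MP_abd417_co.Up.Top
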