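import Pool.Agent.Lib.MP_abd417_co.Up.ScaleB
import Pool.Agent.Lib.MP_abd417_co.Up.Conf

/-! Step 4 (choice of scale): the main statement. -/

namespace Pool.Agent.Lib.MP_abd417_co.Up.Sc

open Finset

/-- The numerical choices. -/
theorem numbers (K M : ℝ) (hK : 0 ≤ K) (hM : 1 ≤ M) :
    ∃ I t : ℕ, 2 * ((t + 2) * (8 + K)) ≤ 2 ^ I ∧ (3 / 4 : ℝ) ^ t ≤ 1 / (16 * M ^ I) := by
  obtain ⟨c, hc⟩ := exists_pow_lt_of_lt_one (x := 1 / (16 * M)) (y := (3 / 4 : ℝ))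
    (by positivity) (by norm_num)
  obtain ⟨I, hI⟩ := exists_nat_ge (4 * (c + 2) * (8 + K))
  have h1 : ∀ m : ℕ, ((m : ℝ) + 1) ≤ 2 ^ m := fun m => by
    exact_mod_cast Nat.succ_le_of_lt (Nat.lt_two_pow_self (n := m))
  refine ⟨2 * (I + 1), c * (2 * (I + 1)), ?_, ?_⟩
  · have h2 := h1 (I + 1)
    have h3 : (2 : ℝ) ^ (2 * (I + 1)) = 2 ^ (I + 1) * 2 ^ (I + 1) := by ring
    have hI0 : (0 : ℝ) ≤ I := Nat.cast_nonneg _
    have hc0 : (0 : ℝ) ≤ c := Nat.cast_nonneg _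
    push_cast at h2 ⊢
    rw [h3]
    calc 2 * ((c * (2 * (I + 1)) + 2) * (8 + K)) ≤ (4 * (c + 2) * (8 + K)) * ((I : ℝ) + 1) := by
          have : (c * (2 * (I + 1)) + 2 : ℝ) ≤ 2 * (c + 2) * (I + 1) := by nlinarith
          nlinarith
      _ ≤ ((I : ℝ) + 1 + 1) * (I + 1 + 1) := by nlinarith
      _ ≤ _ := mul_le_mul h2 h2 (by positivity) (by positivity)
  · rw [pow_mul]
    calc ((3 / 4 : ℝ) ^ c) ^ (2 * (I + 1)) ≤ (1 / (16 * M)) ^ (2 * (I + 1)) :=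
          pow_le_pow_left₀ (by positivity) hc.le _
      _ = 1 / (16 ^ (2 * (I + 1)) * M ^ (2 * (I + 1))) := by rw [div_pow, one_pow, mul_pow]
      _ ≤ _ := by
          apply one_div_le_one_div_of_le (by positivity)
          exact mul_le_mul_of_nonneg_right (le_self_pow₀ (by norm_num) (by omega)) (by positivity)

/-- Choice of scale. -/
theorem scale0 (K C C0 M : ℝ) (hK : 1 ≤ K) (hC : 1 ≤ C) (hC0 : 2 ≤ C0) (hM : 1 ≤ M) :
    ∃ e0 eta n0 : ℝ, 0 < e0 ∧ 0 < eta ∧ ∀ n : ℝ, n0 ≤ n →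
      ∀ {Ph V : Type*} [DecidableEq Ph] [DecidableEq V] (F : Finset Ph) (u : Fin 3 → Ph → V)
        (ds : Ph → Ph → ℝ),
      (∀ i, (#(F.image (u i)) : ℝ) ≤ n) → ST C F u → n ^ (4 / 3 - eta) ≤ (#F : ℝ) →
      (∀ a ∈ F, ∀ g ∈ F, 1 ≤ ds a g) → (∀ a ∈ F, ∀ g ∈ F, ds a g = ds g a) →
      (∀ a ∈ F, ∀ b ∈ F, ∀ c ∈ F, ds a c ≤ ds a b + ds b c) →
      XH K F u ds →
      ∃ (gam R : ℝ) (FB : Finset Ph), FB ⊆ F ∧ e0 ≤ gam ∧ gam ≤ 1 / (8 * M) ∧ 1 ≤ R ∧
        n ^ (4 / 3 - gam) ≤ (#FB : ℝ) ∧ (∀ g ∈ FB, ∀ g1 ∈ FB, ds g g1 ≤ 2 * R) ∧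
        ∀ x ∈ FB, (#{g ∈ FB | ds x g ≤ R / C0} : ℝ) ≤ n ^ (4 / 3 - M * gam) := by
  obtain ⟨I, t, hI, ht⟩ := numbers (2 * K) M (by linarith) hM
  have hMI : 1 ≤ M ^ I := one_le_pow₀ hM
  set ta : ℝ := 1 / (112 * M ^ I) with hta
  have hta0 : 0 < ta := by positivity
  have hta1 : ta ≤ 1 / 112 := one_div_le_one_div_of_le (by norm_num) (by linarith)
  obtain ⟨k, hk⟩ := exists_pow_lt_of_lt_one (x := ta / 4) (y := (3 / 4 : ℝ))
    (by positivity) (by norm_num)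
  obtain ⟨k', hk'⟩ := pow_unbounded_of_one_lt (K ^ (k + 1) + 1) (one_lt_two (α := ℝ))
  have hk0 : (1 : ℝ) ≤ k' + 1 := by linarith [Nat.cast_nonneg (α := ℝ) k']
  refine ⟨1 / (8 * M ^ I), ta / 28 / 2, max 1 ((72 * C * (k' + 1)) ^ (ta / 28 / 2)⁻¹),
    by positivity, by positivity, ?_⟩
  intro n hn0' Ph V _ _ F u ds hV hst hF h1 hsym htri hX
  have hn : 1 ≤ n := (le_max_left _ _).trans hn0'
  have hn0 : 0 < n := by linarith
  have hQ : 72 * C * (k' + 1) ≤ n ^ (ta / 28 / 2) := by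
    calc 72 * C * (k' + 1) = ((72 * C * (k' + 1)) ^ (ta / 28 / 2)⁻¹) ^ (ta / 28 / 2) :=
          (Real.rpow_inv_rpow (by positivity) (by positivity)).symm
      _ ≤ _ := Real.rpow_le_rpow (by positivity) ((le_max_right _ _).trans hn0') (by positivity)
  obtain ⟨G, hG, H, hH, s, hs, hHc, hh⟩ := phase1 F u ds n C K (ta / 28) k k' hn hC hK
    (by positivity) (by linarith) (le_trans (by nlinarith) hQ) hk'.le hV hst hF h1 hsym htri hX
  obtain ⟨H1, hH1, hH1c, hmate⟩ := closure F G H u ds n C K s hn hC hG hH hV hst hsym htri hX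
    fun g hg => (hh g hg).1
  have hHc2 : n ^ (4 / 3 - ta / 2) ≤ (k' + 1) * (#H : ℝ) :=
    le_trans (Real.rpow_le_rpow_of_exponent_le hn (by linarith)) hHc
  have e1 : 18 * C * n ^ (9 / 8 : ℝ) ≤ #H := by
    have := pw (c := 18 * C * (k' + 1)) (a := 9 / 8) (b := 4 / 3 - ta / 2) hn hQ (by nlinarith)
      (by linarith)
    refine le_of_mul_le_mul_left (a := (k' : ℝ) + 1) ?_ (by linarith)
    linarith
  have e2 : 72 * C * n ^ (4 / 3 - ta) ≤ #H := by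
    have := pw (c := 72 * C * (k' + 1)) (a := 4 / 3 - ta) (b := 4 / 3 - ta / 2) hn hQ le_rfl
      (by linarith)
    refine le_of_mul_le_mul_left (a := (k' : ℝ) + 1) ?_ (by linarith)
    linarith
  have hH1F : H1 ⊆ F := hH1.trans (hH.trans hG)
  obtain ⟨G2, hG2, D, hG2c, hD, hdeg⟩ := reg2 H1 u n C ta hn
    (fun i => le_trans (by exact_mod_cast card_le_card (image_subset_image hH1F)) (hV i))
    (by linarith)
  have hG2F : G2 ⊆ F := hG2.trans hH1F
  obtain ⟨a, ha⟩ : G2.Nonempty := by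
    rw [← card_pos]
    have : 0 < C * n ^ (4 / 3 - ta) := by positivity
    exact_mod_cast (show (0 : ℝ) < #G2 by linarith)
  have hgr := growth F G2 u n C D 0 1 ta (fun m => {x ∈ G2 | ds a x ≤ (m + 1) * ((2 + 2 * K) * s)})
    hn hC hst hG2F (fun m => filter_subset _ _) (by norm_num) le_rfl hta0.le (by linarith) hD hdeg
    (by
      intro m i
      rw [filter_false_of_mem]
      · simp
      · rintro g hg ⟨hg1, hg2⟩
        obtain ⟨x, hx, hx2⟩ := mem_image.1 hg1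
        rw [mem_filter] at hx
        refine hg2 (mem_filter.2 ⟨hg, ?_⟩)
        have e3 := hmate x (hG2 hx.1) g (hG2 hg) i hx2
        have e4 := htri a (hG2F ha) x (hG2F hx.1) g (hG2F hg)
        push_cast
        linarith [hx.2])
    (by
      have : 0 ≤ D := le_trans (by positivity) hD
      rw [mul_zero]; positivity)
    (by
      intro i
      rw [sub_self, Real.rpow_zero, Nat.one_le_cast, Nat.succ_le_iff, card_pos]
      refine Nonempty.image ⟨a, mem_filter.2 ⟨ha, ?_⟩⟩ _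
      have := hmate a (hG2 ha) a (hG2 ha) i rfl
      push_cast
      linarith) t
  have hex : ∃ m : ℕ, ∃ b ∈ G2,
      n ^ (4 / 3 - 1 / (8 * M ^ m)) ≤ (#{x ∈ G2 | ds b x ≤ C0 ^ m * (s / 2)} : ℝ) ∧ m ≤ I := by
    refine ⟨I, a, ha, le_trans (Real.rpow_le_rpow_of_exponent_le hn ?_) (hgr.trans ?_), le_rfl⟩
    · have e3 : 1 / (8 * M ^ I) = 1 / (16 * M ^ I) + 7 * ta := by
        rw [hta]; field_simp; ring
      linarith
    · refine Nat.cast_le.2 (card_le_card fun x hx => ?_)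
      rw [mem_filter] at hx ⊢
      refine ⟨hx.1, hx.2.trans ?_⟩
      have e3 : (2 : ℝ) ^ I ≤ C0 ^ I := pow_le_pow_left₀ (by norm_num) hC0 _
      have e4 : ((t : ℝ) + 2) * ((2 + 2 * K) * s) ≤ (t + 2) * ((8 + 2 * K) * s) :=
        mul_le_mul_of_nonneg_left (by nlinarith) (by positivity)
      have e5 := mul_le_mul_of_nonneg_right (hI.trans e3) (show 0 ≤ s / 2 by linarith)
      push_cast
      linarith
  classical
  obtain ⟨b, hb, hb2, hmI⟩ := Nat.find_spec hex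
  have hm0 : Nat.find hex ≠ 0 := by
    intro h0
    rw [h0] at hb2
    have e3 := (hh b (hH1 (hG2 hb))).2
    have e4 : (#{x ∈ G2 | ds b x ≤ C0 ^ 0 * (s / 2)} : ℝ) ≤ #{x ∈ G | ds b x ≤ s / 2} := by
      refine Nat.cast_le.2 (card_le_card fun x hx => ?_)
      rw [mem_filter] at hx ⊢
      exact ⟨hH (hH1 (hG2 hx.1)), by simpa using hx.2⟩
    have e5 : (4 / 3 - 1 / (8 * M ^ 0) : ℝ) = 29 / 24 := by norm_num
    rw [e5] at hb2
    linarith
  obtain ⟨m, hm⟩ := Nat.exists_eq_succ_of_ne_zero hm0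
  have hmin := Nat.find_min hex (m := m) (by omega)
  rw [hm] at hb2 hmI
  have hMm : 1 ≤ M ^ m := one_le_pow₀ hM
  have hCm : 1 ≤ C0 ^ m := one_le_pow₀ (by linarith)
  refine ⟨1 / (8 * M ^ (m + 1)), C0 ^ (m + 1) * (s / 2), _, (filter_subset _ _).trans hG2F, ?_, ?_,
    ?_, hb2, fun g hg g1 hg1 => ?_, fun x hx => ?_⟩
  · exact one_div_le_one_div_of_le (by positivity)
      (mul_le_mul_of_nonneg_left (pow_le_pow_right₀ hM hmI) (by norm_num))
  · refine one_div_le_one_div_of_le (by positivity) ?_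
    rw [pow_succ]; nlinarith
  · rw [pow_succ]
    have : 2 ≤ C0 ^ m * C0 := by nlinarith
    nlinarith
  · rw [mem_filter] at hg hg1
    have e3 := htri g (hG2F hg.1) b (hG2F hb) g1 (hG2F hg1.1)
    have e4 := hsym b (hG2F hb) g (hG2F hg.1)
    have e5 := hg.2
    have e6 := hg1.2
    simp only [Nat.succ_eq_add_one] at e5 e6
    generalize C0 ^ (m + 1) * (s / 2) = w at e5 e6 ⊢
    linarith only [e3, e4, e5, e6]
  · have e3 : M * (1 / (8 * M ^ (m + 1))) = 1 / (8 * M ^ m) := by rw [pow_succ]; field_simp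
    have e4 : C0 ^ (m + 1) * (s / 2) / C0 = C0 ^ m * (s / 2) := by rw [pow_succ]; field_simp
    rw [e3, e4]
    by_contra hc
    refine hmin ⟨x, (mem_filter.1 hx).1, (not_le.1 hc).le.trans ?_, by omega⟩
    refine Nat.cast_le.2 (card_le_card fun y hy => ?_)
    rw [mem_filter] at hy ⊢
    exact ⟨(mem_filter.1 hy.1).1, hy.2⟩

end Pool.Agent.Lib.MP_abd417_co.Up.Sc

namespace Pool.Agent.Lib.MP_abd417_co.Up

open Finset

/-- Step four. -/
theorem scale : Scale := by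
  intro C M hC hM
  obtain ⟨e0, eta, n0, he, heta, h⟩ := Sc.scale0 C C 2 (3 * M) hC hC le_rfl (by linarith)
  refine ⟨e0, eta, he, heta, max 1 ⌈n0⌉₊, ?_⟩
  intro n hn io Fr _ _ _ _ ax dist hio hsym htri h1 _ _ _ hst hD1 _ hF
  have hn1 : (1 : ℝ) ≤ n := by exact_mod_cast le_of_max_le_left hn
  have hn0 : (0 : ℝ) < n := by linarith
  obtain ⟨gam, R, B, -, b1, b2, b3, b4, b5, b6⟩ := h n
    ((Nat.le_ceil n0).trans (by exact_mod_cast le_of_max_le_right hn)) univ ax dist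
    (fun i => by exact_mod_cast (card_le_univ _).trans hio) hst (by simpa using hF)
    (fun a _ g _ => h1 a g) (fun a _ g _ => hsym a g) (fun a _ b _ c _ => htri a b c)
    (fun a _ g _ g1 _ x _ x1 _ i j r => hD1 i j a g g1 x x1 r)
  have hg : 0 < gam := he.trans_le b1
  refine ⟨B, R, M * gam, by nlinarith, b3, ?_, ?_, b5, fun g hg1 => (b6 g hg1).trans ?_⟩
  · rw [le_div_iff₀ (by positivity)] at b2
    linarith
  · rw [mul_div_cancel_left₀ _ (by positivity)]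
    exact b4
  · calc (n : ℝ) ^ (4 / 3 - 3 * M * gam) ≤ (n : ℝ) ^ (-(M * gam) + (4 / 3 - gam)) :=
          Real.rpow_le_rpow_of_exponent_le hn1 (by nlinarith)
      _ = (n : ℝ) ^ (-(M * gam)) * (n : ℝ) ^ (4 / 3 - gam) := Real.rpow_add hn0 _ _
      _ ≤ _ := mul_le_mul_of_nonneg_left b4 (by positivity)

end Pool.Agent.Lib.MP_abd417_co.Up
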