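import Pool.Agent.Lib.MP_abd417_co.Up.TopDefs
import Pool.Agent.Lib.MP_abd417_co.Up.Glob
import Pool.Agent.Lib.MP_abd417_co.Up.Pf
import Pool.Agent.Lib.MP_abd417_co.W.Mk
import Pool.Agent.Lib.MP_abd417_co.W.NineB
import Pool.Agent.Lib.MP_abd417_co.W.Place
import Pool.Agent.Lib.MP_abd417_co.W.TriDefs

/-! Steps five to nine joined: every spread law carries tests. -/

namespace Pool.Agent.Lib.MP_abd417_co.Up.Top

open Finset Classical
open Pool.Agent.Lib.MP_abd417_co.W Pool.Agent.Lib.MP_abd417_co.U.Cy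

section merge

variable {F Pl : Type} [Fintype Pl] {d : Pl → F → F → ℝ} {c C : Pl → ℝ}

/-- All walls of all shifts of all places. -/
abbrev TWl (M : ∀ p, MSys F (d p) (c p) (C p)) : Type := Σ p : Pl, Fin (M p).N × Fin (M p).m

/-- Weight of a merged wall. -/
noncomputable def tw (wp : Pl → ℝ) (M : ∀ p, MSys F (d p) (c p) (C p)) (l : TWl M) : ℝ :=
  wp l.1 * ((M l.1).w l.2.1 l.2.2 / (M l.1).N)

/-- The set of a merged wall. -/
def tS (M : ∀ p, MSys F (d p) (c p) (C p)) (l : TWl M) : Finset F := (M l.1).S l.2.1 l.2.2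

omit [Fintype Pl] in
theorem tw_nonneg {wp : Pl → ℝ} (hw : ∀ p, 0 ≤ wp p) (M : ∀ p, MSys F (d p) (c p) (C p))
    (l : TWl M) : 0 ≤ tw wp M l :=
  mul_nonneg (hw _) (div_nonneg ((M l.1).w_nonneg _ _) (Nat.cast_nonneg _))

theorem sum_tw (wp : Pl → ℝ) (M : ∀ p, MSys F (d p) (c p) (C p)) (f : Finset F → ℝ) :
    ∑ l, tw wp M l * f (tS M l) =
      ∑ p, wp p * ((∑ t, ∑ a, (M p).w t a * f ((M p).S t a)) / (M p).N) := by
  rw [Fintype.sum_sigma]
  refine sum_congr rfl fun p _ => ?_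
  rw [Fintype.sum_prod_type, sum_div, mul_sum]
  refine sum_congr rfl fun t _ => ?_
  rw [sum_div, mul_sum]
  refine sum_congr rfl fun a _ => ?_
  simp only [tw, tS]
  ring

theorem DT_tw {wp : Pl → ℝ} (hw : ∀ p, 0 ≤ wp p) (M : ∀ p, MSys F (d p) (c p) (C p))
    (g h : F) : DT (tw wp M) (tS M) g h ≤ ∑ p, wp p * (d p g h + C p) := by
  unfold DT
  rw [sum_tw wp M (fun A => ind (Sep A g h))]
  refine sum_le_sum fun p _ => mul_le_mul_of_nonneg_left ?_ (hw p)
  have hN : (0 : ℝ) < (M p).N := Nat.cast_pos.2 (M p).pos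
  rw [div_le_iff₀ hN, mul_comm]
  exact (M p).hi g h

end merge

theorem sum_ar (k : Conf) : ∑ p, k.w p * ar k p = 1 := by
  rw [← k.wsum, sum_filter]
  refine sum_congr rfl fun p _ => ?_
  unfold ar
  split_ifs <;> simp

theorem ar_nonneg (k : Conf) (p : k.Pl) : 0 ≤ ar k p := by
  unfold ar
  split_ifs <;> norm_num

/-- The two lines of one place, for all places of a configuration. -/
theorem place_conf (hP : PlaceSt) (b ga C : ℝ) (hb : 0 < b) (hb1 : b ≤ 1) (hga : 0 < ga)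
    (hga1 : ga ≤ b ^ 4 / 800) (hC : 0 ≤ C) : ∃ K : ℝ, 0 ≤ K ∧ ∀ (k : Conf) (p : k.Pl)
      (M : MSys k.Fr (k.d p) (6 * ar k p) (C * ar k p)) (nu : k.Fr → ℝ), (∀ g, 0 ≤ nu g) →
      ∑ g, nu g = 1 → (∀ i, ∑ g, pr nu k.ax i g g ≤ b ^ 4 / 400) →
      EL nu k.ax (Lp k p) ≤ 9 * M.Bad k.ax nu b ga - b ^ 4 / 128 * M.W k.ax nu b
        + (if k.arch p = true then K else 0) ∧
      E2 nu (k.d p) ≤ M.W k.ax nu b + 9 * M.Bad k.ax nu b ga
        + (if k.arch p = true then K else 0) := by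
  obtain ⟨K, hK, -, H1⟩ := hP b ga (6 * 1) (C * 1) hb hb1 hga hga1 (by norm_num) (by linarith)
  obtain ⟨K0, -, hK0, H0⟩ := hP b ga (6 * 0) (C * 0) hb hb1 hga hga1 (by norm_num) (by simp)
  obtain rfl : K0 = 0 := hK0 (by simp) (by simp)
  refine ⟨K, hK, fun k p M nu h0 h1 hd => ?_⟩
  have A := alg_conf k p
  have hx : (k.arch p = true → ar k p = 1) ∧ (¬ k.arch p = true → ar k p = 0) :=
    ⟨fun h => if_pos h, fun h => if_neg h⟩
  generalize ar k p = x at M A hx
  by_cases h : k.arch p = true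
  · obtain rfl := hx.1 h
    rw [if_pos h]
    exact H1 _ _ _ _ _ nu M A h0 h1 hd
  · obtain rfl := hx.2 h
    rw [if_neg h]
    exact H0 _ _ _ _ _ nu M A h0 h1 hd

theorem test (hP : PlaceSt) (hT : TriSt) (hA : ArchSt) (hF : FinSt) : TestSt := by
  intro b ga hb hb2 hga hga1
  have hb1 : b ≤ 1 := by linarith
  obtain ⟨C, hC, hM⟩ := msys_conf hA hF
  obtain ⟨K, hK, hPl⟩ := place_conf hP b ga C hb hb1 hga hga1 hC
  obtain ⟨L0, hL0, h9⟩ := nine1 9 (b ^ 4 / 128) K (by norm_num) (by positivity) hK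
  obtain ⟨c5, hc5, h9⟩ := h9 (1 / 1000000) (by norm_num)
  obtain ⟨γ, Nc, de, hγ, hde, hTri⟩ := hT b ga C L0 hb hb1 hga hga1 hC hL0
  have hz : 0 < 2 + C := by linarith
  refine ⟨γ, Nc, c5 / (2 + C), 2 + C, min de (b ^ 4 / 400), hγ, by positivity, hz,
    by positivity, fun k R hR hdiam => ?_⟩
  have M : ∀ p, MSys k.Fr (k.d p) (6 * ar k p) (C * ar k p) := fun p => (hM k p).some
  have hw : ∀ p, 0 ≤ k.w p := fun p => (k.wpos p).le
  choose cl hcl using hTri k
  have hCR : C ≤ C * R := le_mul_of_one_le_right hC hR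
  refine ⟨TWl M, inferInstance, tw k.w M, tS M, fun p => k.w p * ar k p,
    fun p => if h : k.arch p = true then cl p h else id, tw_nonneg hw M,
    fun p => mul_nonneg (hw p) (ar_nonneg k p), by rw [sum_ar]; nlinarith, fun g h => ?_,
    fun μ h0 hm hdiag hball => ?_⟩
  · refine (DT_tw hw M g h).trans ?_
    have e : ∑ p, k.w p * (k.d p g h + C * ar k p) =
        ∑ p, k.w p * k.d p g h + C * ∑ p, k.w p * ar k p := by
      rw [mul_sum, ← sum_add_distrib]
      exact sum_congr rfl fun p _ => by ring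
    have := hdiam g h
    unfold Conf.dist at this
    rw [e, sum_ar]
    nlinarith
  · have n0 : ∀ g, 0 ≤ nrm μ g := fun g => div_nonneg (h0 g) hm.le
    have n1 : ∑ g, nrm μ g = 1 := by
      unfold nrm
      rw [← sum_div, div_self hm.ne']
    have hpl := fun p => hPl k p (M p) (nrm μ) n0 n1 fun i => (hdiag i).trans (min_le_right _ _)
    have key := h9 k R (by linarith) (fun g h => zero_le_one.trans (k.one_le_dist g h))
      (fun i g h e hne => k.th_pf e.symm hne) (nrm μ) n0 n1 hball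
      (fun p => (M p).W k.ax (nrm μ) b) (fun p => (M p).Bad k.ax (nrm μ) b ga)
      (fun p => ∃ q, Fine k.ax (if h : k.arch p = true then cl p h else id) μ γ Nc q)
      (fun p => Pl.W_nonneg _ _ _ _) (fun p => Pl.Bad_nonneg _ _ n0 _ _)
      (fun p => (hpl p).1) (fun p => (hpl p).2) fun p hp hW hB => by
        rw [dif_pos hp]
        refine hcl p hp _ _ (M p) ?_ (alg_conf k p) μ h0 hm
          (fun i => (hdiag i).trans (min_le_left _ _)) hW hB
        have : ar k p = 1 := if_pos hp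
        rw [this, mul_one]
    have e1 : c5 / (2 + C) * ((2 + C) * R) = c5 * R := by field_simp
    rw [e1]
    unfold TW
    rw [sum_tw k.w M (fun A => bad k.ax (nrm μ) b ga A)]
    refine key.trans (add_le_add le_rfl (le_of_eq (sum_congr rfl fun p _ => ?_)))
    beta_reduce
    by_cases hp : k.arch p = true
    · have : ar k p = 1 := if_pos hp
      rw [this, mul_one, ind_congr (and_iff_right hp)]
    · have : ar k p = 0 := if_neg hp
      rw [this, ind_neg fun h => hp h.1]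
      ring

end Pool.Agent.Lib.MP_abd417_co.Up.Top
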