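import Mathlib

/-! Walls of a finite ultrametric space with heights. -/

namespace Pool.Agent.Lib.MP_abd417_co.Up.Walls

open Finset

theorem exists_enum (B : Finset ℝ) (hB : ∀ x ∈ B, 0 < x) :
    ∃ (b : ℕ → ℝ) (N : ℕ), StrictMono b ∧ (∀ k, 0 < b k) ∧ ∀ x ∈ B, ∃ k, k < N ∧ b k = x := by
  let e := B.orderEmbOfFin rfl
  let T : ℝ := ∑ x ∈ B, x
  have hT0 : 0 ≤ T := sum_nonneg fun x hx => (hB x hx).le
  have hT : ∀ i, e i ≤ T := fun i =>
    single_le_sum (f := fun x : ℝ => x) (fun x hx => (hB x hx).le) (B.orderEmbOfFin_mem rfl i)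
  refine ⟨fun k => if h : k < B.card then e ⟨k, h⟩ else T + 1 + k, B.card, ?_, ?_, ?_⟩
  · intro i j hij
    dsimp only
    by_cases hj : j < B.card
    · rw [dif_pos hj, dif_pos (hij.trans hj)]
      exact e.strictMono (Fin.mk_lt_mk.2 hij)
    · rw [dif_neg hj]
      have h1 : (i : ℝ) < j := by exact_mod_cast hij
      have h2 : (0 : ℝ) ≤ j := Nat.cast_nonneg _
      split_ifs with hi
      · linarith [hT ⟨i, hi⟩]
      · linarith
  · intro k
    dsimp only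
    split_ifs with h
    · exact hB _ (B.orderEmbOfFin_mem rfl _)
    · positivity
  · intro x hx
    have : x ∈ Set.range e := by rw [B.range_orderEmbOfFin rfl]; exact hx
    obtain ⟨i, rfl⟩ := this
    exact ⟨i.1, i.2, by simp⟩

theorem tele (b : ℕ → ℝ) (hb : ∀ k, 0 < b k) {i j : ℕ} (hij : i ≤ j) :
    ∑ k ∈ Ico i j, Real.log (b (k + 1) / b k) = Real.log (b j / b i) := by
  induction j, hij using Nat.le_induction with
  | base => simp [div_self (hb i).ne']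
  | succ j hij ih =>
    rw [sum_Ico_succ_top hij, ih, Real.log_div (hb _).ne' (hb _).ne',
      Real.log_div (hb _).ne' (hb _).ne', Real.log_div (hb _).ne' (hb _).ne']
    ring

theorem tele_le (b : ℕ → ℝ) (hm : StrictMono b) (hb : ∀ k, 0 < b k) (A : Finset ℕ) {s t : ℝ}
    (hs : 0 < s) (hst : s ≤ t) (hA : ∀ k ∈ A, s ≤ b k ∧ b (k + 1) ≤ t) :
    ∑ k ∈ A, Real.log (b (k + 1) / b k) ≤ Real.log (t / s) := by
  rcases A.eq_empty_or_nonempty with rfl | hne
  · simpa using Real.log_nonneg ((one_le_div hs).2 hst)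
  have h1 : A.min' hne ≤ A.max' hne + 1 := (A.min'_le_max' hne).trans (Nat.le_succ _)
  calc ∑ k ∈ A, Real.log (b (k + 1) / b k)
      ≤ ∑ k ∈ Ico (A.min' hne) (A.max' hne + 1), Real.log (b (k + 1) / b k) := by
        refine sum_le_sum_of_subset_of_nonneg (fun k hk => ?_) fun k _ _ => ?_
        · exact mem_Ico.2 ⟨A.min'_le k hk, Nat.lt_succ_of_le (A.le_max' k hk)⟩
        · exact Real.log_nonneg ((one_le_div (hb k)).2 (hm (Nat.lt_succ_self k)).le)
    _ = Real.log (b (A.max' hne + 1) / b (A.min' hne)) := tele b hb h1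
    _ ≤ Real.log (t / s) := by
        refine Real.log_le_log (div_pos (hb _) (hb _)) ?_
        exact div_le_div₀ (hs.le.trans hst) (hA _ (A.max'_mem hne)).2 hs (hA _ (A.min'_mem hne)).1

open Classical in
/-- Walls of a positive symmetric function with the ultrametric inequality (the diagonal values
are the heights). `E` is any finite set of further break points. -/
theorem walls_of_join {F : Type} [Fintype F] (M : F → F → ℝ) (hpos : ∀ g g', 0 < M g g')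
    (hsym : ∀ g g', M g g' = M g' g) (hult : ∀ x y z, M x z ≤ max (M x y) (M y z))
    (E : Finset ℝ) (hE : ∀ x ∈ E, 0 < x) :
    ∃ (Wl : Type) (_ : Fintype Wl) (lo hi : Wl → ℝ) (S : Wl → Finset F),
      (∀ a, 0 < lo a) ∧ (∀ a, lo a < hi a) ∧ (∀ a, (S a).Nonempty) ∧
      (∀ a g, g ∈ S a → ∀ g', g' ∈ S a ↔ M g g' ≤ lo a) ∧
      (∀ a g g', M g g' ≤ lo a ∨ hi a ≤ M g g') ∧
      (∀ a, ∀ x ∈ E, x ≤ lo a ∨ hi a ≤ x) ∧
      (∀ a a', lo a = lo a' ∧ hi a = hi a' ∨ hi a ≤ lo a' ∨ hi a' ≤ lo a) ∧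
      (∀ a a' g, g ∈ S a → g ∈ S a' → lo a = lo a' → a = a') ∧
      (∀ g s t, 0 < s → s ≤ t → ∑ a ∈ univ.filter (fun a => g ∈ S a ∧ s ≤ lo a ∧ hi a ≤ t),
        Real.log (hi a / lo a) ≤ Real.log (t / s)) ∧
      (∀ g s t, M g g ≤ s → s ≤ t → (s ∈ E ∨ ∃ x y, s = M x y) → (t ∈ E ∨ ∃ x y, t = M x y) →
        ∑ a ∈ univ.filter (fun a => g ∈ S a ∧ s ≤ lo a ∧ lo a < t),
          Real.log (hi a / lo a) = Real.log (t / s)) := by
  obtain ⟨b, N, hm, hb, hx⟩ := exists_enum (E ∪ univ.image fun p : F × F => M p.1 p.2) (by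
    intro x hx
    rcases mem_union.1 hx with h | h
    · exact hE x h
    · obtain ⟨p, -, rfl⟩ := mem_image.1 h
      exact hpos _ _)
  have hx' : ∀ x, (x ∈ E ∨ ∃ g g', x = M g g') → ∃ k, k < N ∧ b k = x := fun x h => by
    refine hx x (mem_union.2 (h.imp id ?_))
    rintro ⟨g, g', rfl⟩
    exact mem_image.2 ⟨(g, g'), mem_univ _, rfl⟩
  have hgap : ∀ x k, (x ∈ E ∨ ∃ g g', x = M g g') → x ≤ b k ∨ b (k + 1) ≤ x := fun x k h => by
    obtain ⟨j, -, rfl⟩ := hx' x h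
    rcases le_or_gt j k with h1 | h1
    · exact Or.inl (hm.monotone h1)
    · exact Or.inr (hm.monotone h1)
  let cl : ℕ → F → Finset F := fun k g => univ.filter fun g' => M g g' ≤ b k
  have hcl : ∀ k g g', g' ∈ cl k g ↔ M g g' ≤ b k := fun k g g' => by simp [cl]
  have hdiag : ∀ g g', M g g ≤ M g g' := fun g g' => by
    simpa [hsym g' g] using hult g g' g
  have hcl2 : ∀ k g g', g' ∈ cl k g → cl k g' = cl k g := fun k g g' h => by
    rw [hcl] at h
    ext x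
    rw [hcl, hcl]
    constructor
    · exact fun h1 => (hult g g' x).trans (max_le h h1)
    · exact fun h1 => (hult g' g x).trans (max_le (hsym g g' ▸ h) h1)
  let Wl := {p : Fin N × Finset F // ∃ g, M g g ≤ b p.1 ∧ p.2 = cl p.1 g}
  have hS : ∀ (a : Wl) g, g ∈ a.1.2 → a.1.2 = cl a.1.1 g := fun a g hg => by
    obtain ⟨x, -, hx⟩ := a.2
    rw [hx] at hg ⊢
    exact (hcl2 _ _ _ hg).symm
  have hinj : ∀ (a a' : Wl) g, g ∈ a.1.2 → g ∈ a'.1.2 → a.1.1.1 = a'.1.1.1 → a = a' :=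
    fun a a' g h1 h2 h3 => by
    refine Subtype.ext (Prod.ext (Fin.ext h3) ?_)
    rw [hS a g h1, hS a' g h2, h3]
  have key : ∀ (g : F) (Q : ℕ → Prop),
      ∑ a ∈ univ.filter (fun a : Wl => g ∈ a.1.2 ∧ Q a.1.1), Real.log (b (a.1.1 + 1) / b a.1.1)
        = ∑ k ∈ (range N).filter (fun k => M g g ≤ b k ∧ Q k), Real.log (b (k + 1) / b k) := by
    intro g Q
    refine sum_bij (fun a _ => a.1.1.1) (fun a ha => ?_) (fun a ha a' ha' h => ?_)
      (fun k hk => ?_) fun a _ => rfl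
    · obtain ⟨h1, h2⟩ := (mem_filter.1 ha).2
      refine mem_filter.2 ⟨mem_range.2 a.1.1.2, ?_, h2⟩
      have := hS a g h1 ▸ h1
      exact (hcl _ _ _).1 this
    · exact hinj a a' g (mem_filter.1 ha).2.1 (mem_filter.1 ha').2.1 h
    · obtain ⟨h1, h2, h3⟩ := mem_filter.1 hk
      refine ⟨⟨(⟨k, mem_range.1 h1⟩, cl k g), g, h2, rfl⟩, ?_, rfl⟩
      exact mem_filter.2 ⟨mem_univ _, (hcl _ _ _).2 h2, h3⟩
  refine ⟨Wl, inferInstance, fun a => b a.1.1, fun a => b (a.1.1 + 1), fun a => a.1.2,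
    fun a => hb _, fun a => hm (Nat.lt_succ_self _), fun a => ?_, fun a g hg g' => ?_,
    fun a g g' => hgap _ _ (Or.inr ⟨g, g', rfl⟩), fun a x h => hgap _ _ (Or.inl h),
    fun a a' => ?_, fun a a' g h1 h2 h3 => hinj a a' g h1 h2 (hm.injective h3),
    fun g s t hs hst => ?_, fun g s t hs hst h1 h2 => ?_⟩
  · obtain ⟨x, h1, h2⟩ := a.2
    exact ⟨x, by dsimp only; rw [h2]; exact (hcl _ _ _).2 h1⟩
  · dsimp only at hg ⊢
    rw [← hcl, ← hS a g hg]
  · rcases lt_trichotomy a.1.1.1 a'.1.1.1 with h | h | h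
    · exact Or.inr (Or.inl (hm.monotone h))
    · exact Or.inl ⟨by dsimp only; rw [h], by dsimp only; rw [h]⟩
    · exact Or.inr (Or.inr (hm.monotone h))
  · have := key g fun k => s ≤ b k ∧ b (k + 1) ≤ t
    refine le_trans (le_of_eq ?_) (this.le.trans (tele_le b hm hb _ hs hst fun k hk => ?_))
    · exact sum_congr (by ext a; simp) fun _ _ => rfl
    · simp only [mem_filter] at hk
      exact hk.2.2
  · obtain ⟨i, -, rfl⟩ := hx' s h1
    obtain ⟨j, hj, rfl⟩ := hx' t h2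
    have := key g fun k => b i ≤ b k ∧ b k < b j
    refine Eq.trans ?_ (this.trans ?_)
    · exact sum_congr (by ext a; simp) fun _ _ => rfl
    rw [← tele b hb (hm.le_iff_le.1 hst)]
    refine sum_congr ?_ fun _ _ => rfl
    ext k
    simp only [mem_filter, mem_range, mem_Ico, hm.le_iff_le, hm.lt_iff_lt]
    exact ⟨fun h => h.2.2, fun h => ⟨h.2.trans hj, hs.trans (hm.monotone h.1), h⟩⟩

open Classical in
/-- Walls of an ultrametric `ρ` with heights `h`. -/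
theorem walls {F : Type} [Fintype F] (ρ : F → F → ℝ) (h : F → ℝ) (hpos : ∀ g, 0 < h g)
    (hsym : ∀ g g', ρ g g' = ρ g' g) (hult : ∀ x y z, ρ x z ≤ max (ρ x y) (ρ y z))
    (hdiag : ∀ g, ρ g g ≤ h g) (E : Finset ℝ) (hE : ∀ x ∈ E, 0 < x) :
    ∃ (Wl : Type) (_ : Fintype Wl) (w lo hi : Wl → ℝ) (S : Wl → Finset F),
      (∀ a, 0 < w a) ∧ (∀ a, w a = Real.log (hi a / lo a)) ∧
      (∀ a, 0 < lo a) ∧ (∀ a, lo a < hi a) ∧ (∀ a, (S a).Nonempty) ∧
      (∀ a g, g ∈ S a → ∀ g', g' ∈ S a ↔ h g' ≤ lo a ∧ ρ g g' ≤ lo a) ∧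
      (∀ a g g', max (ρ g g') (max (h g) (h g')) ≤ lo a ∨
        hi a ≤ max (ρ g g') (max (h g) (h g'))) ∧
      (∀ a, ∀ x ∈ E, x ≤ lo a ∨ hi a ≤ x) ∧
      (∀ a a', lo a = lo a' ∧ hi a = hi a' ∨ hi a ≤ lo a' ∨ hi a' ≤ lo a) ∧
      (∀ a a' g, g ∈ S a → g ∈ S a' → lo a = lo a' → a = a') ∧
      (∀ a a' g, g ∈ S a → g ∈ S a' → lo a ≤ lo a' → S a ⊆ S a') ∧
      (∀ a a', S a ⊆ S a' ∨ S a' ⊆ S a ∨ Disjoint (S a) (S a')) ∧
      (∀ g s t, 0 < s → s ≤ t →
        ∑ a ∈ univ.filter (fun a => g ∈ S a ∧ s ≤ lo a ∧ hi a ≤ t), w a ≤ Real.log (t / s)) ∧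
      (∀ g g', ∑ a ∈ univ.filter (fun a => g ∈ S a ∧ g' ∉ S a), w a =
        Real.log (max (ρ g g') (max (h g) (h g')) / h g)) ∧
      (∀ g g', ∑ a ∈ univ.filter (fun a => ¬(g ∈ S a ↔ g' ∈ S a)), w a =
        Real.log (max (ρ g g') (max (h g) (h g')) ^ 2 / (h g * h g'))) := by
  set M : F → F → ℝ := fun g g' => max (ρ g g') (max (h g) (h g')) with hM
  have hMd : ∀ g, M g g = h g := fun g => by simp [hM, hdiag g]
  have hMp : ∀ g g', 0 < M g g' := fun g g' => lt_max_of_lt_right (lt_max_of_lt_left (hpos g))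
  have hMs : ∀ g g', M g g' = M g' g := fun g g' => by
    simp only [hM]; rw [hsym g g', max_comm (h g)]
  have hMu : ∀ x y z, M x z ≤ max (M x y) (M y z) := fun x y z => by
    refine max_le ((hult x y z).trans (max_le_max (le_max_left _ _) (le_max_left _ _)))
      (max_le_max (le_max_of_le_right (le_max_left _ _)) (le_max_of_le_right (le_max_right _ _)))
  obtain ⟨Wl, iW, lo, hi, S, h1, h2, h3, h4, h5, h6, h7, h8, h9, h10⟩ :=
    walls_of_join M hMp hMs hMu E hE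
  have hin : ∀ a g, g ∈ S a → h g ≤ lo a := fun a g hg => hMd g ▸ (h4 a g hg g).1 hg
  have hsub : ∀ a a' g, g ∈ S a → g ∈ S a' → lo a ≤ lo a' → S a ⊆ S a' :=
    fun a a' g hg hg' hl x hx => (h4 a' g hg' x).2 (((h4 a g hg x).1 hx).trans hl)
  have hone : ∀ g g', ∑ a ∈ univ.filter (fun a => g ∈ S a ∧ g' ∉ S a),
      Real.log (hi a / lo a) = Real.log (M g g' / h g) := fun g g' => by
    rw [← h10 g (h g) (M g g') (hMd g).le (le_max_of_le_right (le_max_left _ _))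
      (Or.inr ⟨g, g, (hMd g).symm⟩) (Or.inr ⟨g, g', rfl⟩)]
    refine sum_congr ?_ fun _ _ => rfl
    ext a
    simp only [mem_filter, mem_univ, true_and]
    refine and_congr_right fun hg => ?_
    rw [h4 a g hg g', not_le]
    exact ⟨fun h0 => ⟨hin a g hg, h0⟩, fun h0 => h0.2⟩
  refine ⟨Wl, iW, fun a => Real.log (hi a / lo a), lo, hi, S,
    fun a => Real.log_pos ((one_lt_div (h1 a)).2 (h2 a)), fun _ => rfl, h1, h2, h3,
    fun a g hg g' => ?_, h5, h6, h7, h8, hsub, fun a a' => ?_, h9, hone, fun g g' => ?_⟩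
  · rw [h4 a g hg g']
    simp only [hM, max_le_iff]
    exact ⟨fun h0 => ⟨h0.2.2, h0.1⟩, fun h0 => ⟨h0.2, hin a g hg, h0.1⟩⟩
  · by_cases hd : Disjoint (S a) (S a')
    · exact Or.inr (Or.inr hd)
    obtain ⟨g, hg, hg'⟩ := not_disjoint_iff.1 hd
    exact (le_total (lo a) (lo a')).imp (hsub a a' g hg hg') fun h0 =>
      Or.inl (hsub a' a g hg' hg h0)
  · have e : univ.filter (fun a => ¬(g ∈ S a ↔ g' ∈ S a)) =
        univ.filter (fun a => g ∈ S a ∧ g' ∉ S a) ∪ univ.filter (fun a => g' ∈ S a ∧ g ∉ S a) := by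
      ext a
      simp only [mem_filter, mem_univ, true_and, mem_union]
      tauto
    rw [e, sum_union (disjoint_filter.2 fun a _ h1 h2 => h1.2 h2.1), hone, hone, hMs g' g,
      ← Real.log_mul (div_pos (hMp _ _) (hpos _)).ne' (div_pos (hMp _ _) (hpos _)).ne',
      div_mul_div_comm, sq]

end Pool.Agent.Lib.MP_abd417_co.Up.Walls
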