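import Pool.Agent.Lib.MP_abd417_co.Up.Top
import Pool.Agent.Lib.MP_abd417_co.Up.Test
import Pool.Agent.Lib.MP_abd417_co.Up.CycAll
import Pool.Agent.Lib.MP_abd417_co.Up.End
import Pool.Agent.Lib.MP_abd417_co.Up.Blk
import Pool.Agent.Lib.MP_abd417_co.Up.Scale
import Pool.Agent.Lib.MP_abd417_co.Up.AllN
import Pool.Agent.Lib.MP_abd417_co.U.CycEnt
import Pool.Agent.Lib.MP_abd417_co.U.CycPsi
import Pool.Agent.Lib.MP_abd417_co.U.Fine
import Pool.Agent.Lib.MP_abd417_co.W.Tri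
import Pool.Agent.Lib.MP_abd417_co.W.Wall
import Pool.Agent.Lib.MP_abd417_co.W.Arch
import Pool.Agent.Lib.MP_abd417_co.W.Fin

/-! Assembly of the upper bound. -/

namespace Pool.Agent.Lib.MP_abd417_co.Up

theorem blk510 : Blk510 :=
  Top.blk_of Top.cyc (Top.test (W.place W.wall) (W.tri U.Fine.fine) W.arch W.fin) Top.end_
    28672 (by norm_num) (fun _ _ _ _ _ u v => U.Cy.entOK u v)
    (fun _ _ _ _ _ _ _ ax _ S _ cell _ _ hw hwa hZ hA hμ =>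
      ⟨U.Cy.Psi_nonneg ax S cell hw hwa hμ, U.Cy.Psi_le ax S cell hw hwa hZ hA hμ⟩)
    (fun c i j hij A B => c.st i j hij A B)

theorem main :
    ∃ η : ℝ, 0 < η ∧ ∃ C : ℝ, ∀ V : Finset (EuclideanSpace ℝ (Fin 3)), (∀ v ∈ V, ‖v‖ = 1) →
      (({T : Finset (EuclideanSpace ℝ (Fin 3)) | T ⊆ V ∧ T.card = 3 ∧
        ∀ u ∈ T, ∀ v ∈ T, u ≠ v → inner ℝ u v = 0}.ncard : ℕ) : ℝ) ≤
        C * (V.card : ℝ) ^ (4 / 3 - η) :=
  all_of (blk14_of scale) blk510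

end Pool.Agent.Lib.MP_abd417_co.Up
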