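import Pool.Agent.Lib.MP_abd417_co.Up.STb

/-! Reduction of a set of unit vectors to a linear three-partite family of frames. -/

namespace Pool.Agent.Lib.MP_abd417_co.Up.Red

open Finset Matrix

/-- An open half of three-space: exactly one of `v`, `-v` lies in it when `v` is not zero. -/
def Pos (v : Fin 3 → ℝ) : Prop :=
  0 < v 0 ∨ (v 0 = 0 ∧ 0 < v 1) ∨ (v 0 = 0 ∧ v 1 = 0 ∧ 0 < v 2)

theorem pos_or (v : Fin 3 → ℝ) (h : v ⬝ᵥ v = 1) : Pos v ∨ Pos (-v) := by
  unfold Pos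
  simp only [Pi.neg_apply, Left.neg_pos_iff, neg_eq_zero]
  rcases lt_trichotomy (v 0) 0 with a | a | a
  · tauto
  · rcases lt_trichotomy (v 1) 0 with b | b | b
    · tauto
    · rcases lt_trichotomy (v 2) 0 with c | c | c
      · tauto
      · simp [dotProduct, Fin.sum_univ_three, a, b, c] at h
      · tauto
    · tauto
  · tauto

theorem not_pos_neg (v : Fin 3 → ℝ) (h : Pos v) : ¬ Pos (-v) := by
  unfold Pos at *
  simp only [Pi.neg_apply, Left.neg_pos_iff, neg_eq_zero]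
  rintro (a | ⟨a, b⟩ | ⟨a, b, c⟩) <;> rcases h with d | ⟨d, e⟩ | ⟨d, e, f⟩ <;> linarith

theorem eq_or_neg (a b : Fin 3 → ℝ) (ha : a ⬝ᵥ a = 1) (hb : b ⬝ᵥ b = 1)
    (h : (a ⬝ᵥ b) ^ 2 = 1) : a = b ∨ a = -b := by
  simp only [dotProduct, Fin.sum_univ_three] at ha hb h
  rw [sq] at h
  rcases mul_self_eq_one_iff.1 h with e | e
  · left
    have : (a 0 - b 0) ^ 2 + (a 1 - b 1) ^ 2 + (a 2 - b 2) ^ 2 = 0 := by nlinarith
    ext i
    fin_cases i <;> simp <;> nlinarith [sq_nonneg (a 0 - b 0), sq_nonneg (a 1 - b 1),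
      sq_nonneg (a 2 - b 2)]
  · right
    have : (a 0 + b 0) ^ 2 + (a 1 + b 1) ^ 2 + (a 2 + b 2) ^ 2 = 0 := by nlinarith
    ext i
    fin_cases i <;> simp <;> nlinarith [sq_nonneg (a 0 + b 0), sq_nonneg (a 1 + b 1),
      sq_nonneg (a 2 + b 2)]

/-- Two axes of a frame fix the third one up to sign (any field). -/
theorem third {K : Type*} [Field K] (g h : Fin 3 → Fin 3 → K) (g1 : ∀ i, g i ⬝ᵥ g i = 1)
    (g0 : ∀ i j, i ≠ j → g i ⬝ᵥ g j = 0) (k : Fin 3) (h1 : h k ⬝ᵥ h k = 1)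
    (h0 : ∀ i, i ≠ k → g i ⬝ᵥ h k = 0) : (g k ⬝ᵥ h k) ^ 2 = 1 := by
  have e : (of g) * (of g)ᵀ = 1 := by
    ext i j
    rw [mul_apply, one_apply]
    split_ifs with c
    · subst c; exact g1 i
    · exact g0 i j c
  have e' : (of g)ᵀ * (of g) = 1 := mul_eq_one_comm.1 e
  have s : ∑ i, (g i ⬝ᵥ h k) ^ 2 = h k ⬝ᵥ h k := by
    have : ((of g) *ᵥ h k) ⬝ᵥ ((of g) *ᵥ h k) = h k ⬝ᵥ h k := by
      rw [dotProduct_mulVec, ← mulVec_transpose, mulVec_mulVec, e', one_mulVec]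
    rw [← this]
    simp only [dotProduct, sq]
    rfl
  rw [sum_eq_single k (fun i _ c => by rw [h0 i c]; ring) (by simp), h1] at s
  exact s

/-- Some colouring by three colours makes a share of at least `1 / 27` of the injective triples
carry the colours in order. -/
theorem colour {α : Type*} [Fintype α] [DecidableEq α] (O : Finset (Fin 3 → α))
    (hO : ∀ g ∈ O, Function.Injective g) :
    ∃ ty : α → Fin 3, #O ≤ 27 * #{g ∈ O | ∀ i, ty (g i) = i} := by
  classical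
  have k : ∀ g ∈ O, #(univ : Finset (α → Fin 3)) ≤ 27 * #{c : α → Fin 3 | ∀ i, c (g i) = i} := by
    intro g hg
    have : (27 : ℕ) = #(univ : Finset (Fin 3 → Fin 3)) := by simp
    rw [this, ← card_product]
    refine card_le_card_of_injOn (fun c => (c ∘ g, fun x =>
      if x = g 0 then 0 else if x = g 1 then 1 else if x = g 2 then 2 else c x)) ?_ ?_
    · intro c _
      have i1 : g 1 ≠ g 0 := fun e => by simpa using hO g hg e
      have i2 : g 2 ≠ g 0 := fun e => by simpa using hO g hg e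
      have i3 : g 2 ≠ g 1 := fun e => by simpa using hO g hg e
      simp only [coe_product, Set.mem_prod, coe_univ, Set.mem_univ, coe_filter, mem_univ,
        true_and, Set.mem_ofPred_eq]
      intro i
      fin_cases i <;> simp [i1, i2, i3]
    · intro c _ d _ e
      obtain ⟨e1, e2⟩ := Prod.mk.inj e
      funext x
      have e3 := congrFun e2 x
      by_cases a0 : x = g 0
      · rw [a0]; exact congrFun e1 0
      by_cases a1 : x = g 1
      · rw [a1]; exact congrFun e1 1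
      by_cases a2 : x = g 2
      · rw [a2]; exact congrFun e1 2
      simpa [a0, a1, a2] using e3
  have s : ∑ c : α → Fin 3, #O ≤ ∑ c : α → Fin 3, 27 * #{g ∈ O | ∀ i, c (g i) = i} := by
    calc ∑ c : α → Fin 3, #O = ∑ g ∈ O, #(univ : Finset (α → Fin 3)) := by
          simp [mul_comm]
      _ ≤ ∑ g ∈ O, 27 * #{c : α → Fin 3 | ∀ i, c (g i) = i} := sum_le_sum k
      _ = _ := by
          rw [← mul_sum, ← mul_sum]
          congr 1
          simp only [card_filter]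
          exact sum_comm
  obtain ⟨c, -, hc⟩ := exists_le_of_sum_le univ_nonempty s
  exact ⟨c, hc⟩

/-- Step 1 (a): one vector per direction, three disjoint types, linear family of frames. -/
theorem reduce (V : Finset (EuclideanSpace ℝ (Fin 3))) (hV : ∀ v ∈ V, ‖v‖ = 1) :
    ∃ (io : Type) (_ : Fintype io) (_ : DecidableEq io) (y : io → Fin 3 → ℝ) (ty : io → Fin 3)
      (F : Finset (Fin 3 → io)), Fintype.card io ≤ #V ∧ (∀ a, y a ⬝ᵥ y a = 1) ∧
      (∀ a b, a ≠ b → (y a ⬝ᵥ y b) ^ 2 ≠ 1) ∧ (∀ g ∈ F, ∀ i, ty (g i) = i) ∧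
      (∀ g ∈ F, ∀ i j, i ≠ j → y (g i) ⬝ᵥ y (g j) = 0) ∧
      (∀ g ∈ F, ∀ h ∈ F, ∀ i j, i ≠ j → g i = h i → g j = h j → g = h) ∧
      {T : Finset (EuclideanSpace ℝ (Fin 3)) | T ⊆ V ∧ T.card = 3 ∧
        ∀ u ∈ T, ∀ v ∈ T, u ≠ v → inner ℝ u v = 0}.ncard ≤ 216 * #F := by
  classical
  have dot : ∀ u v : EuclideanSpace ℝ (Fin 3), u.ofLp ⬝ᵥ v.ofLp = inner ℝ u v := fun u v => by
    simp [PiLp.inner_apply, dotProduct, mul_comm]
  have one : ∀ v ∈ V, v.ofLp ⬝ᵥ v.ofLp = 1 := fun v hv => by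
    rw [dot, real_inner_self_eq_norm_sq, hV v hv]; norm_num
  let p : EuclideanSpace ℝ (Fin 3) → Fin 3 → ℝ := fun v => if Pos v.ofLp then v.ofLp else -v.ofLp
  let D : Finset (Fin 3 → ℝ) := V.image p
  have D1 : ∀ a : D, a.1 ⬝ᵥ a.1 = 1 ∧ Pos a.1 := by
    rintro ⟨a, ha⟩
    obtain ⟨v, hv, rfl⟩ := mem_image.1 ha
    simp only [p]
    split_ifs with c
    · exact ⟨one v hv, c⟩
    · exact ⟨by simpa using one v hv, (pos_or _ (one v hv)).resolve_left c⟩
  have D2 : ∀ a b : D, a ≠ b → (a.1 ⬝ᵥ b.1) ^ 2 ≠ 1 := fun a b ne e => by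
    rcases eq_or_neg _ _ (D1 a).1 (D1 b).1 e with c | c
    · exact ne (Subtype.ext c)
    · exact not_pos_neg _ (D1 b).2 (c ▸ (D1 a).2)
  let O : Finset (Fin 3 → D) := {g | ∀ i j, i ≠ j → (g i).1 ⬝ᵥ (g j).1 = 0}
  have O0 : ∀ g ∈ O, ∀ i j, i ≠ j → (g i).1 ⬝ᵥ (g j).1 = 0 := fun g hg => (mem_filter.1 hg).2
  obtain ⟨ty, hty⟩ := colour O fun g hg i j e => by
    by_contra ne
    have := O0 g hg i j ne
    rw [e, (D1 _).1] at this
    exact one_ne_zero this
  refine ⟨D, inferInstance, inferInstance, fun a => a.1, ty, {g ∈ O | ∀ i, ty (g i) = i},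
    by simpa using card_image_le, fun a => (D1 a).1, D2, fun g hg => (mem_filter.1 hg).2,
    fun g hg => O0 g (mem_filter.1 hg).1, ?_, ?_⟩
  · intro g hg h hh i j ne ei ej
    funext k
    by_cases c1 : k = i
    · rw [c1]; exact ei
    by_cases c2 : k = j
    · rw [c2]; exact ej
    by_contra nk
    refine D2 _ _ nk (third (fun t => (g t).1) (fun t => (h t).1) (fun t => (D1 _).1)
      (O0 g (mem_filter.1 hg).1) k (D1 _).1 fun t ht => ?_)
    have : t = i ∨ t = j := by omega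
    rcases this with rfl | rfl
    · rw [ei]; exact O0 h (mem_filter.1 hh).1 _ _ ht
    · rw [ej]; exact O0 h (mem_filter.1 hh).1 _ _ ht
  · let m : (Fin 3 → D) × (Fin 3 → Bool) → Finset (EuclideanSpace ℝ (Fin 3)) := fun x =>
      univ.image fun i => WithLp.toLp 2 (if x.2 i then (x.1 i).1 else -(x.1 i).1)
    have sub : {T : Finset (EuclideanSpace ℝ (Fin 3)) | T ⊆ V ∧ T.card = 3 ∧
        ∀ u ∈ T, ∀ v ∈ T, u ≠ v → inner ℝ u v = 0} ⊆ ↑((O ×ˢ univ).image m) := by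
      rintro T ⟨hT, h3, ho⟩
      obtain ⟨t, ht, hi⟩ : ∃ t : Fin 3 → EuclideanSpace ℝ (Fin 3), univ.image t = T ∧
          Function.Injective t := by
        let e := (T.equivFinOfCardEq h3).symm
        refine ⟨fun i => (e i).1, ?_, fun i j c => e.injective (Subtype.ext c)⟩
        ext x
        simp only [mem_image, mem_univ, true_and]
        exact ⟨fun ⟨i, c⟩ => c ▸ (e i).2, fun c => ⟨e.symm ⟨x, c⟩, by simp⟩⟩
      have tT : ∀ i, t i ∈ T := fun i => ht ▸ mem_image_of_mem _ (mem_univ i)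
      refine mem_coe.2 (mem_image.2 ⟨(fun i => ⟨p (t i), mem_image_of_mem _ (hT (tT i))⟩,
        fun i => decide (Pos (t i).ofLp)), mem_product.2 ⟨?_, mem_univ _⟩, ?_⟩)
      · refine mem_filter.2 ⟨mem_univ _, fun i j ne => ?_⟩
        have := ho _ (tT i) _ (tT j) fun c => ne (hi c)
        rw [← dot] at this
        simp only [p]
        split_ifs <;> simp [this]
      · rw [← ht]
        simp only [m, p]
        congr 1
        funext i
        by_cases c : Pos (t i).ofLp <;> simp [c]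
    calc _ ≤ ((O ×ˢ univ).image m : Set _).ncard := Set.ncard_le_ncard sub (finite_toSet _)
      _ = #((O ×ˢ univ).image m) := Set.ncard_coe_finset _
      _ ≤ #(O ×ˢ (univ : Finset (Fin 3 → Bool))) := card_image_le
      _ = #O * 8 := by simp
      _ ≤ _ := by omega

/-- Szemerédi–Trotter for a linear family of frames over any field of characteristic zero. -/
theorem st_frames {K : Type*} [Field K] [CharZero K] {io : Type*} [DecidableEq io]
    (y : io → Fin 3 → K) (F : Finset (Fin 3 → io)) (y1 : ∀ a, y a ⬝ᵥ y a = 1)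
    (y2 : ∀ a b, a ≠ b → (y a ⬝ᵥ y b) ^ 2 ≠ 1)
    (o : ∀ g ∈ F, ∀ i j, i ≠ j → y (g i) ⬝ᵥ y (g j) = 0)
    (lin : ∀ g ∈ F, ∀ h ∈ F, ∀ i j, i ≠ j → g i = h i → g j = h j → g = h)
    (i j : Fin 3) (ne : i ≠ j) (A B : Finset io) :
    (#{g ∈ F | g i ∈ A ∧ g j ∈ B} : ℝ) ≤ 444000 * (((#A : ℝ) * #B) ^ (2 / 3 : ℝ) + #A + #B) := by
  classical
  refine le_trans ?_ (ST.st_unit A B y y (fun a _ => y1 a) (fun a _ => y1 a)
    (fun a _ b _ => y2 a b) fun a _ b _ => y2 a b)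
  refine Nat.cast_le.2 (card_le_card_of_injOn (fun g => (g i, g j)) ?_ ?_)
  · intro g hg
    obtain ⟨h1, h2, h3⟩ := mem_filter.1 (mem_coe.1 hg)
    exact mem_coe.2 (mem_filter.2 ⟨mem_product.2 ⟨h2, h3⟩, o g h1 i j ne⟩)
  · intro g hg h hh e
    obtain ⟨e1, e2⟩ := Prod.mk.inj e
    exact lin g (mem_filter.1 (mem_coe.1 hg)).1 h (mem_filter.1 (mem_coe.1 hh)).1 i j ne e1 e2

/-- Pruning: a subfamily in which every used vertex has degree at least `d`. -/
theorem prune {α β ι : Type*} [Fintype ι] [DecidableEq α] (F : Finset β) (u : ι → β → α)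
    (d : ℝ) (hd : 0 ≤ d) :
    ∃ G ⊆ F, (#F : ℝ) - d * ∑ i, (#(F.image (u i)) : ℝ) ≤ #G ∧
      ∀ g ∈ G, ∀ i, d ≤ #{h ∈ G | u i h = u i g} := by
  classical
  obtain ⟨G, hG, hm⟩ := exists_max_image F.powerset
    (fun G => (#G : ℝ) - d * ∑ i, (#(G.image (u i)) : ℝ)) ⟨F, mem_powerset_self F⟩
  have GF := mem_powerset.1 hG
  refine ⟨G, GF, ?_, fun g hg i => ?_⟩
  · have h1 := hm F (mem_powerset_self F)
    have : 0 ≤ d * ∑ i, (#(G.image (u i)) : ℝ) := by positivity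
    linarith
  · have h1 := hm {h ∈ G | ¬ u i h = u i g} (mem_powerset.2 ((filter_subset _ _).trans GF))
    have h2 : (#{h ∈ G | u i h = u i g} : ℝ) + #{h ∈ G | ¬ u i h = u i g} = #G := by
      exact_mod_cast card_filter_add_card_filter_not _
    have h3 : ∑ j, (#(({h ∈ G | ¬ u i h = u i g} : Finset β).image (u j)) : ℝ) + 1 ≤
        ∑ j, (#(G.image (u j)) : ℝ) := by
      have : ∑ j, #(({h ∈ G | ¬ u i h = u i g} : Finset β).image (u j)) <
          ∑ j, #(G.image (u j)) := by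
        refine sum_lt_sum (fun j _ => card_le_card (image_subset_image (filter_subset _ _)))
          ⟨i, mem_univ i, card_lt_card ⟨image_subset_image (filter_subset _ _), fun c => ?_⟩⟩
        obtain ⟨h, hh, e⟩ := mem_image.1 (c (mem_image_of_mem _ hg))
        exact (mem_filter.1 hh).2 e
      exact_mod_cast this
    nlinarith [mul_le_mul_of_nonneg_left h3 hd]

/-- Rich vertices carry few members of a family that obeys the incidence bound. -/
theorem rich {α β : Type*} [DecidableEq α] (F : Finset β) (p q : β → α) (C n k : ℝ) (hC : 0 < C)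
    (hk : 0 < k) (hp : (#(F.image p) : ℝ) ≤ n) (hq : (#(F.image q) : ℝ) ≤ n)
    (st : ∀ A B : Finset α, (#{g ∈ F | p g ∈ A ∧ q g ∈ B} : ℝ) ≤
      C * (((#A : ℝ) * #B) ^ (2 / 3 : ℝ) + #A + #B)) :
    (#{g ∈ F | k < #{h ∈ F | p h = p g}} : ℝ) ≤ 27 * C ^ 3 * n ^ 2 / k ^ 2 + 3 * C * n := by
  classical
  set R : Finset α := {a ∈ F.image p | k < #{h ∈ F | p h = a}} with hR
  set E : ℝ := ((#{g ∈ F | k < #{h ∈ F | p h = p g}} : ℕ) : ℝ) with hE
  have n0 : 0 ≤ n := le_trans (by positivity) hp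
  have E0 : 0 ≤ E := by positivity
  have e1 : ({g ∈ F | k < #{h ∈ F | p h = p g}} : Finset β) =
      {g ∈ F | p g ∈ R ∧ q g ∈ F.image q} := by
    refine filter_congr fun g hg => ?_
    simp only [hR, mem_filter, mem_image_of_mem _ hg, true_and, and_true]
  have h1 : k * #R ≤ E := by
    have : ({g ∈ F | k < #{h ∈ F | p h = p g}} : Finset β) = {g ∈ F | p g ∈ R} :=
      filter_congr fun g hg => by simp only [hR, mem_filter, mem_image_of_mem _ hg, true_and]
    rw [hE, this, ← sum_card_fiberwise_eq_card_filter, Nat.cast_sum, mul_comm, ← nsmul_eq_mul,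
      ← sum_const]
    exact sum_le_sum fun a ha => (mem_filter.1 ha).2.le
  have Rn : (#R : ℝ) ≤ n := le_trans (Nat.cast_le.2 (card_le_card (filter_subset _ _))) hp
  have h2 := st R (F.image q)
  rw [← e1, ← hE] at h2
  set x : ℝ := ((#R : ℝ) * #(F.image q)) ^ (2 / 3 : ℝ) with hx
  have x0 : 0 ≤ x := by positivity
  have x3 : x ^ 3 = ((#R : ℝ) * #(F.image q)) ^ 2 := by
    rw [hx, ← Real.rpow_natCast, ← Real.rpow_mul (by positivity)]
    norm_num
  have t0 : 0 ≤ 27 * C ^ 3 * n ^ 2 / k ^ 2 := by positivity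
  by_cases c : E ≤ 3 * C * n
  · linarith
  have Epos : 0 < E := lt_of_le_of_lt (by positivity) (not_le.1 c)
  have h3 : E ≤ 3 * C * x := by
    have : C * (x + #R + #(F.image q)) ≤ C * (x + n + n) := by gcongr
    nlinarith
  have h4 : E ^ 3 ≤ (3 * C * x) ^ 3 := by gcongr
  have h5 : (k * #R * #(F.image q)) ^ 2 ≤ (E * n) ^ 2 := by gcongr
  have h6 : E * k ^ 2 ≤ 27 * C ^ 3 * n ^ 2 := by
    refine le_of_mul_le_mul_left ?_ (pow_pos Epos 2)
    calc E ^ 2 * (E * k ^ 2) = E ^ 3 * k ^ 2 := by ring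
      _ ≤ (3 * C * x) ^ 3 * k ^ 2 := by gcongr
      _ = 27 * C ^ 3 * (k * #R * #(F.image q)) ^ 2 := by rw [mul_pow, x3]; ring
      _ ≤ 27 * C ^ 3 * (E * n) ^ 2 := by gcongr
      _ = _ := by ring
  have : E ≤ 27 * C ^ 3 * n ^ 2 / k ^ 2 := (le_div_iff₀ (by positivity)).2 h6
  have : 0 ≤ 3 * C * n := by positivity
  linarith

/-- Step 1 (b): all degrees between `d` and `k`. -/
theorem regular {α β : Type*} [DecidableEq α] (F : Finset β) (u : Fin 3 → β → α) (C n k d : ℝ)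
    (hC : 0 < C) (hk : 0 < k) (hd : 0 ≤ d) (hu : ∀ i, (#(F.image (u i)) : ℝ) ≤ n)
    (st : ∀ i j, i ≠ j → ∀ A B : Finset α, (#{g ∈ F | u i g ∈ A ∧ u j g ∈ B} : ℝ) ≤
      C * (((#A : ℝ) * #B) ^ (2 / 3 : ℝ) + #A + #B)) :
    ∃ G ⊆ F, (#F : ℝ) - (81 * C ^ 3 * n ^ 2 / k ^ 2 + 9 * C * n) - 3 * d * n ≤ #G ∧
      ∀ g ∈ G, ∀ i, d ≤ #{h ∈ G | u i h = u i g} ∧ (#{h ∈ G | u i h = u i g} : ℝ) ≤ k := by
  classical
  let B : Fin 3 → Finset β := fun i => {g ∈ F | k < #{h ∈ F | u i h = u i g}}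
  have hB : ∀ i, (#(B i) : ℝ) ≤ 27 * C ^ 3 * n ^ 2 / k ^ 2 + 3 * C * n := fun i =>
    rich F (u i) (u (i + 1)) C n k hC hk (hu _) (hu _) (st i (i + 1) (by omega))
  let H := F \ univ.biUnion B
  have HF : H ⊆ F := sdiff_subset
  have h1 : (#F : ℝ) ≤ #H + ∑ i, (#(B i) : ℝ) := by
    have a : #F ≤ #H + #(univ.biUnion B) := card_le_card_sdiff_add_card
    have b : #(univ.biUnion B) ≤ ∑ i, #(B i) := card_biUnion_le
    exact_mod_cast a.trans (Nat.add_le_add_left b _)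
  obtain ⟨G, GH, h2, h3⟩ := prune H u d hd
  have h4 : ∑ i, (#(H.image (u i)) : ℝ) ≤ 3 * n := by
    have : ∀ i, (#(H.image (u i)) : ℝ) ≤ n := fun i =>
      le_trans (Nat.cast_le.2 (card_le_card (image_subset_image HF))) (hu i)
    rw [Fin.sum_univ_three]; linarith [this 0, this 1, this 2]
  refine ⟨G, GH.trans HF, ?_, fun g hg i => ⟨h3 g hg i, ?_⟩⟩
  · rw [Fin.sum_univ_three] at h1
    have := mul_le_mul_of_nonneg_left h4 hd
    have e : 81 * C ^ 3 * n ^ 2 / k ^ 2 = 3 * (27 * C ^ 3 * n ^ 2 / k ^ 2) := by ring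
    linarith [hB 0, hB 1, hB 2]
  · have a := (mem_sdiff.1 (GH hg)).2
    have b : ¬ k < #{h ∈ F | u i h = u i g} := fun c =>
      a (mem_biUnion.2 ⟨i, mem_univ i, mem_filter.2 ⟨HF (GH hg), c⟩⟩)
    exact le_trans (Nat.cast_le.2 (card_le_card (filter_subset_filter _ (GH.trans HF))))
      (not_lt.1 b)

end Pool.Agent.Lib.MP_abd417_co.Up.Red
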