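import Pool.Agent.Lib.MP_a460e0_co.StB

/-! The number of rich lines in a plane of characteristic zero (the proof of `St.rich`). -/

namespace Pool.Agent.Lib.MP_abd417_co.Up.ST

open Polynomial Finset Pool.Agent.Lib.MP_a460e0_co.St

theorem exists_sq0 {R : Type*} [CommRing R] [IsDomain R] [UniqueFactorizationMonoid R]
    [CharZero R] {G A B : R[X]} (hG : G ≠ 0) (hB : B ≠ 0)
    (hlt : B.degree < G.degree) (h : A * G + B * derivative G = 0) :
    ∃ H r : R[X], 0 < H.natDegree ∧ G = H * (H * r) := by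
  obtain ⟨a', b', c, hrel, e1, e2⟩ := UniqueFactorizationMonoid.exists_reduced_factors G hG B
  have hc : c ≠ 0 := fun h0 => hG (by rw [← e1, h0, zero_mul])
  have ha : a' ≠ 0 := fun h0 => hG (by rw [← e1, h0, mul_zero])
  have hb : b' ≠ 0 := fun h0 => hB (by rw [← e2, h0, mul_zero])
  have hpos : 0 < a'.natDegree := by
    have := natDegree_lt_natDegree hB hlt
    rw [← e1, ← e2, natDegree_mul hc ha, natDegree_mul hc hb] at this
    omega
  have hd : a' ∣ derivative G := by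
    refine hrel.dvd_of_dvd_mul_left ⟨-A, mul_left_cancel₀ hc ?_⟩
    rw [← mul_assoc, ← mul_assoc, e1, e2]
    linear_combination h
  obtain ⟨H, hH, h1, h2⟩ := exists_prime_pos a' hpos
  obtain ⟨q, hq⟩ : H ∣ G := h1.trans (Dvd.intro_left c e1)
  have h3 : H ∣ derivative H * q := by
    have h4 := h1.trans hd
    rw [hq, derivative_mul] at h4
    exact (dvd_add_left (dvd_mul_right _ _)).1 h4
  rcases hH.dvd_or_dvd h3 with h5 | ⟨r, hr⟩
  · exfalso
    have hne : derivative H ≠ 0 := fun h0 => by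
      have h6 := congrArg (fun f => coeff f (H.natDegree - 1)) h0
      simp only [coeff_derivative, coeff_zero, mul_eq_zero] at h6
      rw [← Nat.cast_succ, Nat.succ_eq_add_one, Nat.sub_add_cancel h2] at h6
      rcases h6 with h6 | h6
      · exact hH.ne_zero (leadingCoeff_eq_zero.1 h6)
      · exact h2.ne' (Nat.cast_eq_zero.1 h6)
    have := natDegree_le_of_dvd h5 hne
    have := natDegree_derivative_lt h2.ne'
    omega
  · exact ⟨H, r, h2, by rw [hq, hr]⟩

variable {K : Type*} [Field K] [CharZero K]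

theorem rich_aux0 (P L : Finset (K × K)) (a b k : ℕ)
    (h : P.card * (2 * a + 1) < (a + 1) * ((a + 1) * (b + 1)))
    (hL : ∀ l ∈ L, ∃ Z ⊆ P, k ≤ Z.card ∧ ∀ z ∈ Z, z.2 = l.1 * z.1 + l.2) :
    L.card * (k - b - 1) ≤ (k - b + 4 * a) * a := by
  classical
  have hex : ∃ n, ∃ F : MvPolynomial (Fin 3) K, (F ≠ 0 ∧ F.degreeOf 0 ≤ a ∧ F.degreeOf 1 ≤ a ∧
      F.degreeOf 2 ≤ b ∧ ∀ z ∈ P, ev z F = 0) ∧ (lam F).natDegree = n := by
    obtain ⟨F, hF⟩ := exists_poly P a b h
    exact ⟨_, F, hF, rfl⟩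
  obtain ⟨F, ⟨F0, d0, d1, d2, hv⟩, hn⟩ := Nat.find_spec hex
  have hG : lam F ≠ 0 := fun h0 => F0 (by rw [← gam_lam F, h0, map_zero])
  have hb := bx_lam d0 d1
  have hdeg : (lam F).natDegree ≤ 2 * a := natDegree_le_iff_coeff_eq_zero.2 fun i hi => by
    ext1 j
    exact hb i j (Or.inl hi)
  refine (core L (fun l => C l.1) (fun l => C l.1 * X + C l.2) (fun l _ l' _ e => ?_) (lam F) a
    (k - b) hG (fun i j hj => hb i j (Or.inr hj)) (fun A B hlt e => ?_) fun l hl => ?_).trans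
    (Nat.mul_le_mul_right _ (by omega))
  · have e0 := congrArg (fun f => coeff f 0) e
    have e1 := congrArg (fun f => coeff f 1) e
    simp only [coeff_add, mul_coeff_zero, coeff_C_zero, coeff_X_zero, mul_zero, zero_add,
      coeff_C_mul, coeff_X_one, mul_one, coeff_C_succ, add_zero] at e0 e1
    exact Prod.ext e1 e0
  · by_contra hB
    obtain ⟨H, r, h1, h2⟩ := exists_sq0 hG hB hlt e
    have e1 : F = gam H * gam (H * r) := by rw [← map_mul, ← h2, gam_lam]
    have n1 : gam H ≠ 0 := fun h0 => F0 (by rw [e1, h0, zero_mul])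
    have n2 : gam (H * r) ≠ 0 := fun h0 => F0 (by rw [e1, h0, mul_zero])
    have hle : ∀ i, (gam (H * r)).degreeOf i ≤ F.degreeOf i := fun i => by
      rw [e1, MvPolynomial.degreeOf_mul_eq n1 n2]
      omega
    refine Nat.find_min hex (m := (H * r).natDegree) ?_ ⟨gam (H * r), ⟨n2, (hle 0).trans d0,
      (hle 1).trans d1, (hle 2).trans d2, fun z hz => ?_⟩, by rw [lam_gam]⟩
    · rw [← hn, h2, natDegree_mul (p := H) (q := H * r) (fun h0 => n1 (by rw [h0, map_zero]))
        (fun h0 => n2 (by rw [h0, map_zero]))]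
      omega
    · have h3 := hv z hz
      rw [e1, map_mul, mul_eq_zero] at h3
      rcases h3 with h3 | h3
      · rw [map_mul, map_mul, h3, zero_mul]
      · exact h3
  · rw [X_sub_C_pow_dvd_iff, lam_eps, X_pow_dvd_iff]
    intro j hj
    obtain ⟨Z, hZ, hk, hz⟩ := hL l hl
    refine eq_zero_of_natDegree_lt_card_of_eval_eq_zero' _ (Z.image Prod.fst) (fun s hs => ?_) ?_
    · obtain ⟨z, h1, rfl⟩ := mem_image.1 hs
      have := congrArg (fun f => coeff f j) (eps_ev l z (hz z h1) F)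
      simpa [hv z (hZ h1)] using this
    · rw [card_image_of_injOn fun z h1 z' h2 e => Prod.ext e (by rw [hz z h1, hz z' h2, e])]
      exact (natDegree_le_iff_coeff_eq_zero.2 fun i hi => qd_eps l d2 j i hi).trans_lt (by omega)

/-- The number of lines with at least `k` points. -/
theorem rich0 (P L : Finset (K × K)) (k : ℕ) (h4 : 4 ≤ k)
    (hL : ∀ l ∈ L, ∃ Z ⊆ P, k ≤ Z.card ∧ ∀ z ∈ Z, z.2 = l.1 * z.1 + l.2) :
    L.card * k ^ 3 ≤ 256 * P.card ^ 2 + 16 * P.card * k ^ 2 := by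
  set n := P.card
  have a1 : 4 * n / k * k ≤ 4 * n := Nat.div_mul_le_self _ _
  have a2 : 4 * n < (4 * n / k + 1) * k := by
    rw [mul_comm _ k]
    exact Nat.lt_mul_div_succ _ (by omega)
  have := rich_aux0 P L (4 * n / k) (k / 2) k ?_ hL
  · set a := 4 * n / k
    have h1 : L.card * k ≤ 4 * ((k + 4 * a) * a) :=
      calc L.card * k ≤ L.card * (4 * (k - k / 2 - 1)) := Nat.mul_le_mul_left _ (by omega)
        _ = 4 * (L.card * (k - k / 2 - 1)) := by ring
        _ ≤ _ := Nat.mul_le_mul_left _ (this.trans (Nat.mul_le_mul_right _ (by omega)))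
    calc L.card * k ^ 3 = L.card * k * k ^ 2 := by ring
      _ ≤ 4 * ((k + 4 * a) * a) * k ^ 2 := Nat.mul_le_mul_right _ h1
      _ = 16 * (a * k) ^ 2 + 4 * (a * k) * k ^ 2 := by ring
      _ ≤ 16 * (4 * n) ^ 2 + 4 * (4 * n) * k ^ 2 := by gcongr
      _ = _ := by ring
  · set a := 4 * n / k
    have h2 : k ≤ 2 * (k / 2 + 1) := by omega
    have h3 : 2 * n < (a + 1) * (k / 2 + 1) := by nlinarith
    nlinarith

end Pool.Agent.Lib.MP_abd417_co.Up.ST
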