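import Mathlib

/-! Step 4 (choice of scale), part A: regularisation, one growth step, the growth lemma. -/

namespace Pool.Agent.Lib.MP_abd417_co.Up.Sc

open Finset

variable {Ph V : Type*} [DecidableEq Ph] [DecidableEq V]

/-- The incidence bound for two axes, as a property of the family of frames. -/
def ST (C : ℝ) (F : Finset Ph) (u : Fin 3 → Ph → V) : Prop :=
  ∀ i j : Fin 3, i ≠ j → ∀ A B : Finset V,
    (#{g ∈ F | u i g ∈ A ∧ u j g ∈ B} : ℝ) ≤ C * (((#A : ℝ) * #B) ^ (2 / 3 : ℝ) + #A + #B)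

/-- Two different frames on a common axis, each a mate of a frame near `a`, are near `a`. -/
def XH (K : ℝ) (F : Finset Ph) (u : Fin 3 → Ph → V) (ds : Ph → Ph → ℝ) : Prop :=
  ∀ a ∈ F, ∀ g ∈ F, ∀ g1 ∈ F, ∀ x ∈ F, ∀ x1 ∈ F, ∀ (i j : Fin 3) (r : ℝ), i ≠ j → g ≠ g1 →
    u j g = u j g1 → u i g = u i x → u i g1 = u i x1 → ds a x ≤ r → ds a x1 ≤ r → ds a g ≤ K * r

omit [DecidableEq Ph] in
/-- Regularisation: a subfamily with all degrees at least `d`, losing at most `3 n d`. -/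
theorem regularise (G : Finset Ph) (u : Fin 3 → Ph → V) (n d : ℝ) (hd : 0 ≤ d)
    (hn : ∀ i, (#(G.image (u i)) : ℝ) ≤ n) :
    ∃ G1 ⊆ G, (#G : ℝ) - 3 * n * d ≤ #G1 ∧
      ∀ g ∈ G1, ∀ i, d ≤ (#{x ∈ G1 | u i x = u i g} : ℝ) := by
  obtain ⟨G1, hG1, hmax⟩ := exists_max_image G.powerset
    (fun S => (#S : ℝ) - d * ∑ i, (#(S.image (u i)) : ℝ)) ⟨G, mem_powerset_self G⟩
  have hsub := mem_powerset.1 hG1
  refine ⟨G1, hsub, ?_, ?_⟩
  · have h1 := hmax G (mem_powerset_self G)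
    have h2 : ∑ i, (#(G.image (u i)) : ℝ) ≤ 3 * n := by
      rw [Fin.sum_univ_three]; linarith [hn 0, hn 1, hn 2]
    have h3 : 0 ≤ d * ∑ i, (#(G1.image (u i)) : ℝ) :=
      mul_nonneg hd (sum_nonneg fun _ _ => Nat.cast_nonneg _)
    have h4 := mul_le_mul_of_nonneg_left h2 hd
    nlinarith
  · intro g hg i
    by_contra hlt
    push Not at hlt
    have h1 := hmax {x ∈ G1 | ¬ u i x = u i g}
      (mem_powerset.2 ((filter_subset _ _).trans hsub))
    have h2 : (#{x ∈ G1 | u i x = u i g} : ℝ) + #{x ∈ G1 | ¬ u i x = u i g} = #G1 := by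
      exact_mod_cast card_filter_add_card_filter_not (s := G1) (fun x => u i x = u i g)
    have h3 : ∑ j, (#(({x ∈ G1 | ¬ u i x = u i g} : Finset Ph).image (u j)) : ℝ) + 1
        ≤ ∑ j, (#(G1.image (u j)) : ℝ) := by
      have hle : ∀ j, (#(({x ∈ G1 | ¬ u i x = u i g} : Finset Ph).image (u j)) : ℝ)
          + (if j = i then 1 else 0) ≤ #(G1.image (u j)) := by
        intro j
        split_ifs with hj
        · subst hj
          have : #(({x ∈ G1 | ¬ u j x = u j g} : Finset Ph).image (u j)) < #(G1.image (u j)) := by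
            apply card_lt_card
            refine ⟨image_subset_image (filter_subset _ _), fun h => ?_⟩
            have := h (mem_image_of_mem (u j) hg)
            obtain ⟨x, hx, hx2⟩ := mem_image.1 this
            exact (mem_filter.1 hx).2 hx2
          exact_mod_cast this
        · have : #(({x ∈ G1 | ¬ u i x = u i g} : Finset Ph).image (u j)) ≤ #(G1.image (u j)) :=
            card_le_card (image_subset_image (filter_subset _ _))
          rw [add_zero]; exact_mod_cast this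
      have := sum_le_sum (s := univ) fun j _ => hle j
      rw [sum_add_distrib] at this
      simpa using this
    have h4 := mul_le_mul_of_nonneg_left h3 hd
    nlinarith

/-- The numerical growth step. -/
theorem num_step (n C D x y m dl ta : ℝ) (hn : 1 ≤ n) (hC : 1 ≤ C) (hy : 0 ≤ y)
    (hdl0 : 0 ≤ dl) (hdl : dl ≤ 4 / 3) (hta : 0 ≤ ta) (hta1 : ta ≤ 1 / 3)
    (hx : n ^ (1 - dl) ≤ x) (hD : 6 * C * n ^ (1 / 3 - ta) ≤ D)
    (hm : x * D / 2 ≤ m) (hst : m ≤ C * ((x * y) ^ (2 / 3 : ℝ) + x + y)) :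
    n ^ (1 - (3 / 4 * dl + 3 / 2 * ta)) ≤ y := by
  have hn0 : 0 < n := by linarith
  set P := n ^ (1 / 3 - ta) with hP
  have hP1 : 1 ≤ P := Real.one_le_rpow hn (by linarith)
  have hx0 : 0 < x := lt_of_lt_of_le (Real.rpow_pos_of_pos hn0 _) hx
  have h1 : 3 * (x * P) ≤ (x * y) ^ (2 / 3 : ℝ) + x + y := by
    have : C * (3 * (x * P)) ≤ C * ((x * y) ^ (2 / 3 : ℝ) + x + y) := by nlinarith
    exact le_of_mul_le_mul_left this (by linarith)
  have h2 : x ≤ x * P := by nlinarith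
  by_cases hc : x * P ≤ y
  · refine le_trans ?_ hc
    calc n ^ (1 - (3 / 4 * dl + 3 / 2 * ta)) ≤ n ^ ((1 - dl) + (1 / 3 - ta)) :=
          Real.rpow_le_rpow_of_exponent_le hn (by linarith)
      _ = n ^ (1 - dl) * P := Real.rpow_add hn0 _ _
      _ ≤ x * P := by gcongr
  · have h3 : x * P ≤ (x * y) ^ (2 / 3 : ℝ) := by linarith [not_le.1 hc]
    have h4 : (x * P) ^ (3 / 2 : ℝ) ≤ x * y := by
      calc (x * P) ^ (3 / 2 : ℝ) ≤ ((x * y) ^ (2 / 3 : ℝ)) ^ (3 / 2 : ℝ) :=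
            Real.rpow_le_rpow (by positivity) h3 (by norm_num)
        _ = x * y := by rw [← Real.rpow_mul (by positivity)]; norm_num
    have h5 : (x * P) ^ (3 / 2 : ℝ) = x * (x ^ (1 / 2 : ℝ) * P ^ (3 / 2 : ℝ)) := by
      rw [Real.mul_rpow hx0.le (by positivity), ← mul_assoc]
      congr 1
      rw [show (3 / 2 : ℝ) = 1 + 1 / 2 by norm_num, Real.rpow_add hx0, Real.rpow_one]
    have h6 : x ^ (1 / 2 : ℝ) * P ^ (3 / 2 : ℝ) ≤ y :=
      le_of_mul_le_mul_left (h5 ▸ h4) hx0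
    refine le_trans ?_ h6
    calc n ^ (1 - (3 / 4 * dl + 3 / 2 * ta)) ≤ n ^ ((1 - dl) * (1 / 2) + (1 / 3 - ta) * (3 / 2)) :=
          Real.rpow_le_rpow_of_exponent_le hn (by linarith)
      _ = (n ^ (1 - dl)) ^ (1 / 2 : ℝ) * P ^ (3 / 2 : ℝ) := by
          rw [Real.rpow_add hn0, Real.rpow_mul hn0.le, Real.rpow_mul hn0.le]
      _ ≤ _ := by gcongr

/-- Frames of the next set through the axes of the current set. -/
theorem through (G B B1 : Finset Ph) (u : Fin 3 → Ph → V) (D E : ℝ) (i : Fin 3) (hB : B ⊆ G)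
    (hdeg : ∀ g ∈ G, D ≤ (#{x ∈ G | u i x = u i g} : ℝ))
    (hE : (#{g ∈ G | u i g ∈ B.image (u i) ∧ g ∉ B1} : ℝ) ≤ E) :
    (#(B.image (u i)) : ℝ) * D - E ≤ #{g ∈ B1 | g ∈ G ∧ u i g ∈ B.image (u i)} := by
  have h1 : (#(B.image (u i)) : ℝ) * D ≤ #{g ∈ G | u i g ∈ B.image (u i)} := by
    rw [card_eq_sum_card_fiberwise (f := u i) (s := {g ∈ G | u i g ∈ B.image (u i)})
      (t := B.image (u i)) (fun g hg => (mem_filter.1 (mem_coe.1 hg)).2)]
    push_cast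
    rw [← nsmul_eq_mul]
    refine card_nsmul_le_sum _ _ _ fun y hy => ?_
    obtain ⟨g, hg, rfl⟩ := mem_image.1 hy
    refine (hdeg g (hB hg)).trans ?_
    norm_cast
    refine card_le_card fun x hx => ?_
    rw [mem_filter] at hx
    simp only [mem_filter]
    exact ⟨⟨hx.1, hx.2 ▸ hy⟩, hx.2⟩
  have h2 : #{g ∈ G | u i g ∈ B.image (u i)} ≤ #{g ∈ B1 | g ∈ G ∧ u i g ∈ B.image (u i)}
      + #{g ∈ G | u i g ∈ B.image (u i) ∧ g ∉ B1} := by
    refine le_trans (card_le_card fun x hx => ?_) (card_union_le _ _)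
    rw [mem_filter] at hx
    rw [mem_union, mem_filter, mem_filter]
    by_cases h : x ∈ B1
    · exact Or.inl ⟨h, hx.1, hx.2⟩
    · exact Or.inr ⟨hx.1, hx.2, h⟩
  have h3 : (#{g ∈ G | u i g ∈ B.image (u i)} : ℝ) ≤ #{g ∈ B1 | g ∈ G ∧ u i g ∈ B.image (u i)}
      + #{g ∈ G | u i g ∈ B.image (u i) ∧ g ∉ B1} := by exact_mod_cast h2
  linarith

/-- The growth lemma. -/
theorem growth (F G : Finset Ph) (u : Fin 3 → Ph → V) (n C D E d0 ta : ℝ) (B : ℕ → Finset Ph)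
    (hn : 1 ≤ n) (hC : 1 ≤ C) (hst : ST C F u) (hG : G ⊆ F) (hB : ∀ t, B t ⊆ G)
    (hd0 : 0 ≤ d0) (hd1 : d0 ≤ 1) (hta : 0 ≤ ta) (hta1 : ta ≤ 1 / 18)
    (hD : 6 * C * n ^ (1 / 3 - ta) ≤ D)
    (hdeg : ∀ g ∈ G, ∀ i, D ≤ (#{x ∈ G | u i x = u i g} : ℝ))
    (hE : ∀ t i, (#{g ∈ G | u i g ∈ (B t).image (u i) ∧ g ∉ B (t + 1)} : ℝ) ≤ E)
    (hE2 : 2 * E ≤ n ^ (1 - (d0 + 6 * ta)) * D)
    (h0 : ∀ i, n ^ (1 - d0) ≤ (#((B 0).image (u i)) : ℝ)) (t : ℕ) :
    n ^ (4 / 3 - ((3 / 4) ^ t + 7 * ta)) ≤ (#(B (t + 1)) : ℝ) := by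
  have hn0 : 0 < n := by linarith
  have hD0 : 0 ≤ D := le_trans (by positivity) hD
  have hq : ∀ t : ℕ, 0 ≤ (3 / 4 : ℝ) ^ t * d0 ∧ (3 / 4 : ℝ) ^ t * d0 ≤ d0 := fun t =>
    ⟨by positivity, mul_le_of_le_one_left hd0 (pow_le_one₀ (by norm_num) (by norm_num))⟩
  have half : ∀ t i, n ^ (1 - ((3 / 4) ^ t * d0 + 6 * ta)) ≤ (#((B t).image (u i)) : ℝ) →
      (#((B t).image (u i)) : ℝ) * D / 2
        ≤ #{g ∈ B (t + 1) | g ∈ G ∧ u i g ∈ (B t).image (u i)} := by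
    intro t i h
    have h1 := through G (B t) (B (t + 1)) u D E i (hB t) (fun g hg => hdeg g hg i) (hE t i)
    have h2 : n ^ (1 - (d0 + 6 * ta)) ≤ (#((B t).image (u i)) : ℝ) :=
      le_trans (Real.rpow_le_rpow_of_exponent_le hn (by linarith [(hq t).2])) h
    have h3 := mul_le_mul_of_nonneg_right h2 hD0
    linarith
  have key : ∀ t i, n ^ (1 - ((3 / 4) ^ t * d0 + 6 * ta)) ≤ (#((B t).image (u i)) : ℝ) := by
    intro t
    induction t with
    | zero =>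
      intro i
      refine le_trans (Real.rpow_le_rpow_of_exponent_le hn ?_) (h0 i)
      simp only [pow_zero]; linarith
    | succ t ih =>
      intro j
      have hij : j + 1 ≠ j := by revert j; decide
      have h1 := half t (j + 1) (ih _)
      have h2 := hst (j + 1) j hij ((B t).image (u (j + 1))) ((B (t + 1)).image (u j))
      have h3 : (#{g ∈ B (t + 1) | g ∈ G ∧ u (j + 1) g ∈ (B t).image (u (j + 1))} : ℝ)
          ≤ #{g ∈ F | u (j + 1) g ∈ (B t).image (u (j + 1)) ∧ u j g ∈ (B (t + 1)).image (u j)} := by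
        norm_cast
        refine card_le_card fun x hx => ?_
        rw [mem_filter] at hx ⊢
        exact ⟨hG hx.2.1, hx.2.2, mem_image_of_mem _ hx.1⟩
      have h4 := num_step n C D _ _ _ ((3 / 4) ^ t * d0 + 6 * ta) ta hn hC (Nat.cast_nonneg _)
        (by linarith [(hq t).1]) (by linarith [(hq t).2]) hta (by linarith) (ih (j + 1)) hD h1
        (h3.trans h2)
      convert h4 using 2
      ring
  have h1 := half t 0 (key t 0)
  have h2 : (#{g ∈ B (t + 1) | g ∈ G ∧ u 0 g ∈ (B t).image (u 0)} : ℝ) ≤ #(B (t + 1)) := by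
    exact_mod_cast card_le_card (filter_subset _ _)
  have h3 : (3 / 4 : ℝ) ^ t * d0 ≤ (3 / 4) ^ t := mul_le_of_le_one_right (by positivity) hd1
  have hP : 0 < n ^ (1 / 3 - ta) := Real.rpow_pos_of_pos hn0 _
  calc n ^ (4 / 3 - ((3 / 4) ^ t + 7 * ta))
      ≤ n ^ ((1 - ((3 / 4) ^ t * d0 + 6 * ta)) + (1 / 3 - ta)) :=
        Real.rpow_le_rpow_of_exponent_le hn (by linarith)
    _ = n ^ (1 - ((3 / 4) ^ t * d0 + 6 * ta)) * n ^ (1 / 3 - ta) := Real.rpow_add hn0 _ _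
    _ ≤ (#((B t).image (u 0)) : ℝ) * (D / 2) :=
        mul_le_mul (key t 0) (by nlinarith) hP.le (Nat.cast_nonneg _)
    _ ≤ _ := by linarith

/-- Frames through an axis of a ball that lie far from its centre are few. -/
theorem far_le (F G : Finset Ph) (u : Fin 3 → Ph → V) (ds : Ph → Ph → ℝ) (n K r r1 : ℝ)
    (hG : G ⊆ F) (hn : ∀ i, (#(F.image (u i)) : ℝ) ≤ n)
    (hX : XH K F u ds)
    (a : Ph) (ha : a ∈ F) (i : Fin 3) (hr : K * r ≤ r1) :
    (#{g ∈ G | u i g ∈ ({x ∈ G | ds a x ≤ r} : Finset Ph).image (u i) ∧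
      g ∉ ({x ∈ G | ds a x ≤ r1} : Finset Ph)} : ℝ) ≤ n := by
  refine le_trans ?_ (hn (i + 1))
  norm_cast
  have hij : i ≠ i + 1 := by revert i; decide
  refine card_le_card_of_injOn (u (i + 1)) (fun g hg => ?_) (fun g hg g1 hg1 h => ?_)
  · exact mem_coe.2 (mem_image_of_mem _ (hG (mem_filter.1 (mem_coe.1 hg)).1))
  · by_contra hne
    obtain ⟨h1, h2, h3⟩ := mem_filter.1 (mem_coe.1 hg)
    obtain ⟨h4, h5, -⟩ := mem_filter.1 (mem_coe.1 hg1)
    obtain ⟨x, hx, hx2⟩ := mem_image.1 h2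
    obtain ⟨x1, hx1, hx3⟩ := mem_image.1 h5
    rw [mem_filter] at hx hx1
    have := hX a ha g (hG h1) g1 (hG h4) x (hG hx.1) x1 (hG hx1.1) i (i + 1) r hij hne h
      hx2.symm hx3.symm hx.2 hx1.2
    exact h3 (mem_filter.2 ⟨h1, this.trans hr⟩)

end Pool.Agent.Lib.MP_abd417_co.Up.Sc
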