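import Pool.Agent.Lib.MP_abd417_co.Up.ScaleA

/-! Step 4 (choice of scale), part B: the class of frames with one heavy scale, and its closure. -/

namespace Pool.Agent.Lib.MP_abd417_co.Up.Sc

open Finset

variable {Ph V : Type*} [DecidableEq Ph] [DecidableEq V]

theorem pw {n Q c a b e : ℝ} (hn : 1 ≤ n) (hQ : Q ≤ n ^ e) (hc : c ≤ Q) (h : a + e ≤ b) :
    c * n ^ a ≤ n ^ b := by
  have hn0 : 0 < n := by linarith
  calc c * n ^ a ≤ n ^ e * n ^ a :=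
        mul_le_mul_of_nonneg_right (hc.trans hQ) (Real.rpow_pos_of_pos hn0 _).le
    _ = n ^ (e + a) := (Real.rpow_add hn0 _ _).symm
    _ ≤ n ^ b := Real.rpow_le_rpow_of_exponent_le hn (by linarith)

omit [DecidableEq Ph] in
/-- A subfamily whose `i`-axes are at most `n ^ a` has at most `3 C n ^ b` frames. -/
theorem card_le (F S : Finset Ph) (u : Fin 3 → Ph → V) (n C a b : ℝ) (hn : 1 ≤ n) (hC : 1 ≤ C)
    (hst : ST C F u) (hS : S ⊆ F) (hV : ∀ i, (#(F.image (u i)) : ℝ) ≤ n) (i : Fin 3)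
    (ha : (#(S.image (u i)) : ℝ) ≤ n ^ a) (hb : (a + 1) * (2 / 3) ≤ b) (hb1 : 1 ≤ b) :
    (#S : ℝ) ≤ 3 * C * n ^ b := by
  have hn0 : 0 < n := by linarith
  have hij : i ≠ i + 1 := (by decide : ∀ i : Fin 3, i ≠ i + 1) i
  have h1 := hst i (i + 1) hij (S.image (u i)) (F.image (u (i + 1)))
  have h2 : (#S : ℝ) ≤ #{g ∈ F | u i g ∈ S.image (u i) ∧ u (i + 1) g ∈ F.image (u (i + 1))} := by
    norm_cast
    exact card_le_card fun x hx =>
      mem_filter.2 ⟨hS hx, mem_image_of_mem _ hx, mem_image_of_mem _ (hS hx)⟩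
  have h3 : n ≤ n ^ b := by
    calc n = n ^ (1 : ℝ) := (Real.rpow_one n).symm
      _ ≤ _ := Real.rpow_le_rpow_of_exponent_le hn hb1
  have h4 : (#(S.image (u i)) : ℝ) ≤ n :=
    le_trans (by exact_mod_cast card_le_card (image_subset_image hS)) (hV i)
  have h5 : ((#(S.image (u i)) : ℝ) * #(F.image (u (i + 1)))) ^ (2 / 3 : ℝ) ≤ n ^ b := by
    calc _ ≤ (n ^ a * n) ^ (2 / 3 : ℝ) :=
          Real.rpow_le_rpow (by positivity)
            (mul_le_mul ha (hV _) (Nat.cast_nonneg _) (by positivity)) (by norm_num)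
      _ = n ^ ((a + 1) * (2 / 3)) := by
          rw [Real.rpow_mul hn0.le, Real.rpow_add hn0, Real.rpow_one]
      _ ≤ _ := Real.rpow_le_rpow_of_exponent_le hn hb
  have h6 := hV (i + 1)
  have h7 : C * (((#(S.image (u i)) : ℝ) * #(F.image (u (i + 1)))) ^ (2 / 3 : ℝ)
      + #(S.image (u i)) + #(F.image (u (i + 1)))) ≤ C * (3 * n ^ b) :=
    mul_le_mul_of_nonneg_left (by linarith) (by linarith)
  linarith

omit [DecidableEq Ph] in
/-- Regularisation with exponents. -/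
theorem reg2 (G : Finset Ph) (u : Fin 3 → Ph → V) (n C ta : ℝ) (hn : 1 ≤ n)
    (hV : ∀ i, (#(G.image (u i)) : ℝ) ≤ n) (hG : 36 * C * n ^ (4 / 3 - ta) ≤ #G) :
    ∃ G1 ⊆ G, ∃ D : ℝ, (#G : ℝ) / 2 ≤ #G1 ∧ 6 * C * n ^ (1 / 3 - ta) ≤ D ∧
      ∀ g ∈ G1, ∀ i, D ≤ (#{x ∈ G1 | u i x = u i g} : ℝ) := by
  have hn0 : 0 < n := by linarith
  obtain ⟨G1, h1, h2, h3⟩ := regularise G u n (#G / (6 * n)) (by positivity) hV
  refine ⟨G1, h1, _, ?_, ?_, h3⟩
  · have : 3 * n * (#G / (6 * n)) = (#G : ℝ) / 2 := by field_simp; ring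
    linarith
  · rw [le_div_iff₀ (by positivity)]
    have : n ^ (4 / 3 - ta) = n ^ (1 / 3 - ta) * n := by
      rw [show 4 / 3 - ta = (1 / 3 - ta) + 1 by ring, Real.rpow_add hn0, Real.rpow_one]
    rw [this] at hG
    linarith

/-- Phase 1: many frames have the same least heavy scale. -/
theorem phase1 (F : Finset Ph) (u : Fin 3 → Ph → V) (ds : Ph → Ph → ℝ) (n C K t1 : ℝ) (k k' : ℕ)
    (hn : 1 ≤ n) (hC : 1 ≤ C) (hK : 1 ≤ K) (ht : 0 ≤ t1) (ht1 : t1 ≤ 1 / 100)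
    (hQ : 36 * C ≤ n ^ (t1 / 2)) (hk : K ^ (k + 1) + 1 ≤ 2 ^ k')
    (hV : ∀ i, (#(F.image (u i)) : ℝ) ≤ n) (hst : ST C F u) (hF : n ^ (4 / 3 - t1 / 2) ≤ #F)
    (h1 : ∀ a ∈ F, ∀ g ∈ F, 1 ≤ ds a g) (hsym : ∀ a ∈ F, ∀ g ∈ F, ds a g = ds g a)
    (htri : ∀ a ∈ F, ∀ b ∈ F, ∀ c ∈ F, ds a c ≤ ds a b + ds b c)
    (hX : XH K F u ds) :
    ∃ G ⊆ F, ∃ H ⊆ G, ∃ s : ℝ, 1 ≤ s ∧
      n ^ (4 / 3 - ((3 / 4) ^ k + 7 * t1)) ≤ (k' + 1) * (#H : ℝ) ∧
      ∀ g ∈ H, n ^ (29 / 24 : ℝ) ≤ (#{x ∈ G | ds g x ≤ s} : ℝ) ∧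
        (#{x ∈ G | ds g x ≤ s / 2} : ℝ) < n ^ (29 / 24 : ℝ) := by
  have hn0 : 0 < n := by linarith
  have hN : 0 < n ^ (29 / 24 : ℝ) := Real.rpow_pos_of_pos hn0 _
  obtain ⟨G, hG, D, hG2, hD, hdeg⟩ := reg2 F u n C t1 hn hV
    ((pw hn hQ le_rfl (by linarith)).trans hF)
  have hGN : n ^ (29 / 24 : ℝ) ≤ #G := by
    have := pw (c := 2) (a := 29 / 24) (b := 4 / 3 - t1 / 2) hn hQ (by linarith) (by linarith)
    linarith
  have hex : ∀ g, ∃ j : ℕ, n ^ (29 / 24 : ℝ) ≤ (#{x ∈ G | ds g x ≤ 2 ^ j / 2} : ℝ) := by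
    intro g
    obtain ⟨b, hb⟩ := (G.image (ds g)).bddAbove
    obtain ⟨j, hj⟩ := pow_unbounded_of_one_lt (2 * b) (one_lt_two (α := ℝ))
    refine ⟨j, ?_⟩
    rw [filter_true_of_mem fun x hx => ?_]
    · exact hGN
    · have := hb (mem_coe.2 (mem_image_of_mem _ hx))
      linarith
  have hne : G.Nonempty := by
    rw [← card_pos]
    exact_mod_cast hN.trans_le hGN
  have hJ : ∀ g ∈ G, 1 ≤ Nat.find (hex g) := by
    intro g hg
    rw [Nat.one_le_iff_ne_zero, Ne, Nat.find_eq_zero, filter_false_of_mem fun x hx => ?_]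
    · simpa using hN
    · have := h1 g (hG hg) x (hG hx)
      norm_num
      linarith
  obtain ⟨a, ha, hmin⟩ := exists_min_image G (fun g => Nat.find (hex g)) hne
  have hpow : ∀ j : ℕ, 1 ≤ j → (1 : ℝ) ≤ 2 ^ j / 2 := by
    intro j hj
    have : (2 : ℝ) ^ 1 ≤ 2 ^ j := pow_le_pow_right₀ (by norm_num) hj
    linarith
  set r0 : ℝ := 2 ^ Nat.find (hex a) / 2 with hr0
  have hr1 : 1 ≤ r0 := hpow _ (hJ a ha)
  have hheavy : n ^ (29 / 24 : ℝ) ≤ (#{x ∈ G | ds a x ≤ r0} : ℝ) := Nat.find_spec (hex a)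
  have hgr := growth F G u n C D n (1 / 5) t1 (fun t => {x ∈ G | ds a x ≤ K ^ t * r0})
    hn hC hst hG (fun t => filter_subset _ _) (by norm_num) (by norm_num) ht (by linarith) hD hdeg
    (fun t i => far_le F G u ds n K _ _ hG hV hX a (hG ha) i (le_of_eq (by ring)))
    (by
      have e1 : n ≤ n ^ (1 - (1 / 5 + 6 * t1)) * n ^ (1 / 3 - t1) := by
        rw [← Real.rpow_add hn0]
        calc n = n ^ (1 : ℝ) := (Real.rpow_one n).symm
          _ ≤ _ := Real.rpow_le_rpow_of_exponent_le hn (by linarith)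
      have e2 : 0 < n ^ (1 - (1 / 5 + 6 * t1)) := Real.rpow_pos_of_pos hn0 _
      have e3 : 0 < n ^ (1 / 3 - t1) := Real.rpow_pos_of_pos hn0 _
      have e4 : 2 * n ^ (1 / 3 - t1) ≤ D := by nlinarith
      nlinarith)
    (by
      intro i
      by_contra hlt
      have e1 : (#{x ∈ G | ds a x ≤ K ^ 0 * r0} : ℝ) ≤ 3 * C * n ^ (6 / 5 : ℝ) :=
        card_le F _ u n C (1 - 1 / 5) (6 / 5) hn hC hst
        ((filter_subset _ _).trans hG) hV i (not_le.1 hlt).le (by norm_num) (by norm_num)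
      have e2 : (#{x ∈ G | ds a x ≤ r0} : ℝ) ≤ #{x ∈ G | ds a x ≤ K ^ 0 * r0} := by
        refine Nat.cast_le.2 (card_le_card fun x hx => ?_)
        rw [mem_filter] at hx ⊢
        exact ⟨hx.1, by rw [pow_zero]; linarith [hx.2]⟩
      have e3 := pw (c := 36 * C) (a := 6 / 5) (b := 29 / 24) hn hQ le_rfl (by linarith)
      have e4 : 0 < C * n ^ (6 / 5 : ℝ) := by positivity
      have e5 := e3.trans (hheavy.trans (e2.trans e1))
      rw [mul_assoc, mul_assoc] at e5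
      generalize C * n ^ (6 / 5 : ℝ) = w at e4 e5
      linarith only [e4, e5]) k
  have hmaps : ∀ g ∈ ({x ∈ G | ds a x ≤ K ^ (k + 1) * r0} : Finset Ph),
      Nat.find (hex g) ∈ Icc (Nat.find (hex a)) (Nat.find (hex a) + k') := by
    intro g hg
    rw [mem_filter] at hg
    refine mem_Icc.2 ⟨hmin g hg.1, Nat.find_min' _ (hheavy.trans ?_)⟩
    refine Nat.cast_le.2 (card_le_card fun x hx => ?_)
    rw [mem_filter] at hx ⊢
    refine ⟨hx.1, ?_⟩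
    have e1 := htri g (hG hg.1) a (hG ha) x (hG hx.1)
    have e2 := hsym a (hG ha) g (hG hg.1)
    have e4 := mul_le_mul_of_nonneg_left hk (show 0 ≤ r0 by linarith)
    have e5 : (2 : ℝ) ^ (Nat.find (hex a) + k') / 2 = r0 * 2 ^ k' := by
      rw [hr0]; ring
    rw [e5]
    linarith [hg.2, hx.2]
  obtain ⟨j, hj, hcard⟩ := exists_le_card_fiber_of_nsmul_le_card_of_maps_to
    (b := n ^ (4 / 3 - ((3 / 4) ^ k + 7 * t1)) / (k' + 1)) hmaps
    ⟨_, left_mem_Icc.2 (Nat.le_add_right _ _)⟩ (by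
      rw [Nat.card_Icc, nsmul_eq_mul, show Nat.find (hex a) + k' + 1 - Nat.find (hex a) = k' + 1 by
        omega]
      push_cast
      rw [mul_div_cancel₀ _ (by positivity)]
      exact hgr)
  have hj1 : 1 ≤ j := (hJ a ha).trans (mem_Icc.1 hj).1
  refine ⟨G, hG, _, (filter_subset _ _).trans (filter_subset _ _), 2 ^ j / 2, hpow j hj1,
    (div_le_iff₀' (by positivity)).1 hcard, fun g hg => ?_⟩
  have hg2 := (mem_filter.1 hg).2
  refine ⟨hg2 ▸ Nat.find_spec (hex g), ?_⟩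
  have := Nat.find_min (hex g) (m := j - 1) (by omega)
  have e : (2 : ℝ) ^ j / 2 / 2 = 2 ^ (j - 1) / 2 := by
    obtain ⟨m, rfl⟩ := Nat.exists_eq_add_of_le' hj1
    simp only [Nat.add_sub_cancel, pow_succ]; ring
  rw [e]
  exact not_le.1 this

/-- Closure: after deleting few frames, all mates are close. -/
theorem closure (F G H : Finset Ph) (u : Fin 3 → Ph → V) (ds : Ph → Ph → ℝ) (n C K s : ℝ)
    (hn : 1 ≤ n) (hC : 1 ≤ C) (hG : G ⊆ F) (hH : H ⊆ G)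
    (hV : ∀ i, (#(F.image (u i)) : ℝ) ≤ n) (hst : ST C F u)
    (hsym : ∀ a ∈ F, ∀ g ∈ F, ds a g = ds g a)
    (htri : ∀ a ∈ F, ∀ b ∈ F, ∀ c ∈ F, ds a c ≤ ds a b + ds b c)
    (hX : XH K F u ds)
    (hh : ∀ g ∈ H, n ^ (29 / 24 : ℝ) ≤ (#{x ∈ G | ds g x ≤ s} : ℝ)) :
    ∃ H1 ⊆ H, (#H : ℝ) - 9 * C * n ^ (9 / 8 : ℝ) ≤ #H1 ∧
      ∀ g ∈ H1, ∀ g1 ∈ H1, ∀ i, u i g = u i g1 → ds g g1 ≤ (2 + 2 * K) * s := by
  have hn0 : 0 < n := by linarith
  have hN : 0 < n ^ (29 / 24 : ℝ) := Real.rpow_pos_of_pos hn0 _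
  have hF := hH.trans hG
  obtain ⟨Z, hZ, hmax⟩ := exists_max_image
    {Z ∈ H.powerset | ∀ z ∈ Z, ∀ z1 ∈ Z, z ≠ z1 → 2 * s < ds z z1} card ⟨∅, by simp⟩
  obtain ⟨hZ1, hZ2⟩ := mem_filter.1 hZ
  rw [mem_powerset] at hZ1
  have hcov : ∀ g ∈ H, ∃ z ∈ Z, ds z g ≤ 2 * s := by
    intro g hg
    by_contra hc
    push Not at hc
    have hgZ : g ∉ Z := fun h => by
      obtain ⟨x, hx⟩ : ({x ∈ G | ds g x ≤ s} : Finset Ph).Nonempty := by
        rw [← card_pos]; exact_mod_cast hN.trans_le (hh g hg)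
      rw [mem_filter] at hx
      have e1 := htri g (hF hg) x (hG hx.1) g (hF hg)
      have e2 := hsym g (hF hg) x (hG hx.1)
      linarith [hc g h, hx.2]
    have := hmax (insert g Z) (mem_filter.2 ⟨mem_powerset.2 (insert_subset hg hZ1), ?_⟩)
    · rw [card_insert_of_notMem hgZ] at this; omega
    · intro z hz z1 hz1 hne
      rcases mem_insert.1 hz with rfl | hy <;> rcases mem_insert.1 hz1 with rfl | hy1
      · exact absurd rfl hne
      · rw [hsym z (hF hg) z1 (hF (hZ1 hy1))]; exact hc z1 hy1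
      · exact hc z hy
      · exact hZ2 z hy z1 hy1 hne
  have hZc : (#Z : ℝ) * n ^ (29 / 24 : ℝ) ≤ #G := by
    have e1 : #(Z.biUnion fun z => {x ∈ G | ds z x ≤ s}) = ∑ z ∈ Z, #{x ∈ G | ds z x ≤ s} := by
      refine card_biUnion fun z hz z1 hz1 hne => disjoint_left.2 fun x hx hx1 => ?_
      rw [mem_filter] at hx hx1
      have e1 := htri z (hF (hZ1 hz)) x (hG hx.1) z1 (hF (hZ1 hz1))
      have e2 := hsym z1 (hF (hZ1 hz1)) x (hG hx.1)
      linarith [hZ2 z hz z1 hz1 hne, hx.2, hx1.2]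
    have e2 : #(Z.biUnion fun z => {x ∈ G | ds z x ≤ s}) ≤ #G :=
      card_le_card (biUnion_subset.2 fun z _ => filter_subset _ _)
    have e3 := card_nsmul_le_sum Z (fun z => (#{x ∈ G | ds z x ≤ s} : ℝ)) _
      fun z hz => hh z (hZ1 hz)
    rw [nsmul_eq_mul] at e3
    rw [e1] at e2
    exact e3.trans (by exact_mod_cast e2)
  have hGc := card_le F G u n C 1 (4 / 3) hn hC hst hG hV 0
    (le_trans (by exact_mod_cast card_le_card (image_subset_image hG))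
      ((hV 0).trans (Real.rpow_one n).ge)) (by norm_num) (by norm_num)
  have hZn : (#Z : ℝ) * n ≤ 3 * C * n ^ (9 / 8 : ℝ) := by
    have e1 : n ^ (4 / 3 : ℝ) * n = n ^ (9 / 8 : ℝ) * n ^ (29 / 24 : ℝ) := by
      rw [← Real.rpow_add hn0, ← Real.rpow_add_one hn0.ne']; norm_num
    refine le_of_mul_le_mul_right ?_ hN
    calc (#Z : ℝ) * n * n ^ (29 / 24 : ℝ) = #Z * n ^ (29 / 24 : ℝ) * n := by ring
      _ ≤ 3 * C * n ^ (4 / 3 : ℝ) * n := mul_le_mul_of_nonneg_right (hZc.trans hGc) hn0.le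
      _ = _ := by rw [mul_assoc, e1]; ring
  set Bad := (Z ×ˢ (univ : Finset (Fin 3))).biUnion fun p =>
    {g ∈ G | u p.2 g ∈ ({x ∈ G | ds p.1 x ≤ 2 * s} : Finset Ph).image (u p.2) ∧
      g ∉ ({x ∈ G | ds p.1 x ≤ K * (2 * s)} : Finset Ph)} with hBad
  have hB : (#Bad : ℝ) ≤ 3 * (#Z * n) := by
    refine le_trans (Nat.cast_le.2 card_biUnion_le) ?_
    push_cast
    refine le_trans (sum_le_card_nsmul _ _ n fun p hp => far_le F G u ds n K _ _ hG hV hX p.1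
      (hF (hZ1 (mem_product.1 hp).1)) p.2 le_rfl) ?_
    rw [card_product, nsmul_eq_mul]
    simp only [card_univ, Fintype.card_fin]
    push_cast
    linarith
  refine ⟨H \ Bad, sdiff_subset, ?_, fun g hg g1 hg1 i hi => ?_⟩
  · have : (#H : ℝ) ≤ #(H \ Bad) + #Bad := by exact_mod_cast card_le_card_sdiff_add_card
    linarith
  · rw [mem_sdiff] at hg hg1
    obtain ⟨z, hz, hzg⟩ := hcov g hg.1
    have e1 : ds z g1 ≤ K * (2 * s) := by
      by_contra hc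
      refine hg1.2 (mem_biUnion.2 ⟨(z, i), mem_product.2 ⟨hz, mem_univ _⟩, mem_filter.2
        ⟨hH hg1.1, mem_image.2 ⟨g, mem_filter.2 ⟨hH hg.1, hzg⟩, hi⟩, fun h => hc ?_⟩⟩)
      exact (mem_filter.1 h).2
    have e2 := htri g (hF hg.1) z (hF (hZ1 hz)) g1 (hF hg1.1)
    have e3 := hsym z (hF (hZ1 hz)) g (hF hg.1)
    linarith

end Pool.Agent.Lib.MP_abd417_co.Up.Sc
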