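import Pool.Agent.Lib.MP_abd417_co.Up.TopDefs

/-! Steps five to ten from the statements of the blocks. -/

namespace Pool.Agent.Lib.MP_abd417_co.Up.Top

open Finset Classical Pool.Agent.Lib.MP_abd417_co.U.Cy
open Pool.Agent.Lib.MP_abd417_co.W (ind ms DT pr bad ind_pos ind_neg ind_nonneg)

theorem ms_le_card {F : Type} [Fintype F] (ν : F → ℝ) (a : ℝ) (ha : ∀ g, ν g ≤ a)
    (P : F → Prop) [DecidablePred P] : ms ν P ≤ a * (#{g | P g} : ℝ) := by
  unfold ms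
  rw [card_filter, Nat.cast_sum, mul_sum]
  refine sum_le_sum fun g _ => ?_
  by_cases h : P g
  · rw [ind_pos h, if_pos h, Nat.cast_one]; linarith [ha g]
  · rw [ind_neg h, if_neg h, Nat.cast_zero, mul_zero, mul_zero]

theorem diag_le {F U : Type} [Fintype F] [Fintype U] (ν : F → ℝ) (a : ℝ) (h0 : ∀ g, 0 ≤ ν g)
    (ha : ∀ g, ν g ≤ a) (ha0 : 0 ≤ a) (u : Fin 3 → F → U) (i : Fin 3) :
    ∑ g, pr ν u i g g ≤ a * (Fintype.card U : ℝ) := by
  have h1 : ∑ g, pr ν u i g g =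
      ∑ y : U, ∑ g with u i g = y, ν g * ν g / ms ν (fun x => u i x = y) := by
    rw [← sum_fiberwise (s := univ) (g := u i)]
    refine sum_congr rfl fun y _ => sum_congr rfl fun g hg => ?_
    have e := (mem_filter.1 hg).2
    unfold pr
    rw [ind_pos rfl, one_mul, e]
  rw [h1, ← card_univ, ← nsmul_eq_mul', ← sum_const]
  refine sum_le_sum fun y _ => ?_
  have h2 : ms ν (fun x => u i x = y) = ∑ g with u i g = y, ν g := by
    unfold ms
    rw [sum_filter]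
    refine sum_congr rfl fun g _ => ?_
    by_cases h : u i g = y
    · rw [ind_pos h, if_pos h, mul_one]
    · rw [ind_neg h, if_neg h, mul_zero]
  rw [← sum_div, h2]
  have h3 : 0 ≤ ∑ g with u i g = y, ν g := sum_nonneg fun g _ => h0 g
  rcases h3.eq_or_lt with h | h
  · rw [← h, div_zero]; exact ha0
  · rw [div_le_iff₀ h, mul_sum]
    exact sum_le_sum fun g _ => mul_le_mul_of_nonneg_right (ha g) (h0 g)

theorem small_pow {e x : ℝ} (he : 0 < e) (hx : 0 < x) :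
    ∃ n0 : ℕ, ∀ n : ℕ, n0 ≤ n → (n : ℝ) ^ (-e) ≤ x := by
  have h := ((tendsto_rpow_neg_atTop he).comp tendsto_natCast_atTop_atTop).eventually
    (ge_mem_nhds hx)
  exact Filter.eventually_atTop.1 h

theorem blk_of (hC : CycSt) (hT : TestSt) (hE : EndSt) (C0 : ℝ) (hC0 : 1 ≤ C0)
    (hent : ∀ (F U : Type) [Fintype F] [Fintype U] [DecidableEq U] (u v : F → U),
      EntOK u v (Ent.D u v) C0)
    (hpsi : ∀ (F U Wl A : Type) [Fintype F] [Fintype Wl] [Fintype A] (ax : Fin 3 → F → U)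
      (w : Wl → ℝ) (S : Wl → Finset F) (wa : A → ℝ) (cell : A → F → F) (Z : ℝ) (μ : F → ℝ),
      (∀ l, 0 ≤ w l) → (∀ a, 0 ≤ wa a) → (∀ g h, DT w S g h ≤ Z) → ∑ a, wa a ≤ Z →
      (∀ g, 0 ≤ μ g) → 0 ≤ Psi ax w S wa cell μ ∧ Psi ax w S wa cell μ ≤ 9 * Z * ∑ g, μ g)
    (hst : ∀ (c : Conf) (i j : Fin 3), i ≠ j → ∀ A B : Finset c.io,
      (#{g : c.Fr | c.ax i g ∈ A ∧ c.ax j g ∈ B} : ℝ) ≤
        444000 * (((#A : ℝ) * #B) ^ (2 / 3 : ℝ) + #A + #B)) : Blk510 := by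
  obtain ⟨b, ga, hb, hb1, hga, hga1, hC⟩ := hC C0 hC0
  obtain ⟨γ, Nc, c, Cz, de, hγ, hc, hCz, hde, hT⟩ := hT b ga hb hb1 hga hga1
  obtain ⟨c1, c2, hc1, hc2, hC⟩ := hC γ Nc c hγ hc
  obtain ⟨M, hM, hE⟩ := hE 444000 c1 c2 9 (by norm_num) hc1 hc2 (by norm_num)
  refine ⟨M, hM, fun k0 hk0 => ?_⟩
  obtain ⟨n1, hE⟩ := hE k0 hk0
  obtain ⟨n2, h2⟩ := small_pow (e := k0 / 2) (x := 1 / 2) (by linarith) (by norm_num)
  obtain ⟨n3, h3⟩ := small_pow (e := 1 / 4) (x := de) (by norm_num) hde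
  refine ⟨max (max n1 1) (max n2 n3), fun n hn k R ka hka hG => ?_⟩
  have hn1 : n1 ≤ n := by omega
  have hn0 : 1 ≤ n := by omega
  have hn0' : (1 : ℝ) ≤ n := by exact_mod_cast hn0
  have hnp : (0 : ℝ) < n := by linarith
  have h2 := h2 n (by omega)
  have h3 := h3 n (by omega)
  obtain ⟨Wl, _, w, S, wa, cell, hw, hwa, hsa, hDT, hT⟩ := hT k R hG.one_le hG.diam
  have hZ : 0 < Cz * R := mul_pos hCz (by linarith [hG.one_le])
  refine hE n hn1 k.Fr k.io k.ax ka (Cz * R) (Psi k.ax w S wa cell) hG.card_io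
    (fun i j hij P Q => by convert hst k i j hij P Q) (fun i a => by convert hG.cap i a)
    hka hG.ka_le hG.many hZ
    (fun μ hμ => hpsi _ _ _ _ k.ax w S wa cell _ μ hw hwa hDT hsa hμ) fun μ hμ hle hm => ?_
  have hτ : 0 < (n : ℝ) ^ (-(ka / 2)) := Real.rpow_pos_of_pos hnp _
  have hm0 : 0 < ∑ g, μ g := hτ.trans_le hm
  have hF : (0 : ℝ) < Fintype.card k.Fr := (Real.rpow_pos_of_pos hnp _).trans_le hG.many
  have hat : ∀ g, nrm μ g ≤ (n : ℝ) ^ (ka / 2) / Fintype.card k.Fr := fun g => by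
    unfold nrm
    rw [div_le_iff₀ hm0]
    refine (hle g).trans ?_
    have e : (n : ℝ) ^ (ka / 2) * (n : ℝ) ^ (-(ka / 2)) = 1 := by
      rw [← Real.rpow_add hnp]; simp
    calc 1 / (Fintype.card k.Fr : ℝ)
        = (n : ℝ) ^ (ka / 2) / Fintype.card k.Fr * (n : ℝ) ^ (-(ka / 2)) := by
          rw [div_mul_eq_mul_div, e]
      _ ≤ _ := mul_le_mul_of_nonneg_left hm (by positivity)
  have hn : ∀ g, 0 ≤ nrm μ g := fun g => div_nonneg (hμ g) hm0.le
  refine hC _ _ _ _ k.ax w S wa cell (fun p => Ent.D (k.ax (p + 1)) (k.ax (p + 2))) _ μ hw hwa hZ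
    hDT (fun p => hent _ _ _ _) hμ hm0 (hT μ hμ hm0 (fun i => ?_) fun g => ?_)
  · refine (diag_le _ _ hn hat (by positivity) k.ax i).trans (le_trans ?_ h3)
    have hc : (Fintype.card k.io : ℝ) ≤ n := by exact_mod_cast hG.card_io
    have hkM : ka / M ≤ 1 / 24 := by
      rw [div_le_iff₀ (by linarith)]
      nlinarith [hG.ka_le]
    calc (n : ℝ) ^ (ka / 2) / Fintype.card k.Fr * Fintype.card k.io
        ≤ (n : ℝ) ^ (ka / 2) / (n : ℝ) ^ (4 / 3 - ka / M) * (n : ℝ) ^ (1 : ℝ) := by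
          rw [Real.rpow_one]
          gcongr
          exact hG.many
      _ = (n : ℝ) ^ (ka / 2 - (4 / 3 - ka / M) + 1) := by
          rw [Real.rpow_add hnp, Real.rpow_sub hnp (ka / 2)]
      _ ≤ _ := Real.rpow_le_rpow_of_exponent_le hn0' (by linarith [hG.ka_le])
  · refine (ms_le_card _ _ hat _).trans (le_trans ?_ h2)
    calc (n : ℝ) ^ (ka / 2) / Fintype.card k.Fr * (#{x | k.dist g x ≤ R / 2} : ℝ)
        ≤ (n : ℝ) ^ (ka / 2) / Fintype.card k.Fr * ((n : ℝ) ^ (-ka) * Fintype.card k.Fr) :=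
          mul_le_mul_of_nonneg_left (by convert hG.light g) (by positivity)
      _ = (n : ℝ) ^ (ka / 2 + -ka) := by
          rw [Real.rpow_add hnp]; field_simp
      _ ≤ _ := Real.rpow_le_rpow_of_exponent_le hn0' (by linarith)

end Pool.Agent.Lib.MP_abd417_co.Up.Top
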