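import Pool.Agent.Lib.MP_abd417_co.Up.Conf
import Pool.Agent.Lib.MP_abd417_co.Up.Ent
import Pool.Agent.Lib.MP_abd417_co.U.CycDefs
import Pool.Agent.Lib.MP_abd417_co.W.PlaceDefs

/-! Statements joining the blocks of steps five to ten. -/

namespace Pool.Agent.Lib.MP_abd417_co.Up.Top

open Finset Classical Pool.Agent.Lib.MP_abd417_co.U.Cy
open Pool.Agent.Lib.MP_abd417_co.W (ind ms DT pr bad)

noncomputable section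

variable {F U Wl A : Type} [Fintype F] [Fintype Wl] [Fintype A]

/-- Total weight of the tests carried by `μ`. -/
def TW (ax : Fin 3 → F → U) (w : Wl → ℝ) (S : Wl → Finset F) (wa : A → ℝ) (cell : A → F → F)
    (μ : F → ℝ) (b ga γ Nc : ℝ) : ℝ :=
  ∑ l, w l * bad ax (nrm μ) b ga (S l) + ∑ a, wa a * ind (∃ p, Fine ax (cell a) μ γ Nc p)

/-- Tests give the cycle property. -/
def CycSt : Prop :=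
  ∀ C0 : ℝ, 1 ≤ C0 → ∃ b ga : ℝ, 0 < b ∧ b ≤ 1 / 2 ∧ 0 < ga ∧ ga ≤ b ^ 4 / 800 ∧
    ∀ γ Nc c : ℝ, 0 < γ → 0 < c → ∃ c1 c2 : ℝ, 0 < c1 ∧ 0 < c2 ∧
    ∀ (F U Wl A : Type) [Fintype F] [Fintype Wl] [Fintype A] (ax : Fin 3 → F → U) (w : Wl → ℝ)
      (S : Wl → Finset F) (wa : A → ℝ) (cell : A → F → F) (D : Fin 3 → (F → ℝ) → ℝ) (Z : ℝ)
      (μ : F → ℝ), (∀ l, 0 ≤ w l) → (∀ a, 0 ≤ wa a) → 0 < Z → (∀ g h, DT w S g h ≤ Z) →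
      (∀ p, EntOK (ax (p + 1)) (ax (p + 2)) (D p) C0) → (∀ g, 0 ≤ μ g) → 0 < ∑ g, μ g →
      c * Z ≤ TW ax w S wa cell μ b ga γ Nc →
      ∃ p, CYC (D p) (Psi ax w S wa cell) μ (c1 * Z) c2

/-- Steps five to nine: every spread law carries tests. -/
def TestSt : Prop :=
  ∀ b ga : ℝ, 0 < b → b ≤ 1 / 2 → 0 < ga → ga ≤ b ^ 4 / 800 →
    ∃ γ Nc c Cz de : ℝ, 0 < γ ∧ 0 < c ∧ 0 < Cz ∧ 0 < de ∧
    ∀ (k : Conf) (R : ℝ), 1 ≤ R → (∀ g h, k.dist g h ≤ 2 * R) →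
      ∃ (Wl : Type) (_ : Fintype Wl) (w : Wl → ℝ) (S : Wl → Finset k.Fr) (wa : k.Pl → ℝ)
        (cell : k.Pl → k.Fr → k.Fr), (∀ l, 0 ≤ w l) ∧ (∀ a, 0 ≤ wa a) ∧ ∑ a, wa a ≤ Cz * R ∧
        (∀ g h, DT w S g h ≤ Cz * R) ∧
        ∀ μ : k.Fr → ℝ, (∀ g, 0 ≤ μ g) → 0 < ∑ g, μ g →
          (∀ i, ∑ g, pr (nrm μ) k.ax i g g ≤ de) →
          (∀ g, ms (nrm μ) (fun x => k.dist g x ≤ R / 2) ≤ 1 / 2) →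
          c * (Cz * R) ≤ TW k.ax w S wa cell μ b ga γ Nc

/-- The engine with the entropy bounds and the numbers. -/
def EndSt : Prop :=
  ∀ C c1 c2 Cp : ℝ, 1 ≤ C → 0 < c1 → 0 < c2 → 0 < Cp → ∃ M : ℝ, 1 ≤ M ∧ ∀ k0 : ℝ, 0 < k0 →
    ∃ n0 : ℕ, ∀ n : ℕ, n0 ≤ n →
    ∀ (F U : Type) [Fintype F] [DecidableEq F] [Fintype U] [DecidableEq U] (ax : Fin 3 → F → U)
      (ka Z : ℝ) (Ps : (F → ℝ) → ℝ), Fintype.card U ≤ n →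
      (∀ i j, i ≠ j → ∀ P Q : Finset U, (#{g : F | ax i g ∈ P ∧ ax j g ∈ Q} : ℝ) ≤
        C * (((#P : ℝ) * #Q) ^ (2 / 3 : ℝ) + #P + #Q)) →
      (∀ i a, #{g : F | ax i g = a} ^ 2 ≤ n) → k0 ≤ ka → ka ≤ 1 / 24 →
      (n : ℝ) ^ (4 / 3 - ka / M) ≤ Fintype.card F → 0 < Z →
      (∀ μ : F → ℝ, (∀ g, 0 ≤ μ g) → 0 ≤ Ps μ ∧ Ps μ ≤ Cp * Z * ∑ g, μ g) →
      (∀ μ : F → ℝ, (∀ g, 0 ≤ μ g) → (∀ g, μ g ≤ 1 / (Fintype.card F : ℝ)) →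
        (n : ℝ) ^ (-(ka / 2)) ≤ ∑ g, μ g →
        ∃ p : Fin 3, CYC (Ent.D (ax (p + 1)) (ax (p + 2))) Ps μ (c1 * Z) c2) → False

end

end Pool.Agent.Lib.MP_abd417_co.Up.Top
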